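import Mathlib

/-! Point counts of the quadratic pencils `y² = a t² + 2 b t + c`. -/

set_option autoImplicit false
set_option linter.unusedSectionVars false

namespace Pool.Agent.Lib.MP_1a0ddd_nt.Quad

open Polynomial Filter Topology

section char

variable {p : ℕ} [Fact p.Prime]

private lemma two_ne (hp2 : p ≠ 2) : (2 : ZMod p) ≠ 0 := by
  intro h
  have h1 : ((2 : ℕ) : ZMod p) = 0 := by exact_mod_cast h
  rw [ZMod.natCast_eq_zero_iff] at h1
  have := (Nat.prime_dvd_prime_iff_eq (Fact.out : p.Prime) Nat.prime_two).mp h1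
  exact hp2 this

private lemma ringChar_ne (hp2 : p ≠ 2) : ringChar (ZMod p) ≠ 2 := by
  rw [ZMod.ringChar_zmod_n]; exact hp2

/-- number of square roots -/
lemma sum_sqrts (hp2 : p ≠ 2) (v : ZMod p) :
    ∑ y : ZMod p, (if y ^ 2 = v then (1 : ℤ) else 0) = 1 + quadraticChar (ZMod p) v := by
  have h := quadraticChar_card_sqrts (ringChar_ne hp2) v
  rw [add_comm, ← h]
  rw [Set.toFinset_card, ← Finset.sum_filter, Finset.sum_const, nsmul_eq_mul, mul_one,
    Fintype.card_subtype]
  simp

private lemma sum_sq_sub (hp2 : p ≠ 2) {e : ZMod p} (he : e ≠ 0) :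
    ∑ t : ZMod p, quadraticChar (ZMod p) (t ^ 2 - e) = -1 := by
  have h2 := two_ne hp2
  have h1 : ∑ t : ZMod p, ∑ y : ZMod p, (if y ^ 2 = t ^ 2 - e then (1 : ℤ) else 0) = p - 1 := by
    have e1 : ∀ t : ZMod p, ∑ y : ZMod p, (if y ^ 2 = t ^ 2 - e then (1 : ℤ) else 0) =
        ∑ u : ZMod p, (if u * (2 * t - u) = e then (1 : ℤ) else 0) := by
      intro t
      rw [← (Equiv.subLeft t).sum_comp]
      refine Finset.sum_congr rfl fun u _ => ?_
      have : ((Equiv.subLeft t) u) ^ 2 = t ^ 2 - e ↔ u * (2 * t - u) = e := by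
        rw [Equiv.subLeft_apply]
        constructor
        · intro h; linear_combination -h
        · intro h; linear_combination -h
      simp only [this]
    rw [Finset.sum_congr rfl fun t _ => e1 t, Finset.sum_comm]
    have e2 : ∀ u : ZMod p, ∑ t : ZMod p, (if u * (2 * t - u) = e then (1 : ℤ) else 0) =
        if u = 0 then 0 else 1 := by
      intro u
      by_cases hu : u = 0
      · rw [if_pos hu]
        apply Finset.sum_eq_zero
        intro t _
        rw [if_neg]
        rw [hu, zero_mul]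
        exact he.symm
      · rw [if_neg hu, Finset.sum_eq_single ((e / u + u) / 2)]
        · rw [if_pos]
          field_simp
          ring
        · intro t _ ht
          rw [if_neg]
          intro h
          apply ht
          rw [eq_div_iff h2, ← h]
          field_simp
          ring
        · intro h
          exact absurd (Finset.mem_univ _) h
    rw [Finset.sum_congr rfl fun u _ => e2 u]
    have e3 : ∀ u : ZMod p, (if u = 0 then (0 : ℤ) else 1) = 1 - (if u = 0 then 1 else 0) := by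
      intro u; split_ifs <;> simp
    rw [Finset.sum_congr rfl fun u _ => e3 u, Finset.sum_sub_distrib, Finset.sum_const,
      Finset.card_univ, ZMod.card, Finset.sum_ite_eq']
    simp
  rw [Finset.sum_congr rfl fun t _ => sum_sqrts hp2 (t ^ 2 - e), Finset.sum_add_distrib,
    Finset.sum_const, Finset.card_univ, ZMod.card] at h1
  simp only [nsmul_eq_mul, mul_one] at h1
  linarith

private lemma sum_quad_aux {A B C' : ZMod p} (hA : A ≠ 0) :
    ∑ t : ZMod p, quadraticChar (ZMod p) (A * t ^ 2 + 2 * B * t + C') =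
      quadraticChar (ZMod p) A *
        ∑ s : ZMod p, quadraticChar (ZMod p) (s ^ 2 - (B ^ 2 - A * C')) := by
  rw [Finset.mul_sum]
  let σ : ZMod p ≃ ZMod p := (Equiv.mulLeft₀ A hA).trans (Equiv.addRight B)
  have hσ : ∀ t, σ t = A * t + B := fun t => rfl
  rw [← σ.sum_comp (fun s => quadraticChar (ZMod p) A *
    quadraticChar (ZMod p) (s ^ 2 - (B ^ 2 - A * C')))]
  refine Finset.sum_congr rfl fun t _ => ?_
  have e : σ t ^ 2 - (B ^ 2 - A * C') = A * (A * t ^ 2 + 2 * B * t + C') := by
    rw [hσ]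
    ring
  rw [e, map_mul, ← mul_assoc, ← pow_two, quadraticChar_sq_one hA, one_mul]

/-- the sum over `t` for nonzero discriminant -/
lemma sum_quad (hp2 : p ≠ 2) {A B C' : ZMod p} (hd : B ^ 2 - A * C' ≠ 0) :
    ∑ t : ZMod p, quadraticChar (ZMod p) (A * t ^ 2 + 2 * B * t + C') =
      - quadraticChar (ZMod p) A := by
  by_cases hA : A = 0
  · subst hA
    have hB : B ≠ 0 := by
      rintro rfl
      apply hd; ring
    have h2B : 2 * B ≠ 0 := mul_ne_zero (two_ne hp2) hB
    let σ : ZMod p ≃ ZMod p := (Equiv.mulLeft₀ (2 * B) h2B).trans (Equiv.addRight C')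
    have hσ : ∀ t, σ t = 2 * B * t + C' := fun t => rfl
    have e : ∀ t : ZMod p, quadraticChar (ZMod p) (0 * t ^ 2 + 2 * B * t + C') =
        quadraticChar (ZMod p) (σ t) := by
      intro t
      congr 1
      rw [hσ]
      ring
    rw [Finset.sum_congr rfl fun t _ => e t, σ.sum_comp (fun s => quadraticChar (ZMod p) s),
      quadraticChar_sum_zero (ringChar_ne hp2)]
    simp
  · rw [sum_quad_aux hA, sum_sq_sub hp2 hd]
    ring

/-- the sum over `t` for zero discriminant -/
lemma sum_quad_zero {A B C' : ZMod p} (hA : A ≠ 0) (hd : B ^ 2 - A * C' = 0) :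
    ∑ t : ZMod p, quadraticChar (ZMod p) (A * t ^ 2 + 2 * B * t + C') =
      (p - 1) * quadraticChar (ZMod p) A := by
  rw [sum_quad_aux hA, hd]
  have e : ∀ s : ZMod p, quadraticChar (ZMod p) (s ^ 2 - 0) = 1 - (if s = 0 then 1 else 0) := by
    intro s
    rw [sub_zero]
    by_cases hs : s = 0
    · rw [hs, if_pos rfl]; simp
    · rw [if_neg hs, quadraticChar_sq_one' hs]; simp
  rw [Finset.sum_congr rfl fun s _ => e s, Finset.sum_sub_distrib, Finset.sum_const,
    Finset.card_univ, ZMod.card, Finset.sum_ite_eq']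
  simp
  ring

end char

variable {R : Type} [CommRing R]

/-- trace of Frobenius of the fibre over `(z, t)`:
`p + 1 - #C(F_p) = p - #{(x, y) ∈ F_p² : y² = a_z(x) t² + 2 b_z(x) t + c_z(x)}` -/
noncomputable def frobTrace2 (a b c : R[X]) (p : ℕ) (z : R →+* ZMod p) (t : ZMod p) : ℤ :=
  (p : ℤ) - Nat.card {P : ZMod p × ZMod p // P.2 ^ 2 =
    (a.map z).eval P.1 * t ^ 2 + 2 * (b.map z).eval P.1 * t + (c.map z).eval P.1}

/-- the average of the traces over the `F_p`-points of `{D ≠ 0} × A¹`, divided by `p^(d+1)` -/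
noncomputable def nagaoAvg2 (a b c : R[X]) (D : R) (d p : ℕ) : ℝ :=
  (∑ᶠ z : {z : R →+* ZMod p // z D ≠ 0}, ∑ᶠ t : ZMod p, (frobTrace2 a b c p z t : ℝ)) /
    (p : ℝ) ^ (d + 1)

lemma card_pair2 {V : Type} [Fintype V] (P : V → V → Prop)
    [∀ x y, Decidable (P x y)] :
    (Nat.card {w : V × V // P w.1 w.2} : ℤ) = ∑ x : V, ∑ y : V, (if P x y then (1 : ℤ) else 0) := by
  classical
  rw [Nat.card_eq_fintype_card, Fintype.card_subtype, ← Finset.sum_product', Finset.card_filter]
  push_cast
  rfl

/-- exact formula where everything is split: no loss at all -/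
theorem frob_sum2 (a b c : R[X]) (p : ℕ) (hp : p.Prime) (hp2 : p ≠ 2) (z : R →+* ZMod p) {n : ℕ}
    (x β : Fin n → R) (δ : R) (hD : b ^ 2 - a * c = C δ * ∏ i, (X - C (x i)))
    (ha : ∀ i, a.eval (x i) = β i ^ 2) (hδ : z δ ≠ 0) (hx : ∀ i j, i ≠ j → z (x i) ≠ z (x j))
    (hβ : ∀ i, z (β i) ≠ 0) :
    ∑ᶠ t : ZMod p, (frobTrace2 a b c p z t : ℝ) =
      (Nat.card {P : ZMod p × ZMod p // P.2 ^ 2 = (a.map z).eval P.1} : ℝ) - p - p * n := by
  classical
  have : Fact p.Prime := ⟨hp⟩
  set χ := quadraticChar (ZMod p) with hχ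
  set A : ZMod p → ZMod p := fun x => (a.map z).eval x with hA
  set B : ZMod p → ZMod p := fun x => (b.map z).eval x with hB
  set C' : ZMod p → ZMod p := fun x => (c.map z).eval x with hC
  have hdisc : ∀ s : ZMod p, B s ^ 2 - A s * C' s = z δ * ∏ i, (s - z (x i)) := by
    intro s
    have h1 := congrArg (fun q : R[X] => (q.map z).eval s) hD
    simpa [Polynomial.map_sub, Polynomial.map_mul, Polynomial.map_pow, Polynomial.map_prod,
      eval_prod] using h1
  have hzero : ∀ s : ZMod p, B s ^ 2 - A s * C' s = 0 ↔ ∃ i, s = z (x i) := by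
    intro s
    rw [hdisc, mul_eq_zero, or_iff_right hδ, Finset.prod_eq_zero_iff]
    simp [sub_eq_zero]
  have hAx : ∀ i, A (z (x i)) = z (β i) ^ 2 := by
    intro i
    simp only [hA, eval_map_apply, ha, map_pow]
  have hroots : (Finset.univ.filter fun s : ZMod p => B s ^ 2 - A s * C' s = 0).card = n := by
    have e : (Finset.univ.filter fun s : ZMod p => B s ^ 2 - A s * C' s = 0) =
        Finset.univ.image fun i : Fin n => z (x i) := by
      ext s
      simp only [Finset.mem_filter, Finset.mem_univ, true_and, Finset.mem_image, hzero]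
      exact ⟨fun ⟨i, h⟩ => ⟨i, h.symm⟩, fun ⟨i, h⟩ => ⟨i, h.symm⟩⟩
    rw [e, Finset.card_image_of_injective, Finset.card_univ, Fintype.card_fin]
    intro i j hij
    by_contra hne
    exact hx i j hne hij
  have hsum : ∀ s : ZMod p, ∑ t : ZMod p, χ (A s * t ^ 2 + 2 * B s * t + C' s) =
      - χ (A s) + p * (if B s ^ 2 - A s * C' s = 0 then 1 else 0) := by
    intro s
    by_cases h : B s ^ 2 - A s * C' s = 0
    · obtain ⟨i, rfl⟩ := (hzero s).mp h
      have hne : A (z (x i)) ≠ 0 := by rw [hAx]; exact pow_ne_zero 2 (hβ i)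
      rw [if_pos h, sum_quad_zero hne h, hAx, quadraticChar_sq_one' (hβ i)]
      ring
    · rw [if_neg h, sum_quad hp2 h]; ring
  rw [finsum_eq_sum_of_fintype]
  have hZ : ∑ t : ZMod p, frobTrace2 a b c p z t =
      (Nat.card {P : ZMod p × ZMod p // P.2 ^ 2 = (a.map z).eval P.1} : ℤ) - p - p * n := by
    have h1 : ∀ t : ZMod p, frobTrace2 a b c p z t =
        - ∑ s : ZMod p, χ (A s * t ^ 2 + 2 * B s * t + C' s) := by
      intro t
      unfold frobTrace2
      rw [card_pair2 (fun s y => y ^ 2 =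
        (a.map z).eval s * t ^ 2 + 2 * (b.map z).eval s * t + (c.map z).eval s)]
      rw [Finset.sum_congr rfl fun s _ => sum_sqrts hp2 _, Finset.sum_add_distrib,
        Finset.sum_const, Finset.card_univ, ZMod.card]
      simp only [nsmul_eq_mul, mul_one]
      ring
    rw [Finset.sum_congr rfl fun t _ => h1 t, Finset.sum_neg_distrib, Finset.sum_comm,
      Finset.sum_congr rfl fun s _ => hsum s, Finset.sum_add_distrib, Finset.sum_neg_distrib,
      ← Finset.mul_sum, ← Finset.sum_filter, Finset.sum_const, hroots]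
    rw [card_pair2 (fun s y => y ^ 2 = (a.map z).eval s),
      Finset.sum_congr rfl fun s _ => sum_sqrts hp2 _, Finset.sum_add_distrib,
        Finset.sum_const, Finset.card_univ, ZMod.card]
    simp only [nsmul_eq_mul, mul_one]
    ring
  exact_mod_cast hZ

end Pool.Agent.Lib.MP_1a0ddd_nt.Quad
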