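import Pool.Agent.Lib.MP_1a0ddd_nt.Quad.TBase
import Pool.Agent.Lib.MP_1a0ddd_nt.Tower
import Pool.Agent.Lib.MP_1a0ddd_nt.Step

/-! Rings with the Tauberian point count of Lang, Weil and Landau. -/

set_option autoImplicit false

namespace Pool.Agent.Lib.MP_1a0ddd_nt.Quad

open Polynomial Filter Topology

theorem TauMean.add {c c' : ℕ → ℝ} {γ γ' : ℝ} (h : TauMean c γ) (h' : TauMean c' γ') :
    TauMean (fun p => c p + c' p) (γ + γ') := by
  unfold TauMean at *
  refine (h.add h').congr fun T => ?_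
  rw [← add_div, ← Finset.sum_add_distrib]
  congr 1
  exact Finset.sum_congr rfl fun p _ => by ring

theorem TauMean.const_mul {c : ℕ → ℝ} {γ : ℝ} (h : TauMean c γ) (k : ℝ) :
    TauMean (fun p => k * c p) (k * γ) := by
  unfold TauMean at *
  refine (Tendsto.const_mul k h).congr fun T => ?_
  rw [← mul_div_assoc, Finset.mul_sum]
  congr 1
  exact Finset.sum_congr rfl fun p _ => by ring

theorem TauMean.neg {c : ℕ → ℝ} {γ : ℝ} (h : TauMean c γ) : TauMean (fun p => - c p) (-γ) := by
  have := h.const_mul (-1)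
  simpa using this

theorem TauMean.sub {c c' : ℕ → ℝ} {γ γ' : ℝ} (h : TauMean c γ) (h' : TauMean c' γ') :
    TauMean (fun p => c p - c' p) (γ - γ') := by
  have := h.add h'.neg
  simpa [sub_eq_add_neg] using this

theorem TauMean.zero : TauMean (fun _ => 0) 0 := by
  unfold TauMean
  simp

theorem TauMean.sum {ι : Type} (s : Finset ι) (c : ι → ℕ → ℝ) (γ : ι → ℝ)
    (h : ∀ i ∈ s, TauMean (c i) (γ i)) : TauMean (fun p => ∑ i ∈ s, c i p) (∑ i ∈ s, γ i) := by
  classical
  induction s using Finset.induction_on with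
  | empty => simpa using TauMean.zero
  | insert i s hi ih =>
    have h1 := (h i (Finset.mem_insert_self i s)).add
      (ih fun j hj => h j (Finset.mem_insert_of_mem hj))
    simpa [Finset.sum_insert hi] using h1

/-- `c p` may be changed at finitely many `p` and for `p` not prime -/
theorem TauMean.congr' {c c' : ℕ → ℝ} {γ : ℝ} (p₀ : ℕ) (h : TauMean c γ)
    (hc : ∀ p : ℕ, p₀ ≤ p → p.Prime → c' p = c p) : TauMean c' γ := by
  unfold TauMean at *
  have h1 : Tendsto (fun T : ℕ => (∑ p ∈ (Finset.Icc 1 T).filter Nat.Prime,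
      (c' p - c p) * Real.log p) / (T : ℝ)) atTop (𝓝 0) := by
    have h2 : ∀ᶠ T : ℕ in atTop, (∑ p ∈ (Finset.Icc 1 T).filter Nat.Prime,
        (c' p - c p) * Real.log p) = ∑ p ∈ (Finset.Icc 1 p₀).filter Nat.Prime,
        (c' p - c p) * Real.log p := by
      filter_upwards [eventually_ge_atTop p₀] with T hT
      symm
      apply Finset.sum_subset
      · intro p hp
        rw [Finset.mem_filter, Finset.mem_Icc] at hp ⊢
        exact ⟨⟨hp.1.1, hp.1.2.trans hT⟩, hp.2⟩
      · intro p hp hp'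
        rw [Finset.mem_filter, Finset.mem_Icc] at hp hp'
        have : p₀ ≤ p := by
          by_contra h3
          exact hp' ⟨⟨hp.1.1, by omega⟩, hp.2⟩
        rw [hc p this hp.2]
        ring
    have h3 : Tendsto (fun T : ℕ => (∑ p ∈ (Finset.Icc 1 p₀).filter Nat.Prime,
        (c' p - c p) * Real.log p) / (T : ℝ)) atTop (𝓝 0) :=
      tendsto_const_div_atTop_nhds_zero_nat _
    refine h3.congr' ?_
    filter_upwards [h2] with T hT
    rw [hT]
  have h4 := h.add h1
  rw [add_zero] at h4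
  refine h4.congr fun T => ?_
  rw [← add_div, ← Finset.sum_add_distrib]
  congr 1
  exact Finset.sum_congr rfl fun p _ => by ring

/-- squeezing: `|c p| ≤ ε q p` for all large primes, for every `ε`, and `q` has a mean -/
theorem TauMean.squeeze {c q : ℕ → ℝ} {γ : ℝ} (hq : TauMean q γ)
    (h : ∀ ε : ℝ, 0 < ε → ∃ p₀ : ℕ, ∀ p : ℕ, p₀ ≤ p → p.Prime → |c p| ≤ ε * q p) :
    TauMean c 0 := by
  classical
  unfold TauMean
  rw [Metric.tendsto_nhds]
  intro ε hε
  have hk : 0 < |γ| + 1 := by positivity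
  have hε' : 0 < ε / 2 / (|γ| + 1) := by positivity
  obtain ⟨p₀, hp₀⟩ := h _ hε'
  set q' : ℕ → ℝ := fun p => if p₀ ≤ p then q p else 0 with hq'
  set c' : ℕ → ℝ := fun p => if p₀ ≤ p then c p else 0 with hc'
  have h1 : TauMean q' γ := hq.congr' p₀ fun p hp _ => by simp only [hq', if_pos hp]
  have h2 : TauMean (fun p => c p - c' p) 0 := by
    refine TauMean.zero.congr' p₀ fun p hp _ => ?_
    simp only [hc', if_pos hp, sub_self]
  have h3 : ∀ p : ℕ, p.Prime → |c' p| ≤ ε / 2 / (|γ| + 1) * q' p := by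
    intro p hp
    by_cases h : p₀ ≤ p
    · simp only [hc', hq', if_pos h]
      exact hp₀ p h hp
    · simp only [hc', hq', if_neg h]
      simp
  have h4 := (Metric.tendsto_nhds.mp h2) (ε / 2) (by linarith)
  have h5 : ∀ᶠ T : ℕ in atTop, (∑ p ∈ (Finset.Icc 1 T).filter Nat.Prime,
      q' p * Real.log p) / (T : ℝ) < |γ| + 1 := by
    refine h1.eventually (gt_mem_nhds ?_)
    have := le_abs_self γ
    linarith
  filter_upwards [h4, h5, eventually_gt_atTop 0] with T h6 h7 hT
  have hT' : (0 : ℝ) < T := by exact_mod_cast hT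
  have h8 : |(∑ p ∈ (Finset.Icc 1 T).filter Nat.Prime, c' p * Real.log p) / (T : ℝ)| <
      ε / 2 := by
    rw [abs_div, abs_of_pos hT']
    calc _ ≤ (∑ p ∈ (Finset.Icc 1 T).filter Nat.Prime,
          ε / 2 / (|γ| + 1) * (q' p * Real.log p)) / (T : ℝ) := by
          refine div_le_div_of_nonneg_right ?_ hT'.le
          refine (Finset.abs_sum_le_sum_abs _ _).trans (Finset.sum_le_sum fun p hp => ?_)
          have hpp := (Finset.mem_filter.mp hp).2
          have hl : 0 ≤ Real.log p := Real.log_natCast_nonneg p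
          rw [abs_mul, abs_of_nonneg hl, ← mul_assoc]
          exact mul_le_mul_of_nonneg_right (h3 p hpp) hl
      _ = ε / 2 / (|γ| + 1) * ((∑ p ∈ (Finset.Icc 1 T).filter Nat.Prime,
          q' p * Real.log p) / (T : ℝ)) := by
          rw [← Finset.mul_sum]; ring
      _ < ε / 2 / (|γ| + 1) * (|γ| + 1) := mul_lt_mul_of_pos_left h7 hε'
      _ = ε / 2 := by field_simp
  have h9 : (∑ p ∈ (Finset.Icc 1 T).filter Nat.Prime, c p * Real.log p) / (T : ℝ) =
      (∑ p ∈ (Finset.Icc 1 T).filter Nat.Prime, (c p - c' p) * Real.log p) / (T : ℝ) +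
      (∑ p ∈ (Finset.Icc 1 T).filter Nat.Prime, c' p * Real.log p) / (T : ℝ) := by
    rw [← add_div, ← Finset.sum_add_distrib]
    congr 1
    exact Finset.sum_congr rfl fun p _ => by ring
  rw [Real.dist_eq, sub_zero] at h6 ⊢
  rw [h9]
  calc _ ≤ _ := abs_add_le _ _
    _ < ε / 2 + ε / 2 := add_lt_add h6 h8
    _ = ε := by ring

/-- domination by a sequence of mean zero -/
theorem TauMean.of_abs_le {c q : ℕ → ℝ} (hq : TauMean q 0) (K : ℝ) (p₀ : ℕ)
    (h : ∀ p : ℕ, p₀ ≤ p → p.Prime → |c p| ≤ K * q p) : TauMean c 0 := by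
  classical
  set q' : ℕ → ℝ := fun p => if p₀ ≤ p then q p else 0 with hq'
  set c' : ℕ → ℝ := fun p => if p₀ ≤ p then c p else 0 with hc'
  have h1 : TauMean (fun p => K * q' p) (K * 0) :=
    TauMean.const_mul (hq.congr' p₀ fun p hp _ => by simp only [hq', if_pos hp]) K
  rw [mul_zero] at h1
  have h3 : ∀ p : ℕ, p.Prime → |c' p| ≤ K * q' p := by
    intro p hp
    by_cases h' : p₀ ≤ p
    · simp only [hc', hq', if_pos h']
      exact h p h' hp
    · simp only [hc', hq', if_neg h']
      simp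
  have h4 : TauMean c' 0 := by
    unfold TauMean at *
    refine squeeze_zero_norm' ?_ h1
    filter_upwards [eventually_gt_atTop 0] with T hT
    have hT' : (0 : ℝ) < T := by exact_mod_cast hT
    rw [Real.norm_eq_abs, abs_div, abs_of_pos hT']
    refine div_le_div_of_nonneg_right ?_ hT'.le
    refine (Finset.abs_sum_le_sum_abs _ _).trans (Finset.sum_le_sum fun p hp => ?_)
    have hpp := (Finset.mem_filter.mp hp).2
    have hl : 0 ≤ Real.log p := Real.log_natCast_nonneg p
    rw [abs_mul, abs_of_nonneg hl]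
    exact mul_le_mul_of_nonneg_right (h3 p hpp) hl
  exact h4.congr' p₀ fun p hp _ => by simp only [hc', if_pos hp]

end Pool.Agent.Lib.MP_1a0ddd_nt.Quad
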