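import Pool.Agent.Lib.MP_1a0ddd_nt.Quad.QBase

/-! Quadratic extensions `k[y]/(y² - P)` of a commutative ring: basics. -/

set_option autoImplicit false

namespace Pool.Agent.Lib.MP_1a0ddd_nt.Quad

open Polynomial

/-- `k[y]/(y² - P)` -/
abbrev QR {k : Type} [CommRing k] (P : k) : Type := AdjoinRoot (X ^ 2 - C P : k[X])

section basic

variable {k : Type} [CommRing k] (P : k)

/-- the elements of `k` in `QR P` -/
noncomputable abbrev em : k →+* QR P := AdjoinRoot.of (X ^ 2 - C P : k[X])

/-- the square root of `P` -/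
noncomputable abbrev yy : QR P := AdjoinRoot.root (X ^ 2 - C P : k[X])

theorem yy_sq : yy P ^ 2 = em P P := by
  have h : (AdjoinRoot.mk (X ^ 2 - C P : k[X])) (X ^ 2 - C P) = 0 := AdjoinRoot.mk_self
  rw [map_sub, map_pow, AdjoinRoot.mk_X, AdjoinRoot.mk_C] at h
  exact sub_eq_zero.mp h

theorem monic : (X ^ 2 - C P : k[X]).Monic := by
  nontriviality k
  exact monic_X_pow_sub_C P two_ne_zero

theorem rep (a : QR P) : ∃ u v : k, a = em P u + em P v * yy P := by
  obtain ⟨f, rfl⟩ := AdjoinRoot.mk_surjective a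
  rcases subsingleton_or_nontrivial k with hk | hk
  · have := Module.subsingleton k (QR P)
    exact ⟨0, 0, Subsingleton.elim _ _⟩
  have hd : (f %ₘ (X ^ 2 - C P)).natDegree < 2 := by
    have h1 := natDegree_modByMonic_lt f (monic P) (by
      intro h
      have h2 := natDegree_X_pow_sub_C (n := 2) (r := P)
      rw [h] at h2
      simp at h2)
    rwa [natDegree_X_pow_sub_C] at h1
  have h0 : AdjoinRoot.mk (X ^ 2 - C P : k[X]) f =
      AdjoinRoot.mk (X ^ 2 - C P : k[X]) (f %ₘ (X ^ 2 - C P)) := by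
    rw [AdjoinRoot.mk_eq_mk]
    refine ⟨f /ₘ (X ^ 2 - C P), ?_⟩
    have := modByMonic_add_div f (X ^ 2 - C P)
    linear_combination -this
  refine ⟨(f %ₘ (X ^ 2 - C P)).coeff 0, (f %ₘ (X ^ 2 - C P)).coeff 1, ?_⟩
  rw [h0]
  conv_lhs => rw [(f %ₘ (X ^ 2 - C P)).as_sum_range' 2 hd]
  simp [Finset.sum_range_succ, ← C_mul_X_pow_eq_monomial]

theorem uniq {u v : k} (h : em P u + em P v * yy P = 0) : u = 0 ∧ v = 0 := by
  nontriviality k
  have h1 : AdjoinRoot.mk (X ^ 2 - C P : k[X]) (C u + C v * X) = 0 := by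
    simpa using h
  rw [AdjoinRoot.mk_eq_zero] at h1
  have h2 : (C u + C v * X : k[X]) = 0 := by
    by_contra hne
    have hdeg : (C u + C v * X : k[X]).degree < (X ^ 2 - C P : k[X]).degree := by
      rw [degree_X_pow_sub_C (by norm_num)]
      refine lt_of_le_of_lt (degree_add_le _ _) ?_
      refine max_lt (lt_of_le_of_lt degree_C_le (by norm_num)) ?_
      refine lt_of_le_of_lt (degree_C_mul_X_le v) (by norm_num)
    exact (monic P).not_dvd_of_degree_lt hne hdeg h1
  constructor
  · have := congrArg (fun q => q.coeff 0) h2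
    simpa using this
  · have := congrArg (fun q => q.coeff 1) h2
    simpa using this

theorem em_injective : Function.Injective (em P) := by
  rw [injective_iff_map_eq_zero]
  intro u hu
  exact (uniq P (u := u) (v := 0) (by simp [hu])).1

theorem ext_iff {u v u' v' : k} :
    em P u + em P v * yy P = em P u' + em P v' * yy P ↔ u = u' ∧ v = v' := by
  constructor
  · intro h
    have := uniq P (u := u - u') (v := v - v') (by
      rw [map_sub, map_sub]; linear_combination h)
    exact ⟨sub_eq_zero.mp this.1, sub_eq_zero.mp this.2⟩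
  · rintro ⟨rfl, rfl⟩; rfl

/-- `u + v y ↦ u - v y` -/
noncomputable def conj : QR P →+* QR P :=
  AdjoinRoot.lift (em P) (- yy P) (by
    rw [eval₂_sub, eval₂_pow, eval₂_X, eval₂_C, neg_sq, yy_sq, sub_self])

@[simp] theorem conj_em (u : k) : conj P (em P u) = em P u := by
  simp [conj]

@[simp] theorem conj_yy : conj P (yy P) = - yy P := by
  simp [conj]

theorem conj_conj (a : QR P) : conj P (conj P a) = a := by
  obtain ⟨u, v, rfl⟩ := rep P a
  simp

theorem mul_conj (u v : k) :
    (em P u + em P v * yy P) * conj P (em P u + em P v * yy P) = em P (u ^ 2 - v ^ 2 * P) := by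
  have h := yy_sq P
  simp only [map_add, map_mul, conj_em, conj_yy, map_sub, map_pow]
  linear_combination (-(em P v) ^ 2) * h

theorem conj_bijective : Function.Bijective (conj P) :=
  ⟨fun a b h => by rw [← conj_conj P a, h, conj_conj], fun a => ⟨conj P a, conj_conj P a⟩⟩

/-- functoriality -/
noncomputable def mp {k' : Type} [CommRing k'] (φ : k →+* k') (P : k) : QR P →+* QR (φ P) :=
  AdjoinRoot.lift ((em (φ P)).comp φ) (yy (φ P)) (by
    rw [eval₂_sub, eval₂_pow, eval₂_X, eval₂_C, yy_sq, RingHom.comp_apply, sub_self])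

@[simp] theorem mp_em {k' : Type} [CommRing k'] (φ : k →+* k') (P u : k) :
    mp φ P (em P u) = em (φ P) (φ u) := by
  simp [mp]

@[simp] theorem mp_yy {k' : Type} [CommRing k'] (φ : k →+* k') (P : k) :
    mp φ P (yy P) = yy (φ P) := by
  simp [mp]

theorem mp_injective {k' : Type} [CommRing k'] (φ : k →+* k') (P : k)
    (hφ : Function.Injective φ) : Function.Injective (mp φ P) := by
  rw [injective_iff_map_eq_zero]
  intro a ha
  obtain ⟨u, v, rfl⟩ := rep P a
  rw [map_add, map_mul, mp_em, mp_em, mp_yy] at ha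
  obtain ⟨h1, h2⟩ := uniq (φ P) ha
  rw [(map_eq_zero_iff φ hφ).mp h1, (map_eq_zero_iff φ hφ).mp h2]
  simp

/-- the ideal `(φ, y - ρ)` -/
noncomputable def PI (φ ρ : k) : Ideal (QR P) := Ideal.span {em P φ, yy P - em P ρ}

theorem PI_congr {φ ρ ρ' : k} (h : φ ∣ ρ - ρ') : PI P φ ρ = PI P φ ρ' := by
  obtain ⟨c, hc⟩ := h
  have key : ∀ r r' c : k, r - r' = φ * c → PI P φ r ≤ PI P φ r' := by
    intro r r' c hc
    rw [PI, Ideal.span_le]
    rintro z (rfl | rfl)
    · exact Ideal.subset_span (by simp)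
    · have e : yy P - em P r = (yy P - em P r') - em P c * em P φ := by
        have : em P r - em P r' = em P φ * em P c := by rw [← map_sub, hc, map_mul]
        linear_combination -this
      rw [SetLike.mem_coe, e]
      exact Ideal.sub_mem _ (Ideal.subset_span (by simp))
        (Ideal.mul_mem_left _ _ (Ideal.subset_span (by simp)))
  exact le_antisymm (key _ _ c hc) (key _ _ (-c) (by linear_combination -hc))

theorem PI_unit_mul {φ ρ ε : k} (h : IsUnit ε) : PI P (ε * φ) ρ = PI P φ ρ := by
  obtain ⟨ε, rfl⟩ := h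
  apply le_antisymm
  · rw [PI, Ideal.span_le]
    rintro z (rfl | rfl)
    · rw [SetLike.mem_coe, map_mul]
      exact Ideal.mul_mem_left _ _ (Ideal.subset_span (by simp))
    · exact Ideal.subset_span (by simp)
  · rw [PI, Ideal.span_le]
    rintro z (rfl | rfl)
    · have e : em P φ = em P (↑ε⁻¹) * em P (ε * φ) := by
        rw [← map_mul]; congr 1; rw [← mul_assoc]; simp
      rw [SetLike.mem_coe, e]
      exact Ideal.mul_mem_left _ _ (Ideal.subset_span (by simp))
    · exact Ideal.subset_span (by simp)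

theorem PI_conj (φ ρ : k) : (PI P φ ρ).map (conj P) = PI P φ (-ρ) := by
  rw [PI, Ideal.map_span, Set.image_pair, conj_em, map_sub, conj_yy, conj_em, PI, map_neg,
    sub_neg_eq_add]
  apply le_antisymm <;> rw [Ideal.span_le] <;> rintro z (rfl | rfl)
  · exact Ideal.subset_span (by simp)
  · have e : -yy P - em P ρ = -(yy P + em P ρ) := by ring
    rw [SetLike.mem_coe, e]
    exact (Ideal.neg_mem_iff _).mpr (Ideal.subset_span (by simp))
  · exact Ideal.subset_span (by simp)
  · have e : yy P + em P ρ = -(-yy P - em P ρ) := by ring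
    rw [SetLike.mem_coe, e]
    exact (Ideal.neg_mem_iff _).mpr (Ideal.subset_span (by simp))

/-- elements of `(φ, y - ρ)` -/
theorem mem_PI {φ ρ : k} (h : φ ∣ ρ ^ 2 - P) (u v : k) :
    em P u + em P v * yy P ∈ PI P φ ρ ↔ φ ∣ u + v * ρ := by
  obtain ⟨m, hm⟩ := h
  constructor
  · intro hx
    rw [PI, Ideal.mem_span_pair] at hx
    obtain ⟨a, b, hab⟩ := hx
    obtain ⟨a1, a2, rfl⟩ := rep P a
    obtain ⟨b1, b2, rfl⟩ := rep P b
    have e : em P (a1 * φ - b1 * ρ + b2 * P) + em P (a2 * φ + b1 - b2 * ρ) * yy P =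
        em P u + em P v * yy P := by
      rw [← hab]
      have h2 := yy_sq P
      simp only [map_add, map_sub, map_mul]
      linear_combination (-(em P b2)) * h2
    obtain ⟨e1, e2⟩ := (ext_iff P).mp e
    refine ⟨a1 + a2 * ρ - b2 * m, ?_⟩
    rw [← e1, ← e2]
    linear_combination (-b2) * hm
  · rintro ⟨c, hc⟩
    have e : em P u + em P v * yy P = em P c * em P φ + em P v * (yy P - em P ρ) := by
      have : em P u + em P v * em P ρ = em P φ * em P c := by
        rw [← map_mul, ← map_mul, ← map_add, hc]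
      linear_combination this
    rw [e]
    exact Ideal.add_mem _ (Ideal.mul_mem_left _ _ (Ideal.subset_span (by simp)))
      (Ideal.mul_mem_left _ _ (Ideal.subset_span (by simp)))

end basic

end Pool.Agent.Lib.MP_1a0ddd_nt.Quad
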