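import Mathlib

/-! The Tauberian mean over the primes. -/

set_option autoImplicit false

namespace Pool.Agent.Lib.MP_1a0ddd_nt.Quad

open Filter Topology

/-- the average of `c p` over the primes `p ≤ T` with the weights `log p`, divided by `T`,
tends to `γ` -/
def TauMean (c : ℕ → ℝ) (γ : ℝ) : Prop :=
  Tendsto (fun T : ℕ => (∑ p ∈ (Finset.Icc 1 T).filter Nat.Prime, c p * Real.log p) / (T : ℝ))
    atTop (𝓝 γ)

end Pool.Agent.Lib.MP_1a0ddd_nt.Quad
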