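import Pool.Agent.Lib.MP_1a0ddd_nt.Base
import Pool.Agent.Lib.MP_1a0ddd_nt.Quad.TMean

/-! Rings with the Tauberian point count of Lang, Weil and Landau: definitions. -/

set_option autoImplicit false

namespace Pool.Agent.Lib.MP_1a0ddd_nt.Quad

open Polynomial Filter Topology

/-- `Spec R` and all its nonempty principal open subsets have in the Tauberian mean
`p^d` points over `F_p`. Every finitely generated domain of characteristic zero of dimension
`d + 1` has this property (Lang, Weil, Landau). -/
def LangWeilT (R : Type) [CommRing R] (d : ℕ) : Prop :=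
  ∀ D : R, D ≠ 0 →
    TauMean (fun p => (Nat.card {z : R →+* ZMod p // z D ≠ 0} : ℝ) / (p : ℝ) ^ d) 1

/-- the rings obtained from `ℤ` by the steps `R ↦ R[x]`, `R ↦ R[x, w]/(w² - h(x))` with `h` monic
of odd degree, `R ↦ R[1/s]` with `s ≠ 0` and isomorphisms -/
inductive Tower : (R : Type) → [CommRing R] → ℕ → Prop
  | int : Tower ℤ 0
  | poly {R : Type} [CommRing R] {d : ℕ} (hR : Tower R d) : Tower R[X] (d + 1)
  | hyp {R : Type} [CommRing R] {d : ℕ} (hR : Tower R d) (h : R[X]) (hm : h.Monic)
      (ho : Odd h.natDegree) : Tower (HypRing R h) (d + 1)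
  | loc {R : Type} [CommRing R] {d : ℕ} (hR : Tower R d) (s : R) (hs : s ≠ 0) :
      Tower (Localization.Away s) d
  | iso {R S : Type} [CommRing R] [CommRing S] {d : ℕ} (hR : Tower R d) (e : R ≃+* S) : Tower S d

end Pool.Agent.Lib.MP_1a0ddd_nt.Quad
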