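import Pool.Agent.Lib.MP_1a0ddd_nt.Base2
import Pool.Agent.Lib.MP_1a0ddd_nt.Quad.TBase

/-! Towers of double covers over the rings of cyclotomic integers: definitions. -/

set_option autoImplicit false

namespace Pool.Agent.Lib.MP_1a0ddd_nt.Quad

open Polynomial

/-- the rings obtained from the rings `ℤ[ζ_n] = ℤ[x]/Φ_n(x)` by the steps `R ↦ R[x]`,
`R ↦ R[x, w]/(w² - h(x))` with `h` not a constant times a square over the fraction field of `R`,
`R ↦ R[1/s]` with `s ≠ 0`, and isomorphisms -/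
inductive TowerC : (R : Type) → [CommRing R] → ℕ → Prop
  | cyc (n : ℕ) (hn : 0 < n) : TowerC (AdjoinRoot (cyclotomic n ℤ)) 0
  | poly {R : Type} [CommRing R] {d : ℕ} (hR : TowerC R d) : TowerC R[X] (d + 1)
  | dbl {R : Type} [CommRing R] {d : ℕ} (hR : TowerC R d) (h : R[X]) (hh : NotSq h) :
      TowerC (HypRing R h) (d + 1)
  | loc {R : Type} [CommRing R] {d : ℕ} (hR : TowerC R d) (s : R) (hs : s ≠ 0) :
      TowerC (Localization.Away s) d
  | iso {R S : Type} [CommRing R] [CommRing S] {d : ℕ} (hR : TowerC R d) (e : R ≃+* S) :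
      TowerC S d

end Pool.Agent.Lib.MP_1a0ddd_nt.Quad
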