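import Pool.Agent.Lib.MP_1a0ddd_nt.Quad.Ext

/-! Quadratic extensions of a principal ideal domain: primes, composition of forms. -/

set_option autoImplicit false
set_option linter.unusedSectionVars false
set_option linter.style.haveILetI false

namespace Pool.Agent.Lib.MP_1a0ddd_nt.Quad

open Polynomial

section dom

variable {k : Type} [CommRing k] [IsDomain k] [IsIntegrallyClosed k] (P : k)

theorem norm_zero (hP : ¬ IsSquare P) {u v : k} (h : u ^ 2 = v ^ 2 * P) : u = 0 ∧ v = 0 := by
  by_cases hv : v = 0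
  · subst hv
    refine ⟨?_, rfl⟩
    have : u ^ 2 = 0 := by rw [h]; ring
    exact pow_eq_zero_iff two_ne_zero |>.mp this
  · exfalso
    have hd : v ∣ u := (IsIntegrallyClosed.pow_dvd_pow_iff two_ne_zero).mp ⟨P, h⟩
    obtain ⟨w, hw⟩ := hd
    apply hP
    refine ⟨w, ?_⟩
    have : v ^ 2 * P = v ^ 2 * (w * w) := by rw [← h, hw]; ring
    exact mul_left_cancel₀ (pow_ne_zero 2 hv) this

theorem exists_norm (hP : ¬ IsSquare P) {a : QR P} (ha : a ≠ 0) :
    ∃ n : k, n ≠ 0 ∧ a * conj P a = em P n := by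
  obtain ⟨u, v, rfl⟩ := rep P a
  refine ⟨u ^ 2 - v ^ 2 * P, ?_, mul_conj P u v⟩
  intro h
  obtain ⟨h1, h2⟩ := norm_zero P hP (sub_eq_zero.mp h)
  apply ha
  rw [h1, h2]
  simp

theorem em_mul_cancel {n : k} (hn : n ≠ 0) {b : QR P} (h : em P n * b = 0) : b = 0 := by
  obtain ⟨u, v, rfl⟩ := rep P b
  have e : em P (n * u) + em P (n * v) * yy P = 0 := by
    rw [map_mul, map_mul]; linear_combination h
  obtain ⟨h1, h2⟩ := uniq P e
  rw [(mul_eq_zero.mp h1).resolve_left hn, (mul_eq_zero.mp h2).resolve_left hn]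
  simp

theorem isDomain_QR (hP : ¬ IsSquare P) : IsDomain (QR P) := by
  have hnt : Nontrivial (QR P) := (em_injective P).nontrivial
  have hnz : NoZeroDivisors (QR P) := by
    constructor
    intro a b hab
    by_cases ha : a = 0
    · exact Or.inl ha
    · right
      obtain ⟨n, hn, e⟩ := exists_norm P hP ha
      apply em_mul_cancel P hn
      rw [← e]
      linear_combination (conj P a) * hab
  exact NoZeroDivisors.to_isDomain _

end dom

section pid

variable {k : Type} [CommRing k] [IsDomain k] [IsPrincipalIdealRing k] {P : k}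

theorem bezout3 (h2 : IsUnit (2 : k)) (hs : Squarefree P) {φ φ' ρ : k}
    (h : φ * φ' = ρ ^ 2 - P) : ∃ a b c : k, a * φ + b * φ' + c * (2 * ρ) = 1 := by
  have hp := (IsPrincipalIdealRing.principal (Ideal.span {φ, φ', 2 * ρ} : Ideal k))
  obtain ⟨d, hd⟩ := hp
  rw [← Ideal.span] at hd
  have mem : ∀ z ∈ ({φ, φ', 2 * ρ} : Set k), d ∣ z := by
    intro z hz
    rw [← Ideal.mem_span_singleton]
    have : z ∈ Ideal.span {φ, φ', 2 * ρ} := Ideal.subset_span hz
    rwa [hd] at this
  have h1 := mem φ (by simp)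
  have h1' := mem φ' (by simp)
  have h3 : d ∣ ρ := by
    have h4 := mem (2 * ρ) (by simp)
    exact (h2.dvd_mul_left).mp h4
  have hdd : d * d ∣ P := by
    obtain ⟨x, hx⟩ := h1
    obtain ⟨x', hx'⟩ := h1'
    obtain ⟨r, hr⟩ := h3
    refine ⟨r ^ 2 - x * x', ?_⟩
    rw [hx, hx', hr] at h
    linear_combination h
  have hu : IsUnit d := hs d hdd
  have h1m : (1 : k) ∈ Ideal.span {φ, φ', 2 * ρ} := by
    rw [hd]
    have : Ideal.span {d} = (⊤ : Ideal k) := Ideal.span_singleton_eq_top.mpr hu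
    rw [this]; trivial
  rw [Ideal.mem_span_insert] at h1m
  obtain ⟨a, z, hz, e⟩ := h1m
  rw [Ideal.mem_span_pair] at hz
  obtain ⟨b, c, rfl⟩ := hz
  exact ⟨a, b, c, by linear_combination -e⟩

/-- composition of forms -/
theorem PI_comp (h2 : IsUnit (2 : k)) (hs : Squarefree P) {φ φ' ρ : k}
    (h : φ * φ' = ρ ^ 2 - P) : PI P φ ρ * PI P φ' ρ = Ideal.span {yy P - em P ρ} := by
  have hh : em P φ * em P φ' = em P ρ ^ 2 - yy P ^ 2 := by
    rw [← map_mul, h, map_sub, map_pow, yy_sq]
  apply le_antisymm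
  · rw [PI, PI, Ideal.span_mul_span', Ideal.span_le]
    rintro z ⟨x, hx, x', hx', rfl⟩
    rw [SetLike.mem_coe, Ideal.mem_span_singleton]
    rcases hx with rfl | rfl
    · rcases hx' with rfl | rfl
      · exact ⟨-(yy P + em P ρ), by simp only []; rw [hh]; ring⟩
      · exact Dvd.intro_left _ rfl
    · exact Dvd.intro _ rfl
  · rw [Ideal.span_singleton_le_iff_mem]
    obtain ⟨a, b, c, e⟩ := bezout3 h2 hs h
    have e' : em P a * em P φ + em P b * em P φ' + em P c * (2 * em P ρ) = 1 := by
      have := congrArg (em P) e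
      simpa only [map_add, map_mul, map_one, map_ofNat] using this
    have key : yy P - em P ρ = em P a * (em P φ * (yy P - em P ρ)) +
        em P b * ((yy P - em P ρ) * em P φ') - em P c * (em P φ * em P φ') -
        em P c * ((yy P - em P ρ) * (yy P - em P ρ)) := by
      linear_combination (-(yy P - em P ρ)) * e' + (em P c) * hh
    have m1 : em P φ ∈ PI P φ ρ := Ideal.subset_span (by simp)
    have m2 : yy P - em P ρ ∈ PI P φ ρ := Ideal.subset_span (by simp)
    have m3 : em P φ' ∈ PI P φ' ρ := Ideal.subset_span (by simp)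
    have m4 : yy P - em P ρ ∈ PI P φ' ρ := Ideal.subset_span (by simp)
    rw [key]
    refine Ideal.sub_mem _ (Ideal.sub_mem _ (Ideal.add_mem _ ?_ ?_) ?_) ?_
    · exact Ideal.mul_mem_left _ _ (Ideal.mul_mem_mul m1 m4)
    · exact Ideal.mul_mem_left _ _ (Ideal.mul_mem_mul m2 m3)
    · exact Ideal.mul_mem_left _ _ (Ideal.mul_mem_mul m1 m3)
    · exact Ideal.mul_mem_left _ _ (Ideal.mul_mem_mul m2 m4)

theorem PI_mul_neg (h2 : IsUnit (2 : k)) (hs : Squarefree P) {φ ρ : k}
    (h : φ ∣ ρ ^ 2 - P) : PI P φ ρ * PI P φ (-ρ) = Ideal.span {em P φ} := by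
  obtain ⟨φ', h'⟩ := h
  have hh : em P φ * em P φ' = em P ρ ^ 2 - yy P ^ 2 := by
    rw [← map_mul, ← h', map_sub, map_pow, yy_sq]
  apply le_antisymm
  · rw [PI, PI, Ideal.span_mul_span', Ideal.span_le]
    rintro z ⟨x, hx, x', hx', rfl⟩
    rw [SetLike.mem_coe, Ideal.mem_span_singleton]
    rcases hx with rfl | rfl
    · exact Dvd.intro _ rfl
    · rcases hx' with rfl | rfl
      · exact Dvd.intro_left _ rfl
      · refine ⟨-em P φ', ?_⟩
        simp only [map_neg]
        linear_combination hh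
  · rw [Ideal.span_singleton_le_iff_mem]
    obtain ⟨a, b, c, e⟩ := bezout3 h2 hs h'.symm
    have e' : em P a * em P φ + em P b * em P φ' + em P c * (2 * em P ρ) = 1 := by
      have := congrArg (em P) e
      simpa only [map_add, map_mul, map_one, map_ofNat] using this
    have m1 : em P φ ∈ PI P φ ρ := Ideal.subset_span (by simp)
    have m2 : yy P - em P ρ ∈ PI P φ ρ := Ideal.subset_span (by simp)
    have m3 : em P φ ∈ PI P φ (-ρ) := Ideal.subset_span (by simp)
    have m4 : yy P - em P (-ρ) ∈ PI P φ (-ρ) := Ideal.subset_span (by simp)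
    have key : em P φ = em P a * (em P φ * em P φ) -
        em P b * ((yy P - em P ρ) * (yy P - em P (-ρ))) +
        em P c * (em P φ * (yy P - em P (-ρ))) - em P c * ((yy P - em P ρ) * em P φ) := by
      simp only [map_neg]
      linear_combination (-(em P φ)) * e' + (em P b) * hh
    rw [key]
    refine Ideal.sub_mem _ (Ideal.add_mem _ (Ideal.sub_mem _ ?_ ?_) ?_) ?_
    · exact Ideal.mul_mem_left _ _ (Ideal.mul_mem_mul m1 m3)
    · exact Ideal.mul_mem_left _ _ (Ideal.mul_mem_mul m2 m4)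
    · exact Ideal.mul_mem_left _ _ (Ideal.mul_mem_mul m1 m4)
    · exact Ideal.mul_mem_left _ _ (Ideal.mul_mem_mul m2 m3)

theorem isCoprime_of_not_dvd {φ w : k} (hφ : Irreducible φ) (hw : ¬ φ ∣ w) :
    ∃ s t : k, s * φ + t * w = 1 := by
  have := (hφ.coprime_iff_not_dvd (n := w)).mpr hw
  obtain ⟨s, t, h⟩ := this
  exact ⟨s, t, h⟩

theorem PI_isMaximal {φ ρ : k} (hφ : Irreducible φ) (h : φ ∣ ρ ^ 2 - P) :
    (PI P φ ρ).IsMaximal := by
  rw [Ideal.isMaximal_iff]
  constructor
  · intro h1
    have : em P 1 + em P 0 * yy P ∈ PI P φ ρ := by simpa using h1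
    rw [mem_PI P h] at this
    apply hφ.not_isUnit
    apply isUnit_of_dvd_one
    simpa using this
  · intro J x hJ hx hxJ
    obtain ⟨u, v, rfl⟩ := rep P x
    rw [mem_PI P h] at hx
    obtain ⟨s, t, e⟩ := isCoprime_of_not_dvd hφ hx
    have m1 : em P φ ∈ J := hJ (Ideal.subset_span (by simp))
    have m2 : yy P - em P ρ ∈ J := hJ (Ideal.subset_span (by simp))
    have e' : em P s * em P φ + em P t * (em P u + em P v * em P ρ) = 1 := by
      have := congrArg (em P) e
      simpa only [map_add, map_mul, map_one] using this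
    have key : (1 : QR P) = em P s * em P φ + em P t * (em P u + em P v * yy P) -
        em P t * em P v * (yy P - em P ρ) := by
      linear_combination -e'
    rw [key]
    exact Ideal.sub_mem _ (Ideal.add_mem _ (Ideal.mul_mem_left _ _ m1)
      (Ideal.mul_mem_left _ _ hxJ)) (Ideal.mul_mem_left _ _ m2)

theorem span_isMaximal {φ : k} (hφ : Irreducible φ) (h : ∀ ρ : k, ¬ φ ∣ ρ ^ 2 - P) :
    (Ideal.span {em P φ} : Ideal (QR P)).IsMaximal := by
  have hmem : ∀ u v : k, em P u + em P v * yy P ∈ (Ideal.span {em P φ} : Ideal (QR P)) ↔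
      φ ∣ u ∧ φ ∣ v := by
    intro u v
    rw [Ideal.mem_span_singleton]
    constructor
    · rintro ⟨c, hc⟩
      obtain ⟨c1, c2, rfl⟩ := rep P c
      have e : em P u + em P v * yy P = em P (φ * c1) + em P (φ * c2) * yy P := by
        rw [hc, map_mul, map_mul]; ring
      obtain ⟨e1, e2⟩ := (ext_iff P).mp e
      exact ⟨⟨c1, e1⟩, ⟨c2, e2⟩⟩
    · rintro ⟨⟨c1, rfl⟩, ⟨c2, rfl⟩⟩
      exact ⟨em P c1 + em P c2 * yy P, by rw [map_mul, map_mul]; ring⟩
  rw [Ideal.isMaximal_iff]
  constructor
  · intro h1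
    have : em P 1 + em P 0 * yy P ∈ (Ideal.span {em P φ} : Ideal (QR P)) := by simpa using h1
    rw [hmem] at this
    exact hφ.not_isUnit (isUnit_of_dvd_one this.1)
  · intro J x hJ hx hxJ
    obtain ⟨u, v, rfl⟩ := rep P x
    rw [hmem] at hx
    have hN : ¬ φ ∣ u ^ 2 - v ^ 2 * P := by
      intro hd
      by_cases hv : φ ∣ v
      · apply hx
        refine ⟨?_, hv⟩
        have : φ ∣ u ^ 2 := by
          have h3 : φ ∣ v ^ 2 * P := Dvd.dvd.mul_right (dvd_pow hv two_ne_zero) _
          have := dvd_add hd h3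
          simpa using this
        exact hφ.prime.dvd_of_dvd_pow this
      · obtain ⟨s, t, e⟩ := isCoprime_of_not_dvd hφ hv
        apply h (t * u)
        have : (t * u) ^ 2 - P = t ^ 2 * (u ^ 2 - v ^ 2 * P) -
            φ * (s * (2 - s * φ)) * P := by
          have e2 : t * v = 1 - s * φ := by linear_combination e
          linear_combination (P * (t * v + 1 - s * φ)) * e2
        rw [this]
        exact dvd_sub (Dvd.dvd.mul_left hd _)
          (by rw [mul_assoc]; exact Dvd.intro _ rfl)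
    obtain ⟨s, t, e⟩ := isCoprime_of_not_dvd hφ hN
    have m1 : em P φ ∈ J := hJ (Ideal.subset_span (by simp))
    have e' : em P s * em P φ + em P t * ((em P u + em P v * yy P) *
        conj P (em P u + em P v * yy P)) = 1 := by
      rw [mul_conj, ← map_mul, ← map_mul, ← map_add, e, map_one]
    rw [← e']
    exact Ideal.add_mem _ (Ideal.mul_mem_left _ _ m1)
      (Ideal.mul_mem_left _ _ (Ideal.mul_mem_right _ _ hxJ))

/-- the primes over an irreducible element of `k` -/
theorem primes_of_mem {φ : k} (hφ : Irreducible φ) {Q : Ideal (QR P)} (hQ : Q.IsPrime)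
    (hm : em P φ ∈ Q) :
    (∃ ρ : k, φ ∣ ρ ^ 2 - P ∧ Q = PI P φ ρ) ∨
      ((∀ ρ : k, ¬ φ ∣ ρ ^ 2 - P) ∧ Q = Ideal.span {em P φ}) := by
  by_cases h : ∃ ρ : k, φ ∣ ρ ^ 2 - P
  · left
    obtain ⟨ρ, hρ⟩ := h
    obtain ⟨c, hc⟩ := hρ
    have hmem : (yy P - em P ρ) * (yy P - em P (-ρ)) ∈ Q := by
      have e : (yy P - em P ρ) * (yy P - em P (-ρ)) = -(em P c) * em P φ := by
        have h1 := yy_sq P
        have h2 : em P (ρ ^ 2 - P) = em P (φ * c) := by rw [hc]
        rw [map_sub, map_pow, map_mul] at h2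
        rw [map_neg]
        linear_combination h1 - h2
      rw [e]
      exact Ideal.mul_mem_left _ _ hm
    have hle : ∀ r : k, yy P - em P r ∈ Q → PI P φ r ≤ Q := by
      intro r hr
      rw [PI, Ideal.span_le]
      rintro z (rfl | rfl)
      · exact hm
      · exact hr
    rcases hQ.mem_or_mem hmem with h1 | h1
    · refine ⟨ρ, ⟨c, hc⟩, ?_⟩
      exact ((PI_isMaximal hφ ⟨c, hc⟩).eq_of_le hQ.ne_top (hle _ h1)).symm
    · have hc' : φ ∣ (-ρ) ^ 2 - P := ⟨c, by rw [neg_sq]; exact hc⟩
      refine ⟨-ρ, hc', ?_⟩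
      exact ((PI_isMaximal hφ hc').eq_of_le hQ.ne_top (hle _ h1)).symm
  · right
    push Not at h
    refine ⟨h, ?_⟩
    refine ((span_isMaximal hφ h).eq_of_le hQ.ne_top ?_).symm
    rw [Ideal.span_singleton_le_iff_mem]
    exact hm

theorem exists_irreducible_mem (hP : ¬ IsSquare P) {Q : Ideal (QR P)} (hQ : Q.IsPrime)
    (h0 : Q ≠ ⊥) : ∃ φ : k, Irreducible φ ∧ em P φ ∈ Q := by
  obtain ⟨a, haQ, ha0⟩ := Submodule.exists_mem_ne_zero_of_ne_bot h0
  obtain ⟨n, hn, e⟩ := exists_norm P hP ha0
  have hnQ : em P n ∈ Q := by rw [← e]; exact Ideal.mul_mem_right _ _ haQ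
  have key : ∀ n : k, n ≠ 0 → em P n ∈ Q → ∃ φ : k, Irreducible φ ∧ em P φ ∈ Q := by
    intro n
    induction n using UniqueFactorizationMonoid.induction_on_prime with
    | h₁ => intro h; exact absurd rfl h
    | h₂ x hx =>
      intro _ hm
      exact absurd (Ideal.eq_top_of_isUnit_mem _ hm (hx.map (em P))) hQ.ne_top
    | h₃ a p ha hp ih =>
      intro _ hm
      rw [map_mul] at hm
      rcases hQ.mem_or_mem hm with h | h
      · exact ⟨p, hp.irreducible, h⟩
      · exact ih ha h
  exact key n hn hnQ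

theorem dimensionLEOne (hP : ¬ IsSquare P) : Ring.DimensionLEOne (QR P) := by
  constructor
  intro Q h0 hQ
  obtain ⟨φ, hφ, hm⟩ := exists_irreducible_mem hP hQ h0
  rcases primes_of_mem hφ hQ hm with ⟨ρ, hρ, rfl⟩ | ⟨h, rfl⟩
  · exact PI_isMaximal hφ hρ
  · exact span_isMaximal hφ h

theorem dvd_of_sq_dvd (hs : Squarefree P) {c v : k} (hc : c ≠ 0) (h : c ^ 2 ∣ v ^ 2 * P) :
    c ∣ v := by
  obtain ⟨d, c', v', hcop, hd, hv⟩ : ∃ d c' v' : k, IsCoprime c' v' ∧ c = d * c' ∧ v = d * v' := by
    have hp := (IsPrincipalIdealRing.principal (Ideal.span {c, v} : Ideal k))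
    obtain ⟨d, hd⟩ := hp
    rw [← Ideal.span] at hd
    have m1 : d ∣ c := by
      rw [← Ideal.mem_span_singleton]
      have : c ∈ Ideal.span {c, v} := Ideal.subset_span (by simp)
      rwa [hd] at this
    have m2 : d ∣ v := by
      rw [← Ideal.mem_span_singleton]
      have : v ∈ Ideal.span {c, v} := Ideal.subset_span (by simp)
      rwa [hd] at this
    obtain ⟨c', hc'⟩ := m1
    obtain ⟨v', hv'⟩ := m2
    have hdm : d ∈ Ideal.span {c, v} := by
      rw [hd]; exact Ideal.subset_span (by simp)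
    rw [Ideal.mem_span_pair] at hdm
    obtain ⟨a, b, e⟩ := hdm
    have hd0 : d ≠ 0 := by rintro rfl; exact hc (by rw [hc']; ring)
    refine ⟨d, c', v', ⟨a, b, ?_⟩, hc', hv'⟩
    apply mul_left_cancel₀ hd0
    rw [hc', hv'] at e
    linear_combination e
  have hd0 : d ≠ 0 := by rintro rfl; exact hc (by rw [hd]; ring)
  have h1 : c' ^ 2 ∣ v' ^ 2 * P := by
    rw [hd, hv, mul_pow, mul_pow, mul_assoc] at h
    exact (mul_dvd_mul_iff_left (pow_ne_zero 2 hd0)).mp h
  have h2 : c' ^ 2 ∣ P := (IsCoprime.pow hcop).dvd_of_dvd_mul_left h1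
  have h3 : IsUnit c' := hs c' (by rw [← sq]; exact h2)
  rw [hd, hv]
  exact mul_dvd_mul_left d (h3.dvd)

theorem isIntegrallyClosed_QR (h2 : IsUnit (2 : k)) (hs : Squarefree P) (hP : ¬ IsSquare P) :
    IsIntegrallyClosed (QR P) := by
  have hdom : IsDomain (QR P) := isDomain_QR P hP
  have hfin : Module.Finite k (QR P) := (monic P).finite_adjoinRoot
  let E := FractionRing (QR P)
  let F := FractionRing k
  have hinjk : Function.Injective (algebraMap k (QR P)) := em_injective P
  have hinjE : Function.Injective (algebraMap (QR P) E) := IsFractionRing.injective (QR P) E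
  have hinj : Function.Injective (algebraMap k E) := by
    rw [IsScalarTower.algebraMap_eq k (QR P) E]
    exact hinjE.comp hinjk
  have hcj : Function.Injective (conj P) := (conj_bijective P).1
  let σ : E →+* E := IsFractionRing.map (A := QR P) (B := QR P) (K := E) (L := E) hcj
  have hσ : ∀ a : QR P, σ (algebraMap (QR P) E a) = algebraMap (QR P) E (conj P a) := by
    intro a
    exact IsLocalization.map_eq _ a
  -- integral elements of the fraction field which lie in `Frac k`
  have key : ∀ (n d : k), d ≠ 0 → IsIntegral k ((algebraMap k E n) / algebraMap k E d) → d ∣ n := by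
    intro n d hd hi
    have hdF : algebraMap k F d ≠ 0 := by
      rwa [Ne, FaithfulSMul.algebraMap_eq_zero_iff]
    let j : F →+* E := IsFractionRing.lift hinj
    have hj : ∀ x : k, j (algebraMap k F x) = algebraMap k E x := fun x =>
      IsFractionRing.lift_algebraMap hinj x
    have hi' : IsIntegral k (algebraMap k F n / algebraMap k F d) := by
      have e : j (algebraMap k F n / algebraMap k F d) =
          algebraMap k E n / algebraMap k E d := by
        rw [map_div₀, hj, hj]
      letI : Algebra F E := j.toAlgebra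
      have : IsScalarTower k F E := IsScalarTower.of_algebraMap_eq (fun x => (hj x).symm)
      rw [← e] at hi
      exact (isIntegral_algebraMap_iff (A := F) (B := E) (RingHom.injective j)).mp hi
    obtain ⟨m, hm⟩ := IsIntegrallyClosed.isIntegral_iff.mp hi'
    refine ⟨m, ?_⟩
    apply IsFractionRing.injective k F
    rw [map_mul, hm, ← mul_div_assoc, mul_div_cancel_left₀ _ hdF]
  rw [isIntegrallyClosed_iff E]
  intro x hx
  have hxk : IsIntegral k x := isIntegral_trans (R := k) (A := QR P) x hx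
  -- write `x = (u + v y) / c`
  obtain ⟨u, v, c, hc, hxe⟩ : ∃ u v c : k, c ≠ 0 ∧
      x = (algebraMap (QR P) E (em P u + em P v * yy P)) / algebraMap k E c := by
    obtain ⟨a, b, hb, e⟩ := IsFractionRing.div_surjective (A := QR P) x
    have hb0 : b ≠ 0 := nonZeroDivisors.ne_zero hb
    obtain ⟨n, hn, en⟩ := exists_norm P hP hb0
    obtain ⟨u, v, hu⟩ := rep P (a * conj P b)
    refine ⟨u, v, n, hn, ?_⟩
    have e1 : algebraMap k E n = algebraMap (QR P) E (b * conj P b) := by
      rw [en]; rfl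
    have hcb : algebraMap (QR P) E (conj P b) ≠ 0 := by
      rw [Ne, map_eq_zero_iff _ hinjE, map_eq_zero_iff _ hcj]
      exact hb0
    rw [← hu, e1, ← e, map_mul, map_mul, mul_div_mul_right _ _ hcb]
  have hc1 : algebraMap k E c ≠ 0 := by rw [Ne, map_eq_zero_iff _ hinj]; exact hc
  have hek : ∀ z : k, algebraMap k E z = algebraMap (QR P) E (em P z) := fun z => rfl
  have hσk : ∀ z : k, σ (algebraMap k E z) = algebraMap k E z := by
    intro z; rw [hek, hσ, conj_em]
  have hσi : IsIntegral k (σ x) := by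
    exact hxk.map_of_comp_eq (RingHom.id k) σ (by ext z; simp [hσk])
  have hσx : σ x = (algebraMap (QR P) E (em P u - em P v * yy P)) / algebraMap k E c := by
    rw [hxe, map_div₀, hσk, hσ]
    congr 2
    rw [map_add, map_mul, conj_em, conj_em, conj_yy]; ring
  have hu : c ∣ u := by
    have h3 : c ∣ 2 * u := by
      apply key (2 * u) c hc
      have e : algebraMap k E (2 * u) / algebraMap k E c = x + σ x := by
        rw [hσx, hxe, hek (2 * u), map_mul (em P), map_ofNat]
        rw [← add_div, ← map_add]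
        congr 2
        ring
      rw [e]
      exact hxk.add hσi
    exact (h2.dvd_mul_left).mp h3
  have hv : c ∣ v := by
    have h3 : c ^ 2 ∣ u ^ 2 - v ^ 2 * P := by
      apply key _ _ (pow_ne_zero 2 hc)
      have e : algebraMap k E (u ^ 2 - v ^ 2 * P) / algebraMap k E (c ^ 2) = x * σ x := by
        rw [hσx, hxe, hek (u ^ 2 - v ^ 2 * P), ← mul_conj]
        rw [div_mul_div_comm, ← map_mul, map_pow, pow_two (algebraMap k E c)]
        congr 2
        rw [map_add, map_mul, conj_em, conj_em, conj_yy]; ring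
      rw [e]
      exact hxk.mul hσi
    have h4 : c ^ 2 ∣ v ^ 2 * P := by
      have := dvd_sub (pow_dvd_pow_of_dvd hu 2) h3
      simpa using this
    exact dvd_of_sq_dvd hs hc h4
  obtain ⟨u', rfl⟩ := hu
  obtain ⟨v', rfl⟩ := hv
  refine ⟨em P u' + em P v' * yy P, ?_⟩
  rw [hxe, eq_div_iff hc1, hek, ← map_mul]
  congr 1
  rw [map_mul, map_mul]; ring

theorem isDedekindDomain_QR (h2 : IsUnit (2 : k)) (hs : Squarefree P) (hP : ¬ IsSquare P) :
    IsDedekindDomain (QR P) := by
  have hd : IsDomain (QR P) := isDomain_QR P hP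
  have hf : Module.Finite k (QR P) := (monic P).finite_adjoinRoot
  have hn : IsNoetherianRing (QR P) := IsNoetherianRing.of_finite k (QR P)
  have hdim := dimensionLEOne hP
  have hic := isIntegrallyClosed_QR h2 hs hP
  exact { }

end pid

end Pool.Agent.Lib.MP_1a0ddd_nt.Quad
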