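import Pool.Agent.Lib.MP_1a0ddd_nt.Quad.TDefs

/-! The rings `Tower R d` have the point count of Lang and Weil. -/

set_option autoImplicit false

namespace Pool.Agent.Lib.MP_1a0ddd_nt.Quad

open Polynomial Filter Topology

theorem langWeil_iso {R S : Type} [CommRing R] [CommRing S] (d : ℕ) (e : R ≃+* S)
    (hR : LangWeil R d) : LangWeil S d := by
  intro D hD
  have h1 : e.symm D ≠ 0 := (map_ne_zero_iff e.symm e.symm.injective).2 hD
  refine (hR (e.symm D) h1).congr fun p => ?_
  congr 2
  refine Nat.card_congr ⟨fun z => ⟨z.1.comp e.symm.toRingHom, ?_⟩,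
    fun z => ⟨z.1.comp e.toRingHom, ?_⟩, fun z => ?_, fun z => ?_⟩
  · exact z.2
  · show z.1 (e (e.symm D)) ≠ 0
    rw [RingEquiv.apply_symm_apply]
    exact z.2
  · refine Subtype.ext (RingHom.ext fun x => ?_)
    show z.1 (e.symm (e x)) = z.1 x
    rw [RingEquiv.symm_apply_apply]
  · refine Subtype.ext (RingHom.ext fun x => ?_)
    show z.1 (e (e.symm x)) = z.1 x
    rw [RingEquiv.apply_symm_apply]

/-- maps `R[1/s] → F_p` not killing `r/s^k` are maps `R → F_p` not killing `r s` -/
theorem langWeil_loc {R : Type} [CommRing R] [IsDomain R] (d : ℕ) (hR : LangWeil R d) (s : R)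
    (hs : s ≠ 0) : LangWeil (Localization.Away s) d := by
  intro D hD
  obtain ⟨⟨r, t⟩, hrt⟩ := IsLocalization.surj (Submonoid.powers s) D
  obtain ⟨k, hk⟩ := t.2
  have hu : IsUnit (algebraMap R (Localization.Away s) s) :=
    IsLocalization.Away.algebraMap_isUnit s
  have hr : r ≠ 0 := by
    intro h
    rw [h, map_zero] at hrt
    have h2 : IsUnit (algebraMap R (Localization.Away s) (t : R)) := by
      rw [← hk, map_pow]
      exact hu.pow k
    exact hD ((h2.mul_left_eq_zero).1 hrt)
  refine ((hR (r * s) (mul_ne_zero hr hs)).congr' ?_)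
  refine Filter.eventually_inf_principal.2 (Filter.Eventually.of_forall fun p hp => ?_)
  have : Fact p.Prime := ⟨hp⟩
  have hD' : ∀ z : Localization.Away s →+* ZMod p, z D ≠ 0 ↔
      z (algebraMap R (Localization.Away s) r) ≠ 0 := by
    intro z
    have h1 : z D * z (algebraMap R (Localization.Away s) (t : R)) =
        z (algebraMap R (Localization.Away s) r) := by
      rw [← map_mul, hrt]
    have h2 : z (algebraMap R (Localization.Away s) (t : R)) ≠ 0 := by
      have h3 : IsUnit (algebraMap R (Localization.Away s) (t : R)) := by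
        rw [← hk, map_pow]
        exact hu.pow k
      exact (h3.map z).ne_zero
    rw [← h1, mul_ne_zero_iff]
    exact ⟨fun h => ⟨h, h2⟩, fun h => h.1⟩
  have key : Nat.card {z : Localization.Away s →+* ZMod p // z D ≠ 0} =
      Nat.card {z : R →+* ZMod p // z (r * s) ≠ 0} := ?_
  · show ((Nat.card {z : R →+* ZMod p // z (r * s) ≠ 0} : ℕ) : ℝ) / (p : ℝ) ^ d =
      ((Nat.card {z : Localization.Away s →+* ZMod p // z D ≠ 0} : ℕ) : ℝ) / (p : ℝ) ^ d
    rw [key]
  refine Nat.card_congr ⟨fun z => ⟨z.1.comp (algebraMap R (Localization.Away s)), ?_⟩,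
    fun z => ⟨IsLocalization.Away.lift (S := Localization.Away s) s (g := z.1) ?_, ?_⟩,
    fun z => ?_, fun z => ?_⟩
  · show z.1 (algebraMap R (Localization.Away s) (r * s)) ≠ 0
    rw [map_mul, map_mul, mul_ne_zero_iff]
    exact ⟨(hD' z.1).1 z.2, (hu.map z.1).ne_zero⟩
  · have h1 := z.2
    rw [map_mul, mul_ne_zero_iff] at h1
    exact isUnit_iff_ne_zero.2 h1.2
  · have h1 := z.2
    rw [map_mul, mul_ne_zero_iff] at h1
    rw [hD', IsLocalization.Away.lift_eq]
    exact h1.1
  · refine Subtype.ext (IsLocalization.ringHom_ext (Submonoid.powers s) ?_)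
    exact IsLocalization.Away.lift_comp (S := Localization.Away s) s
      (g := z.1.comp (algebraMap R (Localization.Away s))) (hu.map z.1)
  · refine Subtype.ext ?_
    have h1 := z.2
    rw [map_mul, mul_ne_zero_iff] at h1
    exact IsLocalization.Away.lift_comp (S := Localization.Away s) s (g := z.1)
      (isUnit_iff_ne_zero.2 h1.2)

private theorem tt_fin {R S : Type} [CommRing R] [CommRing S] [Algebra R S]
    (h1 : Algebra.FiniteType ℤ R) (h2 : Algebra.FiniteType R S) : Algebra.FiniteType ℤ S :=
  h1.trans h2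

/-- induction; `langWeil_int`, `langWeil_poly`, `langWeil_hyp` (with `card_curve`),
`hypRing_isDomain`, `hypRing_charZero`; finite type: `AdjoinRoot.finiteType`, transitivity -/
theorem tower_spec (R : Type) [CommRing R] (d : ℕ) (h : Tower R d) :
    IsDomain R ∧ CharZero R ∧ Algebra.FiniteType ℤ R ∧ LangWeil R d := by
  induction h with
  | int => exact ⟨inferInstance, inferInstance, inferInstance, langWeil_int⟩
  | @poly R _ d hR ih =>
    obtain ⟨h1, h2, h3, h4⟩ := ih
    refine ⟨inferInstance, inferInstance, ?_, langWeil_poly R d h4⟩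
    exact h3.trans (inferInstance : Algebra.FiniteType R R[X])
  | @hyp R _ d hR h hm ho ih =>
    obtain ⟨h1, h2, h3, h4⟩ := ih
    refine ⟨hypRing_isDomain R h hm ho, hypRing_charZero R h hm ho, ?_,
      langWeil_hyp card_curve R d h4 h hm ho⟩
    have h5 : Algebra.FiniteType ℤ R[X] := h3.trans (inferInstance : Algebra.FiniteType R R[X])
    have h6 : Algebra.FiniteType R[X] (HypRing R h) := inferInstance
    exact h5.trans h6
  | @loc R _ d hR s hs ih =>
    obtain ⟨h1, h2, h3, h4⟩ := ih
    have h5 : Submonoid.powers s ≤ nonZeroDivisors R :=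
      powers_le_nonZeroDivisors_of_noZeroDivisors hs
    refine ⟨IsLocalization.isDomain_localization h5, ?_, ?_, langWeil_loc d h4 s hs⟩
    · exact charZero_of_injective_algebraMap (R := R)
        (IsLocalization.injective (Localization.Away s) h5)
    · have h6 : Algebra.FiniteType R (Localization.Away s) :=
        IsLocalization.finiteType_of_monoid_fg (Submonoid.powers s) _
      exact tt_fin h3 h6
  | @iso R S _ _ d hR e ih =>
    obtain ⟨h1, h2, h3, h4⟩ := ih
    have h5 : IsDomain S := MulEquiv.isDomain R e.symm.toMulEquiv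
    refine ⟨h5, ?_, ?_, langWeil_iso d e h4⟩
    · exact charZero_of_injective_ringHom (f := e.toRingHom) e.injective
    · exact h3.of_surjective (e.toRingHom.toIntAlgHom) e.surjective

theorem langWeilT_of (R : Type) [CommRing R] (d : ℕ) (h : LangWeil R d) : LangWeilT R d :=
  fun D hD => tauber _ _ (h D hD)

end Pool.Agent.Lib.MP_1a0ddd_nt.Quad
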