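import Mathlib

/-! Classes of ideals (public version of the lemmas of `Pic2.lean`). -/

set_option autoImplicit false

namespace Pool.Agent.Lib.MP_1a0ddd_nt.Quad

open Polynomial nonZeroDivisors

variable {A : Type} [CommRing A] [IsDedekindDomain A]

/-- the class of an ideal, `0` for the zero ideal -/
noncomputable def clg (I : Ideal A) : Additive (ClassGroup A) := by
  classical
  exact if h : I ≠ ⊥ then Additive.ofMul (ClassGroup.mk0 ⟨I, mem_nonZeroDivisors_iff_ne_zero.2 h⟩)
    else 0

theorem clg_of {I : Ideal A} (h : I ≠ ⊥) :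
    clg I = Additive.ofMul (ClassGroup.mk0 ⟨I, mem_nonZeroDivisors_iff_ne_zero.2 h⟩) := by
  rw [clg, dif_pos h]

theorem clg_mul {I J : Ideal A} (hI : I ≠ ⊥) (hJ : J ≠ ⊥) :
    clg (I * J) = clg I + clg J := by
  have hIJ : I * J ≠ ⊥ := mul_ne_zero hI hJ
  rw [clg_of hI, clg_of hJ, clg_of hIJ, ← ofMul_mul, ← map_mul]
  rfl

theorem clg_eq_zero {I : Ideal A} (hI : I ≠ ⊥) : clg I = 0 ↔ ∃ a, I = Ideal.span {a} := by
  rw [clg_of hI]
  have h1 : Additive.ofMul (ClassGroup.mk0 ⟨I, mem_nonZeroDivisors_iff_ne_zero.2 hI⟩) = 0 ↔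
      ClassGroup.mk0 ⟨I, mem_nonZeroDivisors_iff_ne_zero.2 hI⟩ = 1 := Iff.rfl
  rw [h1, ClassGroup.mk0_eq_one_iff, Submodule.isPrincipal_iff]

theorem clg_span {a : A} : clg (Ideal.span {a}) = 0 := by
  by_cases h : Ideal.span {a} = (⊥ : Ideal A)
  · rw [clg, dif_neg (not_not.2 h)]
  · exact (clg_eq_zero h).2 ⟨a, rfl⟩

theorem clg_top : clg (⊤ : Ideal A) = 0 := by
  rw [← Ideal.span_singleton_one]
  exact clg_span

theorem clg_surj (c : Additive (ClassGroup A)) : ∃ I : Ideal A, I ≠ ⊥ ∧ clg I = c := by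
  obtain ⟨I, hI⟩ := ClassGroup.mk0_surjective (Additive.toMul c)
  have h : (I : Ideal A) ≠ ⊥ := mem_nonZeroDivisors_iff_ne_zero.1 I.2
  refine ⟨I, h, ?_⟩
  rw [clg_of h]
  exact hI

theorem clg_pow {I : Ideal A} (hI : I ≠ ⊥) (n : ℕ) : clg (I ^ n) = n • clg I := by
  induction n with
  | zero => rw [pow_zero, zero_smul, Ideal.one_eq_top, clg_top]
  | succ n ih =>
    rw [pow_succ, clg_mul (pow_ne_zero n hI) hI, ih, succ_nsmul]

theorem clg_prod {ι : Type} (s : Finset ι) (I : ι → Ideal A) (hI : ∀ i ∈ s, I i ≠ ⊥) :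
    clg (∏ i ∈ s, I i) = ∑ i ∈ s, clg (I i) := by
  classical
  induction s using Finset.induction_on with
  | empty => rw [Finset.prod_empty, Finset.sum_empty, Ideal.one_eq_top, clg_top]
  | insert i s hi ih =>
    rw [Finset.prod_insert hi, Finset.sum_insert hi,
      clg_mul (hI i (Finset.mem_insert_self i s))
        (Finset.prod_ne_zero_iff.2 fun j hj => hI j (Finset.mem_insert_of_mem hj)),
      ih fun j hj => hI j (Finset.mem_insert_of_mem hj)]

/-- if the classes of all primes containing `I` are in a subgroup then so is the class of `I` -/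
theorem clg_mem (S : AddSubgroup (Additive (ClassGroup A))) (I : Ideal A) (hI : I ≠ ⊥)
    (h : ∀ P : Ideal A, P.IsPrime → P ≠ ⊥ → I ≤ P → clg P ∈ S) : clg I ∈ S := by
  revert hI h
  refine UniqueFactorizationMonoid.induction_on_prime
    (P := fun I : Ideal A => I ≠ ⊥ → (∀ P : Ideal A, P.IsPrime → P ≠ ⊥ → I ≤ P → clg P ∈ S) →
      clg I ∈ S) I ?_ ?_ ?_
  · intro h
    exact absurd rfl h
  · intro J hJ _ _
    rw [Ideal.isUnit_iff.1 hJ, clg_top]
    exact S.zero_mem
  · intro J P hJ hP ih _ h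
    have hP1 : P.IsPrime := Ideal.isPrime_of_prime hP
    rw [clg_mul hP.ne_zero hJ]
    refine S.add_mem (h P hP1 hP.ne_zero Ideal.mul_le_left) (ih hJ fun Q hQ hQ0 hJQ => ?_)
    exact h Q hQ hQ0 (Ideal.mul_le_right.trans hJQ)

/-- a subgroup such that of two primes one has its class in it or the product has -/
theorem clg_index (S : AddSubgroup (Additive (ClassGroup A)))
    (h : ∀ Q Q' : Ideal A, Q.IsPrime → Q'.IsPrime → Q ≠ ⊥ → Q' ≠ ⊥ →
      clg Q ∈ S ∨ clg Q' ∈ S ∨ clg Q + clg Q' ∈ S) : S.index = 1 ∨ S.index = 2 := by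
  by_cases hall : ∀ Q : Ideal A, Q.IsPrime → Q ≠ ⊥ → clg Q ∈ S
  · left
    rw [AddSubgroup.index_eq_one, eq_top_iff]
    intro c _
    obtain ⟨I, hI, rfl⟩ := clg_surj c
    exact clg_mem S I hI fun P hP hP0 _ => hall P hP hP0
  · right
    push Not at hall
    obtain ⟨Q0, hQ0, hQ00, hx⟩ := hall
    have h2 : clg Q0 + clg Q0 ∈ S := by
      rcases h Q0 Q0 hQ0 hQ0 hQ00 hQ00 with h1 | h1 | h1
      · exact absurd h1 hx
      · exact absurd h1 hx
      · exact h1
    rw [AddSubgroup.index_eq_two_iff]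
    refine ⟨clg Q0, ?_⟩
    let T : AddSubgroup (Additive (ClassGroup A)) :=
      { carrier := {g | g ∈ S ∨ g + clg Q0 ∈ S}
        zero_mem' := Or.inl S.zero_mem
        add_mem' := by
          rintro g g' (hg | hg) (hg' | hg')
          · exact Or.inl (S.add_mem hg hg')
          · right
            have := S.add_mem hg hg'
            rwa [← add_assoc] at this
          · right
            have := S.add_mem hg hg'
            rwa [add_right_comm] at this
          · left
            have h3 := S.sub_mem (S.add_mem hg hg') h2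
            have h4 : g + clg Q0 + (g' + clg Q0) - (clg Q0 + clg Q0) = g + g' := by abel
            rwa [h4] at h3
        neg_mem' := by
          rintro g (hg | hg)
          · exact Or.inl (S.neg_mem hg)
          · right
            have h3 := S.add_mem (S.neg_mem hg) h2
            have h4 : -(g + clg Q0) + (clg Q0 + clg Q0) = -g + clg Q0 := by abel
            rwa [h4] at h3 }
    have hT : ∀ g, g ∈ T := by
      intro g
      obtain ⟨I, hI, rfl⟩ := clg_surj g
      refine clg_mem T I hI fun P hP hP0 _ => ?_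
      rcases h P Q0 hP hQ0 hP0 hQ00 with h1 | h1 | h1
      · exact Or.inl h1
      · exact absurd h1 hx
      · exact Or.inr h1
    intro g
    rcases hT g with hg | hg
    · right
      refine ⟨hg, fun h3 => hx ?_⟩
      have h4 := S.sub_mem h3 hg
      rwa [add_sub_cancel_left] at h4
    · left
      refine ⟨hg, fun h3 => hx ?_⟩
      have h4 := S.sub_mem hg h3
      rwa [add_sub_cancel_left] at h4

end Pool.Agent.Lib.MP_1a0ddd_nt.Quad
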