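import Pool.Agent.Lib.MP_1a0ddd_nt.Quad.Ext2

/-! The affine conic `y² = α t² + 2 β t + γ` over a field: the class group has order at most two. -/

set_option autoImplicit false

namespace Pool.Agent.Lib.MP_1a0ddd_nt.Quad

open Polynomial

variable {κ : Type} [Field κ]

/-- the polynomial `α t² + 2 β t + γ` -/
noncomputable def cq (α β γ : κ) : κ[X] := C α * X ^ 2 + C (2 * β) * X + C γ

private theorem cq_coeff (α β γ : κ) : (cq α β γ).coeff 0 = γ ∧ (cq α β γ).coeff 1 = 2 * β ∧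
    (cq α β γ).coeff 2 = α := by
  refine ⟨?_, ?_, ?_⟩ <;>
  simp [cq, coeff_X, coeff_C, coeff_X_pow]

private theorem cq_natDegree_le (α β γ : κ) : (cq α β γ).natDegree ≤ 2 := by
  rw [cq]
  compute_degree

private theorem cq_eval (α β γ s : κ) :
    (cq α β γ).eval s = α * s ^ 2 + 2 * β * s + γ := by
  simp [cq]

theorem cq_not_isSquare (h2 : (2 : κ) ≠ 0) {α β γ : κ} (hα : α ≠ 0) (hd : β ^ 2 - α * γ ≠ 0) :
    ¬ IsSquare (cq α β γ) := by
  rintro ⟨s, hs⟩
  have hdeg : s.natDegree ≤ 1 := by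
    have h1 : (s * s).natDegree = s.natDegree + s.natDegree := by
      by_cases h0 : s = 0
      · simp [h0]
      · exact natDegree_mul h0 h0
    have h3 := cq_natDegree_le α β γ
    rw [hs, h1] at h3
    omega
  obtain ⟨p, q, hpq⟩ := exists_eq_X_add_C_of_natDegree_le_one hdeg
  have e : cq α β γ = C (p ^ 2) * X ^ 2 + C (2 * p * q) * X + C (q ^ 2) := by
    rw [hs, hpq]
    simp only [C_mul, C_pow, C_ofNat]
    ring
  obtain ⟨c0, c1, c2⟩ := cq_coeff α β γ
  rw [e] at c0 c1 c2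
  simp only [coeff_add, coeff_C_mul, coeff_X_pow, coeff_X, coeff_C] at c0 c1 c2
  norm_num at c0 c1 c2
  apply hd
  have hb : β = p * q := by
    apply mul_left_cancel₀ h2
    rw [← c1]
    ring
  rw [hb, ← c0, ← c2]
  ring

theorem cq_squarefree (h2 : (2 : κ) ≠ 0) {α β γ : κ} (hα : α ≠ 0) (hd : β ^ 2 - α * γ ≠ 0) :
    Squarefree (cq α β γ) := by
  apply Separable.squarefree
  have hder : derivative (cq α β γ) = C (2 * α) * X + C (2 * β) := by
    rw [cq, derivative_add, derivative_add, derivative_C_mul, derivative_C_mul, derivative_C,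
      derivative_X_pow, derivative_X]
    simp only [mul_one, add_zero, C_mul, C_ofNat, Nat.cast_ofNat, pow_one,
      Nat.add_one_sub_one]
    ring
  rw [separable_def, hder]
  refine ⟨C (-(α / (β ^ 2 - α * γ))), C (1 / (2 * (β ^ 2 - α * γ))) * (C α * X + C β), ?_⟩
  have hid : C (-α) * cq α β γ + (C α * X + C β) * (C α * X + C β) = C (β ^ 2 - α * γ) := by
    rw [cq]
    simp only [C_mul, C_ofNat, C_neg, C_sub, C_pow]
    ring
  have e1 : (C (-(α / (β ^ 2 - α * γ))) : κ[X]) = C (1 / (β ^ 2 - α * γ)) * C (-α) := by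
    rw [← C_mul]
    congr 1
    field_simp
  have e2 : (C (1 / (2 * (β ^ 2 - α * γ))) * (C α * X + C β) * (C (2 * α) * X + C (2 * β)) : κ[X]) =
      C (1 / (β ^ 2 - α * γ)) * ((C α * X + C β) * (C α * X + C β)) := by
    have e3 : (C (2 * α) * X + C (2 * β) : κ[X]) = C 2 * (C α * X + C β) := by
      simp only [C_mul]
      ring
    have e4 : (C (1 / (β ^ 2 - α * γ)) : κ[X]) = C (1 / (2 * (β ^ 2 - α * γ))) * C 2 := by
      rw [← C_mul]
      congr 1
      field_simp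
    rw [e3, e4]
    ring
  rw [e1, e2, mul_assoc, ← mul_add, hid, ← C_mul, one_div, inv_mul_cancel₀ hd, C_1]

private theorem isUnit_two' (h2 : (2 : κ) ≠ 0) : IsUnit (2 : κ[X]) := by
  have h3 : (2 : κ[X]) = C 2 := by rw [C_ofNat]
  rw [h3, isUnit_C]
  exact isUnit_iff_ne_zero.2 h2

private theorem princ_of {A : Type} [CommRing A] [IsDomain A] {I : Ideal A} {u w : A} (hu : u ≠ 0)
    (hw : w ≠ 0) (h : Ideal.span {u} * I = Ideal.span {w}) :
    ∃ z : A, z ≠ 0 ∧ I = Ideal.span {z} := by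
  have h1 : w ∈ Ideal.span {u} * I := by
    rw [h]
    exact Ideal.mem_span_singleton_self w
  have h2 : w ∈ Ideal.span {u} := Ideal.mul_le_left h1
  rw [Ideal.mem_span_singleton] at h2
  obtain ⟨z, rfl⟩ := h2
  refine ⟨z, right_ne_zero_of_mul hw, ?_⟩
  rw [← Ideal.span_singleton_mul_span_singleton] at h
  exact (Ideal.span_singleton_mul_right_inj hu).1 h

private theorem yy_sub_ne (P ρ : κ[X]) : yy P - em P ρ ≠ 0 := by
  intro h
  have := uniq P (u := -ρ) (v := 1) (by rw [map_neg, map_one, one_mul, ← h]; ring)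
  exact one_ne_zero this.2

private theorem em_X_sub_ne (P : κ[X]) (s : κ) : em P (X - C s) ≠ 0 := by
  intro h
  have := em_injective P (h.trans (map_zero _).symm)
  exact X_sub_C_ne_zero s this

/-- reduction of forms: every `(φ, y - ρ)` is, up to a nonzero element and up to the inverse, equal
to `1` or to `(t - s, y - r)` with `r² = P(s)`. Proof by strong induction on the degree of `φ`:
reduce `ρ` modulo `φ` (`PI_congr`), write `φ φ' = ρ² - P` and use `PI_comp`; if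
`φ` has degree `e ≥ 2` then `φ'` has degree at most `e - 2`. -/
theorem reduce_form (h2 : (2 : κ) ≠ 0) {α β γ : κ} (hα : α ≠ 0) (hd : β ^ 2 - α * γ ≠ 0)
    (φ ρ : κ[X]) (hφ : φ ≠ 0) (h : φ ∣ ρ ^ 2 - cq α β γ) :
    ∃ J : Ideal (QR (cq α β γ)),
      (J = ⊤ ∨ ∃ s r : κ, r ^ 2 = (cq α β γ).eval s ∧ J = PI (cq α β γ) (X - C s) (C r)) ∧
      ((∃ u v : QR (cq α β γ), u ≠ 0 ∧ v ≠ 0 ∧
          Ideal.span {u} * PI (cq α β γ) φ ρ = Ideal.span {v} * J) ∨
        (∃ u : QR (cq α β γ), u ≠ 0 ∧ PI (cq α β γ) φ ρ * J = Ideal.span {u})) := by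
  have hns := cq_not_isSquare h2 hα hd
  have hsf := cq_squarefree h2 hα hd
  have h2u := isUnit_two' h2
  have : IsDomain (QR (cq α β γ)) := isDomain_QR _ hns
  induction hn : φ.natDegree using Nat.strong_induction_on generalizing φ ρ with
  | _ n ih =>
  by_cases h0 : n = 0
  · -- a constant
    subst h0
    refine ⟨⊤, Or.inl rfl, Or.inl ⟨1, 1, one_ne_zero, one_ne_zero, ?_⟩⟩
    congr 1
    rw [Ideal.eq_top_iff_one]
    have hu : IsUnit φ := by
      rw [eq_C_of_natDegree_eq_zero hn] at hφ ⊢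
      rw [isUnit_C]
      exact isUnit_iff_ne_zero.2 (fun h => hφ (by rw [h, C_0]))
    have h3 : em (cq α β γ) φ ∈ PI (cq α β γ) φ ρ := Ideal.subset_span (by simp)
    rw [Ideal.eq_top_of_isUnit_mem _ h3 (hu.map _)]
    trivial
  by_cases h1 : n = 1
  · -- a point
    subst h1
    obtain ⟨p, q, hpq⟩ := exists_eq_X_add_C_of_natDegree_le_one hn.le
    have hp : p ≠ 0 := by
      rintro rfl
      rw [hpq] at hn
      simp at hn
    have e1 : φ = C p * (X - C (-(q / p))) := by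
      rw [hpq, mul_sub, ← C_mul]
      have : p * -(q / p) = -q := by field_simp
      rw [this, C_neg, sub_neg_eq_add]
    have hpu : IsUnit (C p : κ[X]) := isUnit_C.2 (isUnit_iff_ne_zero.2 hp)
    generalize hs : -(q / p) = s at e1
    refine ⟨PI (cq α β γ) (X - C s) (C (ρ.eval s)), Or.inr ⟨s, ρ.eval s, ?_, rfl⟩,
      Or.inl ⟨1, 1, one_ne_zero, one_ne_zero, ?_⟩⟩
    · have h3 : (X - C s) ∣ ρ ^ 2 - cq α β γ := (Dvd.intro_left _ e1.symm).trans h
      rw [dvd_iff_isRoot, IsRoot, eval_sub, eval_pow] at h3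
      exact sub_eq_zero.1 h3
    · congr 1
      rw [e1, PI_unit_mul _ hpu]
      apply PI_congr
      rw [dvd_iff_isRoot, IsRoot, eval_sub, eval_C, sub_self]
  -- degree at least two
  have hρ' : φ ∣ ρ - ρ % φ := by
    refine ⟨ρ / φ, ?_⟩
    have := EuclideanDomain.div_add_mod ρ φ
    linear_combination -this
  have hdρ : (ρ % φ).natDegree < n := by
    rw [← hn]
    exact natDegree_mod_lt ρ (by omega)
  have hd2 : φ ∣ (ρ % φ) ^ 2 - cq α β γ := by
    have h3 : (ρ % φ) ^ 2 - cq α β γ = (ρ ^ 2 - cq α β γ) - (ρ - ρ % φ) * (ρ + ρ % φ) := by ring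
    rw [h3]
    exact dvd_sub h (Dvd.dvd.mul_right hρ' _)
  rw [PI_congr _ hρ']
  generalize ρ % φ = σ at hdρ hd2
  obtain ⟨φ', hφ'⟩ := hd2
  have hne : σ ^ 2 - cq α β γ ≠ 0 := by
    intro h3
    exact hns ⟨σ, by rw [← sq]; exact (sub_eq_zero.1 h3).symm⟩
  have hφ'0 : φ' ≠ 0 := by
    rintro rfl
    rw [mul_zero] at hφ'
    exact hne hφ'
  have hdeg : φ'.natDegree < n := by
    have h3 : (φ * φ').natDegree = n + φ'.natDegree := by
      rw [natDegree_mul hφ hφ'0, hn]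
    have h4 : (σ ^ 2 - cq α β γ).natDegree ≤ 2 * n - 2 := by
      refine (natDegree_sub_le _ _).trans (max_le ?_ ?_)
      · refine natDegree_pow_le.trans ?_
        omega
      · refine (cq_natDegree_le α β γ).trans ?_
        omega
    rw [hφ', h3] at h4
    omega
  have hdvd : φ' ∣ σ ^ 2 - cq α β γ := Dvd.intro_left _ hφ'.symm
  have hcomp := PI_comp h2u hsf hφ'.symm
  obtain ⟨J, hJ, hor⟩ := ih _ hdeg φ' σ hφ'0 hdvd rfl
  refine ⟨J, hJ, ?_⟩
  rcases hor with ⟨u, v, hu, hv, e⟩ | ⟨u, hu, e⟩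
  · right
    have e3 : Ideal.span {v} * (PI (cq α β γ) φ σ * J) =
        Ideal.span {u * (yy (cq α β γ) - em (cq α β γ) σ)} := by
      rw [← Ideal.span_singleton_mul_span_singleton, ← hcomp, mul_left_comm, ← e]
      ring
    exact princ_of hv (mul_ne_zero hu (yy_sub_ne _ _)) e3
  · left
    refine ⟨u, yy (cq α β γ) - em (cq α β γ) σ, hu, yy_sub_ne _ _, ?_⟩
    rw [← hcomp, ← e]
    ring

private theorem line_id (α β γ m s r s' : κ) :
    (C m * (X - C s) + C r) ^ 2 - cq α β γ =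
      (X - C s) * (C (m ^ 2 - α) * (X - C s')) +
      C (m ^ 2 * (s' - s) + 2 * m * r - 2 * β - α * (s + s')) * (X - C s) +
      C (r ^ 2 - (cq α β γ).eval s) := by
  rw [cq_eval, cq]
  simp only [C_mul, C_add, C_sub, C_pow, C_ofNat]
  ring

private theorem point_mul_aux (h2 : (2 : κ) ≠ 0) {α β γ : κ} (hα : ¬ IsSquare α)
    (hd : β ^ 2 - α * γ ≠ 0) {s r s' r' m : κ} (h : r ^ 2 = (cq α β γ).eval s)
    (h1 : m ^ 2 * (s' - s) + 2 * m * r - 2 * β - α * (s + s') = 0)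
    (h3 : m * (s' - s) + r = r') :
    ∃ u : QR (cq α β γ), u ≠ 0 ∧
      PI (cq α β γ) (X - C s) (C r) * PI (cq α β γ) (X - C s') (C r') = Ideal.span {u} := by
  have hα0 : α ≠ 0 := fun h0 => hα ⟨0, by rw [h0, mul_zero]⟩
  have hsf := cq_squarefree h2 hα0 hd
  have hc : m ^ 2 - α ≠ 0 := by
    intro h4
    exact hα ⟨m, by rw [← sq]; exact (sub_eq_zero.1 h4).symm⟩
  have hcu : IsUnit (C (m ^ 2 - α) : κ[X]) := isUnit_C.2 (isUnit_iff_ne_zero.2 hc)
  have e := line_id α β γ m s r s'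
  rw [h1, h, sub_self, C_0, zero_mul, add_zero, add_zero] at e
  have hcomp := PI_comp (isUnit_two' h2) hsf e.symm
  refine ⟨yy (cq α β γ) - em (cq α β γ) (C m * (X - C s) + C r), yy_sub_ne _ _, ?_⟩
  rw [← hcomp, PI_unit_mul _ hcu]
  have e1 : PI (cq α β γ) (X - C s) (C r) =
      PI (cq α β γ) (X - C s) (C m * (X - C s) + C r) := by
    apply PI_congr
    exact ⟨-C m, by ring⟩
  have e2 : PI (cq α β γ) (X - C s') (C r') =
      PI (cq α β γ) (X - C s') (C m * (X - C s) + C r) := by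
    apply PI_congr
    refine ⟨-C m, ?_⟩
    rw [← h3]
    simp only [C_mul, C_add, C_sub]
    ring
  rw [e1, e2]

/-- the product of two points is principal. Proof: if `s ≠ s'` take the linear `ρ` with
`ρ(s) = r`, `ρ(s') = r'`, then `ρ² - P = c (t - s)(t - s')`, `c = (slope)² - α`; if `c ≠ 0` use
`PI_comp`, `PI_congr`, `PI_unit_mul`; `c = 0` is impossible if `α` is not a square. If `s = s'`
and `r' = -r` use `PI_mul_neg`. If `s = s'`, `r = r' ≠ 0` take the tangent: slope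
`(α s + β)/r`, `ρ² - P = (slope² - α)(t - s)²`. -/
theorem point_mul (h2 : (2 : κ) ≠ 0) {α β γ : κ} (hα : ¬ IsSquare α) (hd : β ^ 2 - α * γ ≠ 0)
    {s r s' r' : κ} (h : r ^ 2 = (cq α β γ).eval s) (h' : r' ^ 2 = (cq α β γ).eval s') :
    ∃ u : QR (cq α β γ), u ≠ 0 ∧
      PI (cq α β γ) (X - C s) (C r) * PI (cq α β γ) (X - C s') (C r') = Ideal.span {u} := by
  by_cases hss : s' = s
  · subst hss
    by_cases hrr : r' = -r
    · have hα0 : α ≠ 0 := fun h0 => hα ⟨0, by rw [h0, mul_zero]⟩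
      have hsf := cq_squarefree h2 hα0 hd
      refine ⟨em (cq α β γ) (X - C s'), em_X_sub_ne _ _, ?_⟩
      rw [hrr, C_neg]
      apply PI_mul_neg (isUnit_two' h2) hsf
      rw [dvd_iff_isRoot, IsRoot, eval_sub, eval_pow, eval_C, h, sub_self]
    · have hr : r' = r := by
        have h3 : (r' - r) * (r' + r) = 0 := by
          have : r' ^ 2 = r ^ 2 := by rw [h, h']
          linear_combination this
        rcases mul_eq_zero.1 h3 with h4 | h4
        · exact sub_eq_zero.1 h4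
        · exact absurd (eq_neg_of_add_eq_zero_left h4) hrr
      have hr0 : r ≠ 0 := by
        intro h3
        apply hrr
        rw [hr, h3, neg_zero]
      refine point_mul_aux h2 hα hd (m := (α * s' + β) / r) h ?_ ?_
      · have h3 : (α * s' + β) / r * r = α * s' + β := div_mul_cancel₀ _ hr0
        linear_combination 2 * h3
      · rw [sub_self, mul_zero, zero_add, hr]
  · have hs0 : s' - s ≠ 0 := sub_ne_zero.2 hss
    have hm : (r' - r) / (s' - s) * (s' - s) = r' - r := div_mul_cancel₀ _ hs0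
    refine point_mul_aux h2 hα hd (m := (r' - r) / (s' - s)) h ?_ ?_
    · generalize (r' - r) / (s' - s) = m at hm
      apply mul_left_cancel₀ hs0
      rw [cq_eval] at h h'
      linear_combination (m * (s' - s) + (r' - r) + 2 * r) * hm - h + h'
    · rw [hm]
      ring

private theorem point_neg (h2 : (2 : κ) ≠ 0) {α β γ : κ} (hα : α ≠ 0)
    (hd : β ^ 2 - α * γ ≠ 0) {s r : κ} (h : r ^ 2 = (cq α β γ).eval s) :
    PI (cq α β γ) (X - C s) (C r) * PI (cq α β γ) (X - C s) (C (-r)) =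
      Ideal.span {em (cq α β γ) (X - C s)} := by
  rw [C_neg]
  apply PI_mul_neg (isUnit_two' h2) (cq_squarefree h2 hα hd)
  rw [dvd_iff_isRoot, IsRoot, eval_sub, eval_pow, eval_C, h, sub_self]

/-- a prime is principal or equivalent to a point -/
private theorem prime_point (h2 : (2 : κ) ≠ 0) {α β γ : κ} (hα : α ≠ 0)
    (hd : β ^ 2 - α * γ ≠ 0) (Q : Ideal (QR (cq α β γ))) (hQ : Q.IsPrime)
    (h0 : Q ≠ ⊥) :
    (∃ u, Q = Ideal.span {u}) ∨ ∃ (u v : QR (cq α β γ)) (s r : κ), u ≠ 0 ∧ v ≠ 0 ∧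
      r ^ 2 = (cq α β γ).eval s ∧
      Ideal.span {u} * Q = Ideal.span {v} * PI (cq α β γ) (X - C s) (C r) := by
  have hns := cq_not_isSquare h2 hα hd
  have : IsDomain (QR (cq α β γ)) := isDomain_QR _ hns
  obtain ⟨φ, hφ, hm⟩ := exists_irreducible_mem hns hQ h0
  rcases primes_of_mem hφ hQ hm with ⟨ρ, hρ, e⟩ | ⟨-, e⟩
  · obtain ⟨J, hJ, hor⟩ := reduce_form h2 hα hd φ ρ hφ.ne_zero hρ
    rw [← e] at hor
    rcases hJ with rfl | ⟨s, r, hsr, rfl⟩
    · left
      rcases hor with ⟨u, v, hu, hv, e1⟩ | ⟨u, hu, e1⟩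
      · rw [Ideal.mul_top] at e1
        obtain ⟨z, -, hz⟩ := princ_of hu hv e1
        exact ⟨z, hz⟩
      · rw [Ideal.mul_top] at e1
        exact ⟨u, e1⟩
    · right
      rcases hor with ⟨u, v, hu, hv, e1⟩ | ⟨u, hu, e1⟩
      · exact ⟨u, v, s, r, hu, hv, hsr, e1⟩
      · refine ⟨em (cq α β γ) (X - C s), u, s, -r, em_X_sub_ne _ _, hu, by rw [neg_sq]; exact hsr,
          ?_⟩
        rw [← point_neg h2 hα hd hsr, ← e1]
        ring
  · exact Or.inl ⟨_, e⟩

/-- the class group of the conic has order at most two: for two nonzero primes one of them or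
their product is principal. Proof: `exists_irreducible_mem`, `primes_of_mem`, `reduce_form`,
`point_mul`, and `(t - s, y - r) (t - s, y + r) = (t - s)` (`PI_mul_neg`). -/
theorem conic_pairs (h2 : (2 : κ) ≠ 0) {α β γ : κ} (hα : ¬ IsSquare α)
    (hd : β ^ 2 - α * γ ≠ 0) (Q Q' : Ideal (QR (cq α β γ))) (hQ : Q.IsPrime) (hQ' : Q'.IsPrime)
    (h0 : Q ≠ ⊥) (h0' : Q' ≠ ⊥) :
    (∃ u, Q = Ideal.span {u}) ∨ (∃ u, Q' = Ideal.span {u}) ∨ (∃ u, Q * Q' = Ideal.span {u}) := by
  have hα0 : α ≠ 0 := fun h0 => hα ⟨0, by rw [h0, mul_zero]⟩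
  have : IsDomain (QR (cq α β γ)) := isDomain_QR _ (cq_not_isSquare h2 hα0 hd)
  rcases prime_point h2 hα0 hd Q hQ h0 with h1 | ⟨u, v, s, r, hu, hv, hsr, e⟩
  · exact Or.inl h1
  rcases prime_point h2 hα0 hd Q' hQ' h0' with h1 | ⟨u', v', s', r', hu', hv', hsr', e'⟩
  · exact Or.inr (Or.inl h1)
  right; right
  obtain ⟨w, hw, ew⟩ := point_mul h2 hα hd hsr hsr'
  have key : Ideal.span {u * u'} * (Q * Q') = Ideal.span {v * v' * w} := by
    rw [← Ideal.span_singleton_mul_span_singleton, mul_mul_mul_comm, e, e', mul_mul_mul_comm, ew,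
      Ideal.span_singleton_mul_span_singleton, Ideal.span_singleton_mul_span_singleton]
  obtain ⟨z, -, hz⟩ := princ_of (mul_ne_zero hu hu') (mul_ne_zero (mul_ne_zero hv hv') hw) key
  exact ⟨z, hz⟩

/-- if the conic is a parabola `y² = 2 β t + γ` then every ideal is principal -/
theorem conic_lin (h2 : (2 : κ) ≠ 0) {β γ : κ} (hβ : β ≠ 0) (I : Ideal (QR (cq 0 β γ))) :
    ∃ u, I = Ideal.span {u} := by
  have h2β : 2 * β ≠ 0 := mul_ne_zero h2 hβ
  let f : κ[X] →+* QR (cq 0 β γ) :=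
    eval₂RingHom ((em (cq 0 β γ)).comp C) (yy (cq 0 β γ))
  have hC : ∀ r : κ, f (C r) = em (cq 0 β γ) (C r) := by
    intro r
    simp [f]
  have hX : f X = yy (cq 0 β γ) := by simp [f]
  have hy := yy_sq (cq 0 β γ)
  have hcq : cq 0 β γ = C (2 * β) * X + C γ := by
    rw [cq]; simp
  have ht : f (C (2 * β)⁻¹ * (X ^ 2 - C γ)) = em (cq 0 β γ) X := by
    have e1 : (X : κ[X]) = C (2 * β)⁻¹ * (cq 0 β γ - C γ) := by
      rw [hcq, add_sub_cancel_right, ← mul_assoc, ← C_mul, inv_mul_cancel₀ h2β, C_1, one_mul]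
    rw [map_mul, map_sub, map_pow, hC, hC, hX, hy]
    conv_rhs => rw [e1]
    rw [map_mul, map_sub]
  have hem : ∀ u : κ[X], ∃ v, f v = em (cq 0 β γ) u := by
    intro u
    refine ⟨eval₂ (C : κ →+* κ[X]) (C (2 * β)⁻¹ * (X ^ 2 - C γ)) u, ?_⟩
    have h3 : f.comp (eval₂RingHom (C : κ →+* κ[X]) (C (2 * β)⁻¹ * (X ^ 2 - C γ))) =
        em (cq 0 β γ) := by
      apply ringHom_ext
      · intro r
        have e1 : (eval₂RingHom (C : κ →+* κ[X]) (C (2 * β)⁻¹ * (X ^ 2 - C γ))) (C r) = C r := by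
          rw [coe_eval₂RingHom, eval₂_C]
        rw [RingHom.comp_apply, e1, hC]
      · have e1 : (eval₂RingHom (C : κ →+* κ[X]) (C (2 * β)⁻¹ * (X ^ 2 - C γ))) X =
            C (2 * β)⁻¹ * (X ^ 2 - C γ) := by
          rw [coe_eval₂RingHom, eval₂_X]
        rw [RingHom.comp_apply, e1, ht]
    exact congrArg (fun g => g u) h3
  have hsurj : Function.Surjective f := by
    intro z
    obtain ⟨u, v, rfl⟩ := rep (cq 0 β γ) z
    obtain ⟨u', hu'⟩ := hem u
    obtain ⟨v', hv'⟩ := hem v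
    exact ⟨u' + v' * X, by rw [map_add, map_mul, hu', hv', hX]⟩
  have hpr : IsPrincipalIdealRing (QR (cq 0 β γ)) := IsPrincipalIdealRing.of_surjective f hsurj
  obtain ⟨u, hu⟩ := (hpr.principal I).principal
  exact ⟨u, hu⟩

end Pool.Agent.Lib.MP_1a0ddd_nt.Quad
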