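import Pool.Agent.Lib.MP_1a0ddd_nt.Quad.Conic

/-! The affine conic with two rational points at infinity: every ideal is principal. -/

set_option autoImplicit false

namespace Pool.Agent.Lib.MP_1a0ddd_nt.Quad

open Polynomial

variable {κ : Type} [Field κ]

/-- if the conic has two rational points at infinity then every ideal is principal. Proof: with
`u = y - α t - β/α`, `v = y + α t + β/α` one has `u v = γ - β²/α² =: e ≠ 0`, and the ring is
generated over `κ` by `u` and `u⁻¹ = v/e` (`y = (u + v)/2`, `t = ((v - u)/2 - β/α)/α`). -/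
theorem conic_sq0 (h2 : (2 : κ) ≠ 0) {α β γ : κ} (hα : α ≠ 0) (hd : β ^ 2 - α ^ 2 * γ ≠ 0)
    (I : Ideal (QR (cq (α ^ 2) β γ))) : ∃ u, I = Ideal.span {u} := by
  revert I
  obtain ⟨P, hP⟩ : ∃ P, P = cq (α ^ 2) β γ := ⟨_, rfl⟩
  rw [← hP]
  intro I
  set u : QR P := yy P - em P (C α * X + C (β / α)) with hu
  set v : QR P := yy P + em P (C α * X + C (β / α)) with hv
  set e : κ := γ - (β / α) ^ 2 with he
  have he0 : e ≠ 0 := by
    intro h
    apply hd
    have h1 : γ = (β / α) ^ 2 := sub_eq_zero.mp h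
    rw [h1]
    field_simp
    ring
  have huv : u * v = em P (C e) := by
    have h1 : u * v = yy P ^ 2 - em P ((C α * X + C (β / α)) ^ 2) := by
      rw [hu, hv, map_pow]; ring
    have h3 : P - (C α * X + C (β / α)) ^ 2 = C e := by
      have h4 : β = α * (β / α) := by field_simp
      rw [hP, he, cq]
      generalize β / α = δ at h4 ⊢
      subst h4
      simp only [C_mul, C_pow, C_sub, C_ofNat]
      ring
    rw [h1, yy_sq, ← map_sub, h3]
  let f : κ[X] →+* QR P := eval₂RingHom ((em P).comp C) u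
  have hC : ∀ r : κ, f (C r) = em P (C r) := by
    intro r
    simp [f]
  have hX : f X = u := by simp [f]
  have hunit : IsUnit u := by
    refine IsUnit.of_mul_eq_one (v * em P (C e⁻¹)) ?_
    rw [← mul_assoc, huv, ← map_mul, ← C_mul, mul_inv_cancel₀ he0, C_1, map_one]
  have h2inv : em P (C (2 : κ)⁻¹) * 2 = 1 := by
    have : (2 : QR P) = em P (C 2) := by rw [C_ofNat, map_ofNat]
    rw [this, ← map_mul, ← C_mul, inv_mul_cancel₀ h2, C_1, map_one]
  let T : QR P → Prop := fun z => ∃ (n : ℕ) (p : κ[X]), u ^ n * z = f p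
  have Tadd : ∀ z z', T z → T z' → T (z + z') := by
    rintro z z' ⟨n, p, h⟩ ⟨n', p', h'⟩
    refine ⟨n + n', X ^ n' * p + X ^ n * p', ?_⟩
    rw [map_add, map_mul, map_mul, map_pow, map_pow, hX, ← h, ← h', pow_add]
    ring
  have Tmul : ∀ z z', T z → T z' → T (z * z') := by
    rintro z z' ⟨n, p, h⟩ ⟨n', p', h'⟩
    refine ⟨n + n', p * p', ?_⟩
    rw [map_mul, ← h, ← h', pow_add]
    ring
  have TC : ∀ r : κ, T (em P (C r)) := fun r => ⟨0, C r, by rw [pow_zero, one_mul, hC]⟩
  have Tu : T u := ⟨0, X, by rw [pow_zero, one_mul, hX]⟩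
  have Tv : T v := ⟨1, C e, by rw [pow_one, huv, hC]⟩
  have Ty : T (yy P) := by
    have h1 : yy P = em P (C (2 : κ)⁻¹) * (u + v) := by
      have h3 : u + v = 2 * yy P := by rw [hu, hv]; ring
      rw [h3, ← mul_assoc, h2inv, one_mul]
    rw [h1]
    exact Tmul _ _ (TC _) (Tadd _ _ Tu Tv)
  have TX : T (em P X) := by
    have h1 : em P X = em P (C α⁻¹) * (em P (C (2 : κ)⁻¹) * (v + em P (C (-1)) * u) +
        em P (C (-(β / α)))) := by
      have h3 : v + em P (C (-1)) * u = 2 * em P (C α * X + C (β / α)) := by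
        rw [hu, hv, C_neg, map_neg, C_1, map_one]; ring
      rw [h3, ← mul_assoc (em P (C (2 : κ)⁻¹)), h2inv, one_mul, ← map_add, ← map_mul]
      congr 1
      rw [C_neg, add_neg_cancel_right, ← mul_assoc, ← C_mul, inv_mul_cancel₀ hα, C_1, one_mul]
    rw [h1]
    exact Tmul _ _ (TC _) (Tadd _ _ (Tmul _ _ (TC _) (Tadd _ _ Tv (Tmul _ _ (TC _) Tu))) (TC _))
  have Tem : ∀ q : κ[X], T (em P q) := by
    intro q
    induction q using Polynomial.induction_on with
    | C r => exact TC r
    | add p q hp hq => rw [map_add]; exact Tadd _ _ hp hq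
    | monomial n r h =>
      have h3 : (C r * X ^ (n + 1) : κ[X]) = C r * X ^ n * X := by ring
      rw [h3, map_mul (em P)]
      exact Tmul _ _ h TX
  have hT : ∀ z : QR P, T z := by
    intro z
    obtain ⟨p, q, rfl⟩ := rep P z
    exact Tadd _ _ (Tem p) (Tmul _ _ (Tem q) Ty)
  obtain ⟨g, hg⟩ := (IsPrincipalIdealRing.principal (I.comap f)).principal
  have hg' : I.comap f = Ideal.span {g} := hg
  refine ⟨f g, le_antisymm ?_ ?_⟩
  · intro z hz
    obtain ⟨n, p, h⟩ := hT z
    have h1 : p ∈ I.comap f := by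
      rw [Ideal.mem_comap, ← h]
      exact I.mul_mem_left _ hz
    rw [hg', Ideal.mem_span_singleton] at h1
    obtain ⟨q, rfl⟩ := h1
    have h3 : u ^ n * z ∈ Ideal.span {f g} := by
      rw [h, map_mul]
      exact Ideal.mul_mem_right _ _ (Ideal.mem_span_singleton_self _)
    exact (Ideal.unit_mul_mem_iff_mem _ (hunit.pow n)).mp h3
  · rw [Ideal.span_singleton_le_iff_mem, ← Ideal.mem_comap, hg']
    exact Ideal.mem_span_singleton_self g

end Pool.Agent.Lib.MP_1a0ddd_nt.Quad
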