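import Pool.Agent.Lib.MP_1a0ddd_nt.Quad.Count3

/-! Point counts of quadratic pencils with common factors. -/

set_option autoImplicit false
set_option linter.unusedSectionVars false

namespace Pool.Agent.Lib.MP_1a0ddd_nt.Quad

open Polynomial Filter Topology

/-- the character at a root of the discriminant -/
private lemma sum_disc_zero4 {p : ℕ} [Fact p.Prime] (hp2 : p ≠ 2) {A B C' E : ZMod p}
    (hd : B ^ 2 - A * C' = 0) (h : (E ≠ 0 ∧ (E = A ∨ E = C')) ∨ (E = 0 ∧ A = 0 ∧ C' = 0)) :
    ∑ t : ZMod p, quadraticChar (ZMod p) (A * t ^ 2 + 2 * B * t + C') =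
      - quadraticChar (ZMod p) A + p * quadraticChar (ZMod p) E := by
  rcases h with ⟨hE, hAC⟩ | ⟨hE, hA, hC⟩
  · by_cases hA : A = 0
    · subst hA
      have hB : B = 0 := by
        have : B ^ 2 = 0 := by linear_combination hd
        exact pow_eq_zero_iff two_ne_zero |>.mp this
      subst hB
      have hEC : E = C' := by
        rcases hAC with h | h
        · exact absurd h hE
        · exact h
      subst hEC
      simp
    · rw [sum_quad_zero hA hd]
      have : quadraticChar (ZMod p) A = quadraticChar (ZMod p) E := by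
        rcases hAC with h | h
        · rw [h]
        · have h1 : A * E = B ^ 2 := by rw [h]; linear_combination -hd
          have hB : B ≠ 0 := by
            rintro rfl
            have : A * E = 0 := by rw [h1]; ring
            exact (mul_ne_zero hA hE) this
          have h2 : quadraticChar (ZMod p) A * quadraticChar (ZMod p) E = 1 := by
            rw [← map_mul, h1]
            exact quadraticChar_sq_one' hB
          have h3 := quadraticChar_sq_one hE
          calc quadraticChar (ZMod p) A = quadraticChar (ZMod p) A *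
                (quadraticChar (ZMod p) E ^ 2) := by rw [h3, mul_one]
            _ = (quadraticChar (ZMod p) A * quadraticChar (ZMod p) E) *
                quadraticChar (ZMod p) E := by ring
            _ = _ := by rw [h2, one_mul]
      rw [this]
      ring
  · subst hE hA hC
    have hB : B = 0 := by
      have : B ^ 2 = 0 := by linear_combination hd
      exact pow_eq_zero_iff two_ne_zero |>.mp this
    subst hB
    simp

variable {R : Type} [CommRing R]

/-- exact formula for the sum of the traces over the line over `z` -/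
theorem frob_sum5 (a b c : R[X]) (p : ℕ) (hp : p.Prime) (hp2 : p ≠ 2) (z : R →+* ZMod p) {m : ℕ}
    (π e : Fin m → R[X]) (k : Fin m → ℕ) (δ : R) (hD : b ^ 2 - a * c = C δ * ∏ i, π i ^ k i)
    (hk : ∀ i, k i ≠ 0) (hδ : z δ ≠ 0)
    (he : ∀ i, (e i = a ∨ e i = c) ∨ (e i = 0 ∧ π i ∣ a ∧ π i ∣ c))
    (hdis : ∀ i j, i ≠ j → ∀ s : ZMod p, ((π i).map z).eval s = 0 → ((π j).map z).eval s ≠ 0)
    (hne : ∀ i, (e i = 0 ∧ π i ∣ a ∧ π i ∣ c) ∨
      ∀ s : ZMod p, ((π i).map z).eval s = 0 → ((e i).map z).eval s ≠ 0) :
    ∑ᶠ t : ZMod p, (frobTrace2 a b c p z t : ℝ) =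
      (Nat.card {P : ZMod p × ZMod p // P.2 ^ 2 = (a.map z).eval P.1} : ℝ) - p -
        p * ∑ i, (rootSum (π i) (e i) p z : ℝ) := by
  classical
  have : Fact p.Prime := ⟨hp⟩
  set χ := quadraticChar (ZMod p) with hχ
  set A : ZMod p → ZMod p := fun x => (a.map z).eval x with hA
  set B : ZMod p → ZMod p := fun x => (b.map z).eval x with hB
  set C' : ZMod p → ZMod p := fun x => (c.map z).eval x with hC
  have hdisc : ∀ s : ZMod p, B s ^ 2 - A s * C' s = z δ * ∏ i, ((π i).map z).eval s ^ k i := by
    intro s
    have h1 := congrArg (fun q : R[X] => (q.map z).eval s) hD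
    simpa [Polynomial.map_sub, Polynomial.map_mul, Polynomial.map_pow, Polynomial.map_prod,
      eval_prod] using h1
  have hzero : ∀ s : ZMod p, B s ^ 2 - A s * C' s = 0 ↔ ∃ i, ((π i).map z).eval s = 0 := by
    intro s
    rw [hdisc, mul_eq_zero, or_iff_right hδ, Finset.prod_eq_zero_iff]
    constructor
    · rintro ⟨i, -, hi⟩
      exact ⟨i, (pow_eq_zero_iff (hk i)).mp hi⟩
    · rintro ⟨i, hi⟩
      exact ⟨i, Finset.mem_univ i, (pow_eq_zero_iff (hk i)).mpr hi⟩
  have hev : ∀ (i : Fin m) (f : R[X]) (s : ZMod p), π i ∣ f → ((π i).map z).eval s = 0 →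
      (f.map z).eval s = 0 := by
    rintro i f s ⟨g, rfl⟩ hs
    rw [Polynomial.map_mul, eval_mul, hs, zero_mul]
  have hsum : ∀ s : ZMod p, ∑ t : ZMod p, χ (A s * t ^ 2 + 2 * B s * t + C' s) =
      - χ (A s) + p * ∑ i, (if ((π i).map z).eval s = 0 then χ (((e i).map z).eval s) else 0) := by
    intro s
    by_cases h : B s ^ 2 - A s * C' s = 0
    · obtain ⟨i, hi⟩ := (hzero s).mp h
      rw [Finset.sum_eq_single i]
      · rw [if_pos hi]
        refine sum_disc_zero4 hp2 h ?_
        rcases hne i with ⟨h0, h1, h3⟩ | h1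
        · right
          refine ⟨by rw [h0]; simp, hev i a s h1 hi, hev i c s h3 hi⟩
        · left
          refine ⟨h1 s hi, ?_⟩
          rcases he i with (h3 | h3) | ⟨h3, -, -⟩
          · left; rw [h3]
          · right; rw [h3]
          · exfalso
            apply h1 s hi
            rw [h3]; simp
      · intro j _ hj
        rw [if_neg]
        exact hdis i j (Ne.symm hj) s hi
      · intro h1
        exact absurd (Finset.mem_univ _) h1
    · rw [sum_quad hp2 h]
      have h2 : ∀ i, ¬ ((π i).map z).eval s = 0 := fun i hi => h ((hzero s).mpr ⟨i, hi⟩)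
      rw [Finset.sum_eq_zero fun i _ => if_neg (h2 i)]
      ring
  rw [finsum_eq_sum_of_fintype]
  have hZ : ∑ t : ZMod p, frobTrace2 a b c p z t =
      (Nat.card {P : ZMod p × ZMod p // P.2 ^ 2 = (a.map z).eval P.1} : ℤ) - p -
        p * ∑ i, rootSum (π i) (e i) p z := by
    have h1 : ∀ t : ZMod p, frobTrace2 a b c p z t =
        - ∑ s : ZMod p, χ (A s * t ^ 2 + 2 * B s * t + C' s) := by
      intro t
      unfold frobTrace2
      rw [card_pair2 (fun s y => y ^ 2 =
        (a.map z).eval s * t ^ 2 + 2 * (b.map z).eval s * t + (c.map z).eval s)]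
      rw [Finset.sum_congr rfl fun s _ => sum_sqrts hp2 _, Finset.sum_add_distrib,
        Finset.sum_const, Finset.card_univ, ZMod.card]
      simp only [nsmul_eq_mul, mul_one]
      ring
    rw [Finset.sum_congr rfl fun t _ => h1 t, Finset.sum_neg_distrib, Finset.sum_comm,
      Finset.sum_congr rfl fun s _ => hsum s, Finset.sum_add_distrib, Finset.sum_neg_distrib,
      ← Finset.mul_sum, Finset.sum_comm (s := Finset.univ) (t := Finset.univ)
        (f := fun s i => if ((π i).map z).eval s = 0 then χ (((e i).map z).eval s) else 0)]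
    rw [card_pair2 (fun s y => y ^ 2 = (a.map z).eval s),
      Finset.sum_congr rfl fun s _ => sum_sqrts hp2 _, Finset.sum_add_distrib,
        Finset.sum_const, Finset.card_univ, ZMod.card]
    have h3 : ∀ i, rootSum (π i) (e i) p z =
        ∑ s : ZMod p, if ((π i).map z).eval s = 0 then χ (((e i).map z).eval s) else 0 := by
      intro i
      rw [rootSum_eq _ _ _ hp2, Finset.sum_filter]
    simp only [h3, nsmul_eq_mul, mul_one]
    ring
  exact_mod_cast hZ

end Pool.Agent.Lib.MP_1a0ddd_nt.Quad
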