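import Pool.Agent.Lib.MP_1a0ddd_nt.Quad.Inf4
import Pool.Agent.Lib.MP_1a0ddd_nt.Quad.Count4

/-! The Tauberian limit of the Nagao averages of quadratic pencils, general case. -/

set_option autoImplicit false

namespace Pool.Agent.Lib.MP_1a0ddd_nt.Quad

open Polynomial Filter Topology

/-- the limit for a quadratic pencil whose discriminant is a product of irreducible polynomials -/
theorem nagao_T4 (R : Type) [CommRing R] [IsDomain R] [CharZero R] [Algebra.FiniteType ℤ R] (d : ℕ)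
    (a b c : R[X]) {m : ℕ} (π : Fin m → R[X]) (k : Fin m → ℕ) (δ : R)
    (hD : b ^ 2 - a * c = C δ * ∏ i, π i ^ k i) (hk : ∀ i, k i ≠ 0)
    (hδ : δ ≠ 0) (hmon : ∀ i, (π i).Monic)
    (hirr : ∀ i, Irreducible (toF (π i))) (hinj : Function.Injective π)
    (η : ℝ) (E : R) (hE : E ≠ 0)
    (hinf : ∀ D : R, D ≠ 0 → E ∣ D → TauMean (fun p => infAvg a D d p) η)
    (hπ : ∀ i, Common a b c (π i) ∨ LangWeilT (AdjoinRoot (π i)) d) (S : Finset (Fin m))
    (hS : ∀ i, i ∈ S ↔ toF (π i) ∈ splitSet (toF a) (toF b) (toF c))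
    (hN : ∀ i, Common a b c (π i) ∨ i ∈ S ∨ ∃ e : R[X], (e = a ∨ e = c) ∧ ¬ π i ∣ e ∧
      LangWeilT (AdjoinRoot (X ^ 2 - C (AdjoinRoot.mk (π i) e) : (AdjoinRoot (π i))[X])) d) :
    ∃ D₀ : R, D₀ ≠ 0 ∧ (∀ D : R, D ≠ 0 → D₀ ∣ D →
      TauMean (fun p => nagaoAvg2 a b c D d p) (η - S.card)) ∧
      ∃ (K : ℝ) (p₀ : ℕ), ∀ p : ℕ, p₀ ≤ p → p.Prime → ∀ z : R →+* ZMod p, z D₀ ≠ 0 →
        |∑ᶠ t : ZMod p, (frobTrace2 a b c p z t : ℝ)| ≤ K * p := by
  classical
  -- data for every factor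
  have hSC : ∀ i ∈ S, ¬ Common a b c (π i) := by
    intro i hi hc
    obtain ⟨-, -, h1, -⟩ := (hS i).mp hi
    apply h1
    exact ⟨(toF_dvd (hmon i)).mpr hc.1, (toF_dvd (hmon i)).mpr hc.2.1,
      (toF_dvd (hmon i)).mpr hc.2.2⟩
  have hdata : ∀ i, ∃ (e : R[X]) (s : R) (B : R[X]),
      ((Common a b c (π i) ∧ e = 0) ∨ (¬ Common a b c (π i) ∧ (e = a ∨ e = c) ∧ ¬ π i ∣ e)) ∧
      s ≠ 0 ∧ (i ∈ S → π i ∣ C s ^ 2 * e - B ^ 2) ∧ (¬ Common a b c (π i) → i ∉ S →
        LangWeilT (AdjoinRoot (X ^ 2 - C (AdjoinRoot.mk (π i) e) : (AdjoinRoot (π i))[X])) d) := by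
    intro i
    by_cases hc : Common a b c (π i)
    · exact ⟨0, 1, 0, Or.inl ⟨hc, rfl⟩, one_ne_zero, fun h => absurd hc (hSC i h),
        fun h => absurd hc h⟩
    by_cases hi : i ∈ S
    · obtain ⟨e, h1, h2, s, h3, B, h4⟩ := split_data (hmon i) ((hS i).mp hi)
      exact ⟨e, s, B, Or.inr ⟨hc, h1, h2⟩, h3, fun _ => h4, fun _ h => absurd hi h⟩
    · obtain ⟨e, h1, h2, h3⟩ := ((hN i).resolve_left hc).resolve_left hi
      exact ⟨e, 1, 0, Or.inr ⟨hc, h1, h2⟩, one_ne_zero, fun h => absurd h hi, fun _ _ => h3⟩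
  choose e s B he hs hsplit hnsplit using hdata
  have hcop1 : ∀ i j, i ≠ j → ∃ r : R, r ≠ 0 ∧ ∃ A B : R[X], A * π i + B * π j = C r := by
    intro i j hij
    apply bez
    apply ((hirr i).coprime_iff_not_dvd).mpr
    intro h
    have h1 := (hirr i).associated_of_dvd (hirr j) h
    have h2 := eq_of_monic_of_associated ((hmon i).map _) ((hmon j).map _) h1
    exact hij (hinj (toF_inj h2))
  have hcop2 : ∀ i, ∃ r : R, r ≠ 0 ∧
      (¬ Common a b c (π i) → ∃ A B : R[X], A * π i + B * e i = C r) := by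
    intro i
    by_cases hc : Common a b c (π i)
    · exact ⟨1, one_ne_zero, fun h => absurd hc h⟩
    obtain ⟨-, -, hne⟩ := (he i).resolve_left fun h => hc h.1
    obtain ⟨r, h1, h2⟩ := bez (π i) (e i) (by
      apply ((hirr i).coprime_iff_not_dvd).mpr
      intro h
      exact hne ((toF_dvd (hmon i)).mp h))
    exact ⟨r, h1, fun _ => h2⟩
  have hcop1' : ∀ i j, ∃ r : R, r ≠ 0 ∧ (i ≠ j → ∃ A B : R[X], A * π i + B * π j = C r) := by
    intro i j
    by_cases hij : i = j
    · exact ⟨1, one_ne_zero, fun h => absurd hij h⟩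
    · obtain ⟨r, h1, h2⟩ := hcop1 i j hij
      exact ⟨r, h1, fun _ => h2⟩
  choose r hr hrb using hcop1'
  choose q hq hqb using hcop2
  obtain ⟨D₀, hD₀⟩ : ∃ D₀ : R, D₀ = E * δ * (∏ i, ∏ j, r i j) * (∏ i, q i) * ∏ i, s i := ⟨_, rfl⟩
  -- facts for good `z`
  have hgood₀ : ∀ p : ℕ, p.Prime → ∀ z : R →+* ZMod p, z D₀ ≠ 0 →
      z E ≠ 0 ∧ z δ ≠ 0 ∧ (∀ i j, z (r i j) ≠ 0) ∧ (∀ i, z (q i) ≠ 0) ∧ ∀ i, z (s i) ≠ 0 := by
    intro p hp z hz
    have : Fact p.Prime := ⟨hp⟩
    rw [hD₀, map_mul, map_mul, map_mul, map_mul, map_prod, map_prod, map_prod] at hz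
    have h2 := left_ne_zero_of_mul hz
    have h3 := left_ne_zero_of_mul h2
    have h4 := left_ne_zero_of_mul h3
    refine ⟨left_ne_zero_of_mul h4, right_ne_zero_of_mul h4, ?_, ?_, ?_⟩
    · intro i j
      have h5 := Finset.prod_ne_zero_iff.mp (right_ne_zero_of_mul h3) i (Finset.mem_univ i)
      rw [map_prod] at h5
      exact Finset.prod_ne_zero_iff.mp h5 j (Finset.mem_univ j)
    · intro i
      exact Finset.prod_ne_zero_iff.mp (right_ne_zero_of_mul h2) i (Finset.mem_univ i)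
    · intro i
      exact Finset.prod_ne_zero_iff.mp (right_ne_zero_of_mul hz) i (Finset.mem_univ i)
  have he5 : ∀ i, (e i = a ∨ e i = c) ∨ (e i = 0 ∧ π i ∣ a ∧ π i ∣ c) := by
    intro i
    rcases he i with ⟨h1, h2⟩ | ⟨-, h1, -⟩
    · exact Or.inr ⟨h2, h1.1, h1.2.2⟩
    · exact Or.inl h1
  have hev : ∀ i, ¬ Common a b c (π i) → ∀ (p : ℕ) [Fact p.Prime] (z : R →+* ZMod p),
      z (q i) ≠ 0 → ∀ t : ZMod p, ((π i).map z).eval t = 0 → ((e i).map z).eval t ≠ 0 := by
    intro i hc p _ z hz t ht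
    obtain ⟨A, B, hAB⟩ := hqb i hc
    exact bez_eval hAB z hz t ht
  have hne5 : ∀ (p : ℕ) [Fact p.Prime] (z : R →+* ZMod p), (∀ i, z (q i) ≠ 0) →
      ∀ i, (e i = 0 ∧ π i ∣ a ∧ π i ∣ c) ∨
      ∀ s : ZMod p, ((π i).map z).eval s = 0 → ((e i).map z).eval s ≠ 0 := by
    intro p _ z hz i
    rcases he i with ⟨h1, h2⟩ | ⟨hc, -, -⟩
    · exact Or.inl ⟨h2, h1.1, h1.2.2⟩
    · exact Or.inr fun t ht => hev i hc p z (hz i) t ht
  refine ⟨D₀, ?_, ?_, ?_⟩
  · rw [hD₀]
    exact mul_ne_zero (mul_ne_zero (mul_ne_zero (mul_ne_zero hE hδ)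
      (Finset.prod_ne_zero_iff.mpr fun i _ => Finset.prod_ne_zero_iff.mpr fun j _ => hr i j))
      (Finset.prod_ne_zero_iff.mpr fun i _ => hq i)) (Finset.prod_ne_zero_iff.mpr fun i _ => hs i)
  rotate_left
  · refine ⟨1 + ∑ i, ((π i).natDegree : ℝ), 3, fun p hp3 hp z hz => ?_⟩
    have : Fact p.Prime := ⟨hp⟩
    have hp0 : (0 : ℝ) ≤ p := Nat.cast_nonneg p
    obtain ⟨g1, g2, g3, g4, g5⟩ := hgood₀ p hp z hz
    rw [frob_sum5 a b c p hp (by omega) z π e k δ hD hk g2 he5
      (fun i j hij t ht => by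
        obtain ⟨A, B, hAB⟩ := hrb i j hij
        exact bez_eval hAB z (g3 i j) t ht)
      (hne5 p z g4)]
    have h5 := curve_bound a p hp (by omega) z
    have h6 : ∀ i, |(rootSum (π i) (e i) p z : ℝ)| ≤ (π i).natDegree := by
      intro i
      rw [rootSum_eq (π i) (e i) p (by omega) z]
      push_cast
      have h7 : (Finset.univ.filter fun t : ZMod p => ((π i).map z).eval t = 0).card ≤
          (π i).natDegree := by
        have h8 : (π i).map z ≠ 0 := ((hmon i).map z).ne_zero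
        rw [← (hmon i).natDegree_map z]
        refine le_trans (Finset.card_le_card ?_)
          (((π i).map z).roots.toFinset_card_le.trans ((π i).map z).card_roots')
        intro t ht
        rw [Multiset.mem_toFinset, mem_roots h8]
        exact (Finset.mem_filter.1 ht).2
      calc _ ≤ ∑ t ∈ Finset.univ.filter (fun t : ZMod p => ((π i).map z).eval t = 0),
            |((quadraticChar (ZMod p) (((e i).map z).eval t) : ℤ) : ℝ)| :=
            Finset.abs_sum_le_sum_abs _ _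
        _ ≤ ∑ t ∈ Finset.univ.filter (fun t : ZMod p => ((π i).map z).eval t = 0), (1 : ℝ) := by
            refine Finset.sum_le_sum fun t _ => ?_
            by_cases h9 : ((e i).map z).eval t = 0
            · rw [h9]; simp
            · rcases quadraticChar_dichotomy h9 with h | h <;> rw [h] <;> simp
        _ ≤ _ := by
            rw [Finset.sum_const, nsmul_eq_mul, mul_one]
            exact_mod_cast h7
    have h7 : |∑ i, (rootSum (π i) (e i) p z : ℝ)| ≤ ∑ i, ((π i).natDegree : ℝ) :=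
      (Finset.abs_sum_le_sum_abs _ _).trans (Finset.sum_le_sum fun i _ => h6 i)
    calc _ ≤ |(Nat.card {P : ZMod p × ZMod p // P.2 ^ 2 = (a.map z).eval P.1} : ℝ) - p| +
          |p * ∑ i, (rootSum (π i) (e i) p z : ℝ)| := abs_sub _ _
      _ ≤ p + p * ∑ i, ((π i).natDegree : ℝ) := by
          rw [abs_mul, abs_of_nonneg hp0]
          exact add_le_add h5 (mul_le_mul_of_nonneg_left h7 hp0)
      _ = _ := by ring
  intro D hD0 hdvd
  have hgood : ∀ p : ℕ, p.Prime → ∀ z : R →+* ZMod p, z D ≠ 0 →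
      z E ≠ 0 ∧ z δ ≠ 0 ∧ (∀ i j, z (r i j) ≠ 0) ∧ (∀ i, z (q i) ≠ 0) ∧ ∀ i, z (s i) ≠ 0 := by
    intro p hp z hz
    obtain ⟨k, hk⟩ := hdvd
    rw [hk, map_mul] at hz
    exact hgood₀ p hp z (left_ne_zero_of_mul hz)
  have hED : E ∣ D := by
    refine Dvd.dvd.trans ?_ hdvd
    rw [hD₀]
    exact ⟨δ * (∏ i, ∏ j, r i j) * (∏ i, q i) * ∏ i, s i, by ring⟩
  -- the main terms
  set G : Fin m → ℕ → ℝ := fun i p =>
    (∑ᶠ z : {z : R →+* ZMod p // z D ≠ 0}, (rootSum (π i) (e i) p z.1 : ℝ)) / (p : ℝ) ^ d with hG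
  have hfinhom : ∀ p : ℕ, p.Prime → Finite (R →+* ZMod p) := by
    intro p hp
    have : Fact p.Prime := ⟨hp⟩
    exact finite_hom R p
  have hcardπ : ∀ i, ¬ Common a b c (π i) →
      TauMean (fun p => (∑ᶠ z : {z : R →+* ZMod p // z D ≠ 0},
      (Nat.card {t : ZMod p // ((π i).map z.1).eval t = 0} : ℝ)) / (p : ℝ) ^ d) 1 := by
    intro i hc
    refine ((hπ i).resolve_left hc _ (of_ne_zero (hmon i) (hirr i) hD0)).congr' 0
      fun p _ hp => ?_
    have : Fact p.Prime := ⟨hp⟩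
    have := hfinhom p hp
    have hf : Finite {z : R →+* ZMod p // z D ≠ 0} := inferInstance
    have := Fintype.ofFinite {z : R →+* ZMod p // z D ≠ 0}
    rw [card_adj R (π i) D p, finsum_eq_sum_of_fintype, finsum_eq_sum_of_fintype]
    push_cast
    rfl
  have hmean : ∀ i, TauMean (G i) (if i ∈ S then 1 else 0) := by
    intro i
    by_cases hc : Common a b c (π i)
    · have hi : i ∉ S := fun h => hSC i h hc
      rw [if_neg hi]
      refine TauMean.zero.congr' 3 fun p hp3 hp => ?_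
      have : Fact p.Prime := ⟨hp⟩
      have he0 : e i = 0 := by
        rcases he i with ⟨-, h⟩ | ⟨h, -⟩
        · exact h
        · exact absurd hc h
      have h0 : ∀ z : {z : R →+* ZMod p // z D ≠ 0}, (rootSum (π i) (e i) p z.1 : ℝ) = 0 := by
        intro z
        rw [rootSum_eq (π i) (e i) p (by omega) z.1, he0]
        simp
      simp only [hG]
      rw [finsum_congr h0, finsum_zero, zero_div]
    by_cases hi : i ∈ S
    · rw [if_pos hi]
      refine (hcardπ i hc).congr' 3 fun p hp3 hp => ?_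
      have : Fact p.Prime := ⟨hp⟩
      have := hfinhom p hp
      simp only [hG]
      congr 1
      refine finsum_congr fun z => ?_
      obtain ⟨-, -, -, g4, g5⟩ := hgood p hp z.1 z.2
      rw [rootSum_eq (π i) (e i) p (by omega) z.1]
      rw [Nat.card_eq_fintype_card, Fintype.card_subtype, Finset.card_eq_sum_ones]
      push_cast
      refine Finset.sum_congr rfl fun t ht => ?_
      have ht' : ((π i).map z.1).eval t = 0 := (Finset.mem_filter.mp ht).2
      have h1 := hev i hc p z.1 (g4 i) t ht'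
      obtain ⟨k, hk⟩ := hsplit i hi
      have h2 := congrArg (fun q : R[X] => (q.map z.1).eval t) hk
      simp only [Polynomial.map_sub, Polynomial.map_mul, Polynomial.map_pow, map_C, eval_sub,
        eval_mul, eval_pow, eval_C, ht', zero_mul] at h2
      have h3 : z.1 (s i) ^ 2 * ((e i).map z.1).eval t = ((B i).map z.1).eval t ^ 2 :=
        sub_eq_zero.mp h2
      have h4 : ((B i).map z.1).eval t ≠ 0 := by
        intro h5
        rw [h5] at h3
        have := mul_ne_zero (pow_ne_zero 2 (g5 i)) h1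
        exact this (h3.trans (by ring))
      have h5 : quadraticChar (ZMod p) (((e i).map z.1).eval t) = 1 := by
        have h6 : ((e i).map z.1).eval t = (((B i).map z.1).eval t / z.1 (s i)) ^ 2 := by
          rw [div_pow, ← h3]
          have := g5 i
          field_simp
        rw [h6]
        exact quadraticChar_sq_one' (div_ne_zero h4 (g5 i))
      rw [h5]
      norm_num
    · rw [if_neg hi]
      have hne' : AdjoinRoot.of (X ^ 2 - C (AdjoinRoot.mk (π i) (e i)) : (AdjoinRoot (π i))[X])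
          (AdjoinRoot.of (π i) D) ≠ 0 := by
        intro h
        have h1 := uniq (AdjoinRoot.mk (π i) (e i)) (u := AdjoinRoot.of (π i) D) (v := 0)
          (by rw [map_zero, zero_mul, add_zero]; exact h)
        exact of_ne_zero (hmon i) (hirr i) hD0 h1.1
      have h1 := (hnsplit i hc hi _ hne').sub (hcardπ i hc)
      rw [sub_self] at h1
      refine h1.congr' 0 fun p _ hp => ?_
      have : Fact p.Prime := ⟨hp⟩
      have := hfinhom p hp
      have := Fintype.ofFinite {z : R →+* ZMod p // z D ≠ 0}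
      simp only [hG]
      rw [card_adj2 R (π i) (e i) D p, finsum_eq_sum_of_fintype, finsum_eq_sum_of_fintype,
        finsum_eq_sum_of_fintype, ← sub_div]
      congr 1
      push_cast
      rw [← Finset.sum_sub_distrib]
      refine Finset.sum_congr rfl fun z _ => ?_
      rw [rootSum]
      push_cast
      rfl
  have hGsum : TauMean (fun p => ∑ i, G i p) (S.card : ℝ) := by
    have h1 := TauMean.sum Finset.univ G _ fun i _ => hmean i
    have h2 : (∑ i : Fin m, if i ∈ S then (1 : ℝ) else 0) = S.card := by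
      rw [Finset.sum_ite_mem, Finset.univ_inter, Finset.sum_const, nsmul_eq_mul, mul_one]
    rwa [h2] at h1
  have h1 := (hinf D hD0 hED).sub hGsum
  refine h1.congr' 3 fun p hp3 hp => ?_
  have : Fact p.Prime := ⟨hp⟩
  have := hfinhom p hp
  have := Fintype.ofFinite {z : R →+* ZMod p // z D ≠ 0}
  have hp0 : (0 : ℝ) < p := by exact_mod_cast hp.pos
  have hSz : ∀ z : {z : R →+* ZMod p // z D ≠ 0},
      ∑ᶠ t : ZMod p, (frobTrace2 a b c p z t : ℝ) =
        ((Nat.card {P : ZMod p × ZMod p // P.2 ^ 2 = (a.map z.1).eval P.1} : ℝ) - p) -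
        p * ∑ i, (rootSum (π i) (e i) p z.1 : ℝ) := by
    rintro ⟨z, hz⟩
    obtain ⟨g1, g2, g3, g4, g5⟩ := hgood p hp z hz
    rw [frob_sum5 a b c p hp (by omega) z π e k δ hD hk g2 he5
      (fun i j hij t ht => by
        obtain ⟨A, B, hAB⟩ := hrb i j hij
        exact bez_eval hAB z (g3 i j) t ht)
      (hne5 p z g4)]
  simp only [nagaoAvg2, infAvg, hG]
  rw [finsum_congr hSz, finsum_eq_sum_of_fintype, finsum_eq_sum_of_fintype,
    Finset.sum_sub_distrib, sub_div]
  congr 1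
  have e3 : ∀ i : Fin m, (∑ᶠ z : {z : R →+* ZMod p // z D ≠ 0},
      (rootSum (π i) (e i) p z.1 : ℝ)) = ∑ z : {z : R →+* ZMod p // z D ≠ 0},
      (rootSum (π i) (e i) p z.1 : ℝ) := fun i => finsum_eq_sum_of_fintype _
  simp only [e3]
  rw [← Finset.sum_div, Finset.sum_comm, ← Finset.mul_sum, pow_succ]
  field_simp

end Pool.Agent.Lib.MP_1a0ddd_nt.Quad
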