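import Pool.Agent.Lib.MP_1a0ddd_nt.Quad.QCore

/-! Families with no square member (no proofs). -/

set_option autoImplicit false

namespace Pool.Agent.Lib.MP_1a0ddd_nt.Quad

open Polynomial Filter Topology

open Classical in
/-- the number of the split `π`, minus one if `a` is a square and not zero -/
noncomputable def pencilRank {L : Type} [Field L] (a b c : L[X]) : ℤ :=
  (splitSet a b c).ncard - if a ≠ 0 ∧ IsSquare a then 1 else 0

/-- `a` is not a constant times a square, over the fraction field -/
def NotConstSquare {R : Type} [CommRing R] [IsDomain R] (a : R[X]) : Prop :=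
  ∀ (u : FractionRing R) (s : (FractionRing R)[X]), toF a ≠ C u * s ^ 2

/-- `c` is monic of odd degree, larger than the degrees of `a` and `b` -/
def MonicOdd {R : Type} [CommRing R] (a b c : R[X]) : Prop :=
  c.Monic ∧ Odd c.natDegree ∧ a.natDegree < c.natDegree ∧ b.natDegree < c.natDegree

/-- no member `a t₀² + 2 b t₀ + c` of the pencil, with `t₀` in any field `L` containing `R`, is a
square in `L[x]` (the pair `R → L`, `t₀` is a ring map `y : R[t] → L` which is injective on `R`) -/
def NoSquareMember {R : Type} [CommRing R] (a b c : R[X]) : Prop :=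
  ∀ (L : Type) [Field L] (y : R[X] →+* L), Function.Injective (y.comp C) →
    ∀ s : L[X], (quad a b c).map y ≠ s ^ 2

/-- The family `y² = F(x, t)`, `F = a(x) t² + 2 b(x) t + c(x)`, over the domain `R`: `b² ≠ a c`; `F`
has no square factor (over the fraction field of `R`); and either `c` is monic of odd degree larger
than the degrees of `a` and `b`, or no member with a finite parameter is a square and in addition
the degree in `x` is odd or `a` is zero or not a constant times a square. -/
structure Family {R : Type} [CommRing R] [IsDomain R] (a b c : R[X]) : Prop where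
  disc : b ^ 2 ≠ a * c
  sqf : ∀ q : (FractionRing R)[X], Common (toF a) (toF b) (toF c) (q ^ 2) → IsUnit q
  mem : MonicOdd a b c ∨
    NoSquareMember a b c ∧ (Odd (quad a b c).natDegree ∨ a = 0 ∨ NotConstSquare a)

/-- The affine curve `y² = F(x)` over the field `K` is regular (its coordinate ring is a Dedekind
domain), its units are the constants, and its Picard group is finitely generated of rank `r`. -/
def CurveRank {K : Type} [Field K] (F : K[X]) (r : ℤ) : Prop :=
  IsDedekindDomain (CurveRing F) ∧
  (∀ u : CurveRing F, IsUnit u → ∃ k : K, u = curveConst F k) ∧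
  Module.Finite ℤ (Additive (CommRing.Pic (CurveRing F))) ∧
  (Module.finrank ℤ (Additive (CommRing.Pic (CurveRing F))) : ℤ) = r

/-- THE RANK. For every field `L` containing `R` the set of the split `π ∈ L[x]` is finite and the
curve `y² = a t² + 2 b t + c` over `L(t)` has the rank `pencilRank`. -/
def RankOverAll {R : Type} [CommRing R] (a b c : R[X]) : Prop :=
  ∀ (L : Type) [Field L] (φ : R →+* L), Function.Injective φ →
    (splitSet (a.map φ) (b.map φ) (c.map φ)).Finite ∧
    CurveRank (overLt L (quad (a.map φ) (b.map φ) (c.map φ)))
      (pencilRank (a.map φ) (b.map φ) (c.map φ))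

/-- THE LIMIT. There is `D₀ ≠ 0` in `R` such that for every `D ≠ 0` in `R[t]` divisible by `D₀` the
average of the traces over the `F_p`-points of `{D ≠ 0} ⊆ Spec R[t]`, divided by `p^m`, tends in
the Tauberian mean to `-r`. -/
def NagaoLimit {R : Type} [CommRing R] (F : R[X][X]) (m : ℕ) (r : ℤ) : Prop :=
  ∃ D₀ : R, D₀ ≠ 0 ∧ ∀ D : R[X], D ≠ 0 → C D₀ ∣ D → TauMean (traceAvg F D m) (-(r : ℝ))

end Pool.Agent.Lib.MP_1a0ddd_nt.Quad
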