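import Pool.Agent.Lib.MP_1a0ddd_nt.Quad.TBase
import Pool.Agent.Lib.MP_1a0ddd_nt.Quad.QDef

/-! Pencils with a given factorization of the discriminant, and the point counts which are used
(no proofs). -/

set_option autoImplicit false

namespace Pool.Agent.Lib.MP_1a0ddd_nt.Quad

open Polynomial Filter Topology

/-- the ring `R[√u]` -/
def SqrtRing {R : Type} [CommRing R] (u : R) : Type := AdjoinRoot (X ^ 2 - C u : R[X])

noncomputable instance {R : Type} [CommRing R] (u : R) : CommRing (SqrtRing u) :=
  AdjoinRoot.instCommRing _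

/-- The pencil `y² = a(x) t² + 2 b(x) t + c(x)` over the domain `R`: the discriminant `b² - a c` is
`δ ∏ π_i^(k_i) ≠ 0`, `k_i > 0`, with distinct monic `π_i` which are irreducible over the fraction
field; no `π_i²` is a common factor of `a`, `b`, `c`; and either `c` is monic of odd degree larger
than the degrees of `a` and `b`, or no member with a finite parameter is a square and in addition
the degree in `x` is odd or `a` is zero or not a constant times a square. -/
structure Pencil {R : Type} [CommRing R] [IsDomain R] {m : ℕ} (a b c : R[X]) (π : Fin m → R[X])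
    (k : Fin m → ℕ) (δ : R) : Prop where
  disc : b ^ 2 - a * c = C δ * ∏ i, π i ^ k i
  ne : δ ≠ 0
  pos : ∀ i, k i ≠ 0
  monic : ∀ i, (π i).Monic
  irr : ∀ i, Irreducible (toF (π i))
  inj : Function.Injective π
  sqf : ∀ i, ¬ Common a b c (π i ^ 2)
  mem : MonicOdd a b c ∨
    NoSquareMember a b c ∧ (Odd (quad a b c).natDegree ∨ a = 0 ∨ NotConstSquare a)

/-- The following rings have the point count of Lang, Weil and Landau of dimension `d`: `R`; the
rings `R[x]/(π_i)` for the `π_i` which are not common factors; the rings `R[x]/(π_i)[√e]`, `e = a`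
or `e = c` not divisible by `π_i`, if moreover `a t² + 2 b t + c` is not a square modulo `π_i`; the
ring `R[√u]` if `a` is `u` times a square but not a square over the fraction field. -/
structure Counted {R : Type} [CommRing R] [IsDomain R] {m : ℕ} (a b c : R[X])
    (π : Fin m → R[X]) (d : ℕ) : Prop where
  base : LangWeilT R d
  factor : ∀ i, Common a b c (π i) ∨ LangWeilT (AdjoinRoot (π i)) d
  cover : ∀ i, Common a b c (π i) ∨ toF (π i) ∈ splitSet (toF a) (toF b) (toF c) ∨
    ∃ e : R[X], (e = a ∨ e = c) ∧ ¬ π i ∣ e ∧ LangWeilT (SqrtRing (AdjoinRoot.mk (π i) e)) d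
  infty : IsSquare (toF a) ∨ NotConstSquare a ∨ ∃ (u : R) (s : (FractionRing R)[X]),
    toF a = C (algebraMap R (FractionRing R) u) * s ^ 2 ∧ LangWeilT (SqrtRing u) d

end Pool.Agent.Lib.MP_1a0ddd_nt.Quad
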