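import Pool.Agent.Lib.MP_1a0ddd_nt.Quad.Unit2

/-! Divisors of elements of `L[x]` in the curve ring, the case `a = α²`. -/

set_option autoImplicit false

namespace Pool.Agent.Lib.MP_1a0ddd_nt.Quad

open Polynomial

variable {L : Type} [Field L]

/-- the element `u + v y` of the curve ring, `u`, `v` in `L[t][x]` -/
noncomputable def pr (a b c : L[X]) (u v : L[X][X]) : CoordRing2 a b c :=
  em (toK L (quad a b c)) (toK L u) + em (toK L (quad a b c)) (toK L v) * yy (toK L (quad a b c))

/-- the polynomial `a(x) t + b(x)` -/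
noncomputable def EE (a b : L[X]) : L[X][X] := a.map C * C X + b.map C

theorem pr_mul (a b c : L[X]) (u v u' v' : L[X][X]) :
    pr a b c u v * pr a b c u' v' =
      pr a b c (u * u' + v * v' * quad a b c) (u * v' + v * u') := by
  have hsq := yy_sq (toK L (quad a b c))
  unfold pr
  simp only [map_add, map_mul]
  linear_combination (em (toK L (quad a b c)) (toK L v) * em (toK L (quad a b c)) (toK L v')) * hsq

/-- `(a t + b)² - a F = b² - a c` -/
theorem EE_sq (a b c : L[X]) :
    EE a b ^ 2 - a.map C * quad a b c = (b ^ 2 - a * c).map C := by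
  unfold EE quad
  simp only [Polynomial.map_sub, Polynomial.map_pow, Polynomial.map_mul]
  ring

/-- reduction: `u² - v² F = q(t) m(x)` implies that `u`, `v` are multiples of `u'`, `v'` with
`u'² - v'² F ∈ L[x]`. Proof: as `norm_const2`, with `unit_mod2`. -/
theorem norm_red4 [CharZero L] {a b c : L[X]} (hM : Mem2 a b c) (u v : L[X][X]) (m q : L[X])
    (hm : m ≠ 0) (hq : q ≠ 0) (e : u ^ 2 - v ^ 2 * quad a b c = C q * m.map C) :
    ∃ (r : L[X]) (u' v' : L[X][X]) (m' : L[X]), r ≠ 0 ∧ m' ≠ 0 ∧ u = C r * u' ∧ v = C r * v' ∧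
      u' ^ 2 - v' ^ 2 * quad a b c = m'.map C := by
  obtain ⟨n, hn⟩ : ∃ n, q.natDegree = n := ⟨_, rfl⟩
  induction n using Nat.strong_induction_on generalizing u v q with
  | _ n ih =>
    by_cases hu : IsUnit q
    · obtain ⟨r, hr, rfl⟩ := isUnit_iff.1 hu
      refine ⟨1, u, v, C r * m, one_ne_zero, mul_ne_zero (C_ne_zero.2 hr.ne_zero) hm, ?_, ?_, ?_⟩
      · rw [C_1, one_mul]
      · rw [C_1, one_mul]
      · rw [e, Polynomial.map_mul, map_C]
    · obtain ⟨π, hπ, hπc⟩ := WfDvdMonoid.exists_irreducible_factor hu hq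
      obtain ⟨⟨u', rfl⟩, ⟨v', rfl⟩⟩ := unit_mod2 hM hπ u v (by
        rw [e]
        exact (_root_.map_dvd C hπc).mul_right _)
      have hπ0 : π ≠ 0 := hπ.ne_zero
      have hCπ : (C π : L[X][X]) ≠ 0 := C_ne_zero.2 hπ0
      set P := u' ^ 2 - v' ^ 2 * quad a b c with hP
      have e2 : C (π ^ 2) * P = C q * m.map C := by
        rw [← e, hP, C_pow]
        ring
      have h3 : π ^ 2 ∣ q := by
        have h4 : C (π ^ 2) ∣ C q * m.map C := ⟨P, e2.symm⟩
        rw [C_dvd_iff_dvd_coeff] at h4
        have h5 := h4 m.natDegree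
        rw [coeff_C_mul, coeff_map] at h5
        have h6 : IsUnit (C (m.coeff m.natDegree) : L[X]) := by
          rw [isUnit_C]
          exact (leadingCoeff_ne_zero.2 hm).isUnit
        exact (h6.dvd_mul_right).1 h5
      obtain ⟨c', rfl⟩ := h3
      have hc' : c' ≠ 0 := right_ne_zero_of_mul hq
      have e3 : P = C c' * m.map C := by
        have h7 : (C (π ^ 2) : L[X][X]) ≠ 0 := C_ne_zero.2 (pow_ne_zero 2 hπ0)
        apply mul_left_cancel₀ h7
        rw [e2, C_mul, mul_assoc]
      have hdeg : c'.natDegree < n := by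
        rw [← hn, natDegree_mul (pow_ne_zero 2 hπ0) hc', natDegree_pow]
        have := hπ.natDegree_pos
        omega
      obtain ⟨r, u1, v1, m', hr, hm', h8, h9, h10⟩ := ih _ hdeg u' v' c' hc' e3 rfl
      refine ⟨π * r, u1, v1, m', mul_ne_zero hπ0 hr, hm', ?_, ?_, h10⟩
      · rw [h8, C_mul, mul_assoc]
      · rw [h9, C_mul, mul_assoc]

private theorem pell4_ex (a b c w : L[X]) : pr a b c (w.map C) 0 = ex a b c w := by
  have h : toK L (w.map C) = w.map (RatFunc.C : L →+* RatFunc L) := by
    rw [coe_mapRingHom, map_map]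
    congr 1
  unfold pr
  rw [map_zero, map_zero, zero_mul, add_zero, h]
  rfl

private theorem pell4_alg {R : Type} [CommRing R] (w x y z : R) :
    w * (x * y) * z = w * (z * x) * y := by
  ring

private theorem pell4_alg2 {R : Type} [CommRing R] (w x y : R) (i : ℕ) :
    w * x ^ i * y * x = w * x ^ (i + 1) * y := by
  ring

private theorem pell4_alg3 {R : Type} [CommRing R] (w x : R) (i : ℕ) :
    w * x ^ i * x = w * x ^ (i + 1) := by
  ring

/-- the descent in the variable `t` -/
private theorem pell4_desc [CharZero L] {a b c β m : L[X]} (ha : a = β ^ 2) (hβ : β ≠ 0)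
    (U V : L[X][X]) (hV : V ≠ 0)
    (e1 : U ^ 2 - V ^ 2 * (C a * X ^ 2 + C (2 * b) * X + C c) = C m)
    (hd : U.natDegree = V.natDegree + 1) (hl : U.leadingCoeff = β * V.leadingCoeff) :
    V * (C a * X + C b) - U * C β = 0 ∨
      (V * (C a * X + C b) - U * C β).natDegree < V.natDegree := by
  by_cases h0 : V * (C a * X + C b) - U * C β = 0
  · exact Or.inl h0
  refine Or.inr ?_
  set n := V.natDegree with hn
  have hlV : V.coeff n ≠ 0 := leadingCoeff_ne_zero.2 hV
  have hl' : U.coeff (n + 1) = β * V.coeff n := by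
    have h1 := hl
    rw [leadingCoeff, leadingCoeff, hd] at h1
    exact h1
  have ha0 : a ≠ 0 := by
    rw [ha]
    exact pow_ne_zero 2 hβ
  set W : L[X][X] := V * (C a * X + C b) + U * C β with hW
  have hVn : V.coeff (n + 1) = 0 := coeff_eq_zero_of_natDegree_lt (by omega)
  have hWc : W.coeff (n + 1) = 2 * (a * V.coeff n) := by
    rw [hW, coeff_add, coeff_mul_C, hl', mul_add, coeff_add, coeff_mul_C, hVn,
      ← mul_assoc, coeff_mul_X, coeff_mul_C, ha]
    ring
  have hW0 : W.coeff (n + 1) ≠ 0 := by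
    rw [hWc]
    exact mul_ne_zero two_ne_zero (mul_ne_zero ha0 hlV)
  have hWd : n + 1 ≤ W.natDegree := le_natDegree_of_ne_zero hW0
  have hWne : W ≠ 0 := by
    intro h
    rw [h, coeff_zero] at hW0
    exact hW0 rfl
  have key : (V * (C a * X + C b) - U * C β) * W = C (b ^ 2 - a * c) * V ^ 2 - C (a * m) := by
    have h2 : (C a : L[X][X]) = C β ^ 2 := by rw [ha, C_pow]
    rw [hW]
    simp only [C_sub, C_mul, C_pow, C_ofNat] at e1 ⊢
    rw [← e1, h2]
    ring
  have h3 := congrArg natDegree key
  rw [natDegree_mul h0 hWne] at h3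
  have h4 : (C (b ^ 2 - a * c) * V ^ 2 - C (a * m)).natDegree ≤ 2 * n := by
    refine (natDegree_sub_le _ _).trans (max_le ?_ ?_)
    · refine (natDegree_C_mul_le _ _).trans ?_
      rw [natDegree_pow]
    · rw [natDegree_C]
      omega
  omega

private theorem pell4_aux [CharZero L] {a b c α : L[X]} (ha : a = α ^ 2) (hα : α ≠ 0)
    (hd : b ^ 2 - a * c ≠ 0) (n : ℕ) : ∀ (u v : L[X][X]) (m : L[X]), m ≠ 0 →
      (v = 0 ∨ (Bivariate.swap v).natDegree < n) → u ^ 2 - v ^ 2 * quad a b c = m.map C →
    ∃ (w w' : L[X]) (i j : ℕ), w ≠ 0 ∧ w' ≠ 0 ∧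
      ex a b c w' * pr a b c u v =
        ex a b c w * pr a b c (EE a b) (α.map C) ^ i * pr a b c (EE a b) (-α.map C) ^ j := by
  have ha0 : a ≠ 0 := by
    rw [ha]
    exact pow_ne_zero 2 hα
  have hmapC : Function.Injective (Polynomial.map (C : L →+* L[X])) := map_injective _ C_injective
  -- the case `v = 0`
  have hzero : ∀ (u v : L[X][X]) (m : L[X]), m ≠ 0 → v = 0 →
      u ^ 2 - v ^ 2 * quad a b c = m.map C →
      ∃ (w w' : L[X]) (i j : ℕ), w ≠ 0 ∧ w' ≠ 0 ∧
        ex a b c w' * pr a b c u v =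
          ex a b c w * pr a b c (EE a b) (α.map C) ^ i * pr a b c (EE a b) (-α.map C) ^ j := by
    intro u v m hm hv e
    rw [hv, zero_pow two_ne_zero, zero_mul, sub_zero] at e
    have h1 := congrArg Bivariate.swap e
    rw [map_pow, Bivariate.swap_map_C] at h1
    have h2 : (Bivariate.swap u).natDegree = 0 := by
      have h3 := congrArg natDegree h1
      rw [natDegree_pow, natDegree_C] at h3
      omega
    obtain ⟨w, hw⟩ := natDegree_eq_zero.1 h2
    have h4 : u = w.map C := by
      have h5 := congrArg Bivariate.swap hw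
      rw [Bivariate.swap_C, Bivariate.swap_swap_apply] at h5
      exact h5.symm
    refine ⟨w, 1, 0, 0, ?_, one_ne_zero, ?_⟩
    · rintro rfl
      rw [h4, Polynomial.map_zero, zero_pow two_ne_zero] at e
      exact hm (hmapC (by rw [← e, Polynomial.map_zero]))
    · rw [map_one, one_mul, pow_zero, pow_zero, mul_one, mul_one, hv, h4, pell4_ex]
  induction n with
  | zero =>
    intro u v m hm hv e
    rcases hv with hv | hv
    · exact hzero u v m hm hv e
    · omega
  | succ n ih =>
    intro u v m hm hv e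
    by_cases hv0 : v = 0
    · exact hzero u v m hm hv0 e
    have hvn : (Bivariate.swap v).natDegree < n + 1 := hv.resolve_left hv0
    set U := Bivariate.swap u with hU
    set V := Bivariate.swap v with hVd
    have hV0 : V ≠ 0 := fun h => hv0 ((map_eq_zero_iff _ (AlgEquiv.injective _)).1 h)
    have e1 : U ^ 2 - V ^ 2 * (C a * X ^ 2 + C (2 * b) * X + C c) = C m := by
      have h1 := congrArg Bivariate.swap e
      simp only [quad, map_sub, map_mul, map_pow, map_add, Bivariate.swap_map_C,
        Bivariate.swap_C, map_ofNat] at h1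
      rw [map_X] at h1
      rw [C_mul, C_ofNat]
      exact h1
    have hF : (C a * X ^ 2 + C (2 * b) * X + C c : L[X][X]).natDegree = 2 :=
      natDegree_quadratic ha0
    have hFl : (C a * X ^ 2 + C (2 * b) * X + C c : L[X][X]).leadingCoeff = a :=
      leadingCoeff_quadratic ha0
    have hF0 : (C a * X ^ 2 + C (2 * b) * X + C c : L[X][X]) ≠ 0 := by
      intro h0
      rw [h0, natDegree_zero] at hF
      omega
    have h1 : (V ^ 2 * (C a * X ^ 2 + C (2 * b) * X + C c)).natDegree = 2 * V.natDegree + 2 := by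
      rw [natDegree_mul (pow_ne_zero 2 hV0) hF0, natDegree_pow, hF]
    have h2 : (U ^ 2).natDegree = 2 * U.natDegree := natDegree_pow _ _
    have h3 : (U ^ 2).natDegree = (V ^ 2 * (C a * X ^ 2 + C (2 * b) * X + C c)).natDegree := by
      by_contra h3
      rcases lt_or_gt_of_ne h3 with h4 | h4
      · have h5 := natDegree_sub_eq_right_of_natDegree_lt h4
        rw [e1, natDegree_C] at h5
        omega
      · have h5 := natDegree_sub_eq_left_of_natDegree_lt h4
        rw [e1, natDegree_C] at h5
        omega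
    have h4 : (U ^ 2).leadingCoeff =
        (V ^ 2 * (C a * X ^ 2 + C (2 * b) * X + C c)).leadingCoeff := by
      have h5 := congrArg (fun p => coeff p (2 * V.natDegree + 2)) e1
      simp only [coeff_sub] at h5
      rw [coeff_C, if_neg (by omega)] at h5
      rw [leadingCoeff, leadingCoeff, h3, h1]
      exact sub_eq_zero.1 h5
    rw [leadingCoeff_pow, leadingCoeff_mul, leadingCoeff_pow, hFl] at h4
    have hdeg : U.natDegree = V.natDegree + 1 := by omega
    have h5 : U.leadingCoeff = α * V.leadingCoeff ∨ U.leadingCoeff = -α * V.leadingCoeff := by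
      have h6 : (U.leadingCoeff - α * V.leadingCoeff) * (U.leadingCoeff + α * V.leadingCoeff) =
          0 := by
        rw [ha] at h4
        linear_combination h4
      rcases mul_eq_zero.1 h6 with h7 | h7
      · exact Or.inl (sub_eq_zero.1 h7)
      · exact Or.inr (by linear_combination h7)
    -- one step
    have hstep : ∀ β : L[X], a = β ^ 2 → U.leadingCoeff = β * V.leadingCoeff →
        ∃ (w w' : L[X]) (i j : ℕ), w ≠ 0 ∧ w' ≠ 0 ∧
          ex a b c w' * pr a b c u v = ex a b c w * pr a b c (EE a b) (α.map C) ^ i *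
            pr a b c (EE a b) (-α.map C) ^ j * pr a b c (EE a b) (β.map C) := by
      intro β hβ hlβ
      have hβ0 : β ≠ 0 := by
        rintro rfl
        exact ha0 (by rw [hβ, zero_pow two_ne_zero])
      have h6 := pell4_desc hβ hβ0 U V hV0 e1 hdeg hlβ
      have h7 : Bivariate.swap (u * (-β.map C) + v * EE a b) =
          V * (C a * X + C b) - U * C β := by
        simp only [EE, map_mul, map_add, map_neg, Bivariate.swap_map_C, Bivariate.swap_C]
        rw [map_X]
        ring
      have h8 : u * (-β.map C) + v * EE a b = 0 ∨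
          (Bivariate.swap (u * (-β.map C) + v * EE a b)).natDegree < n := by
        rcases h6 with h6 | h6
        · left
          rw [← h7] at h6
          exact (map_eq_zero_iff _ (AlgEquiv.injective _)).1 h6
        · right
          rw [h7]
          omega
      have h9 := EE_sq a b c
      have h10 : (a.map C : L[X][X]) = β.map C ^ 2 := by
        rw [hβ, Polynomial.map_pow]
      obtain ⟨w, w', i, j, hw, hw', h11⟩ := ih
        (u * EE a b + v * (-β.map C) * quad a b c) (u * (-β.map C) + v * EE a b)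
        (m * (b ^ 2 - a * c)) (mul_ne_zero hm hd) h8 (by
          rw [Polynomial.map_mul, ← h9, ← e, h10]
          ring)
      refine ⟨w, w' * (b ^ 2 - a * c), i, j, hw, mul_ne_zero hw' hd, ?_⟩
      rw [← h11, ← pr_mul, map_mul]
      have h12 : pr a b c (EE a b) (-β.map C) * pr a b c (EE a b) (β.map C) =
          ex a b c (b ^ 2 - a * c) := by
        have h13 : EE a b * EE a b + -β.map C * β.map C * quad a b c =
            EE a b ^ 2 - β.map C ^ 2 * quad a b c := by ring
        have h14 : EE a b * β.map C + -β.map C * EE a b = 0 := by ring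
        rw [pr_mul, ← pell4_ex, ← h9, h10, h13, h14]
      rw [← h12]
      exact pell4_alg _ _ _ _
    rcases h5 with h5 | h5
    · obtain ⟨w, w', i, j, hw, hw', h6⟩ := hstep α ha h5
      refine ⟨w, w', i + 1, j, hw, hw', ?_⟩
      rw [h6]
      exact pell4_alg2 _ _ _ _
    · obtain ⟨w, w', i, j, hw, hw', h6⟩ := hstep (-α) (by rw [ha, neg_sq]) h5
      refine ⟨w, w', i, j + 1, hw, hw', ?_⟩
      rw [h6, Polynomial.map_neg]
      exact pell4_alg3 _ _ _

/-- Pairs with norm in `L[x]` for `a = α²`. Proof: induction over the degree in `t` of `v`, that is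
`(swap v).natDegree`. If `v = 0` then `u² ∈ L[x]`, so `u = w(x)`. If `v ≠ 0` then `u` has degree
`deg v + 1` in `t` and its leading coefficient is `± α lc(v)`; multiply by the conjugate
`EE ∓ α y` of `ε = EE ± α y`: with `G = t + b/a` (over `L(x)`) one has
`u² - α² v² G² = m - v² (b² - a c)/α²`, so for the right sign `u ∓ α v G` has degree `deg v - 1`
(it is `0` if `deg v = 0`), and the new `v` is `v EE ∓ α u = ∓ α (u ∓ α v G)`. The product of the
two `ε` is `b² - a c`. -/
theorem pell4 [CharZero L] {a b c α : L[X]} (ha : a = α ^ 2) (hα : α ≠ 0)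
    (hd : b ^ 2 - a * c ≠ 0) (u v : L[X][X]) (m : L[X]) (hm : m ≠ 0)
    (e : u ^ 2 - v ^ 2 * quad a b c = m.map C) :
    ∃ (w w' : L[X]) (i j : ℕ), w ≠ 0 ∧ w' ≠ 0 ∧
      ex a b c w' * pr a b c u v =
        ex a b c w * pr a b c (EE a b) (α.map C) ^ i * pr a b c (EE a b) (-α.map C) ^ j :=
  pell4_aux ha hα hd ((Bivariate.swap v).natDegree + 1) u v m hm
    (Or.inr (Nat.lt_succ_self _)) e

/-- divisors of elements of `L[x]`, up to elements of `L[x]` they are constants times powers of the
two `ε`. Proof: as `dvd_const2`, with `norm_red4` and `pell4`. -/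
theorem dvd_const4 [CharZero L] {a b c α : L[X]} (ha : a = α ^ 2) (hα : α ≠ 0)
    (hd : b ^ 2 - a * c ≠ 0) (hM : Mem2 a b c) (m : L[X]) (hm : m ≠ 0)
    (z : CoordRing2 a b c) (hz : z ∣ ex a b c m) :
    ∃ (k : RatFunc L) (w w' : L[X]) (i j : ℕ), k ≠ 0 ∧ w ≠ 0 ∧ w' ≠ 0 ∧
      ex a b c w' * z = ct a b c k * ex a b c w * pr a b c (EE a b) (α.map C) ^ i *
        pr a b c (EE a b) (-α.map C) ^ j := by
  obtain ⟨z', hzz⟩ := hz
  obtain ⟨u, v, rfl⟩ := rep _ z
  obtain ⟨u', v', rfl⟩ := rep _ z'
  set F : (RatFunc L)[X] := toK L (quad a b c) with hF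
  set M : (RatFunc L)[X] := m.map (RatFunc.C : L →+* RatFunc L) with hM0
  have hex : ∀ w : L[X], ex a b c w = em F (w.map (RatFunc.C : L →+* RatFunc L)) := fun _ => rfl
  have hsq := yy_sq F
  have e0 : M = u * u' + v * v' * F ∧ (0 : (RatFunc L)[X]) = u * v' + v * u' := by
    rw [← ext_iff F]
    rw [hex] at hzz
    rw [map_zero, zero_mul, add_zero, ← hM0] at *
    rw [hzz]
    simp only [map_add, map_mul]
    linear_combination (em F v * em F v') * hsq
  have e3 : (u ^ 2 - v ^ 2 * F) * (u' ^ 2 - v' ^ 2 * F) = M ^ 2 := by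
    rw [e0.1]
    linear_combination (F * (u * v' + v * u')) * e0.2
  -- clear denominators
  have hclear : ∀ u v : (RatFunc L)[X], ∃ (c : L[X]) (U V : L[X][X]), c ≠ 0 ∧
      U.map (algebraMap L[X] (RatFunc L)) = C (algebraMap L[X] (RatFunc L) c) * u ∧
      V.map (algebraMap L[X] (RatFunc L)) = C (algebraMap L[X] (RatFunc L) c) * v := by
    intro u v
    obtain ⟨b1, hb1, h1⟩ := IsLocalization.integerNormalization_spec (nonZeroDivisors L[X]) u
    obtain ⟨b2, hb2, h2⟩ := IsLocalization.integerNormalization_spec (nonZeroDivisors L[X]) v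
    have h3 : ∀ (r : L[X]) (w : (RatFunc L)[X]), r • w = C (algebraMap L[X] (RatFunc L) r) * w := by
      intro r w
      rw [← algebraMap_smul (RatFunc L) r w, smul_eq_C_mul]
    rw [h3] at h1 h2
    refine ⟨b1 * b2, C b2 * IsLocalization.integerNormalization (nonZeroDivisors L[X]) u,
      C b1 * IsLocalization.integerNormalization (nonZeroDivisors L[X]) v,
      mul_ne_zero (nonZeroDivisors.ne_zero hb1) (nonZeroDivisors.ne_zero hb2), ?_, ?_⟩
    · rw [Polynomial.map_mul, map_C, h1, map_mul, C_mul]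
      ring
    · rw [Polynomial.map_mul, map_C, h2, map_mul, C_mul]
      ring
  obtain ⟨d1, U, V, hd1, hU, hV⟩ := hclear u v
  obtain ⟨d2, U', V', hd2, hU', hV'⟩ := hclear u' v'
  set al : L[X] →+* RatFunc L := algebraMap L[X] (RatFunc L) with hal
  have hali : Function.Injective al := IsFractionRing.injective L[X] (RatFunc L)
  have hmapi : Function.Injective (Polynomial.map al) := map_injective _ hali
  have halC : al.comp C = (RatFunc.C : L →+* RatFunc L) := by
    ext r
    exact RatFunc.algebraMap_C r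
  have hF0 : (quad a b c).map al = F := rfl
  have hP : (U ^ 2 - V ^ 2 * quad a b c) * (U' ^ 2 - V' ^ 2 * quad a b c) =
      C ((d1 * d2) ^ 2) * (m ^ 2).map C := by
    apply hmapi
    have h4 : (m.map C).map al = M := by rw [map_map, halC]
    simp only [Polynomial.map_mul, Polynomial.map_sub, Polynomial.map_pow, map_C, hF0, hU, hV,
      hU', hV', map_mul, map_pow, h4]
    linear_combination (C (al d1) * C (al d2)) ^ 2 * e3
  obtain ⟨c1, d, hc1, hd', h5⟩ := unit2_divisor (P := U ^ 2 - V ^ 2 * quad a b c)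
    (pow_ne_zero 2 (mul_ne_zero hd1 hd2)) (pow_ne_zero 2 hm) ⟨_, hP.symm⟩
  obtain ⟨r, u1, v1, m', hr, hm', hUr, hVr, h6⟩ := norm_red4 hM U V d c1 hd' hc1 h5
  obtain ⟨w, w', i, j, hw, hw', h7⟩ := pell4 ha hα hd u1 v1 m' hm' h6
  have hac : al d1 ≠ 0 := fun h0 => hd1 (hali (by rw [h0, map_zero]))
  have har : al r ≠ 0 := fun h0 => hr (hali (by rw [h0, map_zero]))
  have hCc : (C (al d1) : (RatFunc L)[X]) ≠ 0 := C_ne_zero.2 hac
  have hcl : ∀ (W W1 : L[X][X]) (w : (RatFunc L)[X]), W.map al = C (al d1) * w → W = C r * W1 →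
      w = C (al r / al d1) * W1.map al := by
    intro W W1 w h8 h9
    apply mul_left_cancel₀ hCc
    rw [← h8, h9, Polynomial.map_mul, map_C, ← mul_assoc, ← C_mul, mul_div_cancel₀ _ hac]
  have hu := hcl U u1 u hU hUr
  have hv := hcl V v1 v hV hVr
  have hz : em F u + em F v * yy F = ct a b c (al r / al d1) * pr a b c u1 v1 := by
    rw [hu, hv, map_mul, map_mul]
    change em F (C (al r / al d1)) * em F (toK L u1) +
      em F (C (al r / al d1)) * em F (toK L v1) * yy F =
      em F (C (al r / al d1)) * (em F (toK L u1) + em F (toK L v1) * yy F)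
    ring
  refine ⟨al r / al d1, w, w', i, j, div_ne_zero har hac, hw, hw', ?_⟩
  rw [hz]
  linear_combination (ct a b c (al r / al d1)) * h7

private theorem isUnit_of_em4 {k : Type} [CommRing k] (P : k) {v : k} (h : IsUnit (em P v)) :
    IsUnit v := by
  obtain ⟨z, hz⟩ := h.exists_right_inv
  obtain ⟨u, w, rfl⟩ := rep P z
  have e : em P (v * u - 1) + em P (v * w) * yy P = 0 := by
    rw [map_sub, map_mul, map_mul, map_one]
    linear_combination hz
  have h1 := (uniq P e).1
  exact IsUnit.of_mul_eq_one u (sub_eq_zero.mp h1)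

/-- if the degree in `x` is odd then the units are the constants. Proof: the norm `u² - v² F` is a
unit of `L(t)[x]`, its degree is `max (2 deg u) (2 deg v + deg F)` if `v ≠ 0`. -/
theorem unit_odd [CharZero L] {a b c : L[X]} (ho : Odd (quad a b c).natDegree)
    (z : CoordRing2 a b c) (hz : IsUnit z) : ∃ k : RatFunc L, z = ct a b c k := by
  obtain ⟨u, v, rfl⟩ := rep _ z
  set F : (RatFunc L)[X] := toK L (quad a b c) with hF
  have hFd : Odd F.natDegree := by
    have h1 : F.natDegree = (quad a b c).natDegree :=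
      natDegree_map_eq_of_injective (IsFractionRing.injective L[X] (RatFunc L)) _
    rw [h1]
    exact ho
  have hF0 : F ≠ 0 := by
    intro h0
    rw [h0, natDegree_zero] at hFd
    exact absurd hFd (by decide)
  have h1 : IsUnit (em F (u ^ 2 - v ^ 2 * F)) := by
    rw [← mul_conj]
    exact hz.mul (hz.map (conj F))
  have h2 := natDegree_eq_zero_of_isUnit (isUnit_of_em4 F h1)
  have hv : v = 0 := by
    by_contra hv0
    have h3 : (v ^ 2 * F).natDegree = 2 * v.natDegree + F.natDegree := by
      rw [natDegree_mul (pow_ne_zero 2 hv0) hF0, natDegree_pow]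
    have h4 : (u ^ 2).natDegree = 2 * u.natDegree := natDegree_pow _ _
    obtain ⟨k, hk⟩ := hFd
    rcases lt_trichotomy (u ^ 2).natDegree (v ^ 2 * F).natDegree with h5 | h5 | h5
    · rw [natDegree_sub_eq_right_of_natDegree_lt h5] at h2
      omega
    · omega
    · rw [natDegree_sub_eq_left_of_natDegree_lt h5] at h2
      omega
  subst hv
  have h3 := isUnit_of_em4 F h1
  rw [zero_pow two_ne_zero, zero_mul, sub_zero] at h3
  have h4 : IsUnit u := (isUnit_pow_iff two_ne_zero).1 h3
  obtain ⟨k, -, hk⟩ := isUnit_iff.1 h4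
  refine ⟨k, ?_⟩
  rw [← hk, map_zero, zero_mul, add_zero]
  rfl

/-- the square of `ε` has a nonzero `y`-coefficient -/
theorem eps_sq_ne [CharZero L] {a b c α : L[X]} (ha : a = α ^ 2) (hα : α ≠ 0)
    (k : RatFunc L) (w : L[X]) :
    pr a b c (EE a b) (α.map C) ^ 2 ≠ ct a b c k * ex a b c w := by
  intro h
  set F : (RatFunc L)[X] := toK L (quad a b c) with hF
  set U : (RatFunc L)[X] := toK L (EE a b) with hU
  set V : (RatFunc L)[X] := toK L (α.map C) with hV
  have hsq := yy_sq F
  have h1 : em F (U ^ 2 + V ^ 2 * F) + em F (2 * U * V) * yy F =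
      em F (C k * w.map (RatFunc.C : L →+* RatFunc L)) + em F 0 * yy F := by
    have h2 : (em F U + em F V * yy F) ^ 2 =
        em F (C k) * em F (w.map (RatFunc.C : L →+* RatFunc L)) := h
    rw [map_zero, zero_mul, add_zero, map_mul (em F) (C k), ← h2]
    simp only [map_add, map_mul, map_pow, map_ofNat]
    linear_combination (-(em F V) ^ 2) * hsq
  have h3 := ((ext_iff F).1 h1).2
  have : CharZero (RatFunc L) := charZero_of_injective_algebraMap
    (algebraMap L (RatFunc L)).injective
  have h4 : U = 0 ∨ V = 0 := by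
    rcases mul_eq_zero.1 h3 with h5 | h5
    · left
      rcases mul_eq_zero.1 h5 with h6 | h6
      · exact absurd h6 two_ne_zero
      · exact h6
    · exact Or.inr h5
  rcases h4 with h5 | h5
  · have h6 : EE a b = 0 := toK_injective (h5.trans (map_zero _).symm)
    have h7 : C a * X + C b = (0 : L[X][X]) := by
      have h8 := congrArg (Bivariate.swap (R := L)) h6
      rw [map_zero] at h8
      rw [← h8, EE, map_add, map_mul, Bivariate.swap_map_C, Bivariate.swap_map_C,
        Bivariate.swap_X]
    have h9 := congrArg (fun p => coeff p 1) h7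
    have h10 : a = 0 := by
      simpa [coeff_C] using h9
    rw [ha] at h10
    exact hα ((pow_eq_zero_iff two_ne_zero).1 h10)
  · have h6 : α.map (C : L →+* L[X]) = 0 := toK_injective (h5.trans (map_zero _).symm)
    exact hα ((Polynomial.map_eq_zero_iff C_injective).1 h6)

end Pool.Agent.Lib.MP_1a0ddd_nt.Quad
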