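import Pool.Agent.Lib.MP_1a0ddd_nt.Quad.Trans

/-! Divisors of elements of `L[x]` in the curve ring (compare `Unit.lean`). -/

set_option autoImplicit false

namespace Pool.Agent.Lib.MP_1a0ddd_nt.Quad

open Polynomial

variable {L : Type} [Field L]

private theorem unit2_sq_of_sq_mul {R : Type} [CommRing R] [IsDomain R]
    [UniqueFactorizationMonoid R] {x y a : R} (hy : y ≠ 0) (h : x ^ 2 = y ^ 2 * a) :
    ∃ r : R, x = y * r ∧ a = r ^ 2 := by
  have hd : y ∣ x := by
    rw [← IsIntegrallyClosed.pow_dvd_pow_iff two_ne_zero]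
    exact ⟨a, h⟩
  obtain ⟨r, rfl⟩ := hd
  refine ⟨r, rfl, ?_⟩
  have h2 : y ^ 2 * a = y ^ 2 * r ^ 2 := by rw [← h]; ring
  exact mul_left_cancel₀ (pow_ne_zero 2 hy) h2

/-- `t`-degree: the top coefficient in `t` of `u² - v² quad` would give `lc(u)² = lc(v)² a` -/
theorem tdeg2 [CharZero L] {a b c : L[X]} (hd : b ^ 2 - a * c ≠ 0) (hns : a = 0 ∨ ¬ IsSquare a)
    (u v : L[X][X]) (m : L[X])
    (e : u ^ 2 - v ^ 2 * quad a b c = m.map C) :
    v = 0 ∧ ∃ w : L[X], u = w.map C := by
  set U := Bivariate.swap u with hU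
  set V := Bivariate.swap v with hV
  have e1 : U ^ 2 - V ^ 2 * (C a * X ^ 2 + C (2 * b) * X + C c) = C m := by
    have h1 := congrArg Bivariate.swap e
    simp only [quad, map_sub, map_mul, map_pow, map_add, Bivariate.swap_map_C,
      Bivariate.swap_C, map_ofNat] at h1
    rw [map_X] at h1
    rw [C_mul, C_ofNat]
    exact h1
  have hv : V = 0 := by
    rcases hns with ha0 | hnsq
    · by_contra hV0
      have hb : 2 * b ≠ 0 := by
        intro hb
        have h2u : (2 : L[X]) ≠ 0 := two_ne_zero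
        have hb0 := (mul_eq_zero.mp hb).resolve_left h2u
        apply hd
        rw [ha0, hb0]
        ring
      have hF : (C a * X ^ 2 + C (2 * b) * X + C c : L[X][X]).natDegree = 1 := by
        rw [ha0, C_0, zero_mul, zero_add]
        exact natDegree_linear hb
      have hF0 : (C a * X ^ 2 + C (2 * b) * X + C c : L[X][X]) ≠ 0 := by
        intro h0
        rw [h0, natDegree_zero] at hF
        omega
      have h1 : (V ^ 2 * (C a * X ^ 2 + C (2 * b) * X + C c)).natDegree =
          2 * V.natDegree + 1 := by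
        rw [natDegree_mul (pow_ne_zero 2 hV0) hF0, natDegree_pow, hF]
      have h2 : (U ^ 2).natDegree = 2 * U.natDegree := natDegree_pow _ _
      have h3 : (U ^ 2).natDegree =
          (V ^ 2 * (C a * X ^ 2 + C (2 * b) * X + C c)).natDegree := by
        by_contra h3
        rcases lt_or_gt_of_ne h3 with h4 | h4
        · have h5 := natDegree_sub_eq_right_of_natDegree_lt h4
          rw [e1, natDegree_C] at h5
          omega
        · have h5 := natDegree_sub_eq_left_of_natDegree_lt h4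
          rw [e1, natDegree_C] at h5
          omega
      omega
    have ha : a ≠ 0 := by
      rintro rfl
      exact hnsq ⟨0, by simp⟩
    have hF : (C a * X ^ 2 + C (2 * b) * X + C c : L[X][X]).natDegree = 2 :=
      natDegree_quadratic ha
    have hFl : (C a * X ^ 2 + C (2 * b) * X + C c : L[X][X]).leadingCoeff = a :=
      leadingCoeff_quadratic ha
    have hF0 : (C a * X ^ 2 + C (2 * b) * X + C c : L[X][X]) ≠ 0 := by
      intro h0
      rw [h0, natDegree_zero] at hF
      omega
    by_contra hV0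
    have h1 : (V ^ 2 * (C a * X ^ 2 + C (2 * b) * X + C c)).natDegree = 2 * V.natDegree + 2 := by
      rw [natDegree_mul (pow_ne_zero 2 hV0) hF0, natDegree_pow, hF]
    have h2 : (U ^ 2).natDegree = 2 * U.natDegree := natDegree_pow _ _
    have h3 : (U ^ 2).natDegree = (V ^ 2 * (C a * X ^ 2 + C (2 * b) * X + C c)).natDegree := by
      by_contra h3
      rcases lt_or_gt_of_ne h3 with h4 | h4
      · have h5 := natDegree_sub_eq_right_of_natDegree_lt h4
        rw [e1, natDegree_C] at h5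
        omega
      · have h5 := natDegree_sub_eq_left_of_natDegree_lt h4
        rw [e1, natDegree_C] at h5
        omega
    have h4 : (U ^ 2).leadingCoeff =
        (V ^ 2 * (C a * X ^ 2 + C (2 * b) * X + C c)).leadingCoeff := by
      have h5 := congrArg (fun p => coeff p (2 * V.natDegree + 2)) e1
      simp only [coeff_sub] at h5
      rw [coeff_C, if_neg (by omega)] at h5
      rw [leadingCoeff, leadingCoeff, h3, h1]
      exact sub_eq_zero.1 h5
    rw [leadingCoeff_pow, leadingCoeff_mul, leadingCoeff_pow, hFl] at h4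
    obtain ⟨r, -, hr⟩ := unit2_sq_of_sq_mul (leadingCoeff_ne_zero.2 hV0) h4
    exact hnsq ⟨r, by rw [hr, sq]⟩
  have hv0 : v = 0 := (map_eq_zero_iff _ (AlgEquiv.injective _)).1 hv
  refine ⟨hv0, ?_⟩
  rw [hv, zero_pow two_ne_zero, zero_mul, sub_zero] at e1
  have h6 : U.natDegree = 0 := by
    have h7 := congrArg natDegree e1
    rw [natDegree_pow, natDegree_C] at h7
    omega
  obtain ⟨w, hw⟩ := natDegree_eq_zero.1 h6
  refine ⟨w, ?_⟩
  have h8 := congrArg Bivariate.swap hw
  rw [Bivariate.swap_C, hU, Bivariate.swap_swap_apply] at h8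
  exact h8.symm

/-- modulo an irreducible `q(t)` the polynomial `quad a b c` is not a square (`Mem2`) -/
theorem unit_mod2 {a b c : L[X]} (hm : Mem2 a b c) {q : L[X]} (hq : Irreducible q)
    (u v : L[X][X]) (e : C q ∣ u ^ 2 - v ^ 2 * quad a b c) : C q ∣ u ∧ C q ∣ v := by
  have : Fact (Irreducible q) := ⟨hq⟩
  set φ : L[X] →+* AdjoinRoot q := AdjoinRoot.mk q with hφ
  have hker : ∀ w : L[X][X], C q ∣ w ↔ w.map φ = 0 := by
    intro w
    rw [C_dvd_iff_dvd_coeff]
    constructor
    · intro hw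
      ext i
      rw [coeff_map, coeff_zero, hφ, AdjoinRoot.mk_eq_zero]
      exact hw i
    · intro hw i
      rw [← AdjoinRoot.mk_eq_zero, ← hφ, ← coeff_map, hw, coeff_zero]
  rw [hker] at e
  rw [hker, hker]
  rw [Polynomial.map_sub, Polynomial.map_mul, Polynomial.map_pow, Polynomial.map_pow] at e
  have hv : v.map φ = 0 := by
    by_contra hv0
    obtain ⟨r, -, hr⟩ := unit2_sq_of_sq_mul hv0 (sub_eq_zero.1 e)
    obtain ⟨s, hs⟩ := map_surjective φ (AdjoinRoot.mk_surjective (g := q)) r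
    apply hm q hq s
    rw [hker, Polynomial.map_sub, Polynomial.map_pow, hs, hr, sub_self]
  refine ⟨?_, hv⟩
  rw [hv, zero_pow two_ne_zero, zero_mul, sub_zero] at e
  exact (pow_eq_zero_iff two_ne_zero).1 e

theorem norm_const2 [CharZero L] {a b c : L[X]} (hd : b ^ 2 - a * c ≠ 0)
    (hns : a = 0 ∨ ¬ IsSquare a) (hM : Mem2 a b c) (u v : L[X][X]) (m q : L[X]) (hm : m ≠ 0)
    (hq : q ≠ 0) (e : u ^ 2 - v ^ 2 * quad a b c = C q * m.map C) :
    v = 0 ∧ ∃ (r : L[X]) (w : L[X]), r ≠ 0 ∧ u = C r * w.map C := by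
  obtain ⟨n, hn⟩ : ∃ n, q.natDegree = n := ⟨_, rfl⟩
  induction n using Nat.strong_induction_on generalizing u v q with
  | _ n ih =>
    by_cases hu : IsUnit q
    · obtain ⟨r, hr, rfl⟩ := isUnit_iff.1 hu
      obtain ⟨h1, w, h2⟩ := tdeg2 hd hns u v (C r * m) (by
        rw [e, Polynomial.map_mul, map_C])
      exact ⟨h1, 1, w, one_ne_zero, by rw [h2, C_1, one_mul]⟩
    · obtain ⟨π, hπ, hπc⟩ := WfDvdMonoid.exists_irreducible_factor hu hq
      obtain ⟨⟨u', rfl⟩, ⟨v', rfl⟩⟩ := unit_mod2 hM hπ u v (by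
        rw [e]
        exact (_root_.map_dvd C hπc).mul_right _)
      have hπ0 : π ≠ 0 := hπ.ne_zero
      have hCπ : (C π : L[X][X]) ≠ 0 := C_ne_zero.2 hπ0
      set P := u' ^ 2 - v' ^ 2 * quad a b c with hP
      have e2 : C (π ^ 2) * P = C q * m.map C := by
        rw [← e, hP, C_pow]
        ring
      have h3 : π ^ 2 ∣ q := by
        have h4 : C (π ^ 2) ∣ C q * m.map C := ⟨P, e2.symm⟩
        rw [C_dvd_iff_dvd_coeff] at h4
        have h5 := h4 m.natDegree
        rw [coeff_C_mul, coeff_map] at h5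
        have h6 : IsUnit (C (m.coeff m.natDegree) : L[X]) := by
          rw [isUnit_C]
          exact (leadingCoeff_ne_zero.2 hm).isUnit
        exact (h6.dvd_mul_right).1 h5
      obtain ⟨c', rfl⟩ := h3
      have hc' : c' ≠ 0 := right_ne_zero_of_mul hq
      have e3 : P = C c' * m.map C := by
        have h7 : (C (π ^ 2) : L[X][X]) ≠ 0 := C_ne_zero.2 (pow_ne_zero 2 hπ0)
        apply mul_left_cancel₀ h7
        rw [e2, C_mul, mul_assoc]
      have hdeg : c'.natDegree < n := by
        rw [← hn, natDegree_mul (pow_ne_zero 2 hπ0) hc', natDegree_pow]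
        have := hπ.natDegree_pos
        omega
      obtain ⟨h8, r, w, hr, h9⟩ := ih _ hdeg u' v' c' hc' e3 rfl
      refine ⟨by rw [h8, mul_zero], π * r, w, mul_ne_zero hπ0 hr, ?_⟩
      rw [h9, C_mul, mul_assoc]

/-- constants of `L(t)` -/
noncomputable def ct (a b c : L[X]) : RatFunc L →+* CoordRing2 a b c :=
  (em (toK L (quad a b c))).comp C

/-- divisors of `c(t) m(x)` in `L[t][x]` -/
theorem unit2_divisor {P : L[X][X]} {c m : L[X]} (hc : c ≠ 0) (hm : m ≠ 0)
    (h : P ∣ C c * m.map C) : ∃ c' d : L[X], c' ≠ 0 ∧ d ≠ 0 ∧ P = C c' * d.map C := by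
  obtain ⟨P1, P2, h1, h2, rfl⟩ := exists_dvd_and_dvd_of_dvd_mul h
  have hinj : Function.Injective (mapRingHom (C : L →+* L[X])) := map_injective _ C_injective
  have e1 : P1.natDegree = 0 := by
    have h3 := natDegree_le_of_dvd h1 (C_ne_zero.2 hc)
    rw [natDegree_C] at h3
    omega
  obtain ⟨c', rfl⟩ := natDegree_eq_zero.1 e1
  have h4 : Bivariate.swap P2 ∣ C m := by
    have h5 := _root_.map_dvd (Bivariate.swap : L[X][X] ≃ₐ[L] L[X][X]) h2
    rwa [Bivariate.swap_map_C] at h5
  have e2 : (Bivariate.swap P2).natDegree = 0 := by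
    have h3 := natDegree_le_of_dvd h4 (C_ne_zero.2 hm)
    rw [natDegree_C] at h3
    omega
  obtain ⟨d, hd⟩ := natDegree_eq_zero.1 e2
  have h6 : P2 = d.map C := by
    have h7 := congrArg Bivariate.swap hd
    rw [Bivariate.swap_C, Bivariate.swap_swap_apply] at h7
    exact h7.symm
  refine ⟨c', d, ?_, ?_, by rw [h6]⟩
  · rintro rfl
    rw [C_0, zero_dvd_iff, C_eq_zero] at h1
    exact hc h1
  · rintro rfl
    rw [h6, Polynomial.map_zero, zero_dvd_iff] at h2
    exact hm (hinj (by rw [coe_mapRingHom, h2, Polynomial.map_zero]))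

theorem dvd_const2 [CharZero L] {a b c : L[X]} (hdis : b ^ 2 - a * c ≠ 0)
    (hns : a = 0 ∨ ¬ IsSquare a) (hM' : Mem2 a b c) (m : L[X]) (hm : m ≠ 0)
    (z : CoordRing2 a b c) (hz : z ∣ ex a b c m) :
    ∃ (k : RatFunc L) (w : L[X]), k ≠ 0 ∧ w ≠ 0 ∧ z = ct a b c k * ex a b c w := by
  obtain ⟨z', hzz⟩ := hz
  obtain ⟨u, v, rfl⟩ := rep _ z
  obtain ⟨u', v', rfl⟩ := rep _ z'
  set F : (RatFunc L)[X] := toK L (quad a b c) with hF
  set M : (RatFunc L)[X] := m.map (RatFunc.C : L →+* RatFunc L) with hM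
  have hex : ∀ w : L[X], ex a b c w = em F (w.map (RatFunc.C : L →+* RatFunc L)) := fun _ => rfl
  have hsq := yy_sq F
  have e0 : M = u * u' + v * v' * F ∧ (0 : (RatFunc L)[X]) = u * v' + v * u' := by
    rw [← ext_iff F]
    rw [hex] at hzz
    rw [map_zero, zero_mul, add_zero, ← hM] at *
    rw [hzz]
    simp only [map_add, map_mul]
    linear_combination (em F v * em F v') * hsq
  have e3 : (u ^ 2 - v ^ 2 * F) * (u' ^ 2 - v' ^ 2 * F) = M ^ 2 := by
    rw [e0.1]
    linear_combination (F * (u * v' + v * u')) * e0.2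
  -- clear denominators
  have hclear : ∀ u v : (RatFunc L)[X], ∃ (c : L[X]) (U V : L[X][X]), c ≠ 0 ∧
      U.map (algebraMap L[X] (RatFunc L)) = C (algebraMap L[X] (RatFunc L) c) * u ∧
      V.map (algebraMap L[X] (RatFunc L)) = C (algebraMap L[X] (RatFunc L) c) * v := by
    intro u v
    obtain ⟨b1, hb1, h1⟩ := IsLocalization.integerNormalization_spec (nonZeroDivisors L[X]) u
    obtain ⟨b2, hb2, h2⟩ := IsLocalization.integerNormalization_spec (nonZeroDivisors L[X]) v
    have h3 : ∀ (r : L[X]) (w : (RatFunc L)[X]), r • w = C (algebraMap L[X] (RatFunc L) r) * w := by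
      intro r w
      rw [← algebraMap_smul (RatFunc L) r w, smul_eq_C_mul]
    rw [h3] at h1 h2
    refine ⟨b1 * b2, C b2 * IsLocalization.integerNormalization (nonZeroDivisors L[X]) u,
      C b1 * IsLocalization.integerNormalization (nonZeroDivisors L[X]) v,
      mul_ne_zero (nonZeroDivisors.ne_zero hb1) (nonZeroDivisors.ne_zero hb2), ?_, ?_⟩
    · rw [Polynomial.map_mul, map_C, h1, map_mul, C_mul]
      ring
    · rw [Polynomial.map_mul, map_C, h2, map_mul, C_mul]
      ring
  obtain ⟨d1, U, V, hd1, hU, hV⟩ := hclear u v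
  obtain ⟨d2, U', V', hd2, hU', hV'⟩ := hclear u' v'
  set al : L[X] →+* RatFunc L := algebraMap L[X] (RatFunc L) with hal
  have hali : Function.Injective al := IsFractionRing.injective L[X] (RatFunc L)
  have hmapi : Function.Injective (Polynomial.map al) := map_injective _ hali
  have halC : al.comp C = (RatFunc.C : L →+* RatFunc L) := by
    ext r
    exact RatFunc.algebraMap_C r
  have hF0 : (quad a b c).map al = F := rfl
  have hP : (U ^ 2 - V ^ 2 * quad a b c) * (U' ^ 2 - V' ^ 2 * quad a b c) =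
      C ((d1 * d2) ^ 2) * (m ^ 2).map C := by
    apply hmapi
    have h4 : (m.map C).map al = M := by rw [map_map, halC]
    simp only [Polynomial.map_mul, Polynomial.map_sub, Polynomial.map_pow, map_C, hF0, hU, hV,
      hU', hV', map_mul, map_pow, h4]
    linear_combination (C (al d1) * C (al d2)) ^ 2 * e3
  obtain ⟨c1, d, hc1, hd, h5⟩ := unit2_divisor (P := U ^ 2 - V ^ 2 * quad a b c)
    (pow_ne_zero 2 (mul_ne_zero hd1 hd2)) (pow_ne_zero 2 hm) ⟨_, hP.symm⟩
  obtain ⟨hV0, r, w, hr, hUw⟩ := norm_const2 hdis hns hM' U V d c1 hd hc1 h5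
  have hac : al d1 ≠ 0 := fun h0 => hd1 (hali (by rw [h0, map_zero]))
  have har : al r ≠ 0 := fun h0 => hr (hali (by rw [h0, map_zero]))
  have hCc : (C (al d1) : (RatFunc L)[X]) ≠ 0 := C_ne_zero.2 hac
  have hv0 : v = 0 := by
    rw [hV0, Polynomial.map_zero] at hV
    exact (mul_eq_zero.1 hV.symm).resolve_left hCc
  have hu : u = C (al r / al d1) * w.map (RatFunc.C : L →+* RatFunc L) := by
    apply mul_left_cancel₀ hCc
    rw [← hU, hUw, Polynomial.map_mul, map_C, map_map, halC, ← mul_assoc, ← C_mul,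
      mul_div_cancel₀ _ hac]
  refine ⟨al r / al d1, w, div_ne_zero har hac, ?_, ?_⟩
  · rintro rfl
    rw [Polynomial.map_zero, mul_zero] at hu
    have h6 := e0.1
    rw [hu, hv0] at h6
    simp only [zero_mul, add_zero] at h6
    apply hm
    exact map_injective _ (RatFunc.C : L →+* RatFunc L).injective (by
      rw [Polynomial.map_zero]
      exact h6)
  · rw [hv0, map_zero, zero_mul, add_zero, hu, map_mul]
    rfl

end Pool.Agent.Lib.MP_1a0ddd_nt.Quad
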