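import Pool.Agent.Lib.MP_1a0ddd_nt.Quad.Over2
import Pool.Agent.Lib.MP_1a0ddd_nt.Quad.Unit2

/-! The affine curve is a Dedekind domain. -/

set_option autoImplicit false

namespace Pool.Agent.Lib.MP_1a0ddd_nt.Quad

open Polynomial

variable {L : Type} [Field L]

theorem isUnit_of_em {k : Type} [CommRing k] (P : k) {v : k} (h : IsUnit (em P v)) : IsUnit v := by
  obtain ⟨z, hz⟩ := h.exists_right_inv
  obtain ⟨u, w, rfl⟩ := rep P z
  have e : em P (v * u - 1) + em P (v * w) * yy P = 0 := by
    rw [map_sub, map_mul, map_mul, map_one]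
    linear_combination hz
  have h1 := (uniq P e).1
  exact IsUnit.of_mul_eq_one u (sub_eq_zero.mp h1)

theorem isDedekind2 [CharZero L] {a b c : L[X]} (h : Base2 a b c) :
    IsDedekindDomain (CoordRing2 a b c) := by
  refine isDedekindDomain_QR ?_ (toK_squarefree h) (toK_not_isSquare h)
  have h1 : (2 : (RatFunc L)[X]) = C (2 : RatFunc L) := (C_ofNat 2).symm
  rw [h1, isUnit_C]
  have : CharZero (RatFunc L) := charZero_of_injective_algebraMap
    (algebraMap L (RatFunc L)).injective
  exact IsUnit.mk0 _ two_ne_zero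

end Pool.Agent.Lib.MP_1a0ddd_nt.Quad
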