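import Pool.Agent.Lib.MP_1a0ddd_nt.Quad.PicA4
import Pool.Agent.Lib.MP_1a0ddd_nt.Quad.Unit4
import Pool.Agent.Lib.MP_1a0ddd_nt.Quad.Units3
import Pool.Agent.Lib.MP_1a0ddd_nt.Quad.QBase

/-! The rank of the Picard group of the affine curve, all quadratic pencils. -/

set_option autoImplicit false

namespace Pool.Agent.Lib.MP_1a0ddd_nt.Quad

open Polynomial

variable {L : Type} [Field L]

private theorem finite_factors {d : L[X]} (hd : d ≠ 0) :
    {π : L[X] | π.Monic ∧ Irreducible π ∧ π ∣ d}.Finite := by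
  classical
  refine (UniqueFactorizationMonoid.normalizedFactors d).toFinset.finite_toSet.subset ?_
  rintro π ⟨h1, h2, h3⟩
  rw [Finset.mem_coe, Multiset.mem_toFinset]
  obtain ⟨q, hq, hpq⟩ := UniqueFactorizationMonoid.exists_mem_normalizedFactors_of_dvd hd h2 h3
  have h4 : q.Monic := by
    have h5 := UniqueFactorizationMonoid.normalize_normalized_factor q hq
    rw [← h5]
    exact monic_normalize (UniqueFactorizationMonoid.ne_zero_of_mem_normalizedFactors hq)
  rw [eq_of_monic_of_associated h1 h4 hpq]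
  exact hq

theorem splitSet_finite {a b c : L[X]} (h : b ^ 2 - a * c ≠ 0) : (splitSet a b c).Finite := by
  refine (finite_factors h).subset ?_
  rintro π ⟨h1, h2, -, β, γ, h3⟩
  exact ⟨h1, h2, h3.dvd_disc⟩

private theorem dvd_of_common {a b c π β γ : L[X]} (hπ : Irreducible π) (hc : Common a b c π)
    (h : Split a b c π β γ) : π ∣ β ∧ π ∣ γ := by
  obtain ⟨ha, -, hc'⟩ := hc
  obtain ⟨h1, -, h3⟩ := h
  constructor
  · exact hπ.prime.dvd_of_dvd_pow ((dvd_sub_right ha).mp h1)
  · exact hπ.prime.dvd_of_dvd_pow ((dvd_sub_right hc').mp h3)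

private theorem PQ_common {a b c π β γ : L[X]} (hπ : Irreducible π) (hc : Common a b c π)
    (h : Split a b c π β γ) : PQ a b c π β γ = PQ a b c π 0 0 := by
  obtain ⟨⟨β', rfl⟩, ⟨γ', rfl⟩⟩ := dvd_of_common hπ hc h
  refine PI_congr _ ⟨toK L (lin β' γ'), ?_⟩
  have e1 : toK L (π.map C) = π.map (RatFunc.C : L →+* RatFunc L) := by
    rw [coe_mapRingHom, map_map]
    congr 1
  rw [← e1, ← map_mul, ← map_sub]
  congr 1
  simp only [lin, Polynomial.map_mul, Polynomial.map_zero]
  ring

private theorem split_zero {a b c π : L[X]} (hc : Common a b c π) : Split a b c π 0 0 := by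
  obtain ⟨h1, h2, h3⟩ := hc
  exact ⟨by simpa using h1, by simpa using h2, by simpa using h3⟩

/-- the data of the curve -/
theorem pic_dat [CharZero L] {a b c : L[X]} (h : Base2 a b c)
    (β γ : {π : L[X] // π ∈ splitSet a b c} → L[X])
    (hβ : ∀ i, Split a b c i.1 (β i) (γ i)) :
    PicDat (ex a b c) (fun i => PQ a b c i.1 (β i) (γ i)) (fun i => PQ a b c i.1 (-β i) (-γ i))
      (fun i => i.1) {Q | ∃ π : L[X], π.Monic ∧ Irreducible π ∧ π ∣ b ^ 2 - a * c ∧
        Q = PQ a b c π 0 0} where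
  inj := ex_injective a b c
  prime i := (PQ_isMaximal i.2.2.1 (hβ i)).isPrime
  prime' i := (PQ_isMaximal i.2.2.1 (hβ i).neg).isPrime
  irr i := i.2.2.1
  mul i := PQ_mul h (hβ i)
  inter i w hw := PQ_inter i.2.2.1 (hβ i) w hw
  inter' i w hw := PQ_inter i.2.2.1 (hβ i).neg w hw
  ne i := PQ_ne (Split.not_dvd_lin i.2.2.2.1 (hβ i)) i.2.2.1 (hβ i)
  dist i j hij := Subtype.ext (eq_of_monic_of_associated i.2.1 j.2.1
    (i.2.2.1.associated_of_dvd j.2.2.1 hij))
  fin := by
    have h1 := (finite_factors h.disc_ne).image fun π => PQ a b c π 0 0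
    refine h1.subset ?_
    rintro Q ⟨π, h1, h2, h3, rfl⟩
    exact ⟨π, ⟨h1, h2, h3⟩, rfl⟩
  cls := by
    intro Q hQ w hw hm
    obtain ⟨π, h1, h2, -, h3 | h3⟩ := primes_over2 Q hQ w hw hm
    · obtain ⟨b1, c1, hb, rfl⟩ := h3
      by_cases hc : Common a b c π
      · right; right
        refine ⟨⟨π, h1, h2, hb.dvd_disc, PQ_common h2 hc hb⟩, π, h2.ne_zero, ?_⟩
        rw [PQ_common h2 hc hb]
        have h4 := PQ_mul h (split_zero hc)
        rwa [neg_zero] at h4
      · left
        let i : {π : L[X] // π ∈ splitSet a b c} := ⟨π, h1, h2, hc, b1, c1, hb⟩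
        exact ⟨i, PQ_unique h2 (hβ i) hb⟩
    · right; left
      exact ⟨π, h2.ne_zero, h3⟩
  pairs Q Q' hQ hQ' h0 h0' hx hx' := curve_pairs h Q Q' hQ hQ' h0 h0' hx hx'

private theorem pr_base (a b c w : L[X]) : pr a b c (w.map C) 0 = ex a b c w := by
  have e1 : toK L (w.map C) = w.map (RatFunc.C : L →+* RatFunc L) := by
    rw [coe_mapRingHom, map_map]
    congr 1
  rw [pr, map_zero, map_zero, zero_mul, add_zero, e1]
  rfl

private theorem isUnit_ct (a b c : L[X]) {k : RatFunc L} (hk : k ≠ 0) :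
    IsUnit (ct a b c k) := (IsUnit.mk0 k hk).map _

theorem unit_const4 [CharZero L] {a b c : L[X]} (h : Base2 a b c) (hM : Mem2 a b c)
    (hinf : Odd (quad a b c).natDegree ∨ a = 0 ∨ ¬ IsSquare a) (z : CoordRing2 a b c)
    (hz : IsUnit z) : ∃ k : RatFunc L, z = ct a b c k := by
  rcases hinf with ho | hns
  · exact unit_odd ho z hz
  · obtain ⟨k, w, -, hw, e⟩ := dvd_const2 h.disc_ne hns hM 1 one_ne_zero z
      (by rw [map_one]; exact hz.dvd)
    rw [e] at hz
    have h1 : IsUnit (ex a b c w) := isUnit_of_mul_isUnit_right hz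
    have h2 : IsUnit (w.map (RatFunc.C : L →+* RatFunc L)) := by
      apply isUnit_of_em (toK L (quad a b c))
      exact h1
    have h3 : w.natDegree = 0 := by
      have h4 := natDegree_eq_zero_of_isUnit h2
      rwa [natDegree_map_eq_of_injective (RatFunc.C : L →+* RatFunc L).injective] at h4
    refine ⟨k * RatFunc.C (w.coeff 0), ?_⟩
    rw [e, map_mul]
    congr 1
    rw [eq_C_of_natDegree_eq_zero h3, coeff_C_zero]
    change em (toK L (quad a b c)) ((C (w.coeff 0) : L[X]).map (RatFunc.C : L →+* RatFunc L)) =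
      em (toK L (quad a b c)) (C (RatFunc.C (w.coeff 0)))
    rw [map_C]

/-- the rank of the Picard group -/
theorem pic_main4 [CharZero L] {a b c : L[X]} (h : Base2 a b c) (hM : Mem2 a b c)
    (hinf : Odd (quad a b c).natDegree ∨ a = 0 ∨ ¬ IsSquare a) :
    Module.Finite ℤ (Additive (CommRing.Pic (CoordRing2 a b c))) ∧
    (Module.finrank ℤ (Additive (CommRing.Pic (CoordRing2 a b c))) : ℤ) = pencilRank a b c := by
  classical
  have hDed : IsDedekindDomain (CoordRing2 a b c) := isDedekind2 h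
  have : Finite {π : L[X] // π ∈ splitSet a b c} := (splitSet_finite h.disc_ne).to_subtype
  have := Fintype.ofFinite {π : L[X] // π ∈ splitSet a b c}
  choose β γ hβ using fun i : {π : L[X] // π ∈ splitSet a b c} => i.2.2.2.2
  have D := pic_dat h β γ hβ
  obtain ⟨hfin, -⟩ := pic_fg D
  let e : Additive (ClassGroup (CoordRing2 a b c)) ≃ₗ[ℤ]
      Additive (CommRing.Pic (CoordRing2 a b c)) :=
    (MulEquiv.toAdditive (ClassGroup.equivPic (CoordRing2 a b c))).toIntLinearEquiv
  refine ⟨Module.Finite.equiv e, ?_⟩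
  rw [← e.finrank_eq]
  have hcard : Fintype.card {π : L[X] // π ∈ splitSet a b c} = (splitSet a b c).ncard := by
    rw [← Nat.card_eq_fintype_card]
    rfl
  rw [pencilRank]
  by_cases hsq : a ≠ 0 ∧ IsSquare a
  · rw [if_pos hsq]
    obtain ⟨ha0, α, hα⟩ := hsq
    have hα2 : a = α ^ 2 := by rw [hα, sq]
    have hα0 : α ≠ 0 := by
      rintro rfl
      exact ha0 (by rw [hα, mul_zero])
    have ho : Odd (quad a b c).natDegree := by
      rcases hinf with h1 | h1 | h1
      · exact h1
      · exact absurd h1 ha0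
      · exact absurd ⟨α, hα⟩ h1
    have h1 := pic_rank_b D (pr a b c (EE a b) (α.map C)) (pr a b c (EE a b) (-α.map C))
      (b ^ 2 - a * c) h.disc_ne (by
        rw [pr_mul, ← pr_base, ← EE_sq]
        congr 1
        · rw [hα2]
          simp only [Polynomial.map_pow]
          ring
        · ring)
      (fun m z hm hz => by
        obtain ⟨k, w, w', i, j, hk, hw, hw', e⟩ := dvd_const4 hα2 hα0 h.disc_ne hM m hm z hz
        exact ⟨ct a b c k, w, w', i, j, isUnit_ct a b c hk, hw, hw', e⟩)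
      (fun k w hk hkw => by
        obtain ⟨k', rfl⟩ := unit_odd ho k hk
        exact eps_sq_ne hα2 hα0 k' w hkw)
    rw [hcard] at h1
    rw [← h1]
    push_cast
    ring
  · rw [if_neg hsq]
    have hns : a = 0 ∨ ¬ IsSquare a := by
      by_cases ha : a = 0
      · exact Or.inl ha
      · exact Or.inr fun h => hsq ⟨ha, h⟩
    have h1 := pic_rank_a D (fun m z hm hz => by
      obtain ⟨k, w, hk, hw, e⟩ := dvd_const2 h.disc_ne hns hM m hm z hz
      exact ⟨ct a b c k, w, isUnit_ct a b c hk, hw, e⟩)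
    rw [h1, hcard, sub_zero]

end Pool.Agent.Lib.MP_1a0ddd_nt.Quad
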