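import Pool.Agent.Lib.MP_1a0ddd_nt.Quad.Final3
import Pool.Agent.Lib.MP_1a0ddd_nt.Quad.Pic4
import Pool.Agent.Lib.MP_1a0ddd_nt.Quad.Lim4
import Pool.Agent.Lib.MP_1a0ddd_nt.Dbl

/-! Nagao's statement for quadratic pencils, general case. -/

set_option autoImplicit false

namespace Pool.Agent.Lib.MP_1a0ddd_nt.Quad

open Polynomial Filter Topology

section

variable {R : Type} [CommRing R] [IsDomain R] {a b c : R[X]} {m : ℕ} {π : Fin m → R[X]}
  {k : Fin m → ℕ} {δ : R}

private theorem disc_toF4 (h : Pencil a b c π k δ) : toF b ^ 2 - toF a * toF c =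
    C (algebraMap R (FractionRing R) δ) * ∏ i, toF (π i) ^ k i := by
  have := congrArg toF h.disc
  simpa [toF, Polynomial.map_sub, Polynomial.map_mul, Polynomial.map_pow,
    Polynomial.map_prod] using this

private theorem unit_δ4 (h : Pencil a b c π k δ) :
    IsUnit (C (algebraMap R (FractionRing R) δ)) := by
  apply isUnit_C.mpr
  apply IsUnit.mk0
  rw [Ne, IsFractionRing.to_map_eq_zero_iff]
  exact h.ne

private theorem disc_ne4 (h : Pencil a b c π k δ) : toF b ^ 2 - toF a * toF c ≠ 0 := by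
  rw [disc_toF4 h]
  refine mul_ne_zero (unit_δ4 h).ne_zero (Finset.prod_ne_zero_iff.mpr fun i _ => ?_)
  exact pow_ne_zero _ (h.irr i).ne_zero

/-- the irreducible factors of the discriminant -/
private theorem factor4 (h : Pencil a b c π k δ) {q : (FractionRing R)[X]} (hq : Irreducible q)
    (hd : q ∣ toF b ^ 2 - toF a * toF c) : ∃ i, Associated q (toF (π i)) := by
  rw [disc_toF4 h] at hd
  have h5 : q ∣ ∏ i, toF (π i) ^ k i := by
    rcases hq.prime.dvd_or_dvd hd with h' | h'
    · exfalso
      exact hq.not_isUnit (isUnit_of_dvd_unit h' (unit_δ4 h))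
    · exact h'
  obtain ⟨i, -, hi⟩ := (hq.prime.dvd_finsetProd_iff _).mp h5
  exact ⟨i, hq.associated_of_dvd (h.irr i) (hq.prime.dvd_of_dvd_pow hi)⟩

/-- the greatest common divisor of `a`, `b`, `c` over the fraction field is squarefree -/
private theorem gcd_toF4 (h : Pencil a b c π k δ) :
    ∃ g u v w : (FractionRing R)[X], u * toF a + v * toF b + w * toF c = g ∧ Squarefree g := by
  obtain ⟨g, hg⟩ := (IsPrincipalIdealRing.principal (Ideal.span {toF a, toF b, toF c})).principal
  have hg' : Ideal.span {toF a, toF b, toF c} = Ideal.span {g} := hg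
  have hmem : ∀ f ∈ ({toF a, toF b, toF c} : Set (FractionRing R)[X]), g ∣ f := by
    intro f hf
    rw [← Ideal.mem_span_singleton, ← hg']
    exact Ideal.subset_span hf
  have ha := hmem (toF a) (by simp)
  have hb := hmem (toF b) (by simp)
  have hc := hmem (toF c) (by simp)
  have hg0 : g ≠ 0 := by
    rintro rfl
    apply disc_ne4 h
    rw [zero_dvd_iff.mp ha, zero_dvd_iff.mp hb]
    ring
  have h2 : g ∈ Ideal.span {toF a, toF b, toF c} := by
    rw [hg']; exact Ideal.mem_span_singleton_self g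
  rw [Ideal.mem_span_insert] at h2
  obtain ⟨u, z, hz, e⟩ := h2
  rw [Ideal.mem_span_insert] at hz
  obtain ⟨v, z', hz', e'⟩ := hz
  obtain ⟨w, hw⟩ := Ideal.mem_span_singleton'.mp hz'
  refine ⟨g, u, v, w, by rw [e, e', ← hw]; ring, ?_⟩
  rw [squarefree_iff_no_irreducibles hg0]
  intro q hq hqq
  obtain ⟨i, hi⟩ := factor4 h hq (dvd_sub
    (dvd_pow ((dvd_mul_right q q).trans (hqq.trans hb)) two_ne_zero)
    (Dvd.dvd.mul_right ((dvd_mul_right q q).trans (hqq.trans ha)) _))
  have h7 : ∀ f : R[X], g ∣ toF f → π i ^ 2 ∣ f := by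
    intro f hf
    rw [← toF_dvd ((h.monic i).pow 2)]
    have e1 : toF (π i ^ 2) = toF (π i) * toF (π i) := by
      rw [toF, Polynomial.map_pow, sq]
    rw [e1]
    exact (hi.symm.mul_mul hi.symm).dvd.trans (hqq.trans hf)
  exact h.sqf i ⟨h7 a ha, h7 b hb, h7 c hc⟩

theorem splitSet_card (h : Pencil a b c π k δ) (S : Finset (Fin m))
    (hS : ∀ i, i ∈ S ↔ toF (π i) ∈ splitSet (toF a) (toF b) (toF c)) :
    (splitSet (toF a) (toF b) (toF c)).ncard = S.card := by
  classical
  have h1 : splitSet (toF a) (toF b) (toF c) = (fun i => toF (π i)) '' (S : Set (Fin m)) := by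
    ext q
    constructor
    · intro hq
      obtain ⟨i, rfl⟩ : ∃ i, q = toF (π i) := by
        obtain ⟨h1, h2, -, β, γ, h3⟩ := hq
        obtain ⟨i, hi⟩ := factor4 h h2 h3.dvd_disc
        exact ⟨i, eq_of_monic_of_associated h1 ((h.monic i).map _) hi⟩
      exact ⟨i, (hS i).mpr hq, rfl⟩
    · rintro ⟨i, hi, rfl⟩
      exact (hS i).mp hi
  rw [h1, Set.ncard_image_of_injective, Set.ncard_coe_finset]
  intro i j hij
  exact h.inj (toF_inj hij)

theorem quad_natDegree_map {S : Type} [CommRing S] (φ : R →+* S) (hφ : Function.Injective φ)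
    (a b c : R[X]) : (quad (a.map φ) (b.map φ) (c.map φ)).natDegree =
      (quad a b c).natDegree := by
  rw [quad_map]
  exact natDegree_map_eq_of_injective (map_injective φ hφ) _

/-- the two forms of the member condition -/
theorem mem_forms (h : Pencil a b c π k δ) : NoSquareMember a b c ∧
    (Odd (quad a b c).natDegree ∨ a = 0 ∨ NotConstSquare a) := by
  rcases h.mem with h1 | h1
  · refine ⟨noSquareMember_of_monic a b c h1, Or.inl ?_⟩
    obtain ⟨hc, ho, ha, hb⟩ := h1
    rwa [(quad_monic hc ha hb).2]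
  · exact h1

end

theorem curveRank_of_good4 {L : Type} [Field L] [CharZero L] {a b c : L[X]} (h : Base2 a b c)
    (hM : Mem2 a b c) (hinf : Odd (quad a b c).natDegree ∨ a = 0 ∨ ¬ IsSquare a) :
    CurveRank (overLt L (quad a b c)) (pencilRank a b c) := by
  have h1 : IsDedekindDomain (CoordRing2 a b c) := isDedekind2 h
  have h2 : ∀ u : CoordRing2 a b c, IsUnit u → ∃ k : RatFunc L, u = ct a b c k :=
    unit_const4 h hM hinf
  obtain ⟨h3, h4⟩ := pic_main4 h hM hinf
  exact ⟨h1, h2, h3, h4⟩

/-- the algebraic half: the rank over every field containing `R` -/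
theorem quad_rank4 (R : Type) [CommRing R] [IsDomain R] [CharZero R] {m : ℕ} (a b c : R[X])
    (π : Fin m → R[X]) (k : Fin m → ℕ) (δ : R) (h : Pencil a b c π k δ) :
    RankOverAll a b c := by
  intro L _ φ hφ
  have hch : CharZero L := by
    refine ⟨fun m k h => ?_⟩
    have h1 : φ (m : R) = φ (k : R) := by rw [map_natCast, map_natCast, h]
    exact_mod_cast hφ h1
  have hB : Base2 (a.map φ) (b.map φ) (c.map φ) := by
    refine ⟨?_, ?_⟩
    · intro h0
      have h1 : (b ^ 2 - a * c).map φ = 0 := by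
        rw [Polynomial.map_sub, Polynomial.map_pow, Polynomial.map_mul, h0]
      have h2 := (Polynomial.map_eq_zero_iff hφ).mp h1
      rw [h.disc] at h2
      rcases mul_eq_zero.mp h2 with h3 | h3
      · exact h.ne (C_eq_zero.mp h3)
      · obtain ⟨i, -, hi⟩ := Finset.prod_eq_zero_iff.mp h3
        exact (h.monic i).ne_zero (pow_eq_zero_iff (h.pos i) |>.mp hi)
    · rintro ρ hρ ⟨ha, hb, hc⟩
      obtain ⟨g, u, v, w, huvw, hg⟩ := gcd_toF4 h
      have hCF : CharZero (FractionRing R) := charZero_of_injective_algebraMap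
        (IsFractionRing.injective R (FractionRing R))
      have hsep : g.Separable := PerfectField.separable_iff_squarefree.mpr hg
      have hsepL := (hsep.map (f := IsFractionRing.lift (K := FractionRing R) hφ)).squarefree
      have h2 := congrArg (Polynomial.map (IsFractionRing.lift (K := FractionRing R) hφ)) huvw
      have e : ∀ f : R[X], (toF f).map (IsFractionRing.lift (K := FractionRing R) hφ) =
          f.map φ := by
        intro f
        rw [toF, Polynomial.map_map]
        congr 1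
        ext r
        simp
      rw [Polynomial.map_add, Polynomial.map_add, Polynomial.map_mul, Polynomial.map_mul,
        Polynomial.map_mul, e, e, e] at h2
      have h3 : ρ ^ 2 ∣ g.map (IsFractionRing.lift (K := FractionRing R) hφ) := by
        rw [← h2]
        exact dvd_add (dvd_add (Dvd.dvd.mul_left ha _) (Dvd.dvd.mul_left hb _))
          (Dvd.dvd.mul_left hc _)
      rw [sq] at h3
      exact hρ.not_isUnit (hsepL ρ h3)
  obtain ⟨hmem, hinf⟩ := mem_forms h
  have hM : Mem2 (a.map φ) (b.map φ) (c.map φ) := mem_of_noSquareMember hmem L φ hφ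
  refine ⟨splitSet_finite hB.disc_ne, curveRank_of_good4 hB hM ?_⟩
  rcases hinf with h0 | h0 | h0
  · left
    rwa [quad_natDegree_map φ hφ]
  · right; left
    rw [h0, Polynomial.map_zero]
  · right; right
    rintro ⟨s, hs⟩
    obtain ⟨E, hE, hcert⟩ := Gn.cert R a h0
    exact hcert L φ ((map_ne_zero_iff φ hφ).mpr hE) 1 s (by rw [hs, C_1, one_mul, sq])

open Classical in
/-- the curve at infinity -/
theorem inf_mean (R : Type) [CommRing R] [IsDomain R] [CharZero R] [Algebra.FiniteType ℤ R] (d : ℕ)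
    (hR : LangWeilT R d) (a : R[X]) (h : IsSquare (toF a) ∨ NotConstSquare a ∨
      ∃ (u : R) (s : (FractionRing R)[X]),
        toF a = C (algebraMap R (FractionRing R) u) * s ^ 2 ∧ LangWeilT (SqrtRing u) d) :
    ∃ N : R, N ≠ 0 ∧ ∀ D : R, D ≠ 0 → N ∣ D →
      TauMean (fun p => infAvg a D d p) (if toF a ≠ 0 ∧ IsSquare (toF a) then 1 else 0) := by
  by_cases ha : a = 0
  · rw [if_neg (by rw [ha]; simp [toF])]
    exact inf_zero R d hR a (Or.inl ha)
  have ha' : toF a ≠ 0 := by
    intro h0
    apply ha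
    apply toF_inj
    rw [h0, toF, Polynomial.map_zero]
  by_cases hs : IsSquare (toF a)
  · rw [if_pos ⟨ha', hs⟩]
    exact inf_square R d hR a ha hs
  · rw [if_neg fun h => hs h.2]
    rcases h with h1 | h1 | ⟨u, s, h1, h2⟩
    · exact absurd h1 hs
    · exact inf_zero R d hR a (Or.inr h1)
    · exact inf_const R d hR a ha u s h1 h2

/-- the average over the primes -/
theorem quad_limit4 (R : Type) [CommRing R] [IsDomain R] [CharZero R] [Algebra.FiniteType ℤ R]
    {m : ℕ} (a b c : R[X]) (π : Fin m → R[X]) (k : Fin m → ℕ) (δ : R)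
    (h : Pencil a b c π k δ) (d : ℕ)
    (hc : Counted a b c π d) :
    NagaoLimit (quad a b c) (d + 1) (pencilRank (toF a) (toF b) (toF c)) := by
  classical
  set S : Finset (Fin m) := Finset.univ.filter
    fun i => toF (π i) ∈ splitSet (toF a) (toF b) (toF c) with hSdef
  have hS : ∀ i, i ∈ S ↔ toF (π i) ∈ splitSet (toF a) (toF b) (toF c) := by
    intro i
    simp [hSdef]
  obtain ⟨E, hE, hinf⟩ := inf_mean R d hc.base a hc.infty
  obtain ⟨D₀, hD₀, h1, h2⟩ := nagao_T4 R d a b c π k δ h.disc h.pos h.ne h.monic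
    h.irr h.inj _ E hE hinf hc.factor S hS (fun i => by
      rcases hc.cover i with h' | h' | h'
      · exact Or.inl h'
      · exact Or.inr (Or.inl ((hS i).mpr h'))
      · exact Or.inr (Or.inr h'))
  refine ⟨D₀, hD₀, fun D hD hdvd => ?_⟩
  have h3 := open_limit R d hc.base a b c _ D₀ hD₀ h1 h2 (mem_forms h).1 D hD hdvd
  have e : (-((pencilRank (toF a) (toF b) (toF c) : ℤ) : ℝ)) =
      (if toF a ≠ 0 ∧ IsSquare (toF a) then (1 : ℝ) else 0) - S.card := by
    rw [pencilRank, splitSet_card h S hS]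
    push_cast
    ring
  rw [e]
  exact h3

end Pool.Agent.Lib.MP_1a0ddd_nt.Quad
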