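import Pool.Agent.Lib.MP_1a0ddd_nt.Quad.Defs2
import Pool.Agent.Lib.MP_1a0ddd_nt.Quad.Conic3

/-! From the conic over `L(x)` to the curve over `L(t)`. -/

set_option autoImplicit false

namespace Pool.Agent.Lib.MP_1a0ddd_nt.Quad

open Polynomial

variable {L : Type} [Field L]

/-- polynomials `w(x)` in the coordinate ring -/
noncomputable def ex (a b c : L[X]) : L[X] →+* CoordRing2 a b c :=
  (em (toK L (quad a b c))).comp (mapRingHom (RatFunc.C : L →+* RatFunc L))

/-- the map from the surface to the curve -/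
noncomputable def sA (a b c : L[X]) : SurfRing a b c →+* CoordRing2 a b c :=
  mp (toK L) (quad a b c)

/-- the map from the surface to the conic -/
noncomputable def sW (a b c : L[X]) : SurfRing a b c →+* ConicRing a b c :=
  mp (toW L) (quad a b c)

theorem ex_injective (a b c : L[X]) : Function.Injective (ex a b c) := by
  unfold ex
  rw [RingHom.coe_comp]
  exact (em_injective _).comp (map_injective _ (RatFunc.C : L →+* RatFunc L).injective)

theorem sA_em (a b c w : L[X]) : sA a b c (em (quad a b c) (w.map C)) = ex a b c w := by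
  unfold sA ex
  rw [mp_em, RingHom.comp_apply]
  congr 1
  rw [coe_mapRingHom, coe_mapRingHom, map_map]
  congr 1

private theorem tr_sA_injective (a b c : L[X]) : Function.Injective (sA a b c) :=
  mp_injective _ _ toK_injective

private theorem tr_sW_injective (a b c : L[X]) : Function.Injective (sW a b c) :=
  mp_injective _ _ toW_injective

private theorem tr_clear (u : (RatFunc L)[X]) : ∃ (τ : L[X]) (u' : L[X][X]), τ ≠ 0 ∧
    u'.map (algebraMap L[X] (RatFunc L)) = C (algebraMap L[X] (RatFunc L) τ) * u := by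
  obtain ⟨b, hb⟩ := IsLocalization.integerNormalization_map_to_map (nonZeroDivisors L[X]) u
  refine ⟨b, _, nonZeroDivisors.ne_zero b.2, hb.trans ?_⟩
  rw [Algebra.smul_def]
  rfl

/-- clearing denominators: every element of the curve ring is `s / τ`, `τ ∈ L[t]` -/
theorem clear_A (a b c : L[X]) (z : CoordRing2 a b c) : ∃ (τ : L[X]) (s : SurfRing a b c),
    τ ≠ 0 ∧ sA a b c (em (quad a b c) (C τ)) * z = sA a b c s := by
  obtain ⟨u, v, rfl⟩ := rep _ z
  obtain ⟨τ, u', hτ, hu⟩ := tr_clear u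
  obtain ⟨τ', v', hτ', hv⟩ := tr_clear v
  refine ⟨τ * τ', em _ (C τ' * u') + em _ (C τ * v') * yy _, mul_ne_zero hτ hτ', ?_⟩
  have h1 : toK L (C τ' * u') = toK L (C (τ * τ')) * u := by
    rw [map_mul, coe_mapRingHom, hu, map_C, map_C, map_mul, C_mul]
    ring
  have h2 : toK L (C τ * v') = toK L (C (τ * τ')) * v := by
    rw [map_mul, coe_mapRingHom, hv, map_C, map_C, map_mul, C_mul]
    ring
  have g : sA a b c (em (quad a b c) (C τ' * u') + em (quad a b c) (C τ * v') *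
      yy (quad a b c)) = em (toK L (quad a b c)) (toK L (C τ' * u')) +
        em (toK L (quad a b c)) (toK L (C τ * v')) * yy (toK L (quad a b c)) := by
    unfold sA
    rw [map_add, mp_em, map_mul (mp (toK L) (quad a b c)), mp_em, mp_yy]
  have g2 : sA a b c (em (quad a b c) (C (τ * τ'))) =
      em (toK L (quad a b c)) (toK L (C (τ * τ'))) := mp_em _ _ _
  rw [g, g2, h1, h2, map_mul (em (toK L (quad a b c))), map_mul (em (toK L (quad a b c)))]
  ring

/-- elements of `L(t)` are units -/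
theorem unit_A (a b c τ : L[X]) (hτ : τ ≠ 0) :
    IsUnit (sA a b c (em (quad a b c) (C τ))) := by
  unfold sA
  have g : toK L (C τ) = C (algebraMap L[X] (RatFunc L) τ) := by rw [coe_mapRingHom, map_C]
  rw [mp_em, g]
  refine IsUnit.map _ (IsUnit.map _ (isUnit_iff_ne_zero.mpr ?_))
  rwa [Ne, map_eq_zero_iff _ (IsFractionRing.injective L[X] (RatFunc L))]

private theorem tr_unit_W (a b c w : L[X]) (hw : w ≠ 0) :
    IsUnit (sW a b c (em (quad a b c) (w.map C))) := by
  unfold sW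
  rw [mp_em, toW_map_C]
  refine IsUnit.map _ (IsUnit.map _ (isUnit_iff_ne_zero.mpr ?_))
  rwa [Ne, map_eq_zero_iff _ (IsFractionRing.injective L[X] (RatFunc L))]

/-- clearing denominators: every element of the conic ring is `s / w`, `w ∈ L[x]` -/
theorem clear_W (a b c : L[X]) (z : ConicRing a b c) : ∃ (w : L[X]) (s : SurfRing a b c),
    w ≠ 0 ∧ sW a b c (em (quad a b c) (w.map C)) * z = sW a b c s := by
  obtain ⟨u, v, rfl⟩ := rep _ z
  obtain ⟨τ, u', hτ, hu⟩ := tr_clear u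
  obtain ⟨τ', v', hτ', hv⟩ := tr_clear v
  obtain ⟨u'', rfl⟩ := (Bivariate.swap (R := L)).surjective u'
  obtain ⟨v'', rfl⟩ := (Bivariate.swap (R := L)).surjective v'
  refine ⟨τ * τ', em _ (τ'.map C * u'') + em _ (τ.map C * v'') * yy _, mul_ne_zero hτ hτ', ?_⟩
  have h1 : toW L (τ'.map C * u'') = toW L ((τ * τ').map C) * u := by
    rw [map_mul, toW_map_C, toW_map_C]
    have : toW L u'' = _ := hu
    rw [this, map_mul, C_mul]
    ring
  have h2 : toW L (τ.map C * v'') = toW L ((τ * τ').map C) * v := by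
    rw [map_mul, toW_map_C, toW_map_C]
    have : toW L v'' = _ := hv
    rw [this, map_mul, C_mul]
    ring
  have g : sW a b c (em (quad a b c) (τ'.map C * u'') + em (quad a b c) (τ.map C * v'') *
      yy (quad a b c)) = em (toW L (quad a b c)) (toW L (τ'.map C * u'')) +
        em (toW L (quad a b c)) (toW L (τ.map C * v'')) * yy (toW L (quad a b c)) := by
    unfold sW
    rw [map_add, mp_em, map_mul (mp (toW L) (quad a b c)), mp_em, mp_yy]
  have g2 : sW a b c (em (quad a b c) ((τ * τ').map C)) =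
      em (toW L (quad a b c)) (toW L ((τ * τ').map C)) := mp_em _ _ _
  rw [g, g2, h1, h2, map_mul (em (toW L (quad a b c))), map_mul (em (toW L (quad a b c)))]
  ring

/-- the extension to the conic of an ideal of the curve -/
noncomputable def cIdeal (a b c : L[X]) (I : Ideal (CoordRing2 a b c)) : Ideal (ConicRing a b c) :=
  Ideal.span {z | ∃ s : SurfRing a b c, sA a b c s ∈ I ∧ z = sW a b c s}

private theorem tr_mul_map (w w' : L[X]) : ((w * w').map (C : L →+* L[X])) = w.map C * w'.map C :=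
  Polynomial.map_mul _

/-- `z ∈ cIdeal I` iff `w z` comes from `I` for some nonzero `w ∈ L[x]` -/
theorem mem_cIdeal (a b c : L[X]) (I : Ideal (CoordRing2 a b c)) (z : ConicRing a b c) :
    z ∈ cIdeal a b c I ↔ ∃ (w : L[X]) (s : SurfRing a b c), w ≠ 0 ∧ sA a b c s ∈ I ∧
      sW a b c (em (quad a b c) (w.map C)) * z = sW a b c s := by
  constructor
  · intro hz
    unfold cIdeal at hz
    induction hz using Submodule.span_induction with
    | mem z hz =>
      obtain ⟨s, hs, rfl⟩ := hz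
      exact ⟨1, s, one_ne_zero, hs, by rw [Polynomial.map_one, map_one, map_one, one_mul]⟩
    | zero => exact ⟨1, 0, one_ne_zero, by rw [map_zero]; exact I.zero_mem, by
        rw [map_zero, mul_zero]⟩
    | add x y _ _ hx hy =>
      obtain ⟨w, s, hw, hs, e⟩ := hx
      obtain ⟨w', s', hw', hs', e'⟩ := hy
      refine ⟨w * w', em _ (w'.map C) * s + em _ (w.map C) * s', mul_ne_zero hw hw', ?_, ?_⟩
      · rw [map_add, map_mul, map_mul]
        exact I.add_mem (I.mul_mem_left _ hs) (I.mul_mem_left _ hs')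
      · rw [tr_mul_map, map_mul, map_mul, map_add, map_mul, map_mul, ← e, ← e']
        ring
    | smul r x _ hx =>
      obtain ⟨w, s, hw, hs, e⟩ := hx
      obtain ⟨w', s', hw', e'⟩ := clear_W a b c r
      refine ⟨w * w', s' * s, mul_ne_zero hw hw', ?_, ?_⟩
      · rw [map_mul]
        exact I.mul_mem_left _ hs
      · rw [tr_mul_map, map_mul, map_mul, map_mul, ← e, ← e', smul_eq_mul]
        ring
  · rintro ⟨w, s, hw, hs, e⟩
    have h1 : sW a b c s ∈ cIdeal a b c I := Ideal.subset_span ⟨s, hs, rfl⟩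
    rw [← e] at h1
    exact (Ideal.unit_mul_mem_iff_mem _ (tr_unit_W a b c w hw)).mp h1

/-- primes without nonzero elements of `L[x]` extend to primes -/
theorem cIdeal_isPrime {a b c : L[X]} {Q : Ideal (CoordRing2 a b c)} (hQ : Q.IsPrime)
    (hx : ∀ w : L[X], w ≠ 0 → ex a b c w ∉ Q) : (cIdeal a b c Q).IsPrime := by
  refine ⟨?_, ?_⟩
  · rw [Ne, Ideal.eq_top_iff_one, mem_cIdeal]
    rintro ⟨w, s, hw, hs, e⟩
    rw [mul_one] at e
    have := tr_sW_injective a b c e
    rw [← this, sA_em] at hs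
    exact hx w hw hs
  · intro z z' hz
    rw [mem_cIdeal] at hz
    obtain ⟨w, s, hw, hs, e⟩ := hz
    obtain ⟨w1, s1, hw1, e1⟩ := clear_W a b c z
    obtain ⟨w2, s2, hw2, e2⟩ := clear_W a b c z'
    have h1 : em (quad a b c) (w.map C) * (s1 * s2) = em (quad a b c) ((w1 * w2).map C) * s := by
      apply tr_sW_injective a b c
      rw [map_mul, map_mul, map_mul, ← e1, ← e2, ← e, tr_mul_map, map_mul, map_mul]
      ring
    have h2 : ex a b c w * (sA a b c s1 * sA a b c s2) ∈ Q := by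
      rw [← sA_em, ← map_mul, ← map_mul, h1, map_mul]
      exact Q.mul_mem_left _ hs
    rcases hQ.mem_or_mem h2 with h3 | h3
    · exact absurd h3 (hx w hw)
    · rcases hQ.mem_or_mem h3 with h4 | h4
      · exact Or.inl ((mem_cIdeal a b c Q z).mpr ⟨w1, s1, hw1, h4, e1⟩)
      · exact Or.inr ((mem_cIdeal a b c Q z').mpr ⟨w2, s2, hw2, h4, e2⟩)

private theorem tr_exists_surf {a b c : L[X]} {Q : Ideal (CoordRing2 a b c)} (h0 : Q ≠ ⊥) :
    ∃ s : SurfRing a b c, s ≠ 0 ∧ sA a b c s ∈ Q := by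
  obtain ⟨z, hz, hz0⟩ := Submodule.exists_mem_ne_zero_of_ne_bot h0
  obtain ⟨τ, s, hτ, e⟩ := clear_A a b c z
  refine ⟨s, ?_, by rw [← e]; exact Q.mul_mem_left _ hz⟩
  rintro rfl
  rw [map_zero, (unit_A a b c τ hτ).mul_right_eq_zero] at e
  exact hz0 e

theorem cIdeal_ne_bot {a b c : L[X]} {Q : Ideal (CoordRing2 a b c)} (h0 : Q ≠ ⊥) :
    cIdeal a b c Q ≠ ⊥ := by
  obtain ⟨s, hs, hsQ⟩ := tr_exists_surf h0
  intro h
  have h1 : sW a b c s ∈ cIdeal a b c Q := Ideal.subset_span ⟨s, hsQ, rfl⟩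
  rw [h, Submodule.mem_bot] at h1
  exact hs ((map_eq_zero_iff _ (tr_sW_injective a b c)).mp h1)

private theorem tr_mul_le (a b c : L[X]) (Q Q' : Ideal (CoordRing2 a b c)) :
    cIdeal a b c Q * cIdeal a b c Q' ≤ cIdeal a b c (Q * Q') := by
  rw [Ideal.mul_le]
  intro r hr r' hr'
  rw [mem_cIdeal] at hr hr' ⊢
  obtain ⟨w, s, hw, hs, e⟩ := hr
  obtain ⟨w', s', hw', hs', e'⟩ := hr'
  refine ⟨w * w', s * s', mul_ne_zero hw hw', ?_, ?_⟩
  · rw [map_mul]
    exact Ideal.mul_mem_mul hs hs'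
  · rw [tr_mul_map, map_mul, map_mul, map_mul, ← e, ← e']
    ring

private theorem tr_uniform {a b c : L[X]} (I K : Ideal (CoordRing2 a b c)) (hI : I.FG)
    (h : ∀ g ∈ I, ∃ w : L[X], w ≠ 0 ∧ ex a b c w * g ∈ K) :
    ∃ w : L[X], w ≠ 0 ∧ ∀ g ∈ I, ex a b c w * g ∈ K := by
  classical
  obtain ⟨S, hS⟩ := hI
  have key : ∀ S : Finset (CoordRing2 a b c), (∀ g ∈ S, ∃ w : L[X], w ≠ 0 ∧ ex a b c w * g ∈ K) →
      ∃ w : L[X], w ≠ 0 ∧ ∀ g ∈ S, ex a b c w * g ∈ K := by
    intro S
    induction S using Finset.induction_on with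
    | empty => exact fun _ => ⟨1, one_ne_zero, fun g hg => absurd hg (Finset.notMem_empty g)⟩
    | insert x S _ ih =>
      intro hx
      obtain ⟨w, hw, hwS⟩ := ih (fun g hg => hx g (Finset.mem_insert_of_mem hg))
      obtain ⟨w', hw', hwx⟩ := hx x (Finset.mem_insert_self x S)
      refine ⟨w * w', mul_ne_zero hw hw', fun g hg => ?_⟩
      rcases Finset.mem_insert.mp hg with rfl | hg
      · rw [map_mul, mul_assoc]
        exact K.mul_mem_left _ hwx
      · rw [map_mul, mul_comm (ex a b c w), mul_assoc]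
        exact K.mul_mem_left _ (hwS g hg)
  obtain ⟨w, hw, hwS⟩ := key S (fun g hg => h g (hS ▸ Submodule.subset_span hg))
  refine ⟨w, hw, fun g hg => ?_⟩
  rw [← hS] at hg
  induction hg using Submodule.span_induction with
  | mem g hg => exact hwS g hg
  | zero => rw [mul_zero]; exact K.zero_mem
  | add x y _ _ hx hy => rw [mul_add]; exact K.add_mem hx hy
  | smul r x _ hx =>
    rw [smul_eq_mul, mul_left_comm]
    exact K.mul_mem_left _ hx

/-- if the extension of `Q Q'` is principal then so is `Q Q'` up to an ideal containing an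
element of `L[x]`. Proof: let `cIdeal Q * cIdeal Q' = (z)`, `w₀ z = sW s₀`, `δ = sA s₀`. All ideals
are finitely generated, so for some `w ≠ 0` in `L[x]`: `w Q Q' ≤ (δ)` and `w δ ∈ Q Q'`. Then
`(w) Q Q' = (δ) J`, `(w δ) = Q Q' J'` and `J J' = (w²)`. -/
theorem transfer {a b c : L[X]} (hDed : IsDedekindDomain (CoordRing2 a b c))
    (Q Q' : Ideal (CoordRing2 a b c)) (h0 : Q ≠ ⊥) (h0' : Q' ≠ ⊥)
    (h : ∃ z, cIdeal a b c Q * cIdeal a b c Q' = Ideal.span {z}) :
    ∃ (w : L[X]) (δ : CoordRing2 a b c) (J : Ideal (CoordRing2 a b c)), w ≠ 0 ∧ δ ≠ 0 ∧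
      Ideal.span {ex a b c w} * (Q * Q') = Ideal.span {δ} * J ∧
      ∃ w' : L[X], w' ≠ 0 ∧ ex a b c w' ∈ J := by
  obtain ⟨z, hz⟩ := h
  obtain ⟨w0, s0, hw0, e0⟩ := clear_W a b c z
  have hs0 : s0 ≠ 0 := by
    rintro rfl
    rw [map_zero, (tr_unit_W a b c w0 hw0).mul_right_eq_zero] at e0
    obtain ⟨s, hs, hsQ⟩ := tr_exists_surf h0
    obtain ⟨s', hs', hsQ'⟩ := tr_exists_surf h0'
    have h1 : sW a b c s * sW a b c s' ∈ cIdeal a b c Q * cIdeal a b c Q' :=
      Ideal.mul_mem_mul (Ideal.subset_span ⟨s, hsQ, rfl⟩) (Ideal.subset_span ⟨s', hsQ', rfl⟩)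
    rw [hz, e0, Ideal.mem_span_singleton, zero_dvd_iff, ← map_mul,
      map_eq_zero_iff _ (tr_sW_injective a b c)] at h1
    have h2 : sA a b c s * sA a b c s' = 0 := by rw [← map_mul, h1, map_zero]
    rcases mul_eq_zero.mp h2 with h3 | h3
    · exact hs ((map_eq_zero_iff _ (tr_sA_injective a b c)).mp h3)
    · exact hs' ((map_eq_zero_iff _ (tr_sA_injective a b c)).mp h3)
  have hδ : sA a b c s0 ≠ 0 := fun h =>
    hs0 ((map_eq_zero_iff _ (tr_sA_injective a b c)).mp h)
  -- first inclusion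
  have hA : ∀ g ∈ Q * Q', ∃ w : L[X], w ≠ 0 ∧ ex a b c w * g ∈ Ideal.span {sA a b c s0} := by
    intro g hg
    refine Submodule.mul_induction_on hg ?_ ?_
    · intro f hf f' hf'
      obtain ⟨τ, s, hτ, e⟩ := clear_A a b c f
      obtain ⟨τ', s', hτ', e'⟩ := clear_A a b c f'
      have h1 : sW a b c s * sW a b c s' ∈ cIdeal a b c Q * cIdeal a b c Q' :=
        Ideal.mul_mem_mul (Ideal.subset_span ⟨s, by rw [← e]; exact Q.mul_mem_left _ hf, rfl⟩)
          (Ideal.subset_span ⟨s', by rw [← e']; exact Q'.mul_mem_left _ hf', rfl⟩)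
      rw [hz, Ideal.mem_span_singleton] at h1
      obtain ⟨r, hr⟩ := h1
      obtain ⟨w, sr, hw, er⟩ := clear_W a b c r
      have h2 : em (quad a b c) ((w0 * w).map C) * (s * s') = s0 * sr := by
        apply tr_sW_injective a b c
        rw [map_mul, map_mul, map_mul, hr, ← e0, ← er, tr_mul_map, map_mul, map_mul]
        ring
      refine ⟨w0 * w, mul_ne_zero hw0 hw, ?_⟩
      have h3 : sA a b c (em (quad a b c) (C τ)) * sA a b c (em (quad a b c) (C τ')) *
          (ex a b c (w0 * w) * (f * f')) ∈ Ideal.span {sA a b c s0} := by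
        have h4 : sA a b c (em (quad a b c) (C τ)) * sA a b c (em (quad a b c) (C τ')) *
          (ex a b c (w0 * w) * (f * f')) = sA a b c sr * sA a b c s0 := by
          rw [mul_comm (sA a b c sr), ← map_mul (sA a b c) s0, ← h2, map_mul (sA a b c),
            map_mul (sA a b c) s, ← e, ← e', sA_em]
          ring
        rw [h4]
        exact Ideal.mul_mem_left _ _ (Ideal.mem_span_singleton_self _)
      exact (Ideal.unit_mul_mem_iff_mem _
        ((unit_A a b c τ hτ).mul (unit_A a b c τ' hτ'))).mp h3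
    · rintro x y ⟨w, hw, hx⟩ ⟨w', hw', hy⟩
      refine ⟨w * w', mul_ne_zero hw hw', ?_⟩
      have e : ex a b c (w * w') * (x + y) =
          ex a b c w' * (ex a b c w * x) + ex a b c w * (ex a b c w' * y) := by
        rw [map_mul]; ring
      rw [e]
      exact Ideal.add_mem _ (Ideal.mul_mem_left _ _ hx) (Ideal.mul_mem_left _ _ hy)
  obtain ⟨w, hw, hwI⟩ := tr_uniform (Q * Q') (Ideal.span {sA a b c s0})
    (IsNoetherian.noetherian _) hA
  -- second inclusion
  obtain ⟨w1, hw1, hB⟩ : ∃ w1 : L[X], w1 ≠ 0 ∧ ex a b c w1 * sA a b c s0 ∈ Q * Q' := by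
    have h1 : sW a b c s0 ∈ cIdeal a b c (Q * Q') := by
      apply tr_mul_le
      rw [hz, ← e0]
      exact Ideal.mul_mem_left _ _ (Ideal.mem_span_singleton_self _)
    rw [mem_cIdeal] at h1
    obtain ⟨w1, s1, hw1, hs1, e1⟩ := h1
    refine ⟨w1, hw1, ?_⟩
    rw [← map_mul] at e1
    rw [← sA_em, ← map_mul, tr_sW_injective a b c e1]
    exact hs1
  have hle : Ideal.span {ex a b c w} * (Q * Q') ≤ Ideal.span {sA a b c s0} := by
    rw [Ideal.span_singleton_mul_le_iff]
    exact hwI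
  obtain ⟨J, hJ⟩ := Ideal.dvd_iff_le.mpr hle
  refine ⟨w, sA a b c s0, J, hw, hδ, hJ, w * w1, mul_ne_zero hw hw1, ?_⟩
  have h1 : ex a b c w * (ex a b c w1 * sA a b c s0) ∈ Ideal.span {sA a b c s0} * J := by
    rw [← hJ]
    exact Ideal.mul_mem_mul (Ideal.mem_span_singleton_self _) hB
  rw [Ideal.mem_span_singleton_mul] at h1
  obtain ⟨j, hj, ej⟩ := h1
  have h2 : j = ex a b c (w * w1) := by
    apply mul_left_cancel₀ hδ
    rw [ej, map_mul]
    ring
  rw [← h2]
  exact hj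

private theorem tr_cIdeal_top (a b c : L[X]) : cIdeal a b c ⊤ = ⊤ := by
  rw [Ideal.eq_top_iff_one, mem_cIdeal]
  exact ⟨1, 1, one_ne_zero, Submodule.mem_top, by
    rw [Polynomial.map_one, map_one, map_one, one_mul]⟩

private theorem tr_conic [CharZero L] {a b c : L[X]} (h : Base2 a b c) (P : (RatFunc L)[X])
    (hP : P = cq (algebraMap L[X] (RatFunc L) a) (algebraMap L[X] (RatFunc L) b)
      (algebraMap L[X] (RatFunc L) c))
    (Q Q' : Ideal (QR P)) (hQ : Q.IsPrime) (hQ' : Q'.IsPrime) (h0 : Q ≠ ⊥) (h0' : Q' ≠ ⊥) :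
    (∃ u, Q = Ideal.span {u}) ∨ (∃ u, Q' = Ideal.span {u}) ∨ (∃ u, Q * Q' = Ideal.span {u}) := by
  have hinj := IsFractionRing.injective L[X] (RatFunc L)
  have h2 : (2 : RatFunc L) ≠ 0 := by
    have h1 : (2 : RatFunc L) = algebraMap L[X] (RatFunc L) 2 := by rw [map_ofNat]
    rw [h1, Ne, map_eq_zero_iff _ hinj]
    exact two_ne_zero
  have hd : (algebraMap L[X] (RatFunc L) b) ^ 2 - algebraMap L[X] (RatFunc L) a *
      algebraMap L[X] (RatFunc L) c ≠ 0 := by
    rw [← map_pow, ← map_mul, ← map_sub, Ne, map_eq_zero_iff _ hinj]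
    exact h.disc_ne
  by_cases ha : a = 0
  · left
    have hb : algebraMap L[X] (RatFunc L) b ≠ 0 := by
      intro e
      apply h.disc_ne
      have hb0 : b = 0 := hinj (by rw [e, map_zero])
      rw [ha, hb0]
      ring
    rw [ha, map_zero] at hP
    subst hP
    exact conic_lin h2 hb Q
  by_cases hsq : IsSquare a
  · left
    obtain ⟨α, hα⟩ := hsq
    have hα0 : algebraMap L[X] (RatFunc L) α ≠ 0 := by
      rw [Ne, map_eq_zero_iff _ hinj]
      rintro rfl
      exact ha (by rw [hα, mul_zero])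
    rw [hα, map_mul, ← sq] at hP hd
    subst hP
    exact conic_sq0 h2 hα0 hd Q
  subst hP
  refine conic_pairs h2 ?_ hd Q Q' hQ hQ' h0 h0'
  rintro ⟨s, hs⟩
  have h1 : IsIntegral L[X] (s ^ 2) := by
    rw [pow_two, ← hs]
    exact isIntegral_algebraMap
  obtain ⟨y, rfl⟩ := IsIntegrallyClosed.exists_algebraMap_eq_of_isIntegral_pow two_pos h1
  rw [← map_mul] at hs
  exact hsq ⟨y, hinj hs⟩

/-- final form: for two primes without elements of `L[x]`, one of the ideals `Q`, `Q'`, `Q Q'` is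
principal up to an ideal containing an element of `L[x]` -/
theorem curve_pairs [CharZero L] {a b c : L[X]} (h : Base2 a b c)
    (Q Q' : Ideal (CoordRing2 a b c)) (hQ : Q.IsPrime) (hQ' : Q'.IsPrime)
    (h0 : Q ≠ ⊥) (h0' : Q' ≠ ⊥) (hx : ∀ w : L[X], w ≠ 0 → ex a b c w ∉ Q)
    (hx' : ∀ w : L[X], w ≠ 0 → ex a b c w ∉ Q') :
    ∃ I : Ideal (CoordRing2 a b c), (I = Q ∨ I = Q' ∨ I = Q * Q') ∧
    ∃ (w : L[X]) (δ : CoordRing2 a b c) (J : Ideal (CoordRing2 a b c)), w ≠ 0 ∧ δ ≠ 0 ∧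
      Ideal.span {ex a b c w} * I = Ideal.span {δ} * J ∧
      ∃ w' : L[X], w' ≠ 0 ∧ ex a b c w' ∈ J := by
  have h2 : IsUnit (2 : (RatFunc L)[X]) := by
    have h1 : (2 : RatFunc L) = algebraMap L[X] (RatFunc L) 2 := by rw [map_ofNat]
    have h3 : (2 : RatFunc L) ≠ 0 := by
      rw [h1, Ne, map_eq_zero_iff _ (IsFractionRing.injective L[X] (RatFunc L))]
      exact two_ne_zero
    have h4 : (2 : (RatFunc L)[X]) = C 2 := by rw [C_ofNat]
    rw [h4]
    exact IsUnit.map _ (isUnit_iff_ne_zero.mpr h3)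
  have hDed : IsDedekindDomain (CoordRing2 a b c) :=
    isDedekindDomain_QR h2 (toK_squarefree h) (toK_not_isSquare h)
  have htop : (⊤ : Ideal (CoordRing2 a b c)) ≠ ⊥ := top_ne_bot
  rcases tr_conic h _ (toW_quad a b c) (cIdeal a b c Q) (cIdeal a b c Q')
    (cIdeal_isPrime hQ hx) (cIdeal_isPrime hQ' hx') (cIdeal_ne_bot h0) (cIdeal_ne_bot h0') with
    ⟨u, hu⟩ | ⟨u, hu⟩ | hu
  · refine ⟨Q, Or.inl rfl, ?_⟩
    have := transfer hDed Q ⊤ h0 htop ⟨u, by rw [tr_cIdeal_top, Ideal.mul_top, hu]⟩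
    rwa [Ideal.mul_top] at this
  · refine ⟨Q', Or.inr (Or.inl rfl), ?_⟩
    have := transfer hDed Q' ⊤ h0' htop ⟨u, by rw [tr_cIdeal_top, Ideal.mul_top, hu]⟩
    rwa [Ideal.mul_top] at this
  · exact ⟨Q * Q', Or.inr (Or.inr rfl), transfer hDed Q Q' h0 h0' hu⟩

end Pool.Agent.Lib.MP_1a0ddd_nt.Quad
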