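import Mathlib

/-! The `F_p`-points of `R[x]/(π)` and of its quadratic extension by the square root of `e`. -/

set_option autoImplicit false

namespace Pool.Agent.Lib.MP_1a0ddd_nt.Quad

open Polynomial

/-- a ring map is determined by the images of finitely many generators -/
theorem finite_hom (R : Type) [CommRing R] [Algebra.FiniteType ℤ R] (p : ℕ) [Fact p.Prime] :
    Finite (R →+* ZMod p) := by
  obtain ⟨n, f, hf⟩ := Algebra.FiniteType.iff_quotient_mvPolynomial''.1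
    (inferInstance : Algebra.FiniteType ℤ R)
  refine Finite.of_injective (fun (φ : R →+* ZMod p) (i : Fin n) => φ (f (MvPolynomial.X i))) ?_
  intro φ ψ h
  have h1 : φ.comp f.toRingHom = ψ.comp f.toRingHom := by
    refine MvPolynomial.ringHom_ext (fun a => ?_) (fun i => ?_)
    · simp
    · exact congrFun h i
  refine RingHom.ext fun x => ?_
  obtain ⟨y, rfl⟩ := hf x
  exact RingHom.congr_fun h1 y

private theorem adj3_sigma {α β : Type} [Finite β] (f : α → β) (γ : β → Type)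
    [∀ b, Finite (γ b)] (e : ∀ b, {x : α // f x = b} ≃ γ b) :
    Nat.card α = ∑ᶠ b : β, Nat.card (γ b) := by
  classical
  have := Fintype.ofFinite β
  have : ∀ b, Finite {x : α // f x = b} := fun b => Finite.of_equiv _ (e b).symm
  rw [finsum_eq_sum_of_fintype, ← Nat.card_congr (Equiv.sigmaFiberEquiv f), Nat.card_sigma]
  exact Finset.sum_congr rfl fun b _ => Nat.card_congr (e b)

private theorem adj3_root {R : Type} [CommRing R] (π : R[X]) {p : ℕ}
    (ζ : AdjoinRoot π →+* ZMod p) :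
    (π.map (ζ.comp (AdjoinRoot.of π))).eval (ζ (AdjoinRoot.root π)) = 0 := by
  rw [eval_map, ← hom_eval₂, AdjoinRoot.eval₂_root, map_zero]

private theorem adj3_mk {R : Type} [CommRing R] (π e : R[X]) {p : ℕ}
    (ζ : AdjoinRoot π →+* ZMod p) :
    ζ (AdjoinRoot.mk π e) = (e.map (ζ.comp (AdjoinRoot.of π))).eval (ζ (AdjoinRoot.root π)) := by
  rw [eval_map, ← hom_eval₂]
  congr 1
  rw [← AdjoinRoot.algebraMap_eq, ← aeval_def, AdjoinRoot.aeval_eq]

private theorem adj3_sq {S : Type} [CommRing S] (a : S) {p : ℕ}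
    (ζ : AdjoinRoot (X ^ 2 - C a : S[X]) →+* ZMod p) :
    (ζ (AdjoinRoot.root _)) ^ 2 = ζ (AdjoinRoot.of _ a) := by
  have h := adj3_root (X ^ 2 - C a : S[X]) ζ
  simpa [sub_eq_zero] using h

theorem card_adj (R : Type) [CommRing R] (π : R[X]) (D : R) (p : ℕ) [Fact p.Prime]
    [Finite (R →+* ZMod p)] :
    Nat.card {ζ : AdjoinRoot π →+* ZMod p // ζ (AdjoinRoot.of π D) ≠ 0} =
      ∑ᶠ z : {z : R →+* ZMod p // z D ≠ 0}, Nat.card {s : ZMod p // (π.map z.1).eval s = 0} := by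
  refine adj3_sigma (β := {z : R →+* ZMod p // z D ≠ 0})
    (fun ζ : {ζ : AdjoinRoot π →+* ZMod p // ζ (AdjoinRoot.of π D) ≠ 0} =>
      ⟨ζ.1.comp (AdjoinRoot.of π), ζ.2⟩)
    (fun z => {s : ZMod p // (π.map z.1).eval s = 0}) fun z => ?_
  refine ⟨fun x => ⟨x.1.1 (AdjoinRoot.root π), ?_⟩,
    fun s => ⟨⟨AdjoinRoot.lift z.1 s.1 (by rw [← eval_map]; exact s.2), ?_⟩, ?_⟩, ?_, ?_⟩
  · have h := adj3_root π x.1.1
    have h2 : x.1.1.comp (AdjoinRoot.of π) = z.1 := congrArg Subtype.val x.2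
    rwa [h2] at h
  · rw [AdjoinRoot.lift_of]
    exact z.2
  · apply Subtype.ext
    refine RingHom.ext fun a => ?_
    simp
  · intro x
    apply Subtype.ext
    apply Subtype.ext
    refine AdjoinRoot.ringHom_ext ?_ ?_
    · have h2 : x.1.1.comp (AdjoinRoot.of π) = z.1 := congrArg Subtype.val x.2
      rw [h2]
      refine RingHom.ext fun a => ?_
      simp
    · simp
  · intro s
    apply Subtype.ext
    simp

theorem card_adj2 (R : Type) [CommRing R] (π e : R[X]) (D : R) (p : ℕ) [Fact p.Prime]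
    [Finite (R →+* ZMod p)] :
    Nat.card {ζ : AdjoinRoot (X ^ 2 - C (AdjoinRoot.mk π e) : (AdjoinRoot π)[X]) →+* ZMod p //
        ζ (AdjoinRoot.of _ (AdjoinRoot.of π D)) ≠ 0} =
      ∑ᶠ z : {z : R →+* ZMod p // z D ≠ 0}, Nat.card {P : ZMod p × ZMod p //
        (π.map z.1).eval P.1 = 0 ∧ P.2 ^ 2 = (e.map z.1).eval P.1} := by
  set q : (AdjoinRoot π)[X] := X ^ 2 - C (AdjoinRoot.mk π e) with hq
  refine adj3_sigma (β := {z : R →+* ZMod p // z D ≠ 0})
    (fun ζ : {ζ : AdjoinRoot q →+* ZMod p // ζ (AdjoinRoot.of q (AdjoinRoot.of π D)) ≠ 0} =>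
      ⟨(ζ.1.comp (AdjoinRoot.of q)).comp (AdjoinRoot.of π), ζ.2⟩)
    (fun z => {P : ZMod p × ZMod p //
        (π.map z.1).eval P.1 = 0 ∧ P.2 ^ 2 = (e.map z.1).eval P.1}) fun z => ?_
  have hl : ∀ P : {P : ZMod p × ZMod p //
      (π.map z.1).eval P.1 = 0 ∧ P.2 ^ 2 = (e.map z.1).eval P.1}, π.eval₂ z.1 P.1.1 = 0 := by
    intro P
    rw [← eval_map]
    exact P.2.1
  have hl2 : ∀ P : {P : ZMod p × ZMod p //
      (π.map z.1).eval P.1 = 0 ∧ P.2 ^ 2 = (e.map z.1).eval P.1},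
      q.eval₂ (AdjoinRoot.lift z.1 P.1.1 (hl P)) P.1.2 = 0 := by
    intro P
    rw [hq, eval₂_sub, eval₂_X_pow, eval₂_C, AdjoinRoot.lift_mk, ← eval_map, P.2.2, sub_self]
  refine ⟨fun x => ⟨(x.1.1 (AdjoinRoot.of q (AdjoinRoot.root π)), x.1.1 (AdjoinRoot.root q)), ?_⟩,
    fun P => ⟨⟨AdjoinRoot.lift (AdjoinRoot.lift z.1 P.1.1 (hl P)) P.1.2 (hl2 P), ?_⟩, ?_⟩, ?_, ?_⟩
  · have h2 : (x.1.1.comp (AdjoinRoot.of q)).comp (AdjoinRoot.of π) = z.1 :=
      congrArg Subtype.val x.2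
    have h := adj3_root π (x.1.1.comp (AdjoinRoot.of q))
    have h3 := adj3_mk π e (x.1.1.comp (AdjoinRoot.of q))
    have h4 := adj3_sq (AdjoinRoot.mk π e) x.1.1
    rw [h2] at h h3
    exact ⟨h, h4.trans h3⟩
  · rw [AdjoinRoot.lift_of, AdjoinRoot.lift_of]
    exact z.2
  · apply Subtype.ext
    refine RingHom.ext fun a => ?_
    simp
  · intro x
    have h2 : (x.1.1.comp (AdjoinRoot.of q)).comp (AdjoinRoot.of π) = z.1 :=
      congrArg Subtype.val x.2
    apply Subtype.ext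
    apply Subtype.ext
    refine AdjoinRoot.ringHom_ext ?_ ?_
    · refine AdjoinRoot.ringHom_ext ?_ ?_
      · rw [h2]
        refine RingHom.ext fun a => ?_
        simp
      · simp
    · simp
  · intro P
    apply Subtype.ext
    simp

end Pool.Agent.Lib.MP_1a0ddd_nt.Quad
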