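import Pool.Agent.Lib.MP_1a0ddd_nt.Gn.Cert

/-! Bad members over a closed subset `D = 0` of `Spec R[t]`. -/

set_option autoImplicit false

namespace Pool.Agent.Lib.MP_1a0ddd_nt.Quad

open Polynomial

/-- one prime `𝔭` over `D` -/
private theorem cert_prime (R : Type) [CommRing R] [IsDomain R] [CharZero R] (F : R[X][X])
    (hF : ∀ (L : Type) [Field L] (y : R[X] →+* L), Function.Injective (y.comp C) → ∀ s : L[X],
      F.map y ≠ s ^ 2) (D : R[X]) (hD : D ≠ 0) (𝔭 : Ideal R[X]) (h𝔭 : 𝔭.IsPrime) (hD𝔭 : D ∈ 𝔭) :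
    ∃ N : R, N ≠ 0 ∧ ∀ (E : Type) [Field E] (y : R[X] →+* E), 𝔭 ≤ RingHom.ker y → y (C N) ≠ 0 →
      ∀ (u : E) (s : E[X]), F.map y ≠ C u * s ^ 2 := by
  by_cases h0 : ∃ r : R, r ≠ 0 ∧ C r ∈ 𝔭
  · obtain ⟨r, hr, hr𝔭⟩ := h0
    refine ⟨r, hr, fun E _ y hy h => ?_⟩
    exact absurd (hy hr𝔭) h
  push Not at h0
  have hdom : IsDomain (R[X] ⧸ 𝔭) := Ideal.Quotient.isDomain 𝔭
  set mk : R[X] →+* R[X] ⧸ 𝔭 := Ideal.Quotient.mk 𝔭 with hmk
  have hinj : Function.Injective (mk.comp C) := by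
    rw [injective_iff_map_eq_zero]
    intro r hr
    by_contra hne
    exact h0 r hne (Ideal.Quotient.eq_zero_iff_mem.mp hr)
  have hinj' : Function.Injective (algebraMap R (R[X] ⧸ 𝔭)) := hinj
  have hchar : CharZero (R[X] ⧸ 𝔭) := charZero_of_injective_algebraMap hinj'
  obtain ⟨E', hE', hcert⟩ := Gn.cert (R[X] ⧸ 𝔭) (F.map mk) (by
    intro u s hus
    have hfi := IsFractionRing.injective (R[X] ⧸ 𝔭) (FractionRing (R[X] ⧸ 𝔭))
    set L := AlgebraicClosure (FractionRing (R[X] ⧸ 𝔭)) with hL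
    set ι : FractionRing (R[X] ⧸ 𝔭) →+* L := algebraMap _ L with hι
    obtain ⟨v, hv⟩ := IsAlgClosed.exists_pow_nat_eq (ι u) (n := 2) two_pos
    refine hF L ((ι.comp (algebraMap _ (FractionRing (R[X] ⧸ 𝔭)))).comp mk) ?_
      (C v * s.map ι) ?_
    · have : ((ι.comp (algebraMap _ (FractionRing (R[X] ⧸ 𝔭)))).comp mk).comp C =
          (ι.comp (algebraMap _ (FractionRing (R[X] ⧸ 𝔭)))).comp (mk.comp C) := rfl
      rw [this, RingHom.coe_comp, RingHom.coe_comp]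
      exact (ι.injective.comp hfi).comp hinj
    · have h1 : F.map ((ι.comp (algebraMap _ (FractionRing (R[X] ⧸ 𝔭)))).comp mk) =
          ((F.map mk).map (algebraMap _ (FractionRing (R[X] ⧸ 𝔭)))).map ι := by
        rw [Polynomial.map_map, Polynomial.map_map]
      rw [h1, hus, Polynomial.map_mul, map_C, Polynomial.map_pow, ← hv, C_pow, mul_pow])
  obtain ⟨G, rfl⟩ := Ideal.Quotient.mk_surjective E'
  have halg : IsAlgebraic R (mk X) := by
    refine ⟨D, hD, ?_⟩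
    have h1 : aeval (mk X) D = mk D := by
      have h2 : (aeval (mk X) : R[X] →ₐ[R] R[X] ⧸ 𝔭) = (Ideal.Quotient.mkₐ R 𝔭) := by
        ext
        simp [hmk]
      rw [h2]
      rfl
    rw [h1]
    exact Ideal.Quotient.eq_zero_iff_mem.mpr hD𝔭
  have halgG : IsAlgebraic R (mk G) := by
    refine Algebra.isAlgebraic_adjoin_singleton_iff.mpr halg _ ?_
    have h2 : (aeval (mk X) : R[X] →ₐ[R] R[X] ⧸ 𝔭) = (Ideal.Quotient.mkₐ R 𝔭) := by
      ext
      simp [hmk]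
    have h1 : mk G = aeval (mk X) G := by
      rw [h2]
      rfl
    rw [h1]
    exact aeval_mem_adjoin_singleton _ _
  obtain ⟨N, hN, k, hk⟩ := halgG.exists_nonzero_dvd (mem_nonZeroDivisors_of_ne_zero hE')
  refine ⟨N, hN, fun E _ y hy hyN u s => ?_⟩
  set y' : R[X] ⧸ 𝔭 →+* E := Ideal.Quotient.lift 𝔭 y fun a ha => hy ha with hy'
  have hyy : y'.comp mk = y := by
    ext x
    · simp [hy', hmk]
    · simp [hy', hmk]
  have h1 : y' (mk G) ≠ 0 := by
    intro h2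
    apply hyN
    have h3 : y (C N) = y' (algebraMap R (R[X] ⧸ 𝔭) N) := by
      rw [← hyy]; rfl
    rw [h3, hk, map_mul, h2, zero_mul]
  have h2 := hcert E y' h1 u s
  rwa [Polynomial.map_map, hyy] at h2

/-- off the zero set of `N` all points of `D = 0` have a fibre which is not a constant times a
square -/
theorem cert_members (R : Type) [CommRing R] [IsDomain R] [CharZero R] [IsNoetherianRing R]
    (F : R[X][X]) (hF : ∀ (L : Type) [Field L] (y : R[X] →+* L),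
      Function.Injective (y.comp C) → ∀ s : L[X], F.map y ≠ s ^ 2) (D : R[X]) (hD : D ≠ 0) :
    ∃ N : R, N ≠ 0 ∧ ∀ (E : Type) [Field E] (y : R[X] →+* E), y D = 0 → y (C N) ≠ 0 →
      ∀ (u : E) (s : E[X]), F.map y ≠ C u * s ^ 2 := by
  classical
  have hfin := Ideal.finite_minimalPrimes_of_isNoetherianRing R[X] (Ideal.span {D})
  have h1 : ∀ 𝔭 : Ideal R[X], ∃ N : R, N ≠ 0 ∧ (𝔭 ∈ (Ideal.span {D}).minimalPrimes →
      ∀ (E : Type) [Field E] (y : R[X] →+* E), 𝔭 ≤ RingHom.ker y → y (C N) ≠ 0 →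
      ∀ (u : E) (s : E[X]), F.map y ≠ C u * s ^ 2) := by
    intro 𝔭
    by_cases h : 𝔭 ∈ (Ideal.span {D}).minimalPrimes
    · obtain ⟨N, hN, h2⟩ := cert_prime R F hF D hD 𝔭 h.1.1
        (h.1.2 (Ideal.mem_span_singleton_self D))
      exact ⟨N, hN, fun _ => h2⟩
    · exact ⟨1, one_ne_zero, fun h' => absurd h' h⟩
  choose N hN hcert using h1
  refine ⟨∏ 𝔭 ∈ hfin.toFinset, N 𝔭, Finset.prod_ne_zero_iff.mpr fun 𝔭 _ => hN 𝔭, ?_⟩
  intro E _ y hyD hyN u s
  have hker : (RingHom.ker y).IsPrime := RingHom.ker_isPrime y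
  obtain ⟨𝔭, h𝔭, hle⟩ := Ideal.exists_minimalPrimes_le (I := Ideal.span {D})
    (J := RingHom.ker y) (by
      rw [Ideal.span_singleton_le_iff_mem]
      exact hyD)
  refine hcert 𝔭 h𝔭 E y hle ?_ u s
  rw [map_prod, map_prod, Finset.prod_ne_zero_iff] at hyN
  exact hyN 𝔭 (hfin.mem_toFinset.mpr h𝔭)

end Pool.Agent.Lib.MP_1a0ddd_nt.Quad
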