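import Pool.Agent.Lib.MP_1a0ddd_nt.Quad.QBase
import Pool.Agent.Lib.MP_1a0ddd_nt.Quad.Count2
import Pool.Agent.Lib.MP_1a0ddd_nt.Quad.TDefs
import Pool.Agent.Lib.MP_1a0ddd_nt.Quad.Adj3
import Pool.Agent.Lib.MP_1a0ddd_nt.Quad.Cert4
import Pool.Agent.Lib.MP_1a0ddd_nt.Gn.StepNS

/-! From the open subsets `{D ≠ 0} × A¹` to all open subsets of `Spec R[t]`. -/

set_option autoImplicit false

namespace Pool.Agent.Lib.MP_1a0ddd_nt.Quad

open Polynomial Filter Topology

/-- the points of `Spec R[t]` -/
noncomputable def ptEquiv (R : Type) [CommRing R] (p : ℕ) :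
    (R[X] →+* ZMod p) ≃ (R →+* ZMod p) × ZMod p where
  toFun y := (y.comp C, y X)
  invFun w := eval₂RingHom w.1 w.2
  left_inv y := by
    ext x
    · simp
    · simp
  right_inv w := by
    ext x
    · simp
    · simp

theorem quad_eval {R : Type} [CommRing R] (a b c : R[X]) (p : ℕ) (z : R →+* ZMod p)
    (t : ZMod p) : (quad a b c).map (eval₂RingHom z t) =
      a.map z * C t ^ 2 + 2 * b.map z * C t + c.map z := by
  have e : (eval₂RingHom z t).comp (C : R →+* R[X]) = z := by ext r; simp
  simp only [quad, Polynomial.map_add, Polynomial.map_mul, Polynomial.map_pow, Polynomial.map_map,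
    Polynomial.map_ofNat, map_C, e]
  simp

theorem fibreTrace_quad {R : Type} [CommRing R] (a b c : R[X]) (p : ℕ) (z : R →+* ZMod p)
    (t : ZMod p) : fibreTrace (quad a b c) p (eval₂RingHom z t) = frobTrace2 a b c p z t := by
  unfold fibreTrace frobTrace2
  rw [quad_eval]
  simp only [eval_add, eval_mul, eval_pow, eval_C, eval_ofNat]

private theorem card_le_two {p : ℕ} [Fact p.Prime] (v : ZMod p) :
    (Finset.univ.filter fun w : ZMod p => w ^ 2 = v).card ≤ 2 := by
  have h1 : (X ^ 2 - C v : (ZMod p)[X]) ≠ 0 := (monic_X_pow_sub_C v two_ne_zero).ne_zero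
  have h2 : (X ^ 2 - C v : (ZMod p)[X]).natDegree = 2 := natDegree_X_pow_sub_C
  refine (le_trans (Finset.card_le_card ?_)
    ((X ^ 2 - C v : (ZMod p)[X]).roots.toFinset_card_le.trans (card_roots' _))).trans h2.le
  intro w hw
  rw [Multiset.mem_toFinset, mem_roots h1, IsRoot, eval_sub, eval_pow, eval_X, eval_C,
    (Finset.mem_filter.1 hw).2, sub_self]

private theorem abs_frobTrace2 {R : Type} [CommRing R] (a b c : R[X]) (p : ℕ) [Fact p.Prime]
    (z : R →+* ZMod p) (t : ZMod p) : |(frobTrace2 a b c p z t : ℝ)| ≤ p := by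
  classical
  have h1 : Nat.card {P : ZMod p × ZMod p // P.2 ^ 2 = (a.map z).eval P.1 * t ^ 2 +
      2 * (b.map z).eval P.1 * t + (c.map z).eval P.1} ≤ 2 * p := by
    rw [Nat.card_eq_fintype_card, Fintype.card_subtype, Finset.card_filter,
      ← Finset.univ_product_univ, Finset.sum_product]
    calc _ ≤ ∑ _x : ZMod p, 2 := by
          refine Finset.sum_le_sum fun x _ => ?_
          rw [← Finset.card_filter]
          exact card_le_two ((a.map z).eval x * t ^ 2 + 2 * (b.map z).eval x * t +
            (c.map z).eval x)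
      _ = 2 * p := by
          rw [Finset.sum_const, Finset.card_univ, ZMod.card, smul_eq_mul, mul_comm]
  have h2 : (Nat.card {P : ZMod p × ZMod p // P.2 ^ 2 = (a.map z).eval P.1 * t ^ 2 +
      2 * (b.map z).eval P.1 * t + (c.map z).eval P.1} : ℝ) ≤ 2 * p := by exact_mod_cast h1
  have h3 : (0 : ℝ) ≤ (Nat.card {P : ZMod p × ZMod p // P.2 ^ 2 = (a.map z).eval P.1 * t ^ 2 +
      2 * (b.map z).eval P.1 * t + (c.map z).eval P.1} : ℝ) := Nat.cast_nonneg _
  unfold frobTrace2
  push_cast
  rw [abs_le]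
  constructor <;> linarith

private theorem finsum_subtype' {α : Type} [Fintype α] (P : α → Prop) [DecidablePred P]
    (f : α → ℝ) : ∑ᶠ x : {x // P x}, f x.1 = ∑ x, if P x then f x else 0 := by
  rw [finsum_eq_sum_of_fintype, ← Finset.sum_filter,
    Finset.sum_subtype (p := P) (Finset.univ.filter P) (fun x => by simp) f]

private theorem card_roots_le {p : ℕ} [Fact p.Prime] (P : (ZMod p)[X]) (hP : P ≠ 0) :
    (Finset.univ.filter fun x : ZMod p => P.eval x = 0).card ≤ P.natDegree := by
  classical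
  refine le_trans (Finset.card_le_card ?_) (P.roots.toFinset_card_le.trans P.card_roots')
  intro x hx
  rw [Multiset.mem_toFinset, mem_roots hP]
  exact (Finset.mem_filter.1 hx).2

/-- the sum of the traces over the zeros of `D` on the line over `z` -/
private noncomputable def remSum {R : Type} [CommRing R] (a b c D : R[X]) (p : ℕ)
    (z : R →+* ZMod p) : ℝ :=
  ∑ᶠ t : {t : ZMod p // (D.map z).eval t = 0}, (frobTrace2 a b c p z t.1 : ℝ)

private theorem abs_remSum {R : Type} [CommRing R] (a b c D : R[X]) (p : ℕ) [Fact p.Prime]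
    (z : R →+* ZMod p) (hD : D.map z ≠ 0) (B : ℝ) (hB0 : 0 ≤ B)
    (hB : ∀ t : ZMod p, (D.map z).eval t = 0 → |(frobTrace2 a b c p z t : ℝ)| ≤ B) :
    |remSum a b c D p z| ≤ D.natDegree * B := by
  classical
  unfold remSum
  rw [finsum_subtype' (fun t : ZMod p => (D.map z).eval t = 0)
    (fun t => (frobTrace2 a b c p z t : ℝ)), ← Finset.sum_filter]
  calc _ ≤ ∑ t ∈ Finset.univ.filter (fun t : ZMod p => (D.map z).eval t = 0),
        |(frobTrace2 a b c p z t : ℝ)| := Finset.abs_sum_le_sum_abs _ _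
    _ ≤ ∑ t ∈ Finset.univ.filter (fun t : ZMod p => (D.map z).eval t = 0), B :=
        Finset.sum_le_sum fun t ht => hB t (Finset.mem_filter.1 ht).2
    _ = (Finset.univ.filter (fun t : ZMod p => (D.map z).eval t = 0)).card * B := by
        rw [Finset.sum_const, nsmul_eq_mul]
    _ ≤ D.natDegree * B := by
        refine mul_le_mul_of_nonneg_right ?_ hB0
        exact_mod_cast (card_roots_le _ hD).trans natDegree_map_le

private theorem line_sum {R : Type} [CommRing R] (a b c D : R[X]) (p : ℕ) [Fact p.Prime]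
    (z : R →+* ZMod p) :
    ∑ t : ZMod p, (if (D.map z).eval t ≠ 0 then (frobTrace2 a b c p z t : ℝ) else 0) =
      ∑ᶠ t : ZMod p, (frobTrace2 a b c p z t : ℝ) - remSum a b c D p z := by
  classical
  unfold remSum
  rw [finsum_subtype' (fun t : ZMod p => (D.map z).eval t = 0)
    (fun t => (frobTrace2 a b c p z t : ℝ)), finsum_eq_sum_of_fintype, ← Finset.sum_sub_distrib]
  refine Finset.sum_congr rfl fun t _ => ?_
  by_cases h : (D.map z).eval t = 0
  · rw [if_pos h, if_neg (not_not.mpr h)]; ring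
  · rw [if_neg h, if_pos h]; ring

/-- the sum over the points of an open subset of `Spec R[t]`, line by line -/
private theorem traceAvg_eq {R : Type} [CommRing R] (a b c D : R[X]) (m p : ℕ) [Fact p.Prime]
    [Fintype (R →+* ZMod p)] :
    traceAvg (quad a b c) D m p = (∑ z : R →+* ZMod p,
      (∑ᶠ t : ZMod p, (frobTrace2 a b c p z t : ℝ) - remSum a b c D p z)) / (p : ℝ) ^ m := by
  classical
  have hfX : Finite (R[X] →+* ZMod p) := Finite.of_equiv _ (ptEquiv R p).symm
  have := Fintype.ofFinite (R[X] →+* ZMod p)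
  rw [traceAvg, finsum_subtype' (fun y : R[X] →+* ZMod p => y D ≠ 0)
    (fun y => (fibreTrace (quad a b c) p y : ℝ)),
    ← (ptEquiv R p).symm.sum_comp, Fintype.sum_prod_type]
  congr 1
  refine Finset.sum_congr rfl fun z _ => ?_
  rw [← line_sum]
  refine Finset.sum_congr rfl fun t _ => ?_
  have e : ((ptEquiv R p).symm (z, t)) = eval₂RingHom z t := rfl
  rw [e, fibreTrace_quad]
  have e2 : (eval₂RingHom z t) D = (D.map z).eval t := by
    rw [coe_eval₂RingHom, eval_map]
  rw [e2]

theorem open_limit (R : Type) [CommRing R] [IsDomain R] [CharZero R] [Algebra.FiniteType ℤ R]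
    (d : ℕ) (hR : LangWeilT R d) (a b c : R[X]) (v : ℝ) (D₀ : R) (hD₀ : D₀ ≠ 0)
    (h1 : ∀ D : R, D ≠ 0 → D₀ ∣ D → TauMean (fun p => nagaoAvg2 a b c D d p) v)
    (h2 : ∃ (K : ℝ) (p₀ : ℕ), ∀ p : ℕ, p₀ ≤ p → p.Prime → ∀ z : R →+* ZMod p, z D₀ ≠ 0 →
        |∑ᶠ t : ZMod p, (frobTrace2 a b c p z t : ℝ)| ≤ K * p)
    (hF : NoSquareMember a b c) (D : R[X]) (hD : D ≠ 0) (hdvd : C D₀ ∣ D) :
    TauMean (fun p => traceAvg (quad a b c) D (d + 1) p) v := by
  classical
  have hnoeth : IsNoetherianRing R := Algebra.FiniteType.isNoetherianRing ℤ R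
  obtain ⟨N, hN, hcert⟩ := cert_members R (quad a b c) hF D hD
  obtain ⟨E, hE⟩ : ∃ E : R, E = D₀ * (D.leadingCoeff * N) := ⟨_, rfl⟩
  have hE0 : E ≠ 0 := by
    rw [hE]
    exact mul_ne_zero hD₀ (mul_ne_zero (leadingCoeff_ne_zero.mpr hD) hN)
  have hEd : D₀ ∣ E := ⟨_, hE⟩
  obtain ⟨K, p₁, hK⟩ := h2
  have hfinhom : ∀ p : ℕ, p.Prime → Finite (R →+* ZMod p) := by
    intro p hp
    have : Fact p.Prime := ⟨hp⟩
    exact finite_hom R p
  have hzE : ∀ p : ℕ, p.Prime → ∀ z : R →+* ZMod p, z E ≠ 0 →
      z D₀ ≠ 0 ∧ z D.leadingCoeff ≠ 0 ∧ z N ≠ 0 := by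
    intro p hp z hz
    have : Fact p.Prime := ⟨hp⟩
    rw [hE, map_mul, map_mul] at hz
    exact ⟨left_ne_zero_of_mul hz, left_ne_zero_of_mul (right_ne_zero_of_mul hz),
      right_ne_zero_of_mul (right_ne_zero_of_mul hz)⟩
  set S : (p : ℕ) → (R →+* ZMod p) → ℝ := fun p z =>
    ∑ᶠ t : ZMod p, (frobTrace2 a b c p z t : ℝ) with hS
  set U : (p : ℕ) → (R →+* ZMod p) → ℝ := fun p z => remSum a b c D p z with hU
  set G₁ : ℕ → ℝ := fun p => (∑ᶠ z : {z : R →+* ZMod p // z E ≠ 0}, - U p z.1) /
    (p : ℝ) ^ (d + 1) with hG₁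
  set G₂ : ℕ → ℝ := fun p => (∑ᶠ z : {z : R →+* ZMod p // z E = 0}, (S p z.1 - U p z.1)) /
    (p : ℝ) ^ (d + 1) with hG₂
  set Q : R → ℕ → ℝ := fun D p =>
    (Nat.card {z : R →+* ZMod p // z D ≠ 0} : ℝ) / (p : ℝ) ^ d with hQ
  have hQE : TauMean (Q E) 1 := hR E hE0
  have hQ0 : TauMean (fun p => Q D₀ p - Q E p) 0 := by
    have := (hR D₀ hD₀).sub (hR E hE0)
    rwa [sub_self] at this
  -- exact identity
  have hid : ∀ p : ℕ, p.Prime →
      traceAvg (quad a b c) D (d + 1) p = nagaoAvg2 a b c E d p + (G₁ p + G₂ p) := by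
    intro p hp
    have : Fact p.Prime := ⟨hp⟩
    have := hfinhom p hp
    have := Fintype.ofFinite (R →+* ZMod p)
    rw [traceAvg_eq, nagaoAvg2, hG₁, hG₂]
    simp only
    rw [finsum_subtype' (fun z : R →+* ZMod p => z E ≠ 0) (fun z => S p z),
      finsum_subtype' (fun z : R →+* ZMod p => z E ≠ 0) (fun z => - U p z),
      finsum_subtype' (fun z : R →+* ZMod p => z E = 0) (fun z => S p z - U p z),
      ← add_div, ← add_div, ← Finset.sum_add_distrib, ← Finset.sum_add_distrib]
    congr 1
    refine Finset.sum_congr rfl fun z _ => ?_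
    by_cases h : z E = 0
    · rw [if_neg (not_not.mpr h), if_neg (not_not.mpr h), if_pos h]
      simp only [hS, hU]; ring
    · rw [if_pos h, if_pos h, if_neg h]
      simp only [hS, hU]; ring
  have hmapne : ∀ p : ℕ, p.Prime → ∀ z : R →+* ZMod p, z D.leadingCoeff ≠ 0 → D.map z ≠ 0 := by
    intro p hp z hz h
    have h3 := congrArg (fun q : (ZMod p)[X] => q.coeff D.natDegree) h
    simp only [coeff_map, coeff_natDegree, coeff_zero] at h3
    exact hz h3
  have hG₁0 : TauMean G₁ 0 := by
    refine hQE.squeeze fun ε hε => ?_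
    have hε' : 0 < ε / (D.natDegree + 1) := by positivity
    obtain ⟨p₀, hp₀⟩ := Gn.card_curve_ns (quad a b c).natDegree _ hε'
    refine ⟨p₀, fun p hpp hp => ?_⟩
    have : Fact p.Prime := ⟨hp⟩
    have := hfinhom p hp
    have := Fintype.ofFinite (R →+* ZMod p)
    have hp0 : (0 : ℝ) < p := by exact_mod_cast hp.pos
    have h3 : ∀ z : {z : R →+* ZMod p // z E ≠ 0}, |- U p z.1| ≤ ε * p := by
      rintro ⟨z, hz⟩
      obtain ⟨g1, g2, g3⟩ := hzE p hp z hz
      rw [abs_neg]
      have h4 := abs_remSum a b c D p z (hmapne p hp z g2) (ε / (D.natDegree + 1) * p)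
        (by positivity) (fun t ht => by
          rw [← fibreTrace_quad, fibreTrace]
          have h5 := hp₀ p hpp hp ((quad a b c).map (eval₂RingHom z t)) natDegree_map_le
            (fun u s => hcert (ZMod p) (eval₂RingHom z t)
              (by rw [coe_eval₂RingHom, ← eval_map]; exact ht)
              (by rw [coe_eval₂RingHom, eval₂_C]; exact g3) u s)
          push_cast
          rw [abs_sub_comm]
          exact h5)
      refine h4.trans ?_
      have h6 : (D.natDegree : ℝ) * (ε / (D.natDegree + 1) * p) =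
          ε * p * (D.natDegree / (D.natDegree + 1)) := by ring
      rw [h6]
      have h7 : (D.natDegree : ℝ) / (D.natDegree + 1) ≤ 1 := by
        rw [div_le_one (by positivity)]; linarith
      calc ε * p * (D.natDegree / (D.natDegree + 1)) ≤ ε * p * 1 :=
            mul_le_mul_of_nonneg_left h7 (by positivity)
        _ = ε * p := mul_one _
    have e2 : ε * Q E p = (∑ _z : {z : R →+* ZMod p // z E ≠ 0}, ε * p) / (p : ℝ) ^ (d + 1) := by
      rw [Finset.sum_const, Finset.card_univ, hQ, nsmul_eq_mul, pow_succ]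
      simp only [Nat.card_eq_fintype_card]
      field_simp
    rw [e2, hG₁]
    simp only
    rw [finsum_eq_sum_of_fintype, abs_div, abs_of_pos (pow_pos hp0 (d + 1))]
    refine div_le_div_of_nonneg_right ?_ (pow_pos hp0 (d + 1)).le
    exact (Finset.abs_sum_le_sum_abs _ _).trans (Finset.sum_le_sum fun z _ => h3 z)
  have hG₂0 : TauMean G₂ 0 := by
    refine hQ0.of_abs_le (K + D.natDegree) p₁ fun p hpp hp => ?_
    have : Fact p.Prime := ⟨hp⟩
    have := hfinhom p hp
    have := Fintype.ofFinite (R →+* ZMod p)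
    have hp0 : (0 : ℝ) < p := by exact_mod_cast hp.pos
    have h3 : ∀ z : R →+* ZMod p, z E = 0 →
        |S p z - U p z| ≤ if z D₀ ≠ 0 then (K + D.natDegree) * p else 0 := by
      intro z hz
      by_cases hz0 : z D₀ = 0
      · rw [if_neg (not_not.mpr hz0)]
        have h4 : D.map z = 0 := by
          obtain ⟨k, hk⟩ := hdvd
          rw [hk, Polynomial.map_mul, map_C, hz0, C_0, zero_mul]
        have h5 := line_sum a b c D p z
        have h6 : ∑ t : ZMod p, (if (D.map z).eval t ≠ 0 then
            (frobTrace2 a b c p z t : ℝ) else 0) = 0 := by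
          refine Finset.sum_eq_zero fun t _ => ?_
          rw [h4, eval_zero, if_neg (not_not.mpr rfl)]
        rw [h6] at h5
        simp only [hS, hU]
        rw [← h5, abs_zero]
      · rw [if_pos hz0]
        by_cases h4 : D.map z = 0
        · have h5 := line_sum a b c D p z
          have h6 : ∑ t : ZMod p, (if (D.map z).eval t ≠ 0 then
              (frobTrace2 a b c p z t : ℝ) else 0) = 0 := by
            refine Finset.sum_eq_zero fun t _ => ?_
            rw [h4, eval_zero, if_neg (not_not.mpr rfl)]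
          rw [h6] at h5
          simp only [hS, hU]
          rw [← h5, abs_zero]
          have h7 := (abs_nonneg _).trans (hK p hpp hp z hz0)
          have h8 : (0 : ℝ) ≤ D.natDegree * p := by positivity
          nlinarith
        · have h5 := hK p hpp hp z hz0
          have h6 := abs_remSum a b c D p z h4 p hp0.le fun t _ => abs_frobTrace2 a b c p z t
          calc |S p z - U p z| ≤ |S p z| + |U p z| := abs_sub _ _
            _ ≤ K * p + D.natDegree * p := add_le_add h5 h6
            _ = _ := by ring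
    have h4 : |∑ z : R →+* ZMod p, if z E = 0 then S p z - U p z else 0| ≤
        (K + D.natDegree) * p * ((Nat.card {z : R →+* ZMod p // z D₀ ≠ 0} : ℝ) -
          Nat.card {z : R →+* ZMod p // z E ≠ 0}) := by
      calc _ ≤ ∑ z : R →+* ZMod p, |if z E = 0 then S p z - U p z else 0| :=
            Finset.abs_sum_le_sum_abs _ _
        _ ≤ ∑ z : R →+* ZMod p, (K + D.natDegree) * p *
            ((if z D₀ ≠ 0 then 1 else 0) - (if z E ≠ 0 then 1 else 0)) := by
            refine Finset.sum_le_sum fun z _ => ?_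
            by_cases hz : z E = 0
            · rw [if_pos hz, if_neg (not_not.mpr hz)]
              refine (h3 z hz).trans ?_
              by_cases hz0 : z D₀ = 0
              · rw [if_neg (not_not.mpr hz0), if_neg (not_not.mpr hz0)]; simp
              · rw [if_pos hz0, if_pos hz0]; simp
            · rw [if_neg hz, if_pos hz, if_pos (hzE p hp z hz).1]; simp
        _ = _ := by
            rw [← Finset.mul_sum, Finset.sum_sub_distrib]
            congr 1
            rw [Nat.card_eq_fintype_card, Nat.card_eq_fintype_card, Fintype.card_subtype,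
              Fintype.card_subtype, Finset.card_filter, Finset.card_filter]
            push_cast
            rfl
    rw [hG₂]
    simp only
    rw [finsum_subtype' (fun z : R →+* ZMod p => z E = 0) (fun z => S p z - U p z), abs_div,
      abs_of_pos (pow_pos hp0 (d + 1))]
    calc _ ≤ (K + D.natDegree) * p * ((Nat.card {z : R →+* ZMod p // z D₀ ≠ 0} : ℝ) -
          Nat.card {z : R →+* ZMod p // z E ≠ 0}) / (p : ℝ) ^ (d + 1) :=
          div_le_div_of_nonneg_right h4 (pow_pos hp0 (d + 1)).le
      _ = (K + D.natDegree) * (Q D₀ p - Q E p) := by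
          simp only [hQ]
          rw [pow_succ]
          field_simp
  have h3 := (h1 E hE0 hEd).add (hG₁0.add hG₂0)
  rw [add_zero, add_zero] at h3
  exact h3.congr' 0 fun p _ hp => hid p hp

end Pool.Agent.Lib.MP_1a0ddd_nt.Quad
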