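import Pool.Agent.Lib.MP_1a0ddd_nt.Dbl
import Pool.Agent.Lib.MP_1a0ddd_nt.Quad.Adj3

/-! The Tauberian point count is preserved by the steps of towers. -/

set_option autoImplicit false

namespace Pool.Agent.Lib.MP_1a0ddd_nt.Quad

open Polynomial Filter Topology

/-- fibrations, the fibres over `z e = 0` have at most `2 p` points. Proof: with
`Q e p = #{z e ≠ 0} / p^d` one has for large primes
`|c p / p^(d+1) - Q e p| ≤ ε Q e p + 2 (Q 1 p - Q e p)`; `TauMean.squeeze`, `TauMean.of_abs_le`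
(compare `dblp_fib` in `Dbl.lean` and `open_limit` in `Open3.lean`). -/
theorem fibT {R : Type} [CommRing R] [Nontrivial R] [Algebra.FiniteType ℤ R] {d : ℕ}
    (hR : LangWeilT R d) (e : R) (he : e ≠ 0) (c : ℕ → ℕ) (N : (p : ℕ) → (R →+* ZMod p) → ℕ)
    (hc : ∀ p : ℕ, p.Prime → ∀ [Fintype (R →+* ZMod p)], c p = ∑ z, N p z)
    (hlow : ∀ ε : ℝ, 0 < ε → ∀ᶠ p : ℕ in atTop, p.Prime → ∀ z : R →+* ZMod p, z e ≠ 0 →
      (1 - ε) * (p : ℝ) ≤ N p z)
    (hup : ∀ ε : ℝ, 0 < ε → ∀ᶠ p : ℕ in atTop, p.Prime → ∀ z : R →+* ZMod p, z e ≠ 0 →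
      (N p z : ℝ) ≤ (1 + ε) * p)
    (hbad : ∀ p : ℕ, p.Prime → ∀ z : R →+* ZMod p, (N p z : ℝ) ≤ 2 * p) :
    TauMean (fun p : ℕ => (c p : ℝ) / (p : ℝ) ^ (d + 1)) 1 := by
  classical
  have hfinhom : ∀ p : ℕ, p.Prime → Finite (R →+* ZMod p) := by
    intro p hp
    have : Fact p.Prime := ⟨hp⟩
    exact finite_hom R p
  set Q : R → ℕ → ℝ := fun D p =>
    (Nat.card {z : R →+* ZMod p // z D ≠ 0} : ℝ) / (p : ℝ) ^ d with hQ
  have hQe : TauMean (Q e) 1 := hR e he
  have hB : TauMean (fun p => Q 1 p - Q e p) 0 := by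
    have := (hR 1 one_ne_zero).sub (hR e he)
    rwa [sub_self] at this
  have hkey : ∀ ε : ℝ, 0 < ε → ∃ p₀ : ℕ, ∀ p : ℕ, p₀ ≤ p → p.Prime →
      0 ≤ Q 1 p - Q e p ∧
      |(c p : ℝ) / (p : ℝ) ^ (d + 1) - Q e p| ≤ ε * Q e p + 2 * (Q 1 p - Q e p) := by
    intro ε hε
    obtain ⟨p₀, hp₀⟩ := eventually_atTop.1 ((hlow ε hε).and (hup ε hε))
    refine ⟨p₀, fun p hpp hp => ?_⟩
    obtain ⟨hl, hu⟩ := hp₀ p hpp
    have : Fact p.Prime := ⟨hp⟩
    have := hfinhom p hp
    have : Fintype (R →+* ZMod p) := Fintype.ofFinite _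
    have hp0 : (0 : ℝ) < p := by exact_mod_cast hp.pos
    have h7 : (0 : ℝ) < (p : ℝ) ^ d := by positivity
    simp only [hQ]
    rw [dbl_card (fun z : R →+* ZMod p => z e ≠ 0), dbl_card (fun z : R →+* ZMod p => z 1 ≠ 0),
      hc p hp]
    have h8 : (Finset.univ.filter fun z : R →+* ZMod p => z 1 ≠ 0) = Finset.univ := by
      ext z
      simp
    rw [h8]
    have h9 := Finset.card_filter_add_card_filter_not
      (s := (Finset.univ : Finset (R →+* ZMod p))) (fun z => z e ≠ 0)
    have h10 : ((Finset.univ.filter fun z : R →+* ZMod p => z e ≠ 0).card : ℝ) +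
        (Finset.univ.filter fun z : R →+* ZMod p => ¬ z e ≠ 0).card =
        ((Finset.univ : Finset (R →+* ZMod p)).card : ℝ) := by exact_mod_cast h9
    have h6 : ((∑ z, N p z : ℕ) : ℝ) ≤
        ((Finset.univ.filter fun z : R →+* ZMod p => z e ≠ 0).card : ℝ) * ((1 + ε) * p) +
        ((Finset.univ.filter fun z : R →+* ZMod p => ¬ z e ≠ 0).card : ℝ) * (2 * p) := by
      rw [← Finset.sum_filter_add_sum_filter_not Finset.univ (fun z : R →+* ZMod p => z e ≠ 0)]
      push_cast
      refine add_le_add ?_ ?_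
      · rw [← nsmul_eq_mul]
        exact Finset.sum_le_card_nsmul _ _ _ fun z hz => hu hp z (Finset.mem_filter.1 hz).2
      · rw [← nsmul_eq_mul]
        exact Finset.sum_le_card_nsmul _ _ _ fun z _ => hbad p hp z
    have h5 : ((Finset.univ.filter fun z : R →+* ZMod p => z e ≠ 0).card : ℝ) *
        ((1 - ε) * p) ≤ ((∑ z, N p z : ℕ) : ℝ) := by
      rw [← nsmul_eq_mul]
      push_cast
      calc _ ≤ ∑ z ∈ Finset.univ.filter (fun z : R →+* ZMod p => z e ≠ 0), (N p z : ℝ) := by
            refine Finset.card_nsmul_le_sum _ _ _ fun z hz => ?_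
            exact hl hp z (Finset.mem_filter.1 hz).2
        _ ≤ _ := Finset.sum_le_sum_of_subset_of_nonneg (Finset.filter_subset _ _)
            fun z _ _ => by positivity
    rw [← h10]
    set n₁ : ℝ := ((Finset.univ.filter fun z : R →+* ZMod p => z e ≠ 0).card : ℝ) with hn₁
    set n₂ : ℝ := ((Finset.univ.filter fun z : R →+* ZMod p => ¬ z e ≠ 0).card : ℝ) with hn₂
    have h11 : 0 ≤ n₂ := by rw [hn₂]; positivity
    have e1 : (n₁ + n₂) / (p : ℝ) ^ d - n₁ / (p : ℝ) ^ d = n₂ / (p : ℝ) ^ d := by ring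
    rw [e1]
    refine ⟨by positivity, ?_⟩
    have e2 : (((∑ z, N p z : ℕ) : ℝ)) / (p : ℝ) ^ (d + 1) - n₁ / (p : ℝ) ^ d =
        ((((∑ z, N p z : ℕ) : ℝ)) - n₁ * p) / (p : ℝ) ^ (d + 1) := by
      rw [pow_succ]
      field_simp
    have e3 : ε * (n₁ / (p : ℝ) ^ d) + 2 * (n₂ / (p : ℝ) ^ d) =
        (ε * n₁ * p + 2 * n₂ * p) / (p : ℝ) ^ (d + 1) := by
      rw [pow_succ]
      field_simp
    rw [e2, e3, abs_div, abs_of_pos (pow_pos hp0 (d + 1))]
    refine div_le_div_of_nonneg_right ?_ (pow_pos hp0 (d + 1)).le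
    rw [abs_le]
    constructor
    · nlinarith [mul_nonneg h11 hp0.le]
    · nlinarith
  set A : ℕ → ℝ := fun p => (c p : ℝ) / (p : ℝ) ^ (d + 1) - Q e p with hA
  set B : ℕ → ℝ := fun p => Q 1 p - Q e p with hBd
  set A₂ : ℕ → ℝ := fun p => max (-(2 * B p)) (min (A p) (2 * B p)) with hA₂
  have hA₂0 : TauMean A₂ 0 := by
    obtain ⟨p₀, hp₀⟩ := hkey 1 one_pos
    refine hB.of_abs_le 2 p₀ fun p hpp hp => ?_
    have h1 := (hp₀ p hpp hp).1
    simp only [hA₂]
    rw [abs_le]
    constructor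
    · exact le_max_left _ _
    · refine max_le ?_ (min_le_right _ _)
      linarith
  have hA₁0 : TauMean (fun p => A p - A₂ p) 0 := by
    refine hQe.squeeze fun ε hε => ?_
    obtain ⟨p₀, hp₀⟩ := hkey ε hε
    refine ⟨p₀, fun p hpp hp => ?_⟩
    obtain ⟨h1, h2⟩ := hp₀ p hpp hp
    have h3 : 0 ≤ Q e p := by simp only [hQ]; positivity
    have h4 : 0 ≤ ε * Q e p := by positivity
    change |A p| ≤ ε * Q e p + 2 * B p at h2
    change 0 ≤ B p at h1
    rw [abs_le] at h2
    simp only [hA₂]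
    rw [abs_le]
    rcases le_total (A p) (2 * B p) with h5 | h5
    · rw [min_eq_left h5]
      rcases le_total (-(2 * B p)) (A p) with h6 | h6
      · rw [max_eq_right h6]
        constructor <;> linarith
      · rw [max_eq_left h6]
        constructor <;> linarith
    · rw [min_eq_right h5]
      rw [max_eq_right (by linarith)]
      constructor <;> linarith
  have h3 := hQe.add (hA₁0.add hA₂0)
  rw [add_zero, add_zero] at h3
  refine h3.congr' 0 fun p _ _ => ?_
  simp only [hA]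
  ring

private noncomputable def twf_polyEquiv (R : Type) [CommRing R] (p : ℕ) (D : R[X]) :
    {φ : R[X] →+* ZMod p // φ D ≠ 0} ≃
      Σ z : R →+* ZMod p, {x : ZMod p // (D.map z).eval x ≠ 0} where
  toFun φ := ⟨φ.1.comp C, φ.1 X, by
    rw [eval_map]
    have h1 : eval₂ (φ.1.comp C) (φ.1 X) D = φ.1 D := by
      rw [← hom_eval₂, eval₂_C_X]
    rw [h1]
    exact φ.2⟩
  invFun y := ⟨eval₂RingHom y.1 y.2.1, by
    have h1 := y.2.2
    rw [eval_map] at h1
    exact h1⟩
  left_inv φ := by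
    apply Subtype.ext
    refine Polynomial.ringHom_ext (fun a => ?_) ?_
    · simp
    · simp
  right_inv y := by
    obtain ⟨z, x, hx⟩ := y
    have h1 : (eval₂RingHom z x).comp C = z := by
      ext a
      simp
    have h2 : eval₂RingHom z x X = x := by simp
    refine Sigma.ext h1 ?_
    rw [Subtype.heq_iff_coe_eq]
    · exact h2
    · intro y
      change (D.map ((eval₂RingHom z x).comp C)).eval y ≠ 0 ↔ (D.map z).eval y ≠ 0
      rw [h1]

/-- compare `langWeil_poly` in `Tower.lean` -/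
theorem langWeilT_poly (R : Type) [CommRing R] [IsDomain R] [Algebra.FiniteType ℤ R] (d : ℕ)
    (hR : LangWeilT R d) : LangWeilT R[X] (d + 1) := by
  classical
  intro D hD
  refine fibT hR D.leadingCoeff (leadingCoeff_ne_zero.2 hD)
    (fun p => Nat.card {φ : R[X] →+* ZMod p // φ D ≠ 0})
    (fun p z => Nat.card {x : ZMod p // (D.map z).eval x ≠ 0}) ?_ ?_ ?_ ?_
  · intro p hpp _
    have : Fact p.Prime := ⟨hpp⟩
    rw [Nat.card_congr (twf_polyEquiv R p D), Nat.card_sigma]
  · intro ε hε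
    filter_upwards [dbl_big ε hε D.natDegree] with p hp hpp z hz
    have : Fact p.Prime := ⟨hpp⟩
    rw [dbl_card (fun x : ZMod p => (D.map z).eval x ≠ 0)]
    have h1 := Finset.card_filter_add_card_filter_not (s := (Finset.univ : Finset (ZMod p)))
      (fun x : ZMod p => (D.map z).eval x = 0)
    rw [Finset.card_univ, ZMod.card] at h1
    have h2 : D.map z ≠ 0 := by
      intro h3
      apply hz
      have h4 := congrArg (fun P => P.coeff D.natDegree) h3
      simpa using h4
    have h3 := dbl_roots (D.map z) h2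
    have h4 : (D.map z).natDegree ≤ D.natDegree := natDegree_map_le
    have h5 : ((Finset.univ.filter fun x : ZMod p => (D.map z).eval x = 0).card : ℝ) ≤
        D.natDegree := by exact_mod_cast h3.trans h4
    have h6 : ((Finset.univ.filter fun x : ZMod p => (D.map z).eval x = 0).card : ℝ) +
        (Finset.univ.filter fun x : ZMod p => ¬ (D.map z).eval x = 0).card = p := by
      exact_mod_cast h1
    change (1 - ε) * (p : ℝ) ≤ ((Finset.univ.filter fun x : ZMod p => ¬ (D.map z).eval x = 0).card : ℝ)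
    linarith
  · intro ε hε
    refine Eventually.of_forall fun p hpp z _ => ?_
    have : Fact p.Prime := ⟨hpp⟩
    rw [dbl_card (fun x : ZMod p => (D.map z).eval x ≠ 0)]
    have h1 : (Finset.univ.filter fun x : ZMod p => (D.map z).eval x ≠ 0).card ≤ p := by
      refine le_trans (Finset.card_le_univ _) ?_
      rw [ZMod.card]
    have h2 : ((Finset.univ.filter fun x : ZMod p => (D.map z).eval x ≠ 0).card : ℝ) ≤ p := by
      exact_mod_cast h1
    have h3 : (0 : ℝ) ≤ p := by positivity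
    nlinarith
  · intro p hpp z
    have : Fact p.Prime := ⟨hpp⟩
    rw [dbl_card (fun x : ZMod p => (D.map z).eval x ≠ 0)]
    have h1 : (Finset.univ.filter fun x : ZMod p => (D.map z).eval x ≠ 0).card ≤ p := by
      refine le_trans (Finset.card_le_univ _) ?_
      rw [ZMod.card]
    have h2 : ((Finset.univ.filter fun x : ZMod p => (D.map z).eval x ≠ 0).card : ℝ) ≤ p := by
      exact_mod_cast h1
    have h3 : (0 : ℝ) ≤ p := by positivity
    linarith

/-- compare `langWeil_dbl` in `Dbl.lean` -/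
theorem langWeilT_dbl (R : Type) [CommRing R] [IsDomain R] [CharZero R] [Algebra.FiniteType ℤ R]
    (d : ℕ) (hR : LangWeilT R d) (h : R[X]) (hh : NotSq h) :
    LangWeilT (HypRing R h) (d + 1) := by
  classical
  intro D hD
  obtain ⟨u, v, hDuv⟩ := dbl_rep h D
  obtain ⟨E, hE0, hE⟩ := Gn.cert R h hh
  set Nm : R[X] := u ^ 2 - v ^ 2 * h with hNm
  have hNm0 : Nm ≠ 0 := by
    intro h1
    obtain ⟨hu, hv⟩ := dbl_norm h hh u v h1
    apply hD
    rw [hDuv, hu, hv, map_zero]
    ring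
  have hle : ∀ (p : ℕ) [Fact p.Prime] (z : R →+* ZMod p),
      (Finset.univ.filter fun Q : ZMod p × ZMod p => Q.2 ^ 2 = (h.map z).eval Q.1 ∧
        (u.map z).eval Q.1 + (v.map z).eval Q.1 * Q.2 ≠ 0).card ≤
        (Finset.univ.filter fun Q : ZMod p × ZMod p => Q.2 ^ 2 = (h.map z).eval Q.1).card := by
    intro p _ z
    refine Finset.card_le_card fun Q hQ => ?_
    rw [Finset.mem_filter] at hQ ⊢
    exact ⟨hQ.1, hQ.2.1⟩
  refine fibT hR (E * Nm.leadingCoeff) (mul_ne_zero hE0 (leadingCoeff_ne_zero.2 hNm0))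
    (fun p => Nat.card {φ : HypRing R h →+* ZMod p // φ D ≠ 0})
    (fun p z => Nat.card {Q : ZMod p × ZMod p // Q.2 ^ 2 = (h.map z).eval Q.1 ∧
        (u.map z).eval Q.1 + (v.map z).eval Q.1 * Q.2 ≠ 0}) ?_ ?_ ?_ ?_
  · intro p hpp _
    have : Fact p.Prime := ⟨hpp⟩
    rw [Nat.card_congr (dbl_hypEquiv h p u v D hDuv), Nat.card_sigma]
  · intro ε hε
    obtain ⟨p₀, hp₀⟩ := Gn.card_curve_ns h.natDegree (ε / 2) (half_pos hε)
    filter_upwards [dbl_big (ε / 2) (half_pos hε) (2 * Nm.natDegree), eventually_ge_atTop p₀]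
      with p hp hp1 hpp z hz
    have : Fact p.Prime := ⟨hpp⟩
    rw [map_mul, mul_ne_zero_iff] at hz
    have h0 := hp₀ p hp1 hpp (h.map z) natDegree_map_le (hE (ZMod p) z hz.1)
    rw [dbl_card (fun Q : ZMod p × ZMod p => Q.2 ^ 2 = (h.map z).eval Q.1)] at h0
    rw [dbl_card (fun Q : ZMod p × ZMod p => Q.2 ^ 2 = (h.map z).eval Q.1 ∧
        (u.map z).eval Q.1 + (v.map z).eval Q.1 * Q.2 ≠ 0)]
    have h2 : Nm.map z ≠ 0 := by
      intro h3
      apply hz.2
      have h4 := congrArg (fun P => P.coeff Nm.natDegree) h3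
      simpa using h4
    have h3 := dbl_roots (Nm.map z) h2
    have h4 : (Nm.map z).natDegree ≤ Nm.natDegree := natDegree_map_le
    set A := Finset.univ.filter fun Q : ZMod p × ZMod p => Q.2 ^ 2 = (h.map z).eval Q.1 with hA
    set B := Finset.univ.filter fun Q : ZMod p × ZMod p => Q.2 ^ 2 = (h.map z).eval Q.1 ∧
        (u.map z).eval Q.1 + (v.map z).eval Q.1 * Q.2 ≠ 0 with hB
    have h5 : (A \ B).card ≤ 2 * Nm.natDegree := by
      have h6 : (A \ B).card ≤ 2 * ((A \ B).image Prod.fst).card := by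
        refine Finset.card_le_mul_card_image _ _ fun x _ => ?_
        refine le_trans ?_ (dbl_two ((h.map z).eval x))
        refine Finset.card_le_card_of_injOn Prod.snd ?_ ?_
        · intro Q hQ
          have hQ' := Finset.mem_filter.1 hQ
          have hQ2 := (Finset.mem_sdiff.1 hQ'.1).1
          rw [hA, Finset.mem_filter] at hQ2
          simp only [Finset.coe_filter, Finset.mem_univ, true_and, Set.mem_ofPred_eq]
          rw [hQ2.2, hQ'.2]
        · intro Q hQ Q' hQ' e
          have h7 := (Finset.mem_filter.1 hQ).2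
          have h8 := (Finset.mem_filter.1 hQ').2
          exact Prod.ext (h7.trans h8.symm) e
      have h9 : ((A \ B).image Prod.fst).card ≤ Nm.natDegree := by
        refine le_trans (Finset.card_le_card ?_) (h3.trans h4)
        intro x hx
        obtain ⟨Q, hQ, rfl⟩ := Finset.mem_image.1 hx
        rw [Finset.mem_sdiff, hA, hB, Finset.mem_filter, Finset.mem_filter] at hQ
        obtain ⟨⟨_, hQ1⟩, hQ2⟩ := hQ
        have hQ3 : (u.map z).eval Q.1 + (v.map z).eval Q.1 * Q.2 = 0 := by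
          by_contra h10
          exact hQ2 ⟨Finset.mem_univ _, hQ1, h10⟩
        rw [Finset.mem_filter]
        refine ⟨Finset.mem_univ _, ?_⟩
        rw [hNm, Polynomial.map_sub, Polynomial.map_mul, Polynomial.map_pow, Polynomial.map_pow,
          eval_sub, eval_mul, eval_pow, eval_pow, ← hQ1]
        linear_combination ((u.map z).eval Q.1 - (v.map z).eval Q.1 * Q.2) * hQ3
      omega
    have h6 : A.card ≤ B.card + 2 * Nm.natDegree := by
      have h7 := Finset.card_le_card_sdiff_add_card (s := A) (t := B)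
      omega
    have h7 : (A.card : ℝ) ≤ B.card + (2 * Nm.natDegree : ℕ) := by exact_mod_cast h6
    rw [abs_le] at h0
    linarith [h0.1]
  · intro ε hε
    obtain ⟨p₀, hp₀⟩ := Gn.card_curve_ns h.natDegree ε hε
    filter_upwards [eventually_ge_atTop p₀] with p hp1 hpp z hz
    have : Fact p.Prime := ⟨hpp⟩
    rw [map_mul, mul_ne_zero_iff] at hz
    have h0 := hp₀ p hp1 hpp (h.map z) natDegree_map_le (hE (ZMod p) z hz.1)
    rw [dbl_card (fun Q : ZMod p × ZMod p => Q.2 ^ 2 = (h.map z).eval Q.1)] at h0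
    rw [dbl_card (fun Q : ZMod p × ZMod p => Q.2 ^ 2 = (h.map z).eval Q.1 ∧
        (u.map z).eval Q.1 + (v.map z).eval Q.1 * Q.2 ≠ 0)]
    have h2 : ((Finset.univ.filter fun Q : ZMod p × ZMod p => Q.2 ^ 2 = (h.map z).eval Q.1 ∧
        (u.map z).eval Q.1 + (v.map z).eval Q.1 * Q.2 ≠ 0).card : ℝ) ≤
        (Finset.univ.filter fun Q : ZMod p × ZMod p => Q.2 ^ 2 = (h.map z).eval Q.1).card := by
      exact_mod_cast hle p z
    rw [abs_le] at h0
    linarith [h0.2]
  · intro p hpp z
    have : Fact p.Prime := ⟨hpp⟩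
    rw [dbl_card (fun Q : ZMod p × ZMod p => Q.2 ^ 2 = (h.map z).eval Q.1 ∧
        (u.map z).eval Q.1 + (v.map z).eval Q.1 * Q.2 ≠ 0)]
    have h1 : (Finset.univ.filter fun Q : ZMod p × ZMod p =>
        Q.2 ^ 2 = (h.map z).eval Q.1).card ≤ 2 * p := by
      have h6 : (Finset.univ.filter fun Q : ZMod p × ZMod p =>
          Q.2 ^ 2 = (h.map z).eval Q.1).card ≤ 2 * ((Finset.univ.filter fun Q : ZMod p × ZMod p =>
          Q.2 ^ 2 = (h.map z).eval Q.1).image Prod.fst).card := by
        refine Finset.card_le_mul_card_image _ _ fun x _ => ?_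
        refine le_trans ?_ (dbl_two ((h.map z).eval x))
        refine Finset.card_le_card_of_injOn Prod.snd ?_ ?_
        · intro Q hQ
          have hQ' := Finset.mem_filter.1 hQ
          have hQ2 := (Finset.mem_filter.1 hQ'.1).2
          simp only [Finset.coe_filter, Finset.mem_univ, true_and, Set.mem_ofPred_eq]
          rw [hQ2, hQ'.2]
        · intro Q hQ Q' hQ' e
          have h7 := (Finset.mem_filter.1 hQ).2
          have h8 := (Finset.mem_filter.1 hQ').2
          exact Prod.ext (h7.trans h8.symm) e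
      have h7 : ((Finset.univ.filter fun Q : ZMod p × ZMod p =>
          Q.2 ^ 2 = (h.map z).eval Q.1).image Prod.fst).card ≤ p :=
        (Finset.card_le_univ _).trans (ZMod.card p).le
      omega
    exact_mod_cast (hle p z).trans h1

end Pool.Agent.Lib.MP_1a0ddd_nt.Quad
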