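import Pool.Agent.Lib.MP_1a0ddd_nt.Quad.CycP
import Pool.Agent.Lib.MP_1a0ddd_nt.Quad.TwC
import Pool.Agent.Lib.MP_1a0ddd_nt.Quad.TwFib

/-! Towers over the rings of cyclotomic integers have the Tauberian point count. -/

set_option autoImplicit false

namespace Pool.Agent.Lib.MP_1a0ddd_nt.Quad

open Polynomial Filter Topology

theorem cyc_isDomain (n : ℕ) (hn : 0 < n) : IsDomain (AdjoinRoot (cyclotomic n ℤ)) :=
  AdjoinRoot.isDomain_of_prime (cyclotomic.irreducible hn).prime

theorem cyc_charZero (n : ℕ) (hn : 0 < n) : CharZero (AdjoinRoot (cyclotomic n ℤ)) := by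
  have h1 : (cyclotomic n ℤ).degree ≠ 0 := by
    rw [degree_cyclotomic]
    have := Nat.totient_pos.2 hn
    exact_mod_cast this.ne'
  exact charZero_of_injective_ringHom (AdjoinRoot.of.injective_of_degree_ne_zero h1)

/-- the homomorphisms are the roots of the cyclotomic polynomial -/
private theorem cyc_equiv (n p : ℕ) [Fact p.Prime] : Nonempty
    ((AdjoinRoot (cyclotomic n ℤ) →+* ZMod p) ≃ {x : ZMod p // IsRoot (cyclotomic n (ZMod p)) x}) := by
  have h1 : ∀ x : ZMod p, (cyclotomic n ℤ).eval₂ (Int.castRingHom (ZMod p)) x =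
      (cyclotomic n (ZMod p)).eval x := by
    intro x
    rw [← map_cyclotomic_int n (ZMod p), eval_map]
  refine ⟨⟨fun φ => ⟨φ (AdjoinRoot.root _), ?_⟩, fun x => AdjoinRoot.lift (Int.castRingHom _) x.1 ?_,
    fun φ => ?_, fun x => ?_⟩⟩
  · show (cyclotomic n (ZMod p)).eval _ = 0
    rw [← h1]
    have h2 := congrArg φ (AdjoinRoot.eval₂_root (cyclotomic n ℤ))
    rw [hom_eval₂, map_zero] at h2
    rwa [Subsingleton.elim (Int.castRingHom (ZMod p)) (φ.comp (AdjoinRoot.of _))]
  · rw [h1]
    exact x.2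
  · refine AdjoinRoot.ringHom_ext (Subsingleton.elim _ _) ?_
    rw [AdjoinRoot.lift_root]
  · exact Subtype.ext (AdjoinRoot.lift_root _)

/-- the number of ring homomorphisms `ℤ[ζ_n] → F_p`, that is of the roots of `Φ_n` in `F_p` -/
theorem cyc_card (n : ℕ) (hn : 0 < n) (p : ℕ) (hp : p.Prime) (hpn : ¬ p ∣ n) :
    Nat.card (AdjoinRoot (cyclotomic n ℤ) →+* ZMod p) = if p % n = 1 % n then n.totient else 0 := by
  classical
  have : Fact p.Prime := ⟨hp⟩
  have hn0 : (n : ZMod p) ≠ 0 := by
    rw [Ne, ZMod.natCast_eq_zero_iff]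
    exact hpn
  have : NeZero (n : ZMod p) := ⟨hn0⟩
  obtain ⟨e⟩ := cyc_equiv n p
  rw [Nat.card_congr e]
  have h2 : {x : ZMod p // IsRoot (cyclotomic n (ZMod p)) x} ≃
      {x : ZMod p // x ∈ primitiveRoots n (ZMod p)} :=
    Equiv.subtypeEquivRight fun x => by
      rw [isRoot_cyclotomic_iff, mem_primitiveRoots hn]
  rw [Nat.card_congr h2, Nat.card_eq_fintype_card, Fintype.card_coe]
  have hdvd : p % n = 1 % n ↔ n ∣ p - 1 := by
    rw [← Nat.modEq_iff_dvd' hp.one_le]
    exact ⟨fun h => h.symm, fun h => h.symm⟩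
  split_ifs with h
  · -- a generator of the multiplicative group
    rw [hdvd] at h
    obtain ⟨g, hg⟩ := IsCyclic.exists_ofOrder_eq_natCard (α := (ZMod p)ˣ)
    rw [Nat.card_eq_fintype_card, ZMod.card_units] at hg
    have hp1 : p - 1 ≠ 0 := by
      have := hp.two_le
      omega
    have h3 := (IsPrimitiveRoot.orderOf g)
    rw [hg] at h3
    obtain ⟨m, hm⟩ := h
    have h4 : IsPrimitiveRoot (g ^ m) n := h3.pow (Nat.pos_of_ne_zero hp1) (by rw [hm, mul_comm])
    have h5 : IsPrimitiveRoot ((g ^ m : (ZMod p)ˣ) : ZMod p) n := IsPrimitiveRoot.coe_units_iff.2 h4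
    exact h5.card_primitiveRoots
  · rw [Finset.card_eq_zero, Finset.eq_empty_iff_forall_notMem]
    intro x hx
    rw [mem_primitiveRoots hn] at hx
    apply h
    rw [hdvd]
    apply hx.dvd_of_pow_eq_one
    exact ZMod.pow_card_sub_one_eq_one (hx.ne_zero hn.ne')

/-- a nonzero element divides a nonzero integer, so only finitely many `p` are affected -/
theorem cyc_langWeilT (n : ℕ) (hn : 0 < n) : LangWeilT (AdjoinRoot (cyclotomic n ℤ)) 0 := by
  intro D hD
  have := cyc_isDomain n hn
  have := cyc_charZero n hn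
  have hint : IsIntegral ℤ D := by
    have : Algebra.IsIntegral ℤ (AdjoinRoot (cyclotomic n ℤ)) := by
      have := (cyclotomic.monic n ℤ).finite_adjoinRoot
      infer_instance
    exact Algebra.IsIntegral.isIntegral D
  obtain ⟨N, hN, hdvd⟩ := hint.isAlgebraic.exists_nonzero_dvd (mem_nonZeroDivisors_of_ne_zero hD)
  refine (pnt_ap_one n hn).congr' (N.natAbs + n + 1) fun p hp hpp => ?_
  have : Fact p.Prime := ⟨hpp⟩
  have hpn : ¬ p ∣ n := fun h => by
    have := Nat.le_of_dvd hn h
    omega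
  have hall : ∀ z : AdjoinRoot (cyclotomic n ℤ) →+* ZMod p, z D ≠ 0 := by
    intro z h0
    obtain ⟨c, hc⟩ := hdvd
    have h1 := congrArg z hc
    rw [map_mul, h0, zero_mul] at h1
    have h2 : z (algebraMap ℤ (AdjoinRoot (cyclotomic n ℤ)) N) = (N : ZMod p) := by
      rw [eq_intCast, map_intCast]
    rw [h2, ZMod.intCast_zmod_eq_zero_iff_dvd] at h1
    have h3 := Int.natAbs_dvd_natAbs.2 h1
    rw [Int.natAbs_natCast] at h3
    have h4 := Nat.le_of_dvd (Int.natAbs_pos.2 hN) h3
    omega
  have h5 : Nat.card {z : AdjoinRoot (cyclotomic n ℤ) →+* ZMod p // z D ≠ 0} =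
      Nat.card (AdjoinRoot (cyclotomic n ℤ) →+* ZMod p) :=
    Nat.card_congr (Equiv.subtypeUnivEquiv hall)
  rw [h5, cyc_card n hn p hpp hpn, pow_zero, div_one]
  split_ifs <;> simp

/-- compare `langWeil_iso` in `TowerT.lean` -/
theorem langWeilT_iso {R S : Type} [CommRing R] [CommRing S] (d : ℕ) (e : R ≃+* S)
    (hR : LangWeilT R d) : LangWeilT S d := by
  intro D hD
  have h1 : e.symm D ≠ 0 := (map_ne_zero_iff e.symm e.symm.injective).2 hD
  refine (hR (e.symm D) h1).congr' 0 fun p _ _ => ?_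
  congr 2
  refine Nat.card_congr ⟨fun z => ⟨z.1.comp e.toRingHom, ?_⟩,
    fun z => ⟨z.1.comp e.symm.toRingHom, ?_⟩, fun z => ?_, fun z => ?_⟩
  · show z.1 (e (e.symm D)) ≠ 0
    rw [RingEquiv.apply_symm_apply]
    exact z.2
  · exact z.2
  · refine Subtype.ext (RingHom.ext fun x => ?_)
    show z.1 (e (e.symm x)) = z.1 x
    rw [RingEquiv.apply_symm_apply]
  · refine Subtype.ext (RingHom.ext fun x => ?_)
    show z.1 (e.symm (e x)) = z.1 x
    rw [RingEquiv.symm_apply_apply]

/-- compare `langWeil_loc` in `TowerT.lean` -/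
theorem langWeilT_loc {R : Type} [CommRing R] [IsDomain R] (d : ℕ) (hR : LangWeilT R d) (s : R)
    (hs : s ≠ 0) : LangWeilT (Localization.Away s) d := by
  intro D hD
  obtain ⟨⟨r, t⟩, hrt⟩ := IsLocalization.surj (Submonoid.powers s) D
  obtain ⟨k, hk⟩ := t.2
  have hu : IsUnit (algebraMap R (Localization.Away s) s) :=
    IsLocalization.Away.algebraMap_isUnit s
  have hr : r ≠ 0 := by
    intro h
    rw [h, map_zero] at hrt
    have h2 : IsUnit (algebraMap R (Localization.Away s) (t : R)) := by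
      rw [← hk, map_pow]
      exact hu.pow k
    exact hD ((h2.mul_left_eq_zero).1 hrt)
  refine (hR (r * s) (mul_ne_zero hr hs)).congr' 0 fun p _ hp => ?_
  have : Fact p.Prime := ⟨hp⟩
  have hD' : ∀ z : Localization.Away s →+* ZMod p, z D ≠ 0 ↔
      z (algebraMap R (Localization.Away s) r) ≠ 0 := by
    intro z
    have h1 : z D * z (algebraMap R (Localization.Away s) (t : R)) =
        z (algebraMap R (Localization.Away s) r) := by
      rw [← map_mul, hrt]
    have h2 : z (algebraMap R (Localization.Away s) (t : R)) ≠ 0 := by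
      have h3 : IsUnit (algebraMap R (Localization.Away s) (t : R)) := by
        rw [← hk, map_pow]
        exact hu.pow k
      exact (h3.map z).ne_zero
    rw [← h1, mul_ne_zero_iff]
    exact ⟨fun h => ⟨h, h2⟩, fun h => h.1⟩
  have key : Nat.card {z : Localization.Away s →+* ZMod p // z D ≠ 0} =
      Nat.card {z : R →+* ZMod p // z (r * s) ≠ 0} := ?_
  · show ((Nat.card {z : Localization.Away s →+* ZMod p // z D ≠ 0} : ℕ) : ℝ) / (p : ℝ) ^ d =
      ((Nat.card {z : R →+* ZMod p // z (r * s) ≠ 0} : ℕ) : ℝ) / (p : ℝ) ^ d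
    rw [key]
  refine Nat.card_congr ⟨fun z => ⟨z.1.comp (algebraMap R (Localization.Away s)), ?_⟩,
    fun z => ⟨IsLocalization.Away.lift (S := Localization.Away s) s (g := z.1) ?_, ?_⟩,
    fun z => ?_, fun z => ?_⟩
  · show z.1 (algebraMap R (Localization.Away s) (r * s)) ≠ 0
    rw [map_mul, map_mul, mul_ne_zero_iff]
    exact ⟨(hD' z.1).1 z.2, (hu.map z.1).ne_zero⟩
  · have h1 := z.2
    rw [map_mul, mul_ne_zero_iff] at h1
    exact isUnit_iff_ne_zero.2 h1.2
  · have h1 := z.2
    rw [map_mul, mul_ne_zero_iff] at h1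
    rw [hD', IsLocalization.Away.lift_eq]
    exact h1.1
  · refine Subtype.ext (IsLocalization.ringHom_ext (Submonoid.powers s) ?_)
    exact IsLocalization.Away.lift_comp (S := Localization.Away s) s
      (g := z.1.comp (algebraMap R (Localization.Away s))) (hu.map z.1)
  · refine Subtype.ext ?_
    have h1 := z.2
    rw [map_mul, mul_ne_zero_iff] at h1
    exact IsLocalization.Away.lift_comp (S := Localization.Away s) s (g := z.1)
      (isUnit_iff_ne_zero.2 h1.2)

private theorem cyc4_fin {R S : Type} [CommRing R] [CommRing S] [Algebra R S]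
    (h1 : Algebra.FiniteType ℤ R) (h2 : Algebra.FiniteType R S) : Algebra.FiniteType ℤ S :=
  h1.trans h2

/-- compare `towerD_spec` in `Dbl.lean` -/
theorem towerC_spec (R : Type) [CommRing R] (d : ℕ) (h : TowerC R d) :
    IsDomain R ∧ CharZero R ∧ Algebra.FiniteType ℤ R ∧ LangWeilT R d := by
  induction h with
  | cyc n hn =>
    refine ⟨cyc_isDomain n hn, cyc_charZero n hn, ?_, cyc_langWeilT n hn⟩
    exact (inferInstance : Algebra.FiniteType ℤ ℤ[X]).of_surjective
      ((AdjoinRoot.mk (cyclotomic n ℤ)).toIntAlgHom) AdjoinRoot.mk_surjective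
  | @poly R _ d hR ih =>
    obtain ⟨h1, h2, h3, h4⟩ := ih
    refine ⟨inferInstance, inferInstance, ?_, langWeilT_poly R d h4⟩
    exact h3.trans (inferInstance : Algebra.FiniteType R R[X])
  | @dbl R _ d hR h hh ih =>
    obtain ⟨h1, h2, h3, h4⟩ := ih
    refine ⟨dbl_isDomain R h hh, dbl_charZero R h hh, ?_, langWeilT_dbl R d h4 h hh⟩
    have h5 : Algebra.FiniteType ℤ R[X] := h3.trans (inferInstance : Algebra.FiniteType R R[X])
    have h6 : Algebra.FiniteType R[X] (HypRing R h) := inferInstance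
    exact h5.trans h6
  | @loc R _ d hR s hs ih =>
    obtain ⟨h1, h2, h3, h4⟩ := ih
    have h5 : Submonoid.powers s ≤ nonZeroDivisors R :=
      powers_le_nonZeroDivisors_of_noZeroDivisors hs
    refine ⟨IsLocalization.isDomain_localization h5, ?_, ?_, langWeilT_loc d h4 s hs⟩
    · exact charZero_of_injective_algebraMap (R := R)
        (IsLocalization.injective (Localization.Away s) h5)
    · have h6 : Algebra.FiniteType R (Localization.Away s) :=
        IsLocalization.finiteType_of_monoid_fg (Submonoid.powers s) _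
      exact cyc4_fin h3 h6
  | @iso R S _ _ d hR e ih =>
    obtain ⟨h1, h2, h3, h4⟩ := ih
    have h5 : IsDomain S := MulEquiv.isDomain R e.symm.toMulEquiv
    refine ⟨h5, ?_, ?_, langWeilT_iso d e h4⟩
    · exact charZero_of_injective_ringHom (f := e.toRingHom) e.injective
    · exact h3.of_surjective (e.toRingHom.toIntAlgHom) e.surjective

end Pool.Agent.Lib.MP_1a0ddd_nt.Quad
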