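import Mathlib

/-! Ranks of finitely generated abelian groups. -/

set_option autoImplicit false

namespace Pool.Agent.Lib.MP_1a0ddd_nt.Quad

theorem two_smul_mem_of_index {G : Type} [AddCommGroup G] (S : AddSubgroup G)
    (h : S.index = 1 ∨ S.index = 2) (g : G) : (2 : ℤ) • g ∈ S := by
  rcases h with h | h
  · rw [AddSubgroup.index_eq_one] at h
    rw [h]
    exact AddSubgroup.mem_top _
  · rw [two_zsmul]
    exact AddSubgroup.add_self_mem_of_index_two h g

/-- a finitely generated subgroup of index one or two -/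
theorem finite_of_index {G : Type} [AddCommGroup G] (S : AddSubgroup G) (hS : S.FG)
    (h : S.index = 1 ∨ S.index = 2) : Module.Finite ℤ G := by
  have h0 : S.index ≠ 0 := by
    rcases h with h | h <;> rw [h] <;> norm_num
  have h1 : Module.Finite ℤ (AddSubgroup.toIntSubmodule S) := by
    rw [Module.Finite.iff_fg, Submodule.fg_iff_addSubgroup_fg]
    exact hS
  have h2 : Finite (G ⧸ S) := AddSubgroup.index_ne_zero_iff_finite.1 h0
  have h3 : Finite (G ⧸ AddSubgroup.toIntSubmodule S) := h2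
  have h4 : Module.Finite ℤ (G ⧸ AddSubgroup.toIntSubmodule S) := inferInstance
  exact Module.Finite.of_submodule_quotient (AddSubgroup.toIntSubmodule S)

private theorem finrank_range {G : Type} [AddCommGroup G] [Module.Finite ℤ G] {ι : Type}
    [Fintype ι] (Φ : (ι → ℤ) →+ G) (h4 : ∀ g : G, (4 : ℤ) • g ∈ Φ.range) :
    Module.finrank ℤ (LinearMap.range Φ.toIntLinearMap) = Module.finrank ℤ G := by
  have h1 := Submodule.finrank_quotient_add_finrank (LinearMap.range Φ.toIntLinearMap)
  have h2 : Module.IsTorsion ℤ (G ⧸ LinearMap.range Φ.toIntLinearMap) := by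
    intro x
    obtain ⟨g, rfl⟩ := Submodule.Quotient.mk_surjective _ x
    refine ⟨⟨4, mem_nonZeroDivisors_of_ne_zero (by norm_num)⟩, ?_⟩
    obtain ⟨m, hm⟩ := h4 g
    change (4 : ℤ) • (Submodule.Quotient.mk g : G ⧸ LinearMap.range Φ.toIntLinearMap) = 0
    rw [← Submodule.Quotient.mk_smul, Submodule.Quotient.mk_eq_zero]
    exact ⟨m, hm⟩
  have h3 : Module.finrank ℤ (G ⧸ LinearMap.range Φ.toIntLinearMap) = 0 :=
    Module.finrank_eq_zero_iff_isTorsion.2 h2
  omega

/-- the rank if `Φ` is injective -/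
theorem rank_inj {G : Type} [AddCommGroup G] [Module.Finite ℤ G] {ι : Type} [Fintype ι]
    (Φ : (ι → ℤ) →+ G) (h4 : ∀ g : G, (4 : ℤ) • g ∈ Φ.range) (hinj : Function.Injective Φ) :
    Module.finrank ℤ G = Fintype.card ι := by
  rw [← finrank_range Φ h4, LinearMap.finrank_range_of_inj hinj, Module.finrank_fintype_fun_eq_card]

/-- the rank if the kernel of `Φ` has rank one -/
theorem rank_ker {G : Type} [AddCommGroup G] [Module.Finite ℤ G] {ι : Type} [Fintype ι]
    (Φ : (ι → ℤ) →+ G) (h4 : ∀ g : G, (4 : ℤ) • g ∈ Φ.range) (e : ι → ℤ) (he : e ≠ 0)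
    (h2 : Φ ((2 : ℤ) • e) = 0) (hk : ∀ m : ι → ℤ, Φ m = 0 → ∃ j : ℤ, m = j • e) :
    Module.finrank ℤ G + 1 = Fintype.card ι := by
  have h1 := Submodule.finrank_quotient_add_finrank (LinearMap.ker Φ.toIntLinearMap)
  rw [(LinearMap.quotKerEquivRange Φ.toIntLinearMap).finrank_eq, finrank_range Φ h4,
    Module.finrank_fintype_fun_eq_card] at h1
  have h3 : LinearMap.ker Φ.toIntLinearMap ≤ Submodule.span ℤ {e} := by
    intro m hm
    obtain ⟨j, hj⟩ := hk m hm
    exact Submodule.mem_span_singleton.2 ⟨j, hj.symm⟩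
  have h5 : Module.finrank ℤ (LinearMap.ker Φ.toIntLinearMap) ≤ 1 := by
    refine (Submodule.finrank_mono h3).trans ?_
    refine (finrank_span_le_card {e}).trans ?_
    simp
  have h6 : 0 < Module.finrank ℤ (LinearMap.ker Φ.toIntLinearMap) := by
    have h7 : (2 : ℤ) • e ∈ LinearMap.ker Φ.toIntLinearMap := h2
    have h8 : Nontrivial (LinearMap.ker Φ.toIntLinearMap) := by
      refine ⟨⟨⟨(2 : ℤ) • e, h7⟩, 0, ?_⟩⟩
      intro h9
      have h10 : (2 : ℤ) • e = 0 := congrArg Subtype.val h9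
      exact he ((smul_eq_zero.1 h10).resolve_left (by norm_num))
    exact Module.finrank_pos
  omega

end Pool.Agent.Lib.MP_1a0ddd_nt.Quad
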