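import Mathlib

/-! Clearing denominators. -/

set_option autoImplicit false

namespace Pool.Agent.Lib.MP_1a0ddd_nt.Quad

open Polynomial

variable {R : Type} [CommRing R] [IsDomain R]

/-- a polynomial over the fraction field times a constant comes from `R` -/
theorem exists_clear (u : (FractionRing R)[X]) : ∃ s : R, s ≠ 0 ∧ ∃ A : R[X],
    A.map (algebraMap R (FractionRing R)) = C (algebraMap R (FractionRing R) s) * u := by
  obtain ⟨s, hs, h⟩ := IsLocalization.integerNormalization_spec (nonZeroDivisors R)
    (S := FractionRing R) u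
  refine ⟨s, nonZeroDivisors.ne_zero hs, _, h.trans ?_⟩
  rw [Algebra.smul_def]
  rfl

theorem bez (f g : R[X]) (h : IsCoprime (f.map (algebraMap R (FractionRing R)))
    (g.map (algebraMap R (FractionRing R)))) :
    ∃ r : R, r ≠ 0 ∧ ∃ A B : R[X], A * f + B * g = C r := by
  obtain ⟨u, v, huv⟩ := h
  obtain ⟨s, hs, A, hA⟩ := exists_clear u
  obtain ⟨t, ht, B, hB⟩ := exists_clear v
  refine ⟨s * t, mul_ne_zero hs ht, C t * A, C s * B, ?_⟩
  apply map_injective _ (IsFractionRing.injective R (FractionRing R))
  rw [Polynomial.map_add, Polynomial.map_mul, Polynomial.map_mul, Polynomial.map_mul,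
    Polynomial.map_mul, hA, hB, map_C, map_C, map_C, map_mul, C_mul]
  linear_combination (C (algebraMap R (FractionRing R) s) *
    C (algebraMap R (FractionRing R) t)) * huv

/-- the values at the common root -/
theorem bez_eval {f g : R[X]} {r : R} {A B : R[X]} (h : A * f + B * g = C r) {F : Type} [Field F]
    (z : R →+* F) (hz : z r ≠ 0) (s : F) (hs : (f.map z).eval s = 0) : (g.map z).eval s ≠ 0 := by
  intro h1
  have h2 := congrArg (fun q : R[X] => (q.map z).eval s) h
  simp only [Polynomial.map_add, Polynomial.map_mul, map_C, eval_add, eval_mul, eval_C, hs, h1,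
    mul_zero, add_zero] at h2
  exact hz h2.symm

end Pool.Agent.Lib.MP_1a0ddd_nt.Quad
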