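import Pool.Agent.Lib.MP_1a0ddd_nt.Quad.Count2

/-! Point counts of quadratic pencils, the discriminant need not split. -/

set_option autoImplicit false
set_option linter.unusedSectionVars false

namespace Pool.Agent.Lib.MP_1a0ddd_nt.Quad

open Polynomial Filter Topology

/-- the character at a root of the discriminant -/
private lemma sum_disc_zero {p : ℕ} [Fact p.Prime] (hp2 : p ≠ 2) {A B C' E : ZMod p}
    (hd : B ^ 2 - A * C' = 0) (hE : E ≠ 0) (hAC : E = A ∨ E = C') :
    ∑ t : ZMod p, quadraticChar (ZMod p) (A * t ^ 2 + 2 * B * t + C') =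
      - quadraticChar (ZMod p) A + p * quadraticChar (ZMod p) E := by
  by_cases hA : A = 0
  · subst hA
    have hB : B = 0 := by
      have : B ^ 2 = 0 := by linear_combination hd
      exact pow_eq_zero_iff two_ne_zero |>.mp this
    subst hB
    have hEC : E = C' := by
      rcases hAC with h | h
      · exact absurd h hE
      · exact h
    subst hEC
    simp
  · rw [sum_quad_zero hA hd]
    have : quadraticChar (ZMod p) A = quadraticChar (ZMod p) E := by
      rcases hAC with h | h
      · rw [h]
      · have h1 : A * E = B ^ 2 := by rw [h]; linear_combination -hd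
        have hB : B ≠ 0 := by
          rintro rfl
          have : A * E = 0 := by rw [h1]; ring
          exact (mul_ne_zero hA hE) this
        have h2 : quadraticChar (ZMod p) A * quadraticChar (ZMod p) E = 1 := by
          rw [← map_mul, h1]
          exact quadraticChar_sq_one' hB
        have h3 := quadraticChar_sq_one hE
        calc quadraticChar (ZMod p) A = quadraticChar (ZMod p) A *
              (quadraticChar (ZMod p) E ^ 2) := by rw [h3, mul_one]
          _ = (quadraticChar (ZMod p) A * quadraticChar (ZMod p) E) *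
              quadraticChar (ZMod p) E := by ring
          _ = _ := by rw [h2, one_mul]
    rw [this]
    ring

variable {R : Type} [CommRing R]

/-- number of the points of `w² = e_z(x)` over the roots of `π_z` minus the number of the roots -/
noncomputable def rootSum (π e : R[X]) (p : ℕ) (z : R →+* ZMod p) : ℤ :=
  (Nat.card {P : ZMod p × ZMod p // (π.map z).eval P.1 = 0 ∧ P.2 ^ 2 = (e.map z).eval P.1} : ℤ) -
    Nat.card {s : ZMod p // (π.map z).eval s = 0}

theorem rootSum_eq (π e : R[X]) (p : ℕ) [Fact p.Prime] (hp2 : p ≠ 2) (z : R →+* ZMod p)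
    [DecidablePred fun s : ZMod p => (π.map z).eval s = 0] :
    rootSum π e p z = ∑ s ∈ Finset.univ.filter (fun s : ZMod p => (π.map z).eval s = 0),
      quadraticChar (ZMod p) ((e.map z).eval s) := by
  classical
  have h1 : (Nat.card {P : ZMod p × ZMod p // (π.map z).eval P.1 = 0 ∧
      P.2 ^ 2 = (e.map z).eval P.1} : ℤ) =
      ∑ s : ZMod p, if (π.map z).eval s = 0 then
        ∑ y : ZMod p, (if y ^ 2 = (e.map z).eval s then (1 : ℤ) else 0) else 0 := by
    rw [card_pair2 (fun s y => (π.map z).eval s = 0 ∧ y ^ 2 = (e.map z).eval s)]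
    refine Finset.sum_congr rfl fun s _ => ?_
    by_cases h : (π.map z).eval s = 0
    · simp [h]
    · simp [h]
  have h2 : (Nat.card {s : ZMod p // (π.map z).eval s = 0} : ℤ) =
      ∑ s : ZMod p, if (π.map z).eval s = 0 then (1 : ℤ) else 0 := by
    rw [Nat.card_eq_fintype_card, Fintype.card_subtype, Finset.card_filter]
    push_cast
    rfl
  rw [rootSum, h1, h2, ← Finset.sum_sub_distrib, Finset.sum_filter]
  refine Finset.sum_congr rfl fun s _ => ?_
  by_cases h : (π.map z).eval s = 0
  · rw [if_pos h, if_pos h, if_pos h, sum_sqrts hp2]; ring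
  · rw [if_neg h, if_neg h, if_neg h]; ring

/-- exact formula for the sum of the traces over the line over `z` -/
theorem frob_sum4 (a b c : R[X]) (p : ℕ) (hp : p.Prime) (hp2 : p ≠ 2) (z : R →+* ZMod p) {m : ℕ}
    (π e : Fin m → R[X]) (k : Fin m → ℕ) (δ : R) (hD : b ^ 2 - a * c = C δ * ∏ i, π i ^ k i)
    (hk : ∀ i, k i ≠ 0) (he : ∀ i, e i = a ∨ e i = c) (hδ : z δ ≠ 0)
    (hdis : ∀ i j, i ≠ j → ∀ s : ZMod p, ((π i).map z).eval s = 0 → ((π j).map z).eval s ≠ 0)
    (hne : ∀ i, ∀ s : ZMod p, ((π i).map z).eval s = 0 → ((e i).map z).eval s ≠ 0) :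
    ∑ᶠ t : ZMod p, (frobTrace2 a b c p z t : ℝ) =
      (Nat.card {P : ZMod p × ZMod p // P.2 ^ 2 = (a.map z).eval P.1} : ℝ) - p -
        p * ∑ i, (rootSum (π i) (e i) p z : ℝ) := by
  classical
  have : Fact p.Prime := ⟨hp⟩
  set χ := quadraticChar (ZMod p) with hχ
  set A : ZMod p → ZMod p := fun x => (a.map z).eval x with hA
  set B : ZMod p → ZMod p := fun x => (b.map z).eval x with hB
  set C' : ZMod p → ZMod p := fun x => (c.map z).eval x with hC
  have hdisc : ∀ s : ZMod p, B s ^ 2 - A s * C' s = z δ * ∏ i, ((π i).map z).eval s ^ k i := by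
    intro s
    have h1 := congrArg (fun q : R[X] => (q.map z).eval s) hD
    simpa [Polynomial.map_sub, Polynomial.map_mul, Polynomial.map_pow, Polynomial.map_prod,
      eval_prod] using h1
  have hzero : ∀ s : ZMod p, B s ^ 2 - A s * C' s = 0 ↔ ∃ i, ((π i).map z).eval s = 0 := by
    intro s
    rw [hdisc, mul_eq_zero, or_iff_right hδ, Finset.prod_eq_zero_iff]
    constructor
    · rintro ⟨i, -, hi⟩
      exact ⟨i, (pow_eq_zero_iff (hk i)).mp hi⟩
    · rintro ⟨i, hi⟩
      exact ⟨i, Finset.mem_univ i, (pow_eq_zero_iff (hk i)).mpr hi⟩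
  have hsum : ∀ s : ZMod p, ∑ t : ZMod p, χ (A s * t ^ 2 + 2 * B s * t + C' s) =
      - χ (A s) + p * ∑ i, (if ((π i).map z).eval s = 0 then χ (((e i).map z).eval s) else 0) := by
    intro s
    by_cases h : B s ^ 2 - A s * C' s = 0
    · obtain ⟨i, hi⟩ := (hzero s).mp h
      rw [Finset.sum_eq_single i]
      · rw [if_pos hi]
        refine sum_disc_zero hp2 h (hne i s hi) ?_
        rcases he i with h1 | h1
        · left; rw [h1]
        · right; rw [h1]
      · intro j _ hj
        rw [if_neg]
        exact hdis i j (Ne.symm hj) s hi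
      · intro h1
        exact absurd (Finset.mem_univ _) h1
    · rw [sum_quad hp2 h]
      have h2 : ∀ i, ¬ ((π i).map z).eval s = 0 := fun i hi => h ((hzero s).mpr ⟨i, hi⟩)
      rw [Finset.sum_eq_zero fun i _ => if_neg (h2 i)]
      ring
  rw [finsum_eq_sum_of_fintype]
  have hZ : ∑ t : ZMod p, frobTrace2 a b c p z t =
      (Nat.card {P : ZMod p × ZMod p // P.2 ^ 2 = (a.map z).eval P.1} : ℤ) - p -
        p * ∑ i, rootSum (π i) (e i) p z := by
    have h1 : ∀ t : ZMod p, frobTrace2 a b c p z t =
        - ∑ s : ZMod p, χ (A s * t ^ 2 + 2 * B s * t + C' s) := by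
      intro t
      unfold frobTrace2
      rw [card_pair2 (fun s y => y ^ 2 =
        (a.map z).eval s * t ^ 2 + 2 * (b.map z).eval s * t + (c.map z).eval s)]
      rw [Finset.sum_congr rfl fun s _ => sum_sqrts hp2 _, Finset.sum_add_distrib,
        Finset.sum_const, Finset.card_univ, ZMod.card]
      simp only [nsmul_eq_mul, mul_one]
      ring
    rw [Finset.sum_congr rfl fun t _ => h1 t, Finset.sum_neg_distrib, Finset.sum_comm,
      Finset.sum_congr rfl fun s _ => hsum s, Finset.sum_add_distrib, Finset.sum_neg_distrib,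
      ← Finset.mul_sum, Finset.sum_comm (s := Finset.univ) (t := Finset.univ)
        (f := fun s i => if ((π i).map z).eval s = 0 then χ (((e i).map z).eval s) else 0)]
    rw [card_pair2 (fun s y => y ^ 2 = (a.map z).eval s),
      Finset.sum_congr rfl fun s _ => sum_sqrts hp2 _, Finset.sum_add_distrib,
        Finset.sum_const, Finset.card_univ, ZMod.card]
    have h3 : ∀ i, rootSum (π i) (e i) p z =
        ∑ s : ZMod p, if ((π i).map z).eval s = 0 then χ (((e i).map z).eval s) else 0 := by
      intro i
      rw [rootSum_eq _ _ _ hp2, Finset.sum_filter]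
    simp only [h3, nsmul_eq_mul, mul_one]
    ring
  exact_mod_cast hZ

end Pool.Agent.Lib.MP_1a0ddd_nt.Quad
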