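import Pool.Agent.Lib.MP_1a0ddd_nt.Quad.TDefs
import Pool.Agent.Lib.MP_629a14_nt.Rob.PiAP

/-! The prime number theorem for the residue class `1` modulo `n`. -/

set_option autoImplicit false

namespace Pool.Agent.Lib.MP_1a0ddd_nt.Quad

open Filter Topology

/-- Proof: `φ(n) 1_{m ≡ 1 (n)} = ∑ χ, χ(m)` (`DirichletCharacter.sum_char_inv_mul_char_eq`); the
nontrivial `χ` contribute `o(T)` by `psi_chi`, the trivial one by the prime number theorem (as in
`tauber` of `MP_1a0ddd_nt.Count`); prime powers contribute `O(√T log T)`. -/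
theorem pnt_ap_one (n : ℕ) (hn : 0 < n) :
    TauMean (fun p => if p % n = 1 % n then (n.totient : ℝ) else 0) 1 := by
  have h0 := Pool.Agent.Lib.MP_629a14_nt.Rob.PiAP.theta_ap n 1 hn
    (Pool.Agent.Lib.MP_629a14_nt.Rob.psi_ap n 1 hn (Nat.coprime_one_left n))
  have hφ : (n.totient : ℝ) ≠ 0 := by
    have := Nat.totient_pos.2 hn
    exact_mod_cast this.ne'
  have h1 := h0.const_mul (n.totient : ℝ)
  rw [mul_one_div_cancel hφ] at h1
  unfold TauMean
  refine h1.congr fun T => ?_
  rw [← mul_div_assoc, Finset.mul_sum]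
  congr 1
  have h2 : (Finset.Icc 1 T).filter (fun p => p.Prime ∧ p ≡ 1 [MOD n]) =
      ((Finset.Icc 1 T).filter Nat.Prime).filter (fun p => p % n = 1 % n) := by
    ext p
    simp only [Finset.mem_filter, and_assoc]
    rfl
  rw [h2, Finset.sum_filter]
  refine Finset.sum_congr rfl fun p _ => ?_
  beta_reduce
  by_cases hp : p % n = 1 % n
  · rw [if_pos hp, if_pos hp]
  · rw [if_neg hp, if_neg hp, zero_mul]

end Pool.Agent.Lib.MP_1a0ddd_nt.Quad
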