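import Pool.Agent.Lib.MP_1a0ddd_nt.Quad.Conic

/-! Quadratic pencils `y² = a(x) t² + 2 b(x) t + c(x)` over `L(t)`: definitions.

In `L[X][X]` the outer variable is `x` and the inner variable is `t`; `w.map C` is a polynomial
`w(x)`, `C q` is a polynomial `q(t)`. -/

set_option autoImplicit false

namespace Pool.Agent.Lib.MP_1a0ddd_nt.Quad

open Polynomial

variable {L : Type} [Field L]

/-- `L[t][x] → L(t)[x]` -/
noncomputable abbrev toK (L : Type) [Field L] : L[X][X] →+* (RatFunc L)[X] :=
  mapRingHom (algebraMap L[X] (RatFunc L))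

/-- the affine coordinate ring `L(t)[x, y]/(y² - a(x) t² - 2 b(x) t - c(x))` -/
abbrev CoordRing2 (a b c : L[X]) : Type := QR (toK L (quad a b c))

/-- `L[t][x] → L(x)[t]` -/
noncomputable abbrev toW (L : Type) [Field L] : L[X][X] →+* (RatFunc L)[X] :=
  (mapRingHom (algebraMap L[X] (RatFunc L))).comp
    (Bivariate.swap (R := L) : L[X][X] →+* L[X][X])

/-- the conic `y² = a t² + 2 b t + c` over `L(x)` -/
abbrev ConicRing (a b c : L[X]) : Type := QR (toW L (quad a b c))

/-- the surface -/
abbrev SurfRing (a b c : L[X]) : Type := QR (quad a b c)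

/-- weak standing hypotheses: the polynomial `quad a b c` is squarefree -/
structure Base2 (a b c : L[X]) : Prop where
  disc_ne : b ^ 2 - a * c ≠ 0
  sqf : ∀ π : L[X], Irreducible π → ¬ (π ^ 2 ∣ a ∧ π ^ 2 ∣ b ∧ π ^ 2 ∣ c)

/-- no member of the pencil over a closed point of the affine `t`-line is a square -/
def Mem2 (a b c : L[X]) : Prop :=
  ∀ q : L[X], Irreducible q → ∀ s : L[X][X], ¬ C q ∣ quad a b c - s ^ 2

/-- the polynomial `β t + γ` in `L[t][x]` -/
noncomputable def lin (β γ : L[X]) : L[X][X] := β.map C * C X + γ.map C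

theorem toK_injective : Function.Injective (toK L) :=
  map_injective _ (IsFractionRing.injective L[X] (RatFunc L))

theorem toW_injective : Function.Injective (toW L) :=
  (map_injective _ (IsFractionRing.injective L[X] (RatFunc L))).comp
    (Bivariate.swap (R := L)).injective

theorem toW_map_C (w : L[X]) : toW L (w.map C) = C (algebraMap L[X] (RatFunc L) w) := by
  simp only [RingHom.comp_apply, RingHom.coe_coe, Bivariate.swap_map_C, coe_mapRingHom, map_C]

theorem toW_C (q : L[X]) : toW L (C q) = q.map (RatFunc.C : L →+* RatFunc L) := by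
  simp only [RingHom.comp_apply, RingHom.coe_coe, Bivariate.swap_C, coe_mapRingHom, map_map]
  congr 1

theorem toW_quad (a b c : L[X]) : toW L (quad a b c) =
    C (algebraMap L[X] (RatFunc L) a) * X ^ 2 + C (2 * algebraMap L[X] (RatFunc L) b) * X +
      C (algebraMap L[X] (RatFunc L) c) := by
  have hX : toW L (C X) = X := by rw [toW_C, map_X]
  rw [quad, map_add, map_add, map_mul, map_mul, map_mul, map_pow, toW_map_C, toW_map_C, toW_map_C,
    hX, map_ofNat, C_mul, C_ofNat]

theorem Split.dvd_disc {a b c π β γ : L[X]} (h : Split a b c π β γ) : π ∣ b ^ 2 - a * c := by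
  obtain ⟨⟨x, hx⟩, ⟨y, hy⟩, ⟨z, hz⟩⟩ := h
  refine ⟨y * (b + β * γ) - x * c - β ^ 2 * z, ?_⟩
  linear_combination (b + β * γ) * hy - c * hx - β ^ 2 * hz

theorem Split.neg {a b c π β γ : L[X]} (h : Split a b c π β γ) :
    Split a b c π (-β) (-γ) := by
  obtain ⟨h1, h2, h3⟩ := h
  exact ⟨by rwa [neg_sq], by rwa [neg_mul_neg], by rwa [neg_sq]⟩

theorem Split.dvd_quad {a b c π β γ : L[X]} (h : Split a b c π β γ) :
    π.map C ∣ lin β γ ^ 2 - quad a b c := by
  obtain ⟨h1, h2, h3⟩ := h
  have e : lin β γ ^ 2 - quad a b c = (-1) * ((a - β ^ 2).map C * C X ^ 2 +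
      2 * (b - β * γ).map C * C X + (c - γ ^ 2).map C) := by
    simp only [lin, quad, Polynomial.map_sub, Polynomial.map_pow, Polynomial.map_mul]
    ring
  rw [e]
  refine Dvd.dvd.mul_left ?_ _
  have m : ∀ {u v : L[X]}, u ∣ v → u.map C ∣ v.map (C : L →+* L[X]) := fun h =>
    _root_.map_dvd (mapRingHom C) h
  exact dvd_add (dvd_add (Dvd.dvd.mul_right (m h1) _)
    (Dvd.dvd.mul_right (Dvd.dvd.mul_left (m h2) _) _)) (m h3)

theorem Split.not_dvd_lin {a b c π β γ : L[X]} (hc : ¬ (π ∣ a ∧ π ∣ b ∧ π ∣ c))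
    (h : Split a b c π β γ) : ¬ (π ∣ β ∧ π ∣ γ) := by
  rintro ⟨h1, h2⟩
  obtain ⟨ha, hb, hc'⟩ := h
  refine hc ⟨?_, ?_, ?_⟩
  · have := dvd_add ha (dvd_pow h1 two_ne_zero)
    simpa using this
  · have := dvd_add hb (Dvd.dvd.mul_right h1 γ)
    simpa using this
  · have := dvd_add hc' (dvd_pow h2 two_ne_zero)
    simpa using this

theorem toW_not_isSquare [CharZero L] {a b c : L[X]} (h : Base2 a b c) :
    ¬ IsSquare (toW L (quad a b c)) := by
  have hinj := IsFractionRing.injective L[X] (RatFunc L)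
  have h2 : (2 : RatFunc L) ≠ 0 := by
    have h1 : (2 : RatFunc L) = algebraMap L[X] (RatFunc L) 2 := by rw [map_ofNat]
    rw [h1, Ne, map_eq_zero_iff _ hinj]
    exact two_ne_zero
  by_cases ha : a = 0
  · rintro ⟨s, hs⟩
    have hb : algebraMap L[X] (RatFunc L) b ≠ 0 := by
      intro e
      apply h.disc_ne
      have hb0 : b = 0 := hinj (by rw [e, map_zero])
      rw [ha, hb0]
      ring
    have h3 : (toW L (quad a b c)).natDegree = 1 := by
      rw [toW_quad, ha, map_zero, C_0, zero_mul, zero_add]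
      exact natDegree_linear (mul_ne_zero h2 hb)
    have h4 : (s * s).natDegree = s.natDegree + s.natDegree := by
      by_cases h0 : s = 0
      · simp [h0]
      · exact natDegree_mul h0 h0
    rw [hs, h4] at h3
    omega
  · rw [toW_quad]
    have h1 := cq_not_isSquare (κ := RatFunc L) h2 (α := algebraMap L[X] (RatFunc L) a)
      (β := algebraMap L[X] (RatFunc L) b) (γ := algebraMap L[X] (RatFunc L) c) ?_ ?_
    · exact h1
    · rw [Ne, map_eq_zero_iff _ hinj]
      exact ha
    · rw [← map_pow, ← map_mul, ← map_sub, Ne, map_eq_zero_iff _ hinj]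
      exact h.disc_ne

/-- a square root in `L(t)[x]` lies in `L[t][x]` -/
theorem toK_not_isSquare [CharZero L] {a b c : L[X]} (h : Base2 a b c) :
    ¬ IsSquare (toK L (quad a b c)) := by
  rintro ⟨s, hs⟩
  obtain ⟨τ, hτ, e1⟩ := IsLocalization.integerNormalization_spec (nonZeroDivisors L[X]) s
  set S := IsLocalization.integerNormalization (nonZeroDivisors L[X]) s with hS
  have e1' : toK L S = toK L (C τ) * s := by
    have : toK L S = τ • s := e1
    rw [this, Algebra.smul_def]
    simp only [coe_mapRingHom, map_C]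
    rfl
  have e2 : S ^ 2 = C τ ^ 2 * quad a b c := by
    apply toK_injective
    rw [map_pow, map_mul, map_pow, hs, e1']
    ring
  have h3 : C τ ∣ S := (IsIntegrallyClosed.pow_dvd_pow_iff two_ne_zero).mp ⟨_, e2⟩
  obtain ⟨w, hw⟩ := h3
  have h4 : quad a b c = w * w := by
    have h5 : C τ ^ 2 * quad a b c = C τ ^ 2 * (w * w) := by
      rw [← e2, hw]; ring
    exact mul_left_cancel₀ (pow_ne_zero 2 (C_ne_zero.mpr (nonZeroDivisors.ne_zero hτ))) h5
  apply toW_not_isSquare h
  rw [h4, map_mul]
  exact ⟨_, rfl⟩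

/-- coefficientwise derivative, with respect to `t` -/
private noncomputable def dt (F : L[X][X]) : L[X][X] :=
  Bivariate.swap (R := L) (derivative (Bivariate.swap (R := L) F))

private theorem dt_mul (F G : L[X][X]) : dt (F * G) = dt F * G + F * dt G := by
  simp only [dt, map_mul, derivative_mul, map_add, Bivariate.swap_swap_apply]

private theorem dt_quad (a b c : L[X]) :
    dt (quad a b c) = 2 * (a.map C * C X + b.map C) := by
  have hs : Bivariate.swap (R := L) (quad a b c) = C a * X ^ 2 + 2 * C b * X + C c := by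
    rw [quad]
    simp only [map_add, map_mul, map_pow, map_ofNat, Bivariate.swap_map_C, Bivariate.swap_X]
  rw [dt, hs]
  have hd : derivative (C a * X ^ 2 + 2 * C b * X + C c) = 2 * (C a * X + C b) := by
    have e : (2 : L[X][X]) * C b = C (2 * b) := by rw [C_mul, C_ofNat]
    rw [e]
    simp only [derivative_add, derivative_C_mul, derivative_X_pow, derivative_C, C_mul, C_ofNat]
    norm_num
    simp only [C_ofNat]
    ring
  rw [hd]
  simp only [map_add, map_mul, map_ofNat, Bivariate.swap_C, Bivariate.swap_Y]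

theorem map_irreducible2 {π : L[X]} (hπ : Irreducible π) :
    Irreducible (π.map (RatFunc.C : L →+* RatFunc L)) := by
  have h1 : Irreducible (π.map (C : L →+* L[X])) := by
    rw [← MulEquiv.irreducible_iff (Bivariate.swap (R := L)), Bivariate.swap_map_C]
    exact (prime_C_iff.2 hπ.prime).irreducible
  have h2 : (π.map (C : L →+* L[X])).natDegree ≠ 0 := by
    rw [natDegree_map_eq_of_injective C_injective]
    exact hπ.natDegree_pos.ne'
  have h3 := ((h1.isPrimitive h2).irreducible_iff_irreducible_map_fraction_map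
    (K := RatFunc L)).1 h1
  rw [map_map] at h3
  have h4 : (algebraMap L[X] (RatFunc L)).comp (C : L →+* L[X]) = RatFunc.C := by
    ext a
    exact RatFunc.algebraMap_C a
  rwa [h4] at h3

private theorem dvd_quad_iff [CharZero L] {a b c π : L[X]} (h : π.map C ∣ quad a b c) :
    π ∣ a ∧ π ∣ b ∧ π ∣ c := by
  have hs : Bivariate.swap (R := L) (quad a b c) = C a * X ^ 2 + C (2 * b) * X + C c := by
    rw [quad, C_mul, C_ofNat]
    simp only [map_add, map_mul, map_pow, map_ofNat, Bivariate.swap_map_C, Bivariate.swap_X]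
  have h1 : C π ∣ C a * X ^ 2 + C (2 * b) * X + C c := by
    rw [← hs, ← Bivariate.swap_map_C]
    exact _root_.map_dvd (Bivariate.swap (R := L)) h
  rw [C_dvd_iff_dvd_coeff] at h1
  have h2 := h1 2
  have h3 := h1 1
  have h4 := h1 0
  simp only [coeff_add, coeff_C_mul, coeff_X_pow, coeff_X, coeff_C] at h2 h3 h4
  norm_num at h2 h3 h4
  refine ⟨h2, ?_, h4⟩
  have hu : IsUnit (2 : L[X]) := by
    have : (2 : L[X]) = C 2 := by rw [C_ofNat]
    rw [this]
    exact isUnit_C.mpr (IsUnit.mk0 _ two_ne_zero)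
  exact hu.dvd_mul_left.mp h3

/-- an irreducible factor over `L(t)` of a polynomial with coefficients in `L` -/
private theorem exists_factor {p : (RatFunc L)[X]} (hp : Irreducible p) {d : L[X]} (hd : d ≠ 0)
    (h : p ∣ d.map (RatFunc.C : L →+* RatFunc L)) :
    ∃ π : L[X], π.Monic ∧ Irreducible π ∧ π.map (RatFunc.C : L →+* RatFunc L) ∣ p := by
  classical
  have h1 : p ∣ ((UniqueFactorizationMonoid.normalizedFactors d).prod).map
      (RatFunc.C : L →+* RatFunc L) := by
    obtain ⟨u, hu⟩ := UniqueFactorizationMonoid.prod_normalizedFactors hd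
    rw [← hu, Polynomial.map_mul] at h
    have hu' : IsUnit ((u : L[X]).map (RatFunc.C : L →+* RatFunc L)) :=
      u.isUnit.map (mapRingHom (RatFunc.C : L →+* RatFunc L))
    exact hu'.dvd_mul_right.mp h
  have h2 : ((UniqueFactorizationMonoid.normalizedFactors d).prod).map
      (RatFunc.C : L →+* RatFunc L) = ((UniqueFactorizationMonoid.normalizedFactors d).map
        (mapRingHom (RatFunc.C : L →+* RatFunc L))).prod :=
    map_multiset_prod (mapRingHom (RatFunc.C : L →+* RatFunc L)) _
  rw [h2] at h1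
  obtain ⟨x, hx, hpx⟩ := hp.prime.exists_mem_multiset_dvd h1
  obtain ⟨π, hπ, rfl⟩ := Multiset.mem_map.mp hx
  have hirr := UniqueFactorizationMonoid.irreducible_of_normalized_factor π hπ
  have hmon : π.Monic := by
    rw [← normalize_eq_self_iff_monic hirr.ne_zero]
    exact UniqueFactorizationMonoid.normalize_normalized_factor π hπ
  exact ⟨π, hmon, hirr, ((hp.associated_of_dvd (map_irreducible2 hirr) hpx).symm).dvd⟩

theorem toK_squarefree [CharZero L] {a b c : L[X]} (h : Base2 a b c) :
    Squarefree (toK L (quad a b c)) := by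
  rw [squarefree_iff_no_irreducibles (by
    intro h0
    exact toK_not_isSquare h ⟨0, by rw [h0, mul_zero]⟩)]
  rintro p hpirr ⟨q, hq⟩
  obtain ⟨b1, hb1, e1⟩ := IsLocalization.integerNormalization_spec (nonZeroDivisors L[X]) p
  obtain ⟨b2, hb2, e2⟩ := IsLocalization.integerNormalization_spec (nonZeroDivisors L[X]) q
  set P := IsLocalization.integerNormalization (nonZeroDivisors L[X]) p with hP
  set Q := IsLocalization.integerNormalization (nonZeroDivisors L[X]) q with hQ
  have e1' : toK L P = toK L (C b1) * p := by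
    have : toK L P = b1 • p := e1
    rw [this, Algebra.smul_def]
    simp only [coe_mapRingHom, map_C]
    rfl
  have e2' : toK L Q = toK L (C b2) * q := by
    have : toK L Q = b2 • q := e2
    rw [this, Algebra.smul_def]
    simp only [coe_mapRingHom, map_C]
    rfl
  obtain ⟨e0, he0⟩ : ∃ e0 : L[X], e0 = b1 * b1 * b2 := ⟨_, rfl⟩
  have e3 : P * P * Q = C e0 * quad a b c := by
    apply toK_injective
    rw [he0, map_mul, map_mul, map_mul, hq, e1', e2', C_mul, C_mul, map_mul, map_mul]
    ring
  have e4 : dt (C e0) * quad a b c + C e0 * dt (quad a b c) =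
      P * (2 * dt P * Q + P * dt Q) := by
    rw [← dt_mul, ← e3, dt_mul, dt_mul]
    ring
  have hpP : p ∣ toK L P := ⟨toK L (C b1), by rw [e1', mul_comm]⟩
  have hpf : p ∣ toK L (quad a b c) := ⟨p * q, by rw [hq, mul_assoc]⟩
  have h5 : p ∣ toK L (C e0) * toK L (dt (quad a b c)) := by
    have e5 := congrArg (toK L) e4
    rw [map_add, map_mul, map_mul, map_mul] at e5
    have e6 : toK L (C e0) * toK L (dt (quad a b c)) =
        toK L P * toK L (2 * dt P * Q + P * dt Q) -
          toK L (dt (C e0)) * toK L (quad a b c) := by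
      rw [← e5]; ring
    rw [e6]
    exact dvd_sub (Dvd.dvd.mul_right hpP _) (Dvd.dvd.mul_left hpf _)
  have hbb : algebraMap L[X] (RatFunc L) e0 ≠ 0 := by
    have : e0 ≠ 0 := he0 ▸ mul_ne_zero (mul_ne_zero (nonZeroDivisors.ne_zero hb1)
      (nonZeroDivisors.ne_zero hb1)) (nonZeroDivisors.ne_zero hb2)
    intro e
    exact this ((IsFractionRing.injective L[X] (RatFunc L)) (by rw [e, map_zero]))
  have hu : IsUnit (toK L (C e0)) := by
    rw [coe_mapRingHom, map_C]
    exact isUnit_C.mpr (IsUnit.mk0 _ hbb)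
  have h6 : p ∣ toK L (dt (quad a b c)) := (hu.dvd_mul_left).mp h5
  have h7 : p * p ∣ (b ^ 2 - a * c).map (algebraMap L (RatFunc L)) := by
    have e7 : 4 * ((b ^ 2 - a * c).map C : L[X][X]) =
        dt (quad a b c) ^ 2 - 4 * a.map C * quad a b c := by
      rw [dt_quad, quad]
      simp only [Polynomial.map_sub, Polynomial.map_pow, Polynomial.map_mul]
      ring
    have e8 : toK L ((b ^ 2 - a * c).map C) = (b ^ 2 - a * c).map (algebraMap L (RatFunc L)) := by
      rw [coe_mapRingHom, map_map]
      congr 1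
    have e9 : (4 : (RatFunc L)[X]) * (b ^ 2 - a * c).map (algebraMap L (RatFunc L)) =
        toK L (dt (quad a b c)) ^ 2 - 4 * toK L (a.map C) * toK L (quad a b c) := by
      rw [← e8]
      have := congrArg (toK L) e7
      rw [map_mul, map_sub, map_pow, map_mul, map_mul, map_ofNat] at this
      exact this
    have h8 : p * p ∣ (4 : (RatFunc L)[X]) * (b ^ 2 - a * c).map (algebraMap L (RatFunc L)) := by
      rw [e9]
      refine dvd_sub ?_ (Dvd.dvd.mul_left ⟨q, hq⟩ _)
      rw [sq]
      exact mul_dvd_mul h6 h6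
    have hu4 : IsUnit (4 : (RatFunc L)[X]) := by
      have : (4 : (RatFunc L)[X]) = C 4 := by rw [C_ofNat]
      rw [this]
      have : CharZero (RatFunc L) := charZero_of_injective_algebraMap
        (algebraMap L (RatFunc L)).injective
      exact isUnit_C.mpr (IsUnit.mk0 _ (by norm_num))
    exact (hu4.dvd_mul_left).mp h8
  have hCalg : (algebraMap L (RatFunc L)) = RatFunc.C := by
    ext r
    simp
  obtain ⟨π, hmon, hirr, hπp⟩ := exists_factor hpirr h.disc_ne
    ((dvd_mul_right p p).trans (hCalg ▸ h7))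
  have h8 : toK L ((π ^ 2).map C) = (π.map (RatFunc.C : L →+* RatFunc L)) ^ 2 := by
    rw [coe_mapRingHom, map_map, Polynomial.map_pow]
    congr 1
  have h9 : toK L ((π ^ 2).map C) ∣ toK L (quad a b c) := by
    rw [h8, hq, sq]
    exact (mul_dvd_mul hπp hπp).trans (dvd_mul_right _ _)
  have h10 : (π ^ 2).map C ∣ quad a b c :=
    (Polynomial.map_dvd_map _ (IsFractionRing.injective L[X] (RatFunc L))
      ((hmon.pow 2).map C)).mp h9
  exact h.sqf π hirr (dvd_quad_iff h10)

theorem toW_squarefree [CharZero L] {a b c : L[X]} (h : Base2 a b c) :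
    Squarefree (toW L (quad a b c)) := by
  apply Separable.squarefree
  rw [toW_quad]
  set A := algebraMap L[X] (RatFunc L) a with hA
  set B := algebraMap L[X] (RatFunc L) b with hB
  set G := algebraMap L[X] (RatFunc L) c with hG
  have : CharZero (RatFunc L) := charZero_of_injective_algebraMap
    (algebraMap L (RatFunc L)).injective
  have hd : B ^ 2 - A * G ≠ 0 := by
    intro e
    apply h.disc_ne
    apply IsFractionRing.injective L[X] (RatFunc L)
    rw [map_sub, map_pow, map_mul, map_zero, ← hA, ← hB, ← hG, e]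
  have h4 : (4 : RatFunc L) * (B ^ 2 - A * G) ≠ 0 := mul_ne_zero (by norm_num) hd
  have hder : derivative (C A * X ^ 2 + C (2 * B) * X + C G) = C (2 * A) * X + C (2 * B) := by
    simp only [derivative_add, derivative_C_mul, derivative_X_pow, derivative_C, C_mul, C_ofNat]
    norm_num
    simp only [C_ofNat]
    ring
  rw [separable_def, hder]
  refine ⟨C (-(4 * A) / (4 * (B ^ 2 - A * G))),
    C (1 / (4 * (B ^ 2 - A * G))) * (C (2 * A) * X + C (2 * B)), ?_⟩
  have key : C (4 * (B ^ 2 - A * G)) * (C (-(4 * A) / (4 * (B ^ 2 - A * G))) *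
      (C A * X ^ 2 + C (2 * B) * X + C G) + C (1 / (4 * (B ^ 2 - A * G))) *
      (C (2 * A) * X + C (2 * B)) * (C (2 * A) * X + C (2 * B))) =
      C (4 * (B ^ 2 - A * G)) * 1 := by
    have k1 : C (4 * (B ^ 2 - A * G)) * C (-(4 * A) / (4 * (B ^ 2 - A * G))) = C (-(4 * A)) := by
      rw [← C_mul]; congr 1; field_simp
    have k2 : C (4 * (B ^ 2 - A * G)) * C (1 / (4 * (B ^ 2 - A * G))) = 1 := by
      rw [← C_mul, ← C_1]; congr 1; field_simp
    rw [mul_add, ← mul_assoc, k1, ← mul_assoc, ← mul_assoc, k2]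
    simp only [C_mul, C_sub, C_neg, C_pow, C_ofNat]
    ring
  exact mul_left_cancel₀ (C_ne_zero.mpr h4) key

end Pool.Agent.Lib.MP_1a0ddd_nt.Quad
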