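import Pool.Agent.Lib.MP_1a0ddd_nt.Quad.Count3
import Pool.Agent.Lib.MP_1a0ddd_nt.Quad.TDefs
import Pool.Agent.Lib.MP_1a0ddd_nt.Quad.Adj3
import Pool.Agent.Lib.MP_1a0ddd_nt.Quad.Bez3
import Pool.Agent.Lib.MP_1a0ddd_nt.Quad.Defs2
import Pool.Agent.Lib.MP_1a0ddd_nt.Gn.Cert
import Pool.Agent.Lib.MP_1a0ddd_nt.Gn.StepNS

/-! Split places; the curve at infinity. -/

set_option autoImplicit false

namespace Pool.Agent.Lib.MP_1a0ddd_nt.Quad

open Polynomial Filter Topology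

section

variable {R : Type} [CommRing R] [IsDomain R]

theorem toF_inj {f g : R[X]} (h : toF f = toF g) : f = g :=
  map_injective _ (IsFractionRing.injective R (FractionRing R)) h

theorem toF_dvd {f g : R[X]} (hf : f.Monic) : toF f ∣ toF g ↔ f ∣ g :=
  Polynomial.map_dvd_map _ (IsFractionRing.injective R (FractionRing R)) hf

/-- at a split place one of `a`, `c` is a nonzero square, up to denominators -/
theorem split_data {a b c π : R[X]} (hm : π.Monic)
    (h : toF π ∈ splitSet (toF a) (toF b) (toF c)) :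
    ∃ e : R[X], (e = a ∨ e = c) ∧ ¬ π ∣ e ∧ ∃ s : R, s ≠ 0 ∧ ∃ B : R[X],
      π ∣ C s ^ 2 * e - B ^ 2 := by
  obtain ⟨-, hirr, hcc, β, γ, hsp⟩ := h
  have hcl : ∀ (e : R[X]) (β : (FractionRing R)[X]), toF π ∣ toF e - β ^ 2 →
      ∃ s : R, s ≠ 0 ∧ ∃ B : R[X], π ∣ C s ^ 2 * e - B ^ 2 := by
    intro e β hβ
    obtain ⟨s, hs, B, hB⟩ := exists_clear β
    refine ⟨s, hs, B, ?_⟩
    rw [← toF_dvd hm]
    have e1 : toF (C s ^ 2 * e - B ^ 2) = C (algebraMap R (FractionRing R) s) ^ 2 *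
        (toF e - β ^ 2) := by
      rw [toF, Polynomial.map_sub, Polynomial.map_mul, Polynomial.map_pow, Polynomial.map_pow,
        map_C, hB]
      ring
    rw [e1]
    exact Dvd.dvd.mul_left hβ _
  have hnd := hsp.not_dvd_lin hcc
  obtain ⟨h1, h2, h3⟩ := hsp
  by_cases hβ : toF π ∣ β
  · have hγ : ¬ toF π ∣ γ := fun h => hnd ⟨hβ, h⟩
    refine ⟨c, Or.inr rfl, ?_, hcl c γ h3⟩
    rw [← toF_dvd hm]
    intro h4
    have h5 : toF π ∣ γ ^ 2 := by
      have := dvd_sub h4 h3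
      simpa using this
    exact hγ (hirr.prime.dvd_of_dvd_pow h5)
  · refine ⟨a, Or.inl rfl, ?_, hcl a β h1⟩
    rw [← toF_dvd hm]
    intro h4
    have h5 : toF π ∣ β ^ 2 := by
      have := dvd_sub h4 h1
      simpa using this
    exact hβ (hirr.prime.dvd_of_dvd_pow h5)

theorem of_ne_zero {π : R[X]} (hm : π.Monic) (hirr : Irreducible (toF π)) {D : R} (hD : D ≠ 0) :
    AdjoinRoot.of π D ≠ 0 := by
  intro h
  have h1 : AdjoinRoot.mk π (C D) = 0 := by rw [AdjoinRoot.mk_C]; exact h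
  rw [AdjoinRoot.mk_eq_zero] at h1
  have h2 := (toF_dvd hm).mpr h1
  have h3 : IsUnit (toF (C D) : (FractionRing R)[X]) := by
    rw [toF, map_C]
    apply isUnit_C.mpr
    apply IsUnit.mk0
    rw [Ne, IsFractionRing.to_map_eq_zero_iff]
    exact hD
  exact hirr.not_isUnit (isUnit_of_dvd_unit h2 h3)

end

/-- the curve at infinity `y² = a(x)` -/
theorem curve_cert (R : Type) [CommRing R] [IsDomain R] [CharZero R] (a : R[X])
    (h : a = 0 ∨ ∀ (u : FractionRing R) (s : (FractionRing R)[X]), toF a ≠ C u * s ^ 2) :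
    ∃ E : R, E ≠ 0 ∧ ∀ ε : ℝ, 0 < ε → ∃ p₀ : ℕ, ∀ p : ℕ, p₀ ≤ p → p.Prime →
      ∀ z : R →+* ZMod p, z E ≠ 0 →
      |(Nat.card {P : ZMod p × ZMod p // P.2 ^ 2 = (a.map z).eval P.1} : ℝ) - p| ≤ ε * p := by
  rcases h with rfl | h
  · refine ⟨1, one_ne_zero, fun ε hε => ⟨0, fun p _ hp z _ => ?_⟩⟩
    have : Fact p.Prime := ⟨hp⟩
    have h1 : Nat.card {P : ZMod p × ZMod p // P.2 ^ 2 = ((0 : R[X]).map z).eval P.1} = p := by
      have e : {P : ZMod p × ZMod p // P.2 ^ 2 = ((0 : R[X]).map z).eval P.1} ≃ ZMod p :=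
        { toFun := fun P => P.1.1
          invFun := fun x => ⟨(x, 0), by simp⟩
          left_inv := by
            rintro ⟨⟨x, y⟩, hy⟩
            have hy0 : y = 0 := by simpa using hy
            subst hy0
            rfl
          right_inv := fun x => rfl }
      rw [Nat.card_congr e, Nat.card_zmod]
    rw [h1, sub_self, abs_zero]
    positivity
  · obtain ⟨E, hE, hcert⟩ := Gn.cert R a h
    refine ⟨E, hE, fun ε hε => ?_⟩
    obtain ⟨p₀, hp₀⟩ := Gn.card_curve_ns a.natDegree ε hε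
    exact ⟨p₀, fun p hpp hp z hz => hp₀ p hpp hp (a.map z) natDegree_map_le
      fun u s => by
        have : Fact p.Prime := ⟨hp⟩
        exact hcert (ZMod p) z hz u s⟩

end Pool.Agent.Lib.MP_1a0ddd_nt.Quad
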