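import Pool.Agent.Lib.MP_1a0ddd_nt.Quad.Units3
import Pool.Agent.Lib.MP_1a0ddd_nt.Quad.Lim3
import Pool.Agent.Lib.MP_1a0ddd_nt.Quad.Open3
import Pool.Agent.Lib.MP_1a0ddd_nt.Quad.TowerT

/-! The member conditions. -/

set_option autoImplicit false

namespace Pool.Agent.Lib.MP_1a0ddd_nt.Quad

open Polynomial Filter Topology

theorem quad_map {R S : Type} [CommRing R] [CommRing S] (φ : R →+* S) (a b c : R[X]) :
    quad (a.map φ) (b.map φ) (c.map φ) = (quad a b c).map (mapRingHom φ) := by
  simp only [quad, Polynomial.map_add, Polynomial.map_mul, Polynomial.map_pow, Polynomial.map_map,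
    Polynomial.map_ofNat, map_C, coe_mapRingHom, map_X]
  have e : (mapRingHom φ).comp (C : R →+* R[X]) = (C : S →+* S[X]).comp φ := by
    ext r; simp
  rw [e]

private theorem low_degree {R : Type} [CommRing R] {a b : R[X]} {N : ℕ}
    (ha : a.natDegree < N) (hb : b.natDegree < N) :
    (a.map C * C X ^ 2 + 2 * b.map C * C X : R[X][X]).natDegree < N := by
  refine lt_of_le_of_lt (natDegree_add_le _ _) (max_lt ?_ ?_)
  · refine lt_of_le_of_lt ?_ ha
    have e : (a.map C * C X ^ 2 : R[X][X]) = a.map C * C (X ^ 2) := by rw [C_pow]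
    rw [e]
    exact (natDegree_mul_C_le _ _).trans natDegree_map_le
  · refine lt_of_le_of_lt ?_ hb
    have e : (2 * b.map C * C X : R[X][X]) = b.map C * C (2 * X) := by
      rw [C_mul, C_ofNat]; ring
    rw [e]
    exact (natDegree_mul_C_le _ _).trans natDegree_map_le

theorem quad_monic {R : Type} [CommRing R] [Nontrivial R] {a b c : R[X]} (hc : c.Monic)
    (ha : a.natDegree < c.natDegree) (hb : b.natDegree < c.natDegree) :
    (quad a b c).Monic ∧ (quad a b c).natDegree = c.natDegree := by
  have h1 : (c.map C : R[X][X]).Monic := hc.map C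
  have h2 : (c.map C : R[X][X]).natDegree = c.natDegree := hc.natDegree_map C
  have h3 := low_degree ha hb
  have h4 : (a.map C * C X ^ 2 + 2 * b.map C * C X : R[X][X]).degree <
      (c.map C : R[X][X]).degree := by
    apply degree_lt_degree
    rw [h2]
    exact h3
  refine ⟨h1.add_of_right h4, ?_⟩
  rw [quad, natDegree_add_eq_right_of_degree_lt h4, h2]

/-- if the top coefficient in `x` is constant then no member of the pencil is a square -/
theorem noSquareMember_of_monic {R : Type} [CommRing R] [Nontrivial R] (a b c : R[X])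
    (h : MonicOdd a b c) : NoSquareMember a b c := by
  obtain ⟨hc, ho, ha, hb⟩ := h
  intro L _ y _ s hs
  obtain ⟨hm, hd⟩ := quad_monic hc ha hb
  have h3 : ((quad a b c).map y).natDegree = c.natDegree := by
    rw [hm.natDegree_map, hd]
  rw [hs, natDegree_pow] at h3
  rw [← h3] at ho
  exact (Nat.not_odd_iff_even.mpr (even_two_mul _)) ho

/-- closed points of the `t`-line -/
theorem mem_of_noSquareMember {R : Type} [CommRing R] {a b c : R[X]} (h : NoSquareMember a b c)
    (L : Type) [Field L] (φ : R →+* L) (hφ : Function.Injective φ) (q : L[X])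
    (hq : Irreducible q) (s : L[X][X]) :
    ¬ C q ∣ quad (a.map φ) (b.map φ) (c.map φ) - s ^ 2 := by
  rintro ⟨k, hk⟩
  have hfact : Fact (Irreducible q) := ⟨hq⟩
  have h2 := congrArg (Polynomial.map (AdjoinRoot.mk q)) hk
  rw [Polynomial.map_sub, Polynomial.map_mul, map_C, AdjoinRoot.mk_self, C_0, zero_mul,
    Polynomial.map_pow, quad_map, Polynomial.map_map] at h2
  refine h (AdjoinRoot q) ((AdjoinRoot.mk q).comp (mapRingHom φ)) ?_
    (s.map (AdjoinRoot.mk q)) (sub_eq_zero.mp h2)
  have h3 : ((AdjoinRoot.mk q).comp (mapRingHom φ)).comp C = (AdjoinRoot.of q).comp φ := by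
    ext r
    simp
  rw [h3, RingHom.coe_comp]
  exact (AdjoinRoot.of q).injective.comp hφ

end Pool.Agent.Lib.MP_1a0ddd_nt.Quad
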