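import Pool.Agent.Lib.MP_1a0ddd_nt.Quad.QBase
import Pool.Agent.Lib.MP_1a0ddd_nt.Quad.Lim3

/-! The curve at infinity `y² = a(x)` of a quadratic pencil. -/

set_option autoImplicit false

namespace Pool.Agent.Lib.MP_1a0ddd_nt.Quad

open Polynomial Filter Topology

/-- the average of the number of points of `y² = a(x)` minus `p` over the points of `{D ≠ 0}` -/
noncomputable def infAvg {R : Type} [CommRing R] (a : R[X]) (D : R) (d p : ℕ) : ℝ :=
  (∑ᶠ z : {z : R →+* ZMod p // z D ≠ 0},
    ((Nat.card {P : ZMod p × ZMod p // P.2 ^ 2 = (a.map z.1).eval P.1} : ℝ) - p)) /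
    (p : ℝ) ^ (d + 1)

private theorem ic_card {p : ℕ} [Fact p.Prime] (hp2 : p ≠ 2) (f : (ZMod p)[X]) :
    (Nat.card {P : ZMod p × ZMod p // P.2 ^ 2 = f.eval P.1} : ℤ) =
      ∑ x : ZMod p, (1 + quadraticChar (ZMod p) (f.eval x)) := by
  classical
  rw [card_pair2 fun x y : ZMod p => y ^ 2 = f.eval x]
  exact Finset.sum_congr rfl fun x _ => sum_sqrts hp2 _

private theorem ic_abs {p : ℕ} [Fact p.Prime] (v : ZMod p) :
    |((quadraticChar (ZMod p) v : ℤ) : ℝ)| ≤ 1 := by
  by_cases h : v = 0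
  · rw [h]; simp
  · rcases quadraticChar_dichotomy h with h | h <;> rw [h] <;> simp

/-- the number of the points of `y² = a(x)` when `r² a = u B²` -/
private theorem ic_count {p : ℕ} [Fact p.Prime] (hp2 : p ≠ 2) (a B : (ZMod p)[X]) (r u : ZMod p)
    (hr : r ≠ 0) (hB : B ≠ 0) (h : C r ^ 2 * a = C u * B ^ 2) :
    |(Nat.card {P : ZMod p × ZMod p // P.2 ^ 2 = a.eval P.1} : ℝ) - p -
      (quadraticChar (ZMod p) u : ℤ) * p| ≤ B.natDegree := by
  classical
  have h1 : ∀ x : ZMod p, quadraticChar (ZMod p) (a.eval x) =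
      quadraticChar (ZMod p) u * (if B.eval x = 0 then 0 else 1) := by
    intro x
    have h2 : r ^ 2 * a.eval x = u * B.eval x ^ 2 := by
      have := congrArg (fun q : (ZMod p)[X] => q.eval x) h
      simpa using this
    by_cases hx : B.eval x = 0
    · have h3 : a.eval x = 0 := by
        rw [hx] at h2
        have h4 : r ^ 2 * a.eval x = 0 := by rw [h2]; ring
        exact (mul_eq_zero.1 h4).resolve_left (pow_ne_zero 2 hr)
      rw [h3, if_pos hx, mul_zero]
      simp
    · rw [if_neg hx, mul_one]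
      have h3 : a.eval x = u * (B.eval x / r) ^ 2 := by
        rw [div_pow]
        field_simp
        linear_combination h2
      rw [h3, map_mul, quadraticChar_sq_one' (div_ne_zero hx hr), mul_one]
  have h2 : (Nat.card {P : ZMod p × ZMod p // P.2 ^ 2 = a.eval P.1} : ℤ) - p -
      quadraticChar (ZMod p) u * p =
      - (quadraticChar (ZMod p) u * (Finset.univ.filter fun x : ZMod p => B.eval x = 0).card) := by
    rw [ic_card hp2, Finset.sum_add_distrib, Finset.sum_const, Finset.card_univ, ZMod.card,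
      nsmul_eq_mul, mul_one]
    simp only [h1]
    rw [← Finset.mul_sum]
    have h3 : ∑ x : ZMod p, (if B.eval x = 0 then (0 : ℤ) else 1) =
        p - (Finset.univ.filter fun x : ZMod p => B.eval x = 0).card := by
      have h4 : ∀ x : ZMod p, (if B.eval x = 0 then (0 : ℤ) else 1) =
          1 - if B.eval x = 0 then 1 else 0 := by
        intro x
        split_ifs <;> simp
      simp only [h4]
      rw [Finset.sum_sub_distrib, Finset.sum_const, Finset.card_univ, ZMod.card, nsmul_eq_mul,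
        mul_one, Finset.card_filter]
      push_cast
      rfl
    rw [h3]
    ring
  have h3 : (Nat.card {P : ZMod p × ZMod p // P.2 ^ 2 = a.eval P.1} : ℝ) - p -
      (quadraticChar (ZMod p) u : ℤ) * p =
      - (((quadraticChar (ZMod p) u : ℤ) : ℝ) *
        (Finset.univ.filter fun x : ZMod p => B.eval x = 0).card) := by
    exact_mod_cast h2
  have h4 : (Finset.univ.filter fun x : ZMod p => B.eval x = 0).card ≤ B.natDegree := by
    refine le_trans (Finset.card_le_card ?_) (B.roots.toFinset_card_le.trans B.card_roots')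
    intro t ht
    rw [Multiset.mem_toFinset, mem_roots hB]
    exact (Finset.mem_filter.1 ht).2
  rw [h3, abs_neg, abs_mul, Nat.abs_cast]
  calc _ ≤ 1 * ((Finset.univ.filter fun x : ZMod p => B.eval x = 0).card : ℝ) :=
        mul_le_mul_of_nonneg_right (ic_abs u) (Nat.cast_nonneg _)
    _ ≤ _ := by
        rw [one_mul]
        exact_mod_cast h4

/-- the estimate of an average -/
private theorem ia_final {R : Type} [CommRing R] (D : R) (d p : ℕ) (ε : ℝ) (Q : ℕ → ℝ)
    [Fintype {z : R →+* ZMod p // z D ≠ 0}]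
    (hQ : Q p = (Nat.card {z : R →+* ZMod p // z D ≠ 0} : ℝ) / (p : ℝ) ^ d)
    (g : {z : R →+* ZMod p // z D ≠ 0} → ℝ) (A : ℝ)
    (hA : A = (∑ z, g z) / (p : ℝ) ^ (d + 1)) (hp : 0 < p) (hg : ∀ z, |g z| ≤ ε * p) :
    |A| ≤ ε * Q p := by
  have hp0 : (0 : ℝ) < p := by exact_mod_cast hp
  have e2 : ε * Q p = (∑ _z : {z : R →+* ZMod p // z D ≠ 0}, ε * p) / (p : ℝ) ^ (d + 1) := by
    rw [Finset.sum_const, Finset.card_univ, hQ, nsmul_eq_mul, pow_succ, Nat.card_eq_fintype_card]
    field_simp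
  rw [hA, e2, abs_div, abs_of_pos (pow_pos hp0 (d + 1))]
  refine div_le_div_of_nonneg_right ?_ (pow_pos hp0 (d + 1)).le
  exact (Finset.abs_sum_le_sum_abs _ _).trans (Finset.sum_le_sum fun z _ => hg z)

theorem curve_bound {R : Type} [CommRing R] (a : R[X]) (p : ℕ) (hp : p.Prime) (hp2 : p ≠ 2)
    (z : R →+* ZMod p) :
    |(Nat.card {P : ZMod p × ZMod p // P.2 ^ 2 = (a.map z).eval P.1} : ℝ) - p| ≤ p := by
  have : Fact p.Prime := ⟨hp⟩
  have h1 := ic_card hp2 (a.map z)
  have h2 : (Nat.card {P : ZMod p × ZMod p // P.2 ^ 2 = (a.map z).eval P.1} : ℤ) - p =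
      ∑ x : ZMod p, quadraticChar (ZMod p) ((a.map z).eval x) := by
    rw [h1, Finset.sum_add_distrib, Finset.sum_const, Finset.card_univ, ZMod.card, nsmul_eq_mul,
      mul_one]
    ring
  have h3 : (Nat.card {P : ZMod p × ZMod p // P.2 ^ 2 = (a.map z).eval P.1} : ℝ) - p =
      ∑ x : ZMod p, ((quadraticChar (ZMod p) ((a.map z).eval x) : ℤ) : ℝ) := by
    exact_mod_cast h2
  rw [h3]
  calc _ ≤ ∑ x : ZMod p, |((quadraticChar (ZMod p) ((a.map z).eval x) : ℤ) : ℝ)| :=
        Finset.abs_sum_le_sum_abs _ _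
    _ ≤ ∑ _x : ZMod p, (1 : ℝ) := Finset.sum_le_sum fun x _ => ic_abs _
    _ = p := by
        rw [Finset.sum_const, Finset.card_univ, ZMod.card, nsmul_eq_mul, mul_one]

/-- `a` is zero or not a constant times a square. Proof: `curve_cert`, `TauMean.squeeze`. -/
theorem inf_zero (R : Type) [CommRing R] [IsDomain R] [CharZero R] [Algebra.FiniteType ℤ R] (d : ℕ)
    (hR : LangWeilT R d) (a : R[X]) (h : a = 0 ∨ NotConstSquare a) :
    ∃ N : R, N ≠ 0 ∧ ∀ D : R, D ≠ 0 → N ∣ D → TauMean (fun p => infAvg a D d p) 0 := by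
  classical
  obtain ⟨E, hE, hcurve⟩ := curve_cert R a h
  refine ⟨E, hE, fun D hD0 hdvd => ?_⟩
  set Q : ℕ → ℝ := fun p => (Nat.card {z : R →+* ZMod p // z D ≠ 0} : ℝ) / (p : ℝ) ^ d with hQdef
  have hQ : TauMean Q 1 := hR D hD0
  refine hQ.squeeze fun ε hε => ?_
  obtain ⟨p₀, hp₀⟩ := hcurve ε hε
  refine ⟨p₀, fun p h2 hp => ?_⟩
  have : Fact p.Prime := ⟨hp⟩
  have : Finite (R →+* ZMod p) := finite_hom R p
  have := Fintype.ofFinite {z : R →+* ZMod p // z D ≠ 0}
  have hSz : ∀ z : {z : R →+* ZMod p // z D ≠ 0},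
      |(Nat.card {P : ZMod p × ZMod p // P.2 ^ 2 = (a.map z.1).eval P.1} : ℝ) - p| ≤ ε * p := by
    rintro ⟨z, hz⟩
    refine hp₀ p h2 hp z ?_
    obtain ⟨k, hk⟩ := hdvd
    rw [hk, map_mul] at hz
    exact left_ne_zero_of_mul hz
  exact ia_final D d p ε Q (by simp only [hQdef]) (fun z => (Nat.card {P : ZMod p × ZMod p //
    P.2 ^ 2 = (a.map z.1).eval P.1} : ℝ) - p) (infAvg a D d p) (by
      rw [infAvg, finsum_eq_sum_of_fintype]) hp.pos hSz

/-- `a` is a nonzero square. Proof: `C r ^ 2 * a = B ^ 2` with `r ≠ 0` in `R`, `B` in `R[x]`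
(`exists_clear`); take `N = r * B.leadingCoeff`; for `z N ≠ 0` the number of the points is
`2 p - #{x : B(x) = 0}`, so the summand differs from `p` by at most `deg B`. -/
theorem inf_square (R : Type) [CommRing R] [IsDomain R] [CharZero R] [Algebra.FiniteType ℤ R]
    (d : ℕ) (hR : LangWeilT R d) (a : R[X]) (ha : a ≠ 0) (h : IsSquare (toF a)) :
    ∃ N : R, N ≠ 0 ∧ ∀ D : R, D ≠ 0 → N ∣ D → TauMean (fun p => infAvg a D d p) 1 := by
  classical
  obtain ⟨s, hs⟩ := h
  obtain ⟨r, hr, B, hB⟩ := exists_clear s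
  have hB0 : B ≠ 0 := by
    intro h0
    rw [h0, Polynomial.map_zero] at hB
    have h1 : s = 0 := by
      have h2 : (C (algebraMap R (FractionRing R) r) : (FractionRing R)[X]) ≠ 0 := by
        rw [Ne, C_eq_zero, IsFractionRing.to_map_eq_zero_iff]
        exact hr
      exact (mul_eq_zero.1 hB.symm).resolve_left h2
    apply ha
    apply toF_inj
    rw [hs, h1]
    simp
  have hrel : C r ^ 2 * a = C 1 * B ^ 2 := by
    apply toF_inj
    rw [toF, toF, Polynomial.map_mul, Polynomial.map_mul, Polynomial.map_pow, Polynomial.map_pow,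
      map_C, map_C, hB]
    have h1 : a.map (algebraMap R (FractionRing R)) = s * s := hs
    rw [h1, map_one, C_1]
    ring
  have hlc : B.leadingCoeff ≠ 0 := leadingCoeff_ne_zero.2 hB0
  refine ⟨r * B.leadingCoeff, mul_ne_zero hr hlc, fun D hD0 hdvd => ?_⟩
  have hgood : ∀ p : ℕ, p.Prime → ∀ z : R →+* ZMod p, z D ≠ 0 →
      z r ≠ 0 ∧ z B.leadingCoeff ≠ 0 := by
    intro p hp z hz
    obtain ⟨k, hk⟩ := hdvd
    rw [hk, map_mul, map_mul] at hz
    exact ⟨left_ne_zero_of_mul (left_ne_zero_of_mul hz),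
      right_ne_zero_of_mul (left_ne_zero_of_mul hz)⟩
  set Q : ℕ → ℝ := fun p => (Nat.card {z : R →+* ZMod p // z D ≠ 0} : ℝ) / (p : ℝ) ^ d with hQdef
  have hQ : TauMean Q 1 := hR D hD0
  have key : TauMean (fun p => infAvg a D d p - Q p) 0 := by
    refine hQ.squeeze fun ε hε => ?_
    obtain ⟨p₀, hp₀⟩ := exists_nat_gt ((B.natDegree : ℝ) / ε)
    refine ⟨max p₀ 3, fun p h2 hp => ?_⟩
    have : Fact p.Prime := ⟨hp⟩
    have : Finite (R →+* ZMod p) := finite_hom R p
    have := Fintype.ofFinite {z : R →+* ZMod p // z D ≠ 0}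
    have hp0 : (0 : ℝ) < p := by exact_mod_cast hp.pos
    have hp3 : 3 ≤ p := le_trans (le_max_right _ _) h2
    have hdeg : (B.natDegree : ℝ) ≤ ε * p := by
      have h3 : (p₀ : ℝ) ≤ p := by exact_mod_cast le_trans (le_max_left _ _) h2
      have h4 := (div_lt_iff₀ hε).1 hp₀
      have h5 := mul_le_mul_of_nonneg_right h3 hε.le
      linarith
    have hSz : ∀ z : {z : R →+* ZMod p // z D ≠ 0},
        |((Nat.card {P : ZMod p × ZMod p // P.2 ^ 2 = (a.map z.1).eval P.1} : ℝ) - p) - p| ≤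
          ε * p := by
      rintro ⟨z, hz⟩
      obtain ⟨g1, g2⟩ := hgood p hp z hz
      have h5 : B.map z ≠ 0 := by
        intro h6
        apply g2
        have := congrArg (fun q : (ZMod p)[X] => q.coeff B.natDegree) h6
        simpa [coeff_map] using this
      have h6 := ic_count (by omega) (a.map z) (B.map z) (z r) 1 g1 h5 (by
        have := congrArg (fun q : R[X] => q.map z) hrel
        simpa only [Polynomial.map_mul, Polynomial.map_pow, map_C, map_one, Polynomial.map_one]
          using this)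
      rw [map_one, Int.cast_one, one_mul] at h6
      refine h6.trans (le_trans ?_ hdeg)
      exact_mod_cast natDegree_map_le
    refine ia_final D d p ε Q (by simp only [hQdef]) (fun z => ((Nat.card {P : ZMod p × ZMod p //
      P.2 ^ 2 = (a.map z.1).eval P.1} : ℝ) - p) - p) (infAvg a D d p - Q p) ?_ hp.pos hSz
    rw [Finset.sum_sub_distrib, sub_div, infAvg, finsum_eq_sum_of_fintype, Finset.sum_const,
      Finset.card_univ, nsmul_eq_mul]
    congr 1
    simp only [hQdef]
    rw [Nat.card_eq_fintype_card, pow_succ (p : ℝ) d, mul_div_mul_right _ _ hp0.ne']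
  have h1 := key.add hQ
  rw [zero_add] at h1
  refine h1.congr' 0 fun p _ _ => ?_
  ring

/-- the number of the square roots -/
private theorem ic_sqrt {R : Type} [CommRing R] (u : R) {p : ℕ} [Fact p.Prime] (hp2 : p ≠ 2)
    (z : R →+* ZMod p) :
    (Nat.card {s : ZMod p // ((X ^ 2 - C u : R[X]).map z).eval s = 0} : ℤ) =
      1 + quadraticChar (ZMod p) (z u) := by
  classical
  rw [← sum_sqrts hp2, Nat.card_eq_fintype_card, Fintype.card_subtype, Finset.card_filter]
  push_cast
  refine Finset.sum_congr rfl fun y _ => ?_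
  have h1 : ((X ^ 2 - C u : R[X]).map z).eval y = 0 ↔ y ^ 2 = z u := by
    rw [Polynomial.map_sub, Polynomial.map_pow, map_X, map_C, eval_sub, eval_pow, eval_X, eval_C,
      sub_eq_zero]
  simp only [h1]

/-- `a` is `u` times a square and `R[√u]` has the point count. Proof: as above with
`C r ^ 2 * a = C u * B ^ 2`; for `z N ≠ 0` (`N = r u B.leadingCoeff`) the summand differs from
`χ(z u) p` by at most `deg B`; the sum of `1 + χ(z u)` over the points `z` of `{D ≠ 0}` is the
number of the points of `{D ≠ 0}` of `Spec R[√u]`. -/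
theorem inf_const (R : Type) [CommRing R] [IsDomain R] [CharZero R] [Algebra.FiniteType ℤ R]
    (d : ℕ) (hR : LangWeilT R d) (a : R[X]) (ha : a ≠ 0) (u : R) (s : (FractionRing R)[X])
    (h : toF a = C (algebraMap R (FractionRing R) u) * s ^ 2) (hu : LangWeilT (SqrtRing u) d) :
    ∃ N : R, N ≠ 0 ∧ ∀ D : R, D ≠ 0 → N ∣ D → TauMean (fun p => infAvg a D d p) 0 := by
  classical
  obtain ⟨r, hr, B, hB⟩ := exists_clear s
  have hB0 : B ≠ 0 := by
    intro h0
    rw [h0, Polynomial.map_zero] at hB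
    have h1 : s = 0 := by
      have h2 : (C (algebraMap R (FractionRing R) r) : (FractionRing R)[X]) ≠ 0 := by
        rw [Ne, C_eq_zero, IsFractionRing.to_map_eq_zero_iff]
        exact hr
      exact (mul_eq_zero.1 hB.symm).resolve_left h2
    apply ha
    apply toF_inj
    rw [h, h1]
    simp
  have hrel : C r ^ 2 * a = C u * B ^ 2 := by
    apply toF_inj
    rw [toF, toF, Polynomial.map_mul, Polynomial.map_mul, Polynomial.map_pow, Polynomial.map_pow,
      map_C, map_C, hB]
    have h1 : a.map (algebraMap R (FractionRing R)) =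
      C (algebraMap R (FractionRing R) u) * s ^ 2 := h
    rw [h1]
    ring
  have hlc : B.leadingCoeff ≠ 0 := leadingCoeff_ne_zero.2 hB0
  refine ⟨r * B.leadingCoeff, mul_ne_zero hr hlc, fun D hD0 hdvd => ?_⟩
  have hgood : ∀ p : ℕ, p.Prime → ∀ z : R →+* ZMod p, z D ≠ 0 →
      z r ≠ 0 ∧ z B.leadingCoeff ≠ 0 := by
    intro p hp z hz
    obtain ⟨k, hk⟩ := hdvd
    rw [hk, map_mul, map_mul] at hz
    exact ⟨left_ne_zero_of_mul (left_ne_zero_of_mul hz),
      right_ne_zero_of_mul (left_ne_zero_of_mul hz)⟩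
  set Q : ℕ → ℝ := fun p => (Nat.card {z : R →+* ZMod p // z D ≠ 0} : ℝ) / (p : ℝ) ^ d with hQdef
  have hQ : TauMean Q 1 := hR D hD0
  have hfinhom : ∀ p : ℕ, p.Prime → Finite (R →+* ZMod p) := by
    intro p hp
    have : Fact p.Prime := ⟨hp⟩
    exact finite_hom R p
  -- the main term, for all `p` (also for composite `p`, where it is irrelevant)
  set T : ℕ → ℝ := fun p => (∑ᶠ z : {z : R →+* ZMod p // z D ≠ 0},
    ((Nat.card {s : ZMod p // ((X ^ 2 - C u : R[X]).map z.1).eval s = 0} : ℝ) - 1)) /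
      (p : ℝ) ^ d with hT
  have hTmean : TauMean T 0 := by
    have hne : AdjoinRoot.of (X ^ 2 - C u : R[X]) D ≠ 0 := by
      intro h0
      have h1 := uniq u (u := D) (v := 0) (by rw [map_zero, zero_mul, add_zero]; exact h0)
      exact hD0 h1.1
    have h1 := (show TauMean (fun p => (Nat.card {ζ : AdjoinRoot (X ^ 2 - C u : R[X]) →+* ZMod p //
      ζ (AdjoinRoot.of (X ^ 2 - C u : R[X]) D) ≠ 0} : ℝ) / (p : ℝ) ^ d) 1 from
        hu (AdjoinRoot.of (X ^ 2 - C u : R[X]) D) hne).sub hQ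
    rw [sub_self] at h1
    refine h1.congr' 0 fun p _ hp => ?_
    have : Fact p.Prime := ⟨hp⟩
    have := hfinhom p hp
    have := Fintype.ofFinite {z : R →+* ZMod p // z D ≠ 0}
    simp only [hT, hQdef]
    rw [card_adj R (X ^ 2 - C u : R[X]) D p, finsum_eq_sum_of_fintype, finsum_eq_sum_of_fintype,
      ← sub_div, Finset.sum_sub_distrib, Finset.sum_const, Finset.card_univ, nsmul_eq_mul,
      mul_one, Nat.card_eq_fintype_card]
    push_cast
    rfl
  have key : TauMean (fun p => infAvg a D d p - T p) 0 := by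
    refine hQ.squeeze fun ε hε => ?_
    obtain ⟨p₀, hp₀⟩ := exists_nat_gt ((B.natDegree : ℝ) / ε)
    refine ⟨max p₀ 3, fun p h2 hp => ?_⟩
    have : Fact p.Prime := ⟨hp⟩
    have := hfinhom p hp
    have := Fintype.ofFinite {z : R →+* ZMod p // z D ≠ 0}
    have hp0 : (0 : ℝ) < p := by exact_mod_cast hp.pos
    have hp3 : 3 ≤ p := le_trans (le_max_right _ _) h2
    have hdeg : (B.natDegree : ℝ) ≤ ε * p := by
      have h3 : (p₀ : ℝ) ≤ p := by exact_mod_cast le_trans (le_max_left _ _) h2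
      have h4 := (div_lt_iff₀ hε).1 hp₀
      have h5 := mul_le_mul_of_nonneg_right h3 hε.le
      linarith
    have hSz : ∀ z : {z : R →+* ZMod p // z D ≠ 0},
        |((Nat.card {P : ZMod p × ZMod p // P.2 ^ 2 = (a.map z.1).eval P.1} : ℝ) - p) -
          p * ((Nat.card {s : ZMod p // ((X ^ 2 - C u : R[X]).map z.1).eval s = 0} : ℝ) - 1)| ≤
          ε * p := by
      rintro ⟨z, hz⟩
      obtain ⟨g1, g2⟩ := hgood p hp z hz
      have h5 : B.map z ≠ 0 := by
        intro h6
        apply g2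
        have := congrArg (fun q : (ZMod p)[X] => q.coeff B.natDegree) h6
        simpa [coeff_map] using this
      have h6 := ic_count (by omega) (a.map z) (B.map z) (z r) (z u) g1 h5 (by
        have := congrArg (fun q : R[X] => q.map z) hrel
        simpa only [Polynomial.map_mul, Polynomial.map_pow, map_C] using this)
      have h7 : (Nat.card {s : ZMod p // ((X ^ 2 - C u : R[X]).map z).eval s = 0} : ℝ) - 1 =
          ((quadraticChar (ZMod p) (z u) : ℤ) : ℝ) := by
        have := ic_sqrt u (by omega : p ≠ 2) z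
        have h8 : (Nat.card {s : ZMod p // ((X ^ 2 - C u : R[X]).map z).eval s = 0} : ℝ) =
            1 + ((quadraticChar (ZMod p) (z u) : ℤ) : ℝ) := by exact_mod_cast this
        rw [h8]
        ring
      simp only
      rw [h7, mul_comm (p : ℝ)]
      refine h6.trans (le_trans ?_ hdeg)
      exact_mod_cast natDegree_map_le
    have hqp : Q p = (Fintype.card {z : R →+* ZMod p // z D ≠ 0} : ℝ) / (p : ℝ) ^ d := by
      simp only [hQdef, Nat.card_eq_fintype_card]
    have e1 : infAvg a D d p - T p = (∑ z : {z : R →+* ZMod p // z D ≠ 0},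
        (((Nat.card {P : ZMod p × ZMod p // P.2 ^ 2 = (a.map z.1).eval P.1} : ℝ) - p) -
          p * ((Nat.card {s : ZMod p // ((X ^ 2 - C u : R[X]).map z.1).eval s = 0} : ℝ) - 1))) /
            (p : ℝ) ^ (d + 1) := by
      conv_rhs => rw [Finset.sum_sub_distrib, sub_div, ← Finset.mul_sum]
      rw [infAvg, finsum_eq_sum_of_fintype]
      congr 1
      simp only [hT]
      rw [finsum_eq_sum_of_fintype, pow_succ (p : ℝ) d, mul_comm (p : ℝ),
        mul_div_mul_right _ _ hp0.ne']
    have e2 : ε * Q p = (∑ _z : {z : R →+* ZMod p // z D ≠ 0}, ε * p) / (p : ℝ) ^ (d + 1) := by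
      rw [Finset.sum_const, Finset.card_univ, hqp, nsmul_eq_mul, pow_succ]
      field_simp
    rw [e1, e2, abs_div, abs_of_pos (pow_pos hp0 (d + 1))]
    refine div_le_div_of_nonneg_right ?_ (pow_pos hp0 (d + 1)).le
    exact (Finset.abs_sum_le_sum_abs _ _).trans (Finset.sum_le_sum fun z _ => hSz z)
  have h1 := key.add hTmean
  rw [add_zero] at h1
  refine h1.congr' 0 fun p _ _ => ?_
  ring

end Pool.Agent.Lib.MP_1a0ddd_nt.Quad
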