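import Mathlib

/-! Difference of the multiplicities of two primes in an ideal of a Dedekind domain. -/

set_option autoImplicit false

namespace Pool.Agent.Lib.MP_1a0ddd_nt.Quad

open Polynomial UniqueFactorizationMonoid

variable {A : Type} [CommRing A] [IsDedekindDomain A]

/-- the multiplicity of `P` minus the multiplicity of `P'` in `I` -/
noncomputable def dl (P P' I : Ideal A) : ℤ := by
  classical
  exact ((normalizedFactors I).count P : ℤ) - (normalizedFactors I).count P'

theorem dl_mul (P P' : Ideal A) {I J : Ideal A} (hI : I ≠ ⊥) (hJ : J ≠ ⊥) :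
    dl P P' (I * J) = dl P P' I + dl P P' J := by
  unfold dl
  rw [normalizedFactors_mul hI hJ, Multiset.count_add, Multiset.count_add]
  push_cast
  ring

theorem dl_top (P P' : Ideal A) : dl P P' ⊤ = 0 := by
  unfold dl
  rw [← Ideal.one_eq_top, normalizedFactors_one, Multiset.count_zero, Multiset.count_zero]
  simp

theorem dl_pow (P P' : Ideal A) {I : Ideal A} (hI : I ≠ ⊥) (n : ℕ) :
    dl P P' (I ^ n) = n * dl P P' I := by
  induction n with
  | zero => rw [pow_zero, Ideal.one_eq_top, dl_top]; simp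
  | succ n ih =>
    rw [pow_succ, dl_mul P P' (pow_ne_zero n hI) hI, ih]
    push_cast
    ring

theorem dl_prod (P P' : Ideal A) {ι : Type} (s : Finset ι) (I : ι → Ideal A)
    (hI : ∀ i ∈ s, I i ≠ ⊥) : dl P P' (∏ i ∈ s, I i) = ∑ i ∈ s, dl P P' (I i) := by
  classical
  induction s using Finset.induction_on with
  | empty => rw [Finset.prod_empty, Finset.sum_empty, Ideal.one_eq_top, dl_top]
  | insert a s ha ih =>
    have h1 : ∏ i ∈ s, I i ≠ ⊥ := by
      have h2 : ∏ i ∈ s, I i ≠ 0 :=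
        Finset.prod_ne_zero_iff.2 fun i hi => hI i (Finset.mem_insert_of_mem hi)
      exact h2
    rw [Finset.prod_insert ha, Finset.sum_insert ha,
      dl_mul P P' (hI a (Finset.mem_insert_self a s)) h1,
      ih fun i hi => hI i (Finset.mem_insert_of_mem hi)]

private theorem nf_prime {Q : Ideal A} (hQ : Q.IsPrime) (h0 : Q ≠ ⊥) :
    normalizedFactors Q = {Q} := by
  have h1 : Irreducible Q := (Ideal.prime_of_isPrime h0 hQ).irreducible
  rw [normalizedFactors_irreducible h1, normalize_eq]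

theorem dl_self {P P' : Ideal A} (hP : P.IsPrime) (h0 : P ≠ ⊥) (h : P ≠ P') : dl P P' P = 1 := by
  unfold dl
  rw [nf_prime hP h0, Multiset.count_singleton, Multiset.count_singleton, if_pos rfl,
    if_neg (Ne.symm h)]
  simp

theorem dl_self' {P P' : Ideal A} (hP : P'.IsPrime) (h0 : P' ≠ ⊥) (h : P ≠ P') :
    dl P P' P' = -1 := by
  unfold dl
  rw [nf_prime hP h0, Multiset.count_singleton, Multiset.count_singleton, if_pos rfl,
    if_neg h]
  simp

/-- another prime -/
theorem dl_other {P P' Q : Ideal A} (hQ : Q.IsPrime) (h : Q ≠ P) (h' : Q ≠ P') :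
    dl P P' Q = 0 := by
  by_cases h0 : Q = ⊥
  · unfold dl
    have h1 : normalizedFactors Q = 0 := by
      rw [h0]
      exact normalizedFactors_zero
    rw [h1, Multiset.count_zero, Multiset.count_zero]
    simp
  · unfold dl
    rw [nf_prime hQ h0, Multiset.count_singleton, Multiset.count_singleton,
      if_neg (Ne.symm h), if_neg (Ne.symm h')]
    simp

private theorem count_of_not_le {P I : Ideal A} (h : ¬ I ≤ P) : by
    classical exact (normalizedFactors I).count P = 0 := by
  classical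
  rw [Multiset.count_eq_zero]
  intro hm
  exact h (Ideal.le_of_dvd (dvd_of_mem_normalizedFactors hm))

/-- an ideal which is not contained in the two primes -/
theorem dl_of_not_le {P P' I : Ideal A} (h : ¬ I ≤ P) (h' : ¬ I ≤ P') : dl P P' I = 0 := by
  unfold dl
  have h1 := count_of_not_le h
  have h2 := count_of_not_le h'
  rw [h1, h2]
  simp

/-- elements of the base `L[x]` have the same order at the two primes over `π`. Proof:
`w = π ^ n * w₁` with `π` not dividing `w₁` (`WfDvdMonoid.max_power_factor`), then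
`(f w) = (P P') ^ n (f w₁)` and `f w₁` is in none of the two primes. -/
theorem dl_base {L : Type} [Field L] (f : L[X] →+* A) (hf : Function.Injective f) {π : L[X]}
    (hπ : Irreducible π) {P P' : Ideal A} (hP : P.IsPrime) (hP' : P'.IsPrime) (hne : P ≠ P')
    (hmul : P * P' = Ideal.span {f π}) (h : ∀ w : L[X], f w ∈ P → π ∣ w)
    (h' : ∀ w : L[X], f w ∈ P' → π ∣ w) {w : L[X]} (hw : w ≠ 0) :
    dl P P' (Ideal.span {f w}) = 0 := by
  obtain ⟨n, w₁, hw₁, hwe⟩ := WfDvdMonoid.max_power_factor hw hπ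
  have hfπ : f π ≠ 0 := by
    rw [Ne, ← map_zero f]
    intro hc
    exact hπ.ne_zero (hf hc)
  have hPP : P * P' ≠ ⊥ := by
    rw [hmul, Ne, Ideal.span_singleton_eq_bot]
    exact hfπ
  have hP0 : P ≠ ⊥ := by
    rintro rfl
    exact hPP (Ideal.bot_mul P')
  have hP0' : P' ≠ ⊥ := by
    rintro rfl
    exact hPP (Ideal.mul_bot P)
  have hw₁0 : w₁ ≠ 0 := by
    rintro rfl
    exact hw₁ (dvd_zero π)
  have hfw₁ : Ideal.span {f w₁} ≠ ⊥ := by
    rw [Ne, Ideal.span_singleton_eq_bot, ← map_zero f]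
    intro hc
    exact hw₁0 (hf hc)
  have h1 : Ideal.span {f w} = (P * P') ^ n * Ideal.span {f w₁} := by
    rw [hmul, Ideal.span_singleton_pow, Ideal.span_singleton_mul_span_singleton, hwe, map_mul,
      map_pow]
  rw [h1, dl_mul P P' (pow_ne_zero n hPP) hfw₁, dl_pow P P' hPP, dl_mul P P' hP0 hP0',
    dl_self hP hP0 hne, dl_self' hP' hP0' hne, dl_of_not_le]
  · ring
  · intro hc
    exact hw₁ (h w₁ (hc (Ideal.mem_span_singleton_self _)))
  · intro hc
    exact hw₁ (h' w₁ (hc (Ideal.mem_span_singleton_self _)))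

omit [IsDedekindDomain A] in
private theorem prod_single {ι : Type} [Fintype ι] [DecidableEq ι] (P : ι → Ideal A) (i : ι)
    (m : ι → ℕ) : ∏ j, P j ^ (m j + Pi.single (M := fun _ => ℕ) i 2 j) =
      (∏ j, P j ^ m j) * P i ^ 2 := by
  simp only [pow_add]
  rw [Finset.prod_mul_distrib]
  congr 1
  rw [Finset.prod_eq_single i]
  · rw [Pi.single_eq_same]
  · intro j _ hj
    rw [Pi.single_eq_of_ne hj, pow_zero]
  · intro hc
    exact absurd (Finset.mem_univ i) hc

omit [IsDedekindDomain A] in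
private theorem sq_form_aux {L : Type} [Field L] (f : L[X] →+* A) {ι : Type} [Fintype ι]
    (P P' : ι → Ideal A) (w : L[X])
    (hQ : ∀ Q : Ideal A, Q.IsPrime → f w ∈ Q → (∃ i, Q = P i ∨ Q = P' i) ∨
      (∃ w' : L[X], w' ≠ 0 ∧ Q = Ideal.span {f w'}) ∨
      (∃ w' : L[X], w' ≠ 0 ∧ Q * Q = Ideal.span {f w'}))
    (s : Multiset (Ideal A)) (hs : ∀ Q ∈ s, Q.IsPrime ∧ f w ∈ Q) :
    ∃ (w' : L[X]) (n n' : ι → ℕ), w' ≠ 0 ∧
      s.prod ^ 2 = Ideal.span {f w'} * ∏ i, (P i ^ n i * P' i ^ n' i) := by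
  classical
  induction s using Multiset.induction_on with
  | empty =>
    refine ⟨1, 0, 0, one_ne_zero, ?_⟩
    rw [Multiset.prod_zero, map_one, Ideal.span_singleton_one]
    simp only [Pi.zero_apply, pow_zero, mul_one, Finset.prod_const_one, one_pow]
    exact Ideal.one_eq_top
  | cons Q s ih =>
    obtain ⟨w', n, n', hw', hp⟩ := ih fun R hR => hs R (Multiset.mem_cons_of_mem hR)
    obtain ⟨hQp, hQw⟩ := hs Q (Multiset.mem_cons_self Q s)
    rw [Multiset.prod_cons, mul_pow, hp]
    rcases hQ Q hQp hQw with ⟨i, rfl | rfl⟩ | ⟨v, hv, rfl⟩ | ⟨v, hv, hQQ⟩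
    · refine ⟨w', n + Pi.single i 2, n', hw', ?_⟩
      rw [Finset.prod_mul_distrib, Finset.prod_mul_distrib]
      have h1 := prod_single P i n
      simp only [Pi.add_apply]
      rw [h1]
      ring
    · refine ⟨w', n, n' + Pi.single i 2, hw', ?_⟩
      rw [Finset.prod_mul_distrib, Finset.prod_mul_distrib]
      have h1 := prod_single P' i n'
      simp only [Pi.add_apply]
      rw [h1]
      ring
    · refine ⟨v ^ 2 * w', n, n', mul_ne_zero (pow_ne_zero 2 hv) hw', ?_⟩
      rw [map_mul, map_pow, ← Ideal.span_singleton_mul_span_singleton, ← Ideal.span_singleton_pow]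
      ring
    · refine ⟨v * w', n, n', mul_ne_zero hv hw', ?_⟩
      rw [map_mul, ← Ideal.span_singleton_mul_span_singleton, ← hQQ]
      ring

/-- the square of an ideal with known prime divisors. Proof: induction over the prime
factorisation of `I`. -/
theorem sq_form {L : Type} [Field L] (f : L[X] →+* A) {ι : Type} [Fintype ι]
    (P P' : ι → Ideal A) (w : L[X])
    (hQ : ∀ Q : Ideal A, Q.IsPrime → f w ∈ Q → (∃ i, Q = P i ∨ Q = P' i) ∨
      (∃ w' : L[X], w' ≠ 0 ∧ Q = Ideal.span {f w'}) ∨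
      (∃ w' : L[X], w' ≠ 0 ∧ Q * Q = Ideal.span {f w'}))
    (I : Ideal A) (hI : I ≠ ⊥) (hm : f w ∈ I) :
    ∃ (w' : L[X]) (n n' : ι → ℕ), w' ≠ 0 ∧
      I ^ 2 = Ideal.span {f w'} * ∏ i, (P i ^ n i * P' i ^ n' i) := by
  have h1 := sq_form_aux f P P' w hQ (normalizedFactors I) fun Q hQm => by
    refine ⟨Ideal.isPrime_of_prime (prime_of_normalized_factor Q hQm), ?_⟩
    exact Ideal.le_of_dvd (dvd_of_mem_normalizedFactors hQm) hm
  rwa [Ideal.prod_normalizedFactors_eq_self hI] at h1

end Pool.Agent.Lib.MP_1a0ddd_nt.Quad
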