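import Pool.Agent.Lib.MP_1a0ddd_nt.Quad.Trans

/-! Primes of the curve ring which contain a nonzero element of `L[x]`. -/

set_option autoImplicit false

namespace Pool.Agent.Lib.MP_1a0ddd_nt.Quad

open Polynomial

variable {L : Type} [Field L]

/-- the ideal `(π, y - β t - γ)` -/
noncomputable def PQ (a b c π β γ : L[X]) : Ideal (CoordRing2 a b c) :=
  PI (toK L (quad a b c)) (π.map (RatFunc.C : L →+* RatFunc L)) (toK L (lin β γ))

private theorem toK_map_C (w : L[X]) :
    toK L (w.map C) = w.map (RatFunc.C : L →+* RatFunc L) := by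
  rw [coe_mapRingHom, map_map]
  congr 1

/-- proof: `toK` of `Split.dvd_quad` -/
theorem split_dvd {a b c π β γ : L[X]} (h : Split a b c π β γ) :
    π.map (RatFunc.C : L →+* RatFunc L) ∣ toK L (lin β γ) ^ 2 - toK L (quad a b c) := by
  have h1 := _root_.map_dvd (toK L) h.dvd_quad
  rw [toK_map_C, map_sub, map_pow] at h1
  exact h1

/-! ### reduction modulo `π` -/

section red

variable (π : L[X])

/-- the coefficients modulo `π`, the variable `t` kept -/
private noncomputable def thX : L[X][X] →+* (AdjoinRoot π)[X] :=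
  eval₂RingHom (mapRingHom (AdjoinRoot.of π)) (C (AdjoinRoot.root π))

private theorem thX_C (q : L[X]) : thX π (C q) = q.map (AdjoinRoot.of π) := by
  rw [thX, coe_eval₂RingHom, eval₂_C, coe_mapRingHom]

private theorem thX_X : thX π X = C (AdjoinRoot.root π) := by
  rw [thX, coe_eval₂RingHom, eval₂_X]

private theorem thX_map_C (w : L[X]) : thX π (w.map C) = C (AdjoinRoot.mk π w) := by
  have h : (thX π).comp (mapRingHom C) = (C : AdjoinRoot π →+* _).comp (AdjoinRoot.mk π) := by
    apply ringHom_ext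
    · intro r
      rw [RingHom.comp_apply, coe_mapRingHom, map_C, thX_C, map_C, RingHom.comp_apply,
        AdjoinRoot.mk_C]
    · rw [RingHom.comp_apply, coe_mapRingHom, map_X, thX_X, RingHom.comp_apply, AdjoinRoot.mk_X]
  exact congrArg (fun g => g w) h

private theorem thX_lin (β γ : L[X]) :
    thX π (lin β γ) = C (AdjoinRoot.mk π β) * X + C (AdjoinRoot.mk π γ) := by
  rw [lin, map_add, map_mul, thX_map_C, thX_map_C, thX_C, map_X]

private theorem thX_quad (a b c : L[X]) :
    thX π (quad a b c) = C (AdjoinRoot.mk π a) * X ^ 2 + C (2 * AdjoinRoot.mk π b) * X +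
      C (AdjoinRoot.mk π c) := by
  rw [quad, map_add, map_add, map_mul, map_mul, map_mul, map_pow, thX_map_C, thX_map_C, thX_map_C,
    thX_C, map_X, map_ofNat, C_mul, C_ofNat]

variable [Fact (Irreducible π)]

private theorem of_inj : Function.Injective (mapRingHom (AdjoinRoot.of π)) :=
  map_injective _ (AdjoinRoot.of π).injective

/-- `L(t) → F(t)` -/
private noncomputable def thR : RatFunc L →+* RatFunc (AdjoinRoot π) :=
  IsFractionRing.map (A := L[X]) (B := (AdjoinRoot π)[X]) (K := RatFunc L)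
    (L := RatFunc (AdjoinRoot π)) (of_inj π)

private theorem thR_alg (q : L[X]) : thR π (algebraMap L[X] (RatFunc L) q) =
    algebraMap (AdjoinRoot π)[X] (RatFunc (AdjoinRoot π)) (q.map (AdjoinRoot.of π)) := by
  exact IsLocalization.map_eq (M := nonZeroDivisors L[X])
    (T := nonZeroDivisors (AdjoinRoot π)[X]) (S := RatFunc L) (Q := RatFunc (AdjoinRoot π))
    (nonZeroDivisors_le_comap_nonZeroDivisors_of_injective _ (of_inj π)) q

/-- `L(t)[x] → F(t)` -/
private noncomputable def thK : (RatFunc L)[X] →+* RatFunc (AdjoinRoot π) :=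
  eval₂RingHom (thR π)
    (algebraMap (AdjoinRoot π)[X] (RatFunc (AdjoinRoot π)) (C (AdjoinRoot.root π)))

private theorem thK_toK (u : L[X][X]) : thK π (toK L u) =
    algebraMap (AdjoinRoot π)[X] (RatFunc (AdjoinRoot π)) (thX π u) := by
  have h : (thK π).comp (toK L) =
      (algebraMap (AdjoinRoot π)[X] (RatFunc (AdjoinRoot π))).comp (thX π) := by
    apply ringHom_ext
    · intro r
      rw [RingHom.comp_apply, coe_mapRingHom, map_C, RingHom.comp_apply, thX_C, thK,
        coe_eval₂RingHom, eval₂_C, thR_alg]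
    · rw [RingHom.comp_apply, coe_mapRingHom, map_X, RingHom.comp_apply, thX_X, thK,
        coe_eval₂RingHom, eval₂_X]
  exact congrArg (fun g => g u) h

private theorem alg_inj : Function.Injective
    (algebraMap (AdjoinRoot π)[X] (RatFunc (AdjoinRoot π))) :=
  IsFractionRing.injective _ _

private theorem thK_zero (u : (RatFunc L)[X]) :
    thK π u = 0 ↔ π.map (RatFunc.C : L →+* RatFunc L) ∣ u := by
  have h1 : thK π (π.map (RatFunc.C : L →+* RatFunc L)) = 0 := by
    rw [← toK_map_C, thK_toK, thX_map_C, AdjoinRoot.mk_self, C_0, map_zero]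
  constructor
  · intro h
    by_contra hd
    have hirr := map_irreducible2 (Fact.out : Irreducible π)
    obtain ⟨r, s, e⟩ := (hirr.coprime_iff_not_dvd).2 hd
    have h2 := congrArg (thK π) e
    rw [map_add, map_mul, map_mul, h1, h, mul_zero, mul_zero, add_zero, map_one] at h2
    exact zero_ne_one h2
  · rintro ⟨v, rfl⟩
    rw [map_mul, h1, zero_mul]

end red

/-- proof: clear denominators: `π ∣ τ² (quad) - w₀²` in `L[t][x]`, `τ ∈ L[t]` nonzero; swap the
variables and reduce modulo `π`: over the field `F = L[x]/(π)` one has `τ² P = w₀²` in `F[t]`,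
hence `τ ∣ w₀`, `P = s²` with `s` of degree at most one. -/
theorem split_of_sq [CharZero L] {a b c π : L[X]} (hπ : Irreducible π) (w : (RatFunc L)[X])
    (h : π.map (RatFunc.C : L →+* RatFunc L) ∣ w ^ 2 - toK L (quad a b c)) :
    ∃ β γ : L[X], Split a b c π β γ ∧
      (π.map (RatFunc.C : L →+* RatFunc L) ∣ w - toK L (lin β γ)) := by
  have hfact : Fact (Irreducible π) := ⟨hπ⟩
  rw [← thK_zero, map_sub, map_pow, thK_toK, sub_eq_zero] at h
  obtain ⟨s, hs⟩ := IsIntegrallyClosed.exists_algebraMap_eq_of_isIntegral_pow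
    (R := (AdjoinRoot π)[X]) (K := RatFunc (AdjoinRoot π)) (x := thK π w) two_pos
    (by rw [h]; exact isIntegral_algebraMap)
  rw [← hs, ← map_pow] at h
  have hsq := alg_inj π h
  rw [thX_quad] at hsq
  have hdeg : s.natDegree ≤ 1 := by
    have h1 : (s ^ 2).natDegree = 2 * s.natDegree := natDegree_pow s 2
    have h2 : (s ^ 2).natDegree ≤ 2 := by
      rw [hsq]
      compute_degree
    omega
  obtain ⟨p, q, hpq⟩ := exists_eq_X_add_C_of_natDegree_le_one hdeg
  obtain ⟨β, rfl⟩ := AdjoinRoot.mk_surjective p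
  obtain ⟨γ, rfl⟩ := AdjoinRoot.mk_surjective q
  have e : s ^ 2 = C (AdjoinRoot.mk π β ^ 2) * X ^ 2 +
      C (2 * AdjoinRoot.mk π β * AdjoinRoot.mk π γ) * X + C (AdjoinRoot.mk π γ ^ 2) := by
    rw [hpq]
    simp only [C_mul, C_pow, C_ofNat]
    ring
  rw [e] at hsq
  have c0 := congrArg (fun q => q.coeff 0) hsq
  have c1 := congrArg (fun q => q.coeff 1) hsq
  have c2 := congrArg (fun q => q.coeff 2) hsq
  simp only [coeff_add, coeff_C_mul, coeff_X_pow, coeff_X, coeff_C] at c0 c1 c2
  norm_num at c0 c1 c2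
  have h2 : (2 : AdjoinRoot π) ≠ 0 := by
    have h3 : (2 : AdjoinRoot π) = AdjoinRoot.of π 2 := by rw [map_ofNat]
    rw [h3, Ne, map_eq_zero_iff _ (AdjoinRoot.of π).injective]
    exact two_ne_zero
  refine ⟨β, γ, ⟨?_, ?_, ?_⟩, ?_⟩
  · rw [← AdjoinRoot.mk_eq_zero, map_sub, map_pow, c2, sub_self]
  · rw [← AdjoinRoot.mk_eq_zero, map_sub, map_mul]
    apply mul_left_cancel₀ h2
    linear_combination -c1
  · rw [← AdjoinRoot.mk_eq_zero, map_sub, map_pow, c0, sub_self]
  · rw [← thK_zero, map_sub, thK_toK, thX_lin, ← hs, hpq, sub_self]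

theorem PQ_isMaximal {a b c π β γ : L[X]} (hπ : Irreducible π) (h : Split a b c π β γ) :
    (PQ a b c π β γ).IsMaximal := by
  exact PI_isMaximal (map_irreducible2 hπ) (split_dvd h)

private theorem PQ_em {a b c π β γ : L[X]} (h : Split a b c π β γ) (u : (RatFunc L)[X])
    (hu : em (toK L (quad a b c)) u ∈ PQ a b c π β γ) :
    π.map (RatFunc.C : L →+* RatFunc L) ∣ u := by
  have h1 := (mem_PI (toK L (quad a b c)) (split_dvd h) u 0).1 (by
    rw [map_zero, zero_mul, add_zero]
    exact hu)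
  rwa [zero_mul, add_zero] at h1

theorem PQ_inter {a b c π β γ : L[X]} (hπ : Irreducible π) (h : Split a b c π β γ) (w : L[X])
    (hw : ex a b c w ∈ PQ a b c π β γ) : π ∣ w := by
  have h1 := PQ_em h (w.map (RatFunc.C : L →+* RatFunc L)) hw
  exact (map_dvd_map' _).1 h1

private theorem lin_neg (β γ : L[X]) : lin (-β) (-γ) = -lin β γ := by
  rw [lin, lin, Polynomial.map_neg, Polynomial.map_neg]
  ring

private theorem two_unit [CharZero L] : IsUnit (2 : (RatFunc L)[X]) := by
  have h3 : (2 : (RatFunc L)[X]) = C (RatFunc.C (2 : L)) := by rw [map_ofNat, C_ofNat]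
  rw [h3, isUnit_C]
  apply isUnit_iff_ne_zero.2
  rw [Ne, map_eq_zero_iff _ (RatFunc.C : L →+* RatFunc L).injective]
  exact two_ne_zero

theorem PQ_mul [CharZero L] {a b c π β γ : L[X]} (hG : Base2 a b c) (h : Split a b c π β γ) :
    PQ a b c π β γ * PQ a b c π (-β) (-γ) = Ideal.span {ex a b c π} := by
  have h1 := PI_mul_neg two_unit (toK_squarefree hG) (split_dvd h)
  rw [PQ, PQ, lin_neg, map_neg]
  exact h1

theorem PQ_ne [CharZero L] {a b c π β γ : L[X]} (hn : ¬ (π ∣ β ∧ π ∣ γ)) (hπ : Irreducible π)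
    (_h : Split a b c π β γ) : PQ a b c π β γ ≠ PQ a b c π (-β) (-γ) := by
  intro h1
  have hfact : Fact (Irreducible π) := ⟨hπ⟩
  have e2 : yy (toK L (quad a b c)) - em (toK L (quad a b c)) (toK L (lin β γ)) ∈
      PQ a b c π β γ := Ideal.subset_span (Set.mem_insert_of_mem _ (Set.mem_singleton _))
  have e4 : yy (toK L (quad a b c)) - em (toK L (quad a b c)) (toK L (lin (-β) (-γ))) ∈
      PQ a b c π (-β) (-γ) := Ideal.subset_span (Set.mem_insert_of_mem _ (Set.mem_singleton _))
  rw [← h1] at e4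
  have h2 := Ideal.sub_mem _ e4 e2
  have h3 : yy (toK L (quad a b c)) - em (toK L (quad a b c)) (toK L (lin (-β) (-γ))) -
      (yy (toK L (quad a b c)) - em (toK L (quad a b c)) (toK L (lin β γ))) =
      em (toK L (quad a b c)) (2 * toK L (lin β γ)) := by
    rw [lin_neg, map_neg, map_neg, map_mul, map_ofNat]
    ring
  rw [h3] at h2
  have h4 := PQ_em _h _ h2
  rw [(two_unit (L := L)).dvd_mul_left, ← thK_zero, thK_toK,
    map_eq_zero_iff _ (alg_inj π), thX_lin] at h4
  apply hn
  constructor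
  · rw [← AdjoinRoot.mk_eq_zero]
    have := congrArg (fun q => q.coeff 1) h4
    simpa using this
  · rw [← AdjoinRoot.mk_eq_zero]
    have := congrArg (fun q => q.coeff 0) h4
    simpa using this

/-- two square roots modulo `π` agree up to sign -/
theorem PQ_unique {a b c π β γ β' γ' : L[X]} (hπ : Irreducible π) (h : Split a b c π β γ)
    (h' : Split a b c π β' γ') :
    PQ a b c π β' γ' = PQ a b c π β γ ∨ PQ a b c π β' γ' = PQ a b c π (-β) (-γ) := by
  have h1 := dvd_sub (split_dvd h') (split_dvd h)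
  have h2 : toK L (lin β' γ') ^ 2 - toK L (quad a b c) - (toK L (lin β γ) ^ 2 -
      toK L (quad a b c)) = (toK L (lin β' γ') - toK L (lin β γ)) *
      (toK L (lin β' γ') - toK L (lin (-β) (-γ))) := by
    rw [lin_neg, map_neg]
    ring
  rw [h2] at h1
  rcases (map_irreducible2 hπ).prime.dvd_or_dvd h1 with h3 | h3
  · exact Or.inl (PI_congr _ h3)
  · exact Or.inr (PI_congr _ h3)

/-- the primes which contain a nonzero element of `L[x]`. Proof: such a prime contains an
irreducible factor `π` of it; `primes_of_mem`, `split_of_sq`. -/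
theorem primes_over2 [CharZero L] {a b c : L[X]} (Q : Ideal (CoordRing2 a b c))
    (hQ : Q.IsPrime) (w : L[X]) (hw : w ≠ 0) (hm : ex a b c w ∈ Q) :
    ∃ π : L[X], π.Monic ∧ Irreducible π ∧ π ∣ w ∧
      ((∃ β γ : L[X], Split a b c π β γ ∧ Q = PQ a b c π β γ) ∨ Q = Ideal.span {ex a b c π}) := by
  have hcp : (Q.comap (ex a b c)).IsPrime := Ideal.IsPrime.comap (ex a b c)
  have hgm : w ∈ Q.comap (ex a b c) := hm
  obtain ⟨π, hπ, hπg, hπP⟩ : ∃ π : L[X], Irreducible π ∧ π ∣ w ∧ π ∈ Q.comap (ex a b c) := by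
    obtain ⟨s, hs, u, hu⟩ := WfDvdMonoid.exists_factors w hw
    have h1 : s.prod * (u : L[X]) ∈ Q.comap (ex a b c) := by rwa [hu]
    have h2 : s.prod ∈ Q.comap (ex a b c) := by
      rcases hcp.mem_or_mem h1 with h3 | h3
      · exact h3
      · exact absurd (Ideal.eq_top_of_isUnit_mem _ h3 u.isUnit) hcp.ne_top
    obtain ⟨π, hπs, hπP⟩ := (Ideal.IsPrime.multiset_prod_mem_iff_exists_mem hcp s).1 h2
    refine ⟨π, hs π hπs, ?_, hπP⟩
    rw [← hu]
    exact (Multiset.dvd_prod hπs).mul_right _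
  have hπ0 : π ≠ 0 := hπ.ne_zero
  have hunit : IsUnit (C π.leadingCoeff⁻¹ : L[X]) := by
    rw [isUnit_C]
    exact isUnit_iff_ne_zero.2 (inv_ne_zero (leadingCoeff_ne_zero.2 hπ0))
  have hass : Associated π (π * C π.leadingCoeff⁻¹) :=
    (associated_mul_isUnit_right_iff hunit).2 (Associated.refl π)
  have hirr : Irreducible (π * C π.leadingCoeff⁻¹) := hass.irreducible hπ
  have hdvg : π * C π.leadingCoeff⁻¹ ∣ w := hass.symm.dvd.trans hπg
  have hinP : ex a b c (π * C π.leadingCoeff⁻¹) ∈ Q := by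
    rw [map_mul]
    exact Ideal.mul_mem_right _ _ hπP
  refine ⟨π * C π.leadingCoeff⁻¹, monic_mul_leadingCoeff_inv hπ0, hirr, hdvg, ?_⟩
  rcases primes_of_mem (map_irreducible2 hirr) hQ hinP with ⟨ρ, hρ, e⟩ | ⟨-, e⟩
  · left
    obtain ⟨β, γ, hs, hd⟩ := split_of_sq hirr ρ hρ
    exact ⟨β, γ, hs, e.trans (PI_congr _ hd)⟩
  · right
    exact e

end Pool.Agent.Lib.MP_1a0ddd_nt.Quad
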