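import Pool.Agent.Lib.MP_1a0ddd_nt.Quad.Abs4
import Pool.Agent.Lib.MP_1a0ddd_nt.Quad.Ord4
import Pool.Agent.Lib.MP_1a0ddd_nt.Quad.Cls4

/-! The rank of the Picard group of a Dedekind domain over `L[x]`, abstract form. -/

set_option autoImplicit false
set_option linter.unusedSectionVars false

namespace Pool.Agent.Lib.MP_1a0ddd_nt.Quad

open Polynomial

/-- The data: a Dedekind domain `A` over `L[x]` (`f` is the map), the pairs `P i`, `P' i` of primes
over the split `π i`, the finite set `W` of ramified primes, the classification of the primes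
which contain a nonzero element of `L[x]`, and the statement on pairs of other primes. -/
structure PicDat {L : Type} [Field L] {A : Type} [CommRing A] (f : L[X] →+* A) {ι : Type}
    (P P' : ι → Ideal A) (π : ι → L[X]) (W : Set (Ideal A)) : Prop where
  inj : Function.Injective f
  prime : ∀ i, (P i).IsPrime
  prime' : ∀ i, (P' i).IsPrime
  irr : ∀ i, Irreducible (π i)
  mul : ∀ i, P i * P' i = Ideal.span {f (π i)}
  inter : ∀ i w, f w ∈ P i → π i ∣ w
  inter' : ∀ i w, f w ∈ P' i → π i ∣ w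
  ne : ∀ i, P i ≠ P' i
  dist : ∀ i j, π i ∣ π j → i = j
  fin : W.Finite
  cls : ∀ Q : Ideal A, Q.IsPrime → ∀ w : L[X], w ≠ 0 → f w ∈ Q → (∃ i, Q = P i ∨ Q = P' i) ∨
    (∃ w' : L[X], w' ≠ 0 ∧ Q = Ideal.span {f w'}) ∨
    (Q ∈ W ∧ ∃ w' : L[X], w' ≠ 0 ∧ Q * Q = Ideal.span {f w'})
  pairs : ∀ Q Q' : Ideal A, Q.IsPrime → Q'.IsPrime → Q ≠ ⊥ → Q' ≠ ⊥ →
    (∀ w : L[X], w ≠ 0 → f w ∉ Q) → (∀ w : L[X], w ≠ 0 → f w ∉ Q') →
    ∃ I : Ideal A, (I = Q ∨ I = Q' ∨ I = Q * Q') ∧
    ∃ (w : L[X]) (δ : A) (J : Ideal A), w ≠ 0 ∧ δ ≠ 0 ∧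
      Ideal.span {f w} * I = Ideal.span {δ} * J ∧ ∃ w' : L[X], w' ≠ 0 ∧ f w' ∈ J

section

variable {L : Type} [Field L] {A : Type} [CommRing A] [IsDedekindDomain A] {f : L[X] →+* A}
  {ι : Type} [Fintype ι] {P P' : ι → Ideal A} {π : ι → L[X]} {W : Set (Ideal A)}

/-- the homomorphism `ℤ^ι → Pic` -/
noncomputable def picMap (P : ι → Ideal A) : (ι → ℤ) →+ Additive (ClassGroup A) :=
  { toFun := fun n => ∑ i, n i • clg (P i)
    map_zero' := by simp
    map_add' := fun n m => by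
      rw [← Finset.sum_add_distrib]
      exact Finset.sum_congr rfl fun i _ => by rw [Pi.add_apply, add_smul] }

theorem dl_f (D : PicDat f P P' π W) (i : ι) {w : L[X]} (hw : w ≠ 0) :
    dl (P i) (P' i) (Ideal.span {f w}) = 0 :=
  dl_base f D.inj (D.irr i) (D.prime i) (D.prime' i) (D.ne i) (D.mul i) (D.inter i) (D.inter' i) hw

omit [Fintype ι] in
private theorem f_ne (D : PicDat f P P' π W) {w : L[X]} (hw : w ≠ 0) : f w ≠ 0 := by
  rw [Ne, ← map_zero f]
  intro hc
  exact hw (D.inj hc)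

omit [Fintype ι] in
private theorem pp_ne (D : PicDat f P P' π W) (i : ι) : P i * P' i ≠ ⊥ := by
  rw [D.mul i, Ne, Ideal.span_singleton_eq_bot]
  exact f_ne D (D.irr i).ne_zero

omit [Fintype ι] in
private theorem p_ne (D : PicDat f P P' π W) (i : ι) : P i ≠ ⊥ := by
  intro hc
  exact pp_ne D i (by rw [hc, Ideal.bot_mul])

omit [Fintype ι] in
private theorem p_ne' (D : PicDat f P P' π W) (i : ι) : P' i ≠ ⊥ := by
  intro hc
  exact pp_ne D i (by rw [hc, Ideal.mul_bot])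

omit [Fintype ι] in
private theorem f_mem (D : PicDat f P P' π W) (i : ι) : f (π i) ∈ P i ∧ f (π i) ∈ P' i := by
  have h1 : f (π i) ∈ Ideal.span {f (π i)} := Ideal.mem_span_singleton_self _
  rw [← D.mul i] at h1
  have h2 : P i * P' i ≤ P i := Ideal.mul_le_left
  have h3 : P i * P' i ≤ P' i := Ideal.mul_le_right
  exact ⟨h2 h1, h3 h1⟩

private theorem span_ne {a : A} (ha : a ≠ 0) : Ideal.span {a} ≠ (⊥ : Ideal A) := by
  rw [Ne, Ideal.span_singleton_eq_bot]
  exact ha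

omit [Fintype ι] in
private theorem clg_neg (D : PicDat f P P' π W) (i : ι) : clg (P' i) = -clg (P i) := by
  have h1 : clg (P i * P' i) = 0 := by
    rw [D.mul i]
    exact clg_span
  rw [clg_mul (p_ne D i) (p_ne' D i)] at h1
  exact (neg_eq_of_add_eq_zero_right h1).symm

private theorem dl_unit (Q Q' : Ideal A) {k : A} (hk : IsUnit k) :
    dl Q Q' (Ideal.span {k}) = 0 := by
  rw [Ideal.span_singleton_eq_top.2 hk]
  exact dl_top Q Q'

private theorem dl_smul (Q Q' : Ideal A) {a b : A} (ha : a ≠ 0) (hb : b ≠ 0) :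
    dl Q Q' (Ideal.span {a * b}) = dl Q Q' (Ideal.span {a}) + dl Q Q' (Ideal.span {b}) := by
  rw [← Ideal.span_singleton_mul_span_singleton, dl_mul Q Q' (span_ne ha) (span_ne hb)]

private theorem dl_spow (Q Q' : Ideal A) {a : A} (ha : a ≠ 0) (n : ℕ) :
    dl Q Q' (Ideal.span {a ^ n}) = n * dl Q Q' (Ideal.span {a}) := by
  rw [← Ideal.span_singleton_pow, dl_pow Q Q' (span_ne ha)]

omit [Fintype ι] in
/-- the orders of the products of the `P i` and `P' i` -/
private theorem dl_term (D : PicDat f P P' π W) (i j : ι) (n n' : ℕ) (hij : i ≠ j) :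
    dl (P j) (P' j) (P i ^ n * P' i ^ n') = 0 := by
  have h1 : P i ≠ P j := by
    intro hc
    exact hij (D.dist j i (D.inter j _ (hc ▸ (f_mem D i).1))).symm
  have h2 : P i ≠ P' j := by
    intro hc
    exact hij (D.dist j i (D.inter' j _ (hc ▸ (f_mem D i).1))).symm
  have h3 : P' i ≠ P j := by
    intro hc
    exact hij (D.dist j i (D.inter j _ (hc ▸ (f_mem D i).2))).symm
  have h4 : P' i ≠ P' j := by
    intro hc
    exact hij (D.dist j i (D.inter' j _ (hc ▸ (f_mem D i).2))).symm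
  rw [dl_mul _ _ (pow_ne_zero n (p_ne D i)) (pow_ne_zero n' (p_ne' D i)),
    dl_pow _ _ (p_ne D i), dl_pow _ _ (p_ne' D i), dl_other (D.prime i) h1 h2,
    dl_other (D.prime' i) h3 h4]
  ring

omit [Fintype ι] in
private theorem dl_term_self (D : PicDat f P P' π W) (j : ι) (n n' : ℕ) :
    dl (P j) (P' j) (P j ^ n * P' j ^ n') = n - n' := by
  rw [dl_mul _ _ (pow_ne_zero n (p_ne D j)) (pow_ne_zero n' (p_ne' D j)),
    dl_pow _ _ (p_ne D j), dl_pow _ _ (p_ne' D j), dl_self (D.prime j) (p_ne D j) (D.ne j),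
    dl_self' (D.prime' j) (p_ne' D j) (D.ne j)]
  ring

/-- The class group is finitely generated and `4 g` is in the range of `picMap P` for all `g`.
Proof: let `S` be the subgroup generated by the classes of the `P i` and of the ramified elements
of `W`. Every prime which contains some `f w`, `w ≠ 0`, has its class in `S`, hence `S` has index
one or two. -/
theorem pic_fg (D : PicDat f P P' π W) : Module.Finite ℤ (Additive (ClassGroup A)) ∧
    ∀ g : Additive (ClassGroup A), (4 : ℤ) • g ∈ (picMap P).range := by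
  classical
  obtain ⟨W', hW'⟩ : ∃ W' : Set (Ideal A), W' =
      {Q : Ideal A | Q ∈ W ∧ ∃ w' : L[X], w' ≠ 0 ∧ Q * Q = Ideal.span {f w'}} := ⟨_, rfl⟩
  have hWf : W'.Finite := D.fin.subset (by rw [hW']; exact fun Q hQ => hQ.1)
  obtain ⟨T, hT⟩ : ∃ T : Set (Additive (ClassGroup A)),
      T = Set.range (fun i => clg (P i)) ∪ clg '' W' := ⟨_, rfl⟩
  have hTf : T.Finite := by rw [hT]; exact (Set.finite_range _).union (hWf.image _)
  obtain ⟨S, hS⟩ : ∃ S : AddSubgroup (Additive (ClassGroup A)), S = AddSubgroup.closure T :=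
    ⟨_, rfl⟩
  have hSfg : S.FG := ⟨hTf.toFinset, by rw [Set.Finite.coe_toFinset, hS]⟩
  have hPS : ∀ i, clg (P i) ∈ S := fun i => by
    rw [hS, hT]
    exact AddSubgroup.subset_closure (Or.inl ⟨i, rfl⟩)
  have hover : ∀ (Q : Ideal A) (w : L[X]), Q.IsPrime → w ≠ 0 → f w ∈ Q → clg Q ∈ S := by
    intro Q w hQ hw hm
    rcases D.cls Q hQ w hw hm with ⟨i, h1 | h1⟩ | ⟨w', -, h1⟩ | ⟨h1, h2⟩
    · rw [h1]
      exact hPS i
    · rw [h1, clg_neg D i]
      exact S.neg_mem (hPS i)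
    · rw [h1, clg_span]
      exact S.zero_mem
    · rw [hS, hT]
      refine AddSubgroup.subset_closure (Or.inr ⟨Q, ?_, rfl⟩)
      rw [hW']
      exact ⟨h1, h2⟩
  have hpair : ∀ Q Q' : Ideal A, Q.IsPrime → Q'.IsPrime → Q ≠ ⊥ → Q' ≠ ⊥ →
      clg Q ∈ S ∨ clg Q' ∈ S ∨ clg Q + clg Q' ∈ S := by
    intro Q Q' hQ hQ' h0 h0'
    by_cases hx : ∀ w : L[X], w ≠ 0 → f w ∉ Q
    · by_cases hx' : ∀ w : L[X], w ≠ 0 → f w ∉ Q'
      · obtain ⟨I, hI, w, δ, J, hw, hδ, hIJ, w', hw', hJ⟩ := D.pairs Q Q' hQ hQ' h0 h0' hx hx'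
        have hI0 : I ≠ ⊥ := by
          rcases hI with rfl | rfl | rfl
          · exact h0
          · exact h0'
          · exact mul_ne_zero h0 h0'
        have hJ0 : J ≠ ⊥ := by
          rintro rfl
          rw [Ideal.mem_bot] at hJ
          exact f_ne D hw' hJ
        have h1 := clg_mul (span_ne (f_ne D hw)) hI0
        rw [hIJ, clg_mul (span_ne hδ) hJ0, clg_span, clg_span, zero_add, zero_add] at h1
        have h2 : clg I ∈ S := by
          rw [← h1]
          exact clg_mem S J hJ0 fun P hP _ hJP => hover P w' hP hw' (hJP hJ)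
        rcases hI with rfl | rfl | rfl
        · exact Or.inl h2
        · exact Or.inr (Or.inl h2)
        · rw [clg_mul h0 h0'] at h2
          exact Or.inr (Or.inr h2)
      · push Not at hx'
        obtain ⟨w, hw, hm⟩ := hx'
        exact Or.inr (Or.inl (hover Q' w hQ' hw hm))
    · push Not at hx
      obtain ⟨w, hw, hm⟩ := hx
      exact Or.inl (hover Q w hQ hw hm)
  have hindex := clg_index S hpair
  refine ⟨finite_of_index S hSfg hindex, fun g => ?_⟩
  have hin : ∀ i, clg (P i) ∈ (picMap P).range := by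
    intro i
    refine ⟨Pi.single i 1, ?_⟩
    have h1 : picMap P (Pi.single i 1) = ∑ j, (Pi.single i 1 : ι → ℤ) j • clg (P j) := rfl
    rw [h1, Finset.sum_eq_single i]
    · rw [Pi.single_eq_same, one_smul]
    · intro j _ hj
      rw [Pi.single_eq_of_ne hj, zero_smul]
    · intro hi
      exact absurd (Finset.mem_univ i) hi
  have h2 : ∀ s ∈ S, (2 : ℤ) • s ∈ (picMap P).range := by
    intro s hs
    rw [hS] at hs
    induction hs using AddSubgroup.closure_induction with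
    | mem x hx =>
      rw [hT] at hx
      rcases hx with ⟨i, rfl⟩ | ⟨Q, hQ, rfl⟩
      · exact (picMap P).range.zsmul_mem (hin i) 2
      · rw [hW'] at hQ
        obtain ⟨-, w', hw', h3⟩ := hQ
        have h0 : Q ≠ ⊥ := by
          rintro rfl
          rw [Ideal.bot_mul] at h3
          exact span_ne (f_ne D hw') h3.symm
        have h4 := clg_mul h0 h0
        rw [h3, clg_span] at h4
        rw [two_smul, ← h4]
        exact (picMap P).range.zero_mem
    | zero => rw [smul_zero]; exact (picMap P).range.zero_mem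
    | add x y _ _ hx hy => rw [smul_add]; exact (picMap P).range.add_mem hx hy
    | neg x _ hx => rw [smul_neg]; exact (picMap P).range.neg_mem hx
  have h3 := h2 _ (two_smul_mem_of_index S hindex g)
  rw [← mul_smul] at h3
  exact h3

/-- the orders: if `picMap P n = 0` then there are `z ≠ 0`, `m ≠ 0` with `z ∣ f m` and
`dl (P i) (P' i) (z) = n i` for all `i` -/
theorem ker_dl (D : PicDat f P P' π W) (n : ι → ℤ) (hn : picMap P n = 0) :
    ∃ (z : A) (m : L[X]), z ≠ 0 ∧ m ≠ 0 ∧ z ∣ f m ∧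
      ∀ i, dl (P i) (P' i) (Ideal.span {z}) = n i := by
  classical
  have hterm : ∀ i, P i ^ (n i).toNat * P' i ^ (-n i).toNat ≠ ⊥ := fun i =>
    mul_ne_zero (pow_ne_zero _ (p_ne D i)) (pow_ne_zero _ (p_ne' D i))
  have hprod : ∏ i, (P i ^ (n i).toNat * P' i ^ (-n i).toNat) ≠ ⊥ :=
    Finset.prod_ne_zero_iff.2 fun i _ => hterm i
  have hcl : clg (∏ i, (P i ^ (n i).toNat * P' i ^ (-n i).toNat)) = 0 := by
    rw [clg_prod _ _ (fun i _ => hterm i), ← hn]
    have h3 : picMap P n = ∑ i, n i • clg (P i) := rfl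
    rw [h3]
    refine Finset.sum_congr rfl fun i _ => ?_
    rw [clg_mul (pow_ne_zero _ (p_ne D i)) (pow_ne_zero _ (p_ne' D i)), clg_pow (p_ne D i),
      clg_pow (p_ne' D i), clg_neg D i, smul_neg, ← natCast_zsmul, ← natCast_zsmul,
      ← sub_eq_add_neg, ← sub_smul]
    congr 1
    omega
  obtain ⟨z, hz⟩ := (clg_eq_zero hprod).1 hcl
  have hz0 : z ≠ 0 := by
    rintro rfl
    exact hprod (by rw [hz, Ideal.span_singleton_eq_bot])
  refine ⟨z, ∏ i, π i ^ ((n i).toNat + (-n i).toNat), hz0,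
    Finset.prod_ne_zero_iff.2 fun i _ => pow_ne_zero _ (D.irr i).ne_zero, ?_, ?_⟩
  · rw [← Ideal.mem_span_singleton, ← hz, map_prod]
    refine Ideal.prod_mem_prod fun i _ => ?_
    rw [map_pow, pow_add]
    exact Ideal.mul_mem_mul (Ideal.pow_mem_pow (f_mem D i).1 _)
      (Ideal.pow_mem_pow (f_mem D i).2 _)
  · intro j
    rw [← hz, dl_prod _ _ _ _ (fun i _ => hterm i), Finset.sum_eq_single j
      (fun i _ hij => dl_term D i j _ _ hij)
      (fun hc => absurd (Finset.mem_univ j) hc), dl_term_self D j]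
    omega

/-- the rank, first case: divisors of elements of `L[x]` are in `L[x]` up to units -/
theorem pic_rank_a (D : PicDat f P P' π W)
    (hdiv : ∀ (m : L[X]) (z : A), m ≠ 0 → z ∣ f m →
      ∃ (k : A) (w : L[X]), IsUnit k ∧ w ≠ 0 ∧ z = k * f w) :
    Module.finrank ℤ (Additive (ClassGroup A)) = Fintype.card ι := by
  obtain ⟨hfin, h4⟩ := pic_fg D
  refine rank_inj (picMap P) h4 ((injective_iff_map_eq_zero _).2 fun n hn => ?_)
  obtain ⟨z, m, hz, hm, hzm, hdl⟩ := ker_dl D n hn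
  obtain ⟨k, w, hk, hw, hzk⟩ := hdiv m z hm hzm
  funext i
  rw [← hdl i, hzk, dl_smul _ _ hk.ne_zero (f_ne D hw), dl_unit _ _ hk, dl_f D i hw]
  simp

/-- The rank, second case. Proof: `e i = dl (P i) (P' i) (ε)`. (1) If `picMap P n = 0` then
`n = j e`: `ker_dl`, `hdiv`, `dl_mul`, `dl_pow`, `dl_f`, and
`dl (ε') = - dl (ε)` by `hd`. (2) `sq_form` for `I = (ε)` (it contains `f d`): with the exponents
`n`, `n'` one has `n i - n' i = 2 e i` (`dl_prod`, `dl_other`) and `picMap P (n - n') = 0`.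
(3) `e ≠ 0`: otherwise `n = n'` and `(ε)² = (f w)` with `w = w' ∏ π i ^ n i`, so `ε ^ 2 = k * f w`
with a unit `k`, which contradicts `hε`. Now `rank_ker`. -/
theorem pic_rank_b (D : PicDat f P P' π W) (ε ε' : A) (d : L[X]) (hd0 : d ≠ 0)
    (hd : ε * ε' = f d)
    (hdiv : ∀ (m : L[X]) (z : A), m ≠ 0 → z ∣ f m →
      ∃ (k : A) (w w' : L[X]) (i j : ℕ), IsUnit k ∧ w ≠ 0 ∧ w' ≠ 0 ∧
        f w' * z = k * f w * ε ^ i * ε' ^ j)
    (hε : ∀ (k : A) (w : L[X]), IsUnit k → ε ^ 2 ≠ k * f w) :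
    Module.finrank ℤ (Additive (ClassGroup A)) + 1 = Fintype.card ι := by
  classical
  obtain ⟨hfin, h4⟩ := pic_fg D
  have hfd : f d ≠ 0 := f_ne D hd0
  have hε0 : ε ≠ 0 := by
    rintro rfl
    rw [zero_mul] at hd
    exact hfd hd.symm
  have hε0' : ε' ≠ 0 := by
    rintro rfl
    rw [mul_zero] at hd
    exact hfd hd.symm
  obtain ⟨e, he⟩ : ∃ e : ι → ℤ, ∀ i, e i = dl (P i) (P' i) (Ideal.span {ε}) := ⟨_, fun _ => rfl⟩
  have he' : ∀ i, dl (P i) (P' i) (Ideal.span {ε'}) = -e i := by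
    intro i
    have h1 := dl_smul (P i) (P' i) hε0 hε0'
    rw [hd, dl_f D i hd0, ← he i] at h1
    linarith
  -- the square of `(ε)`
  obtain ⟨w', n, n', hw', hsq⟩ := sq_form f P P' d (fun Q hQ hQd => by
    rcases D.cls Q hQ d hd0 hQd with h1 | h1 | ⟨-, h1⟩
    · exact Or.inl h1
    · exact Or.inr (Or.inl h1)
    · exact Or.inr (Or.inr h1)) (Ideal.span {ε}) (span_ne hε0)
    (Ideal.mem_span_singleton.2 ⟨ε', hd.symm⟩)
  have hterm : ∀ i, P i ^ n i * P' i ^ n' i ≠ ⊥ := fun i =>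
    mul_ne_zero (pow_ne_zero _ (p_ne D i)) (pow_ne_zero _ (p_ne' D i))
  have hprod : ∏ i, (P i ^ n i * P' i ^ n' i) ≠ ⊥ :=
    Finset.prod_ne_zero_iff.2 fun i _ => hterm i
  have hne : ∀ j, (n j : ℤ) - n' j = 2 * e j := by
    intro j
    have h1 := congrArg (dl (P j) (P' j)) hsq
    rw [dl_pow _ _ (span_ne hε0), ← he j, dl_mul _ _ (span_ne (f_ne D hw')) hprod, dl_f D j hw',
      dl_prod _ _ _ _ (fun i _ => hterm i), Finset.sum_eq_single j
        (fun i _ hij => dl_term D i j _ _ hij)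
        (fun hc => absurd (Finset.mem_univ j) hc), dl_term_self D j] at h1
    push_cast at h1
    linarith
  have h2 : picMap P ((2 : ℤ) • e) = 0 := by
    have h1 : clg (Ideal.span {ε} ^ 2) = 0 := by
      rw [Ideal.span_singleton_pow]
      exact clg_span
    rw [hsq, clg_mul (span_ne (f_ne D hw')) hprod, clg_span, zero_add,
      clg_prod _ _ (fun i _ => hterm i)] at h1
    have h3 : picMap P ((2 : ℤ) • e) = ∑ i, ((2 : ℤ) • e) i • clg (P i) := rfl
    rw [h3, ← h1]
    refine Finset.sum_congr rfl fun i _ => ?_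
    rw [clg_mul (pow_ne_zero _ (p_ne D i)) (pow_ne_zero _ (p_ne' D i)), clg_pow (p_ne D i),
      clg_pow (p_ne' D i), clg_neg D i, Pi.smul_apply, smul_eq_mul, ← hne i, sub_smul, smul_neg,
      natCast_zsmul, natCast_zsmul, sub_eq_add_neg]
  have hk : ∀ m : ι → ℤ, picMap P m = 0 → ∃ j : ℤ, m = j • e := by
    intro m hm
    obtain ⟨z, q, hz, hq, hzq, hdl⟩ := ker_dl D m hm
    obtain ⟨k, w, w₁, i, j, hk, hw, hw₁, heq⟩ := hdiv q z hq hzq
    refine ⟨(i : ℤ) - j, ?_⟩
    funext t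
    have h1 : dl (P t) (P' t) (Ideal.span {f w₁ * z}) =
      dl (P t) (P' t) (Ideal.span {k * f w * ε ^ i * ε' ^ j}) := by rw [heq]
    rw [dl_smul _ _ (f_ne D hw₁) hz, dl_f D t hw₁, hdl t,
      dl_smul _ _ (mul_ne_zero (mul_ne_zero hk.ne_zero (f_ne D hw)) (pow_ne_zero i hε0))
        (pow_ne_zero j hε0'),
      dl_smul _ _ (mul_ne_zero hk.ne_zero (f_ne D hw)) (pow_ne_zero i hε0),
      dl_smul _ _ hk.ne_zero (f_ne D hw), dl_unit _ _ hk, dl_f D t hw, dl_spow _ _ hε0,
      dl_spow _ _ hε0', ← he t, he' t] at h1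
    rw [Pi.smul_apply, smul_eq_mul]
    linarith
  refine rank_ker (picMap P) h4 e ?_ h2 hk
  intro he0
  have hnn : ∀ i, n i = n' i := by
    intro i
    have h1 := hne i
    rw [he0, Pi.zero_apply, mul_zero, sub_eq_zero] at h1
    exact_mod_cast h1
  have h5 : ∏ i, (P i ^ n i * P' i ^ n' i) = Ideal.span {f (∏ i, π i ^ n i)} := by
    rw [map_prod, ← Ideal.prod_span_singleton]
    refine Finset.prod_congr rfl fun i _ => ?_
    rw [← hnn i, ← mul_pow, D.mul i, Ideal.span_singleton_pow, map_pow]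
  rw [h5, Ideal.span_singleton_pow, Ideal.span_singleton_mul_span_singleton, ← map_mul,
    Ideal.span_singleton_eq_span_singleton] at hsq
  obtain ⟨u, hu⟩ := hsq.symm
  exact hε u _ u.isUnit (by rw [← hu, mul_comm])

end

end Pool.Agent.Lib.MP_1a0ddd_nt.Quad
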