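import Mathlib

/-! Families `y² = a(x) t² + 2 b(x) t + c(x)`: basic definitions (no proofs).

`R[X][X]` is `R[t][x]`: the outer variable is `x`, the inner variable is `t`; for `w ∈ R[X]` the
polynomial `w.map C` is `w(x)` and `C q` is `q(t)`. -/

set_option autoImplicit false

namespace Pool.Agent.Lib.MP_1a0ddd_nt.Quad

open Polynomial

/-- the polynomial `a(x) t² + 2 b(x) t + c(x)` in `R[t][x]` -/
noncomputable def quad {R : Type} [CommRing R] (a b c : R[X]) : R[X][X] :=
  a.map C * C X ^ 2 + 2 * b.map C * C X + c.map C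

/-- a polynomial of `L[t][x]` over the field `L(t)` -/
noncomputable def overLt (L : Type) [Field L] (F : L[X][X]) : (RatFunc L)[X] :=
  F.map (algebraMap L[X] (RatFunc L))

/-- the coordinate ring `K[x, y]/(y² - F(x))` of an affine curve over a field `K` -/
def CurveRing {K : Type} [Field K] (F : K[X]) : Type := AdjoinRoot (X ^ 2 - C F : K[X][X])

noncomputable instance {K : Type} [Field K] (F : K[X]) : CommRing (CurveRing F) :=
  AdjoinRoot.instCommRing _

/-- the constants of the coordinate ring -/
noncomputable def curveConst {K : Type} [Field K] (F : K[X]) : K →+* CurveRing F :=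
  (AdjoinRoot.of (X ^ 2 - C F : K[X][X])).comp C

/-- `π` is a common factor of `a`, `b`, `c` -/
def Common {R : Type} [CommRing R] (a b c π : R[X]) : Prop := π ∣ a ∧ π ∣ b ∧ π ∣ c

/-- `a t² + 2 b t + c = (β t + γ)²` modulo `π` -/
def Split {L : Type} [Field L] (a b c π β γ : L[X]) : Prop :=
  π ∣ a - β ^ 2 ∧ π ∣ b - β * γ ∧ π ∣ c - γ ^ 2

/-- the monic irreducible polynomials `π ∈ L[x]`, not a common factor of `a`, `b`, `c`, modulo
which `a t² + 2 b t + c` is the square of a linear polynomial in `t` -/
def splitSet {L : Type} [Field L] (a b c : L[X]) : Set L[X] :=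
  {π : L[X] | π.Monic ∧ Irreducible π ∧ ¬ Common a b c π ∧ ∃ β γ : L[X], Split a b c π β γ}

/-- the polynomial over the fraction field -/
noncomputable abbrev toF {R : Type} [CommRing R] (f : R[X]) : (FractionRing R)[X] :=
  f.map (algebraMap R (FractionRing R))

end Pool.Agent.Lib.MP_1a0ddd_nt.Quad
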