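import Pool.Agent.Lib.MP_1a0ddd_nt.Quad.TMean
import Pool.Agent.Lib.MP_1a0ddd_nt.Quad.QFld

/-! Averages of traces, affine form (no proofs). -/

set_option autoImplicit false

namespace Pool.Agent.Lib.MP_1a0ddd_nt.Quad

open Polynomial Filter Topology

/-- trace of Frobenius of the fibre of the curve `y² = F(x)` over the point `y : B → F_p` of
`Spec B`: `p + 1` minus the number of points, one of them at infinity -/
noncomputable def fibreTrace {B : Type} [CommRing B] (F : B[X]) (p : ℕ) (y : B →+* ZMod p) : ℤ :=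
  (p : ℤ) - Nat.card {P : ZMod p × ZMod p // P.2 ^ 2 = (F.map y).eval P.1}

/-- the sum of the traces over the `F_p`-points of the open subset `D ≠ 0` of `Spec B`, divided by
`p^m` -/
noncomputable def traceAvg {B : Type} [CommRing B] (F : B[X]) (D : B) (m p : ℕ) : ℝ :=
  (∑ᶠ y : {y : B →+* ZMod p // y D ≠ 0}, (fibreTrace F p y.1 : ℝ)) / (p : ℝ) ^ m

end Pool.Agent.Lib.MP_1a0ddd_nt.Quad
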